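import Mathlib
import Pool.Agent.Y16.YM.Lead3

/-!
# Moments of all orders
-/

open MeasureTheory Matrix Filter
open scoped Matrix.Norms.Frobenius Topology
open Pool.Agent.H906R3.YM Pool.Agent.W793.YM Pool.Agent.TH940.YM
open Pool.Agent.W793.SCH (haf Near pk gK DD mx el TK S_B1 S_B2 S_TR S_W1 S_HAF green plaq_moment2)

namespace Pool.Agent.Y16.YM

set_option linter.unusedSectionVars false
set_option linter.unusedVariables false

noncomputable section

variable {G : Type} [Group G] [TopologicalSpace G] [IsTopologicalGroup G] [CompactSpace G]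
  [SecondCountableTopology G] [MeasurableSpace G] [BorelSpace G] (μ : Measure G)
  [IsProbabilityMeasure μ] [μ.IsMulLeftInvariant] [μ.IsMulRightInvariant] [μ.IsInvInvariant]
  {N n : ℕ} {L : LD G N n} {d : ℕ}

/-- a product of components in the corner frame -/
def Pk (L : LD G N n) (κ₀ : ℕ) (z : ℝ × ℕ) {k : ℕ} (x : Fin k → Zp d) (p : Fin k → Fin d × Fin d)
    (c : Fin k → Fin n) (U : Ed d (2 * (z.2 + 1)) → G) : ℝ :=
  ∏ u, z.1 ^ 2 * cc L (c u) (Gc U (zt _ (bs d κ₀ z.1 + x u)) (p u).1 (p u).2)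

lemma Pk_cont (κ₀ : ℕ) (z : ℝ × ℕ) {k : ℕ} (x : Fin k → Zp d) (p : Fin k → Fin d × Fin d)
    (c : Fin k → Fin n) :
    Continuous fun U : Ed d (2 * (z.2 + 1)) → G => Pk L κ₀ z x p c U :=
  continuous_finsetProd _ fun u _ => continuous_const.mul ((cc_cont _).comp (Gc_cont _ _ _))

lemma kL (hd : 3 ≤ d) (hB : S_B2) (hT : S_TR) (hW : S_W1) (hH : S_HAF) (k : ℕ) :
    ∃ (κ₀ : ℕ) (C B : ℝ), 1 ≤ κ₀ ∧ 0 < C ∧ 0 < B ∧ ∀ R : ℕ, ∀ᶠ z in FB,
      ∀ x : Fin k → Zp d, (∀ u i, |x u i| ≤ R) → ∀ p : Fin k → Fin d × Fin d,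
      (∀ u, (p u).1 ≠ (p u).2) → ∀ (c : Fin k → Fin n),
        |EX μ L (z.1 ^ 4) (Pk L κ₀ z x p c) -
          haf (AC (green d) (fun _ => []) p x c) (List.finRange k)| ≤ C / aof (ex d κ₀) z.1 ∧
        |haf (AC (green d) (fun _ => []) p x c) (List.finRange k)| ≤ B := by
  obtain ⟨κ₀, C, CT, hκ, hC, hCT, hg, h⟩ := mom_cov μ (L := L) hd hB hT hW hH
    (ι := Fin k) (fun _ => ([] : List (Fin d))) 1
  obtain ⟨hhaf, -⟩ := hH
  have hJ0 := cJ_nonneg (fun _ : Fin k => ([] : List (Fin d)))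
  obtain ⟨B₁, hB₁⟩ : ∃ B₁, B₁ = 1 + cJ (fun _ : Fin k => ([] : List (Fin d))) * CT := ⟨_, rfl⟩
  have hB0 : 0 ≤ cJ (fun _ : Fin k => ([] : List (Fin d))) * CT := by positivity
  have hB1 : 1 ≤ B₁ := by rw [hB₁]; linarith
  refine ⟨κ₀, C, k.factorial * B₁ ^ k, hκ, hC, by positivity, fun R => ?_⟩
  filter_upwards [params (d := d) hκ R] with z hz x hx p hp c
  obtain ⟨hz1, h12, hR, hab, hba, hm⟩ := hz
  have hK := Kb_ge (d := d) hκ z.1 h12
  have hl := List.nodup_finRange k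
  constructor
  · have h1 := h (aof (ex d κ₀) z.1) (by omega) (fun _ => by simp) z.1 hab hba (z.2 + 1) (by
      unfold Kb at hm; exact hm) p hp (fun u => bs d κ₀ z.1 + x u) (fun u i => by
        have h2 := hx u i
        rw [abs_le] at h2
        have h3 : ((3 * aof (ex d κ₀) z.1) ^ (4 * κ₀) : ℕ) = Kb d κ₀ z.1 := rfl
        rw [h3, Pi.add_apply]
        unfold bs
        constructor <;> omega) (fun u v i => by
        have h2 := hx u i
        have h3 := hx v i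
        rw [Pi.add_apply, Pi.add_apply, add_sub_add_left_eq_sub]
        rw [abs_le] at *
        constructor <;> omega) c (List.finRange k) hl
    rw [pow_one] at h1
    have e1 : (fun U : Ed d (2 * (z.2 + 1)) → G => ((List.finRange k).map fun u =>
        PG L z.1 (fun _ => []) p (fun u => zt _ (bs d κ₀ z.1 + x u)) c u U).prod) =
        Pk L κ₀ z x p c := by
      funext U
      unfold Pk
      rw [Fin.prod_univ_def]
      congr 1
      exact List.map_congr_left fun u _ => PG_nil _ _ _ _ _ _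
    have e2 : AC (green d) (fun _ => []) p (fun u => bs d κ₀ z.1 + x u) c =
        AC (green d) (fun _ => []) p x c := by
      funext u v
      unfold AC
      rw [add_sub_add_left_eq_sub]
    rw [e1, e2] at h1
    exact h1
  · have h1 := hhaf (Fin k) (AC (green d) (fun _ => []) p x c) B₁ (List.finRange k)
      hB1 (fun u v => (AC_le hCT.le hg _ p x c u v).trans (by
        rw [hB₁]; linarith))
    rw [List.length_finRange] at h1
    exact h1

/-- **All even moments of the plaquettes are bounded.** -/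
theorem momq (hd : 3 ≤ d) (hB : S_B2) (hT : S_TR) (hW : S_W1) (hH : S_HAF) {CT : ℝ}
    (hTg : Tg L CT) (r : ℕ) : ∃ C : ℝ, 1 ≤ C ∧ ∀ᶠ z in FB, ∀ (j i : Fin d) (y : Zp d),
      ee μ L z (fun u => bd L z.1 u j i y ^ (2 * (r + 1))) ≤ C := by
  obtain ⟨q, hq⟩ : ∃ q, q = 2 * (r + 1) := ⟨_, rfl⟩
  rw [← hq]
  obtain ⟨κ₀, C4, B, hκ, hC4, hB', h4⟩ := kL μ (L := L) hd hB hT hW hH q
  obtain ⟨C8, hC8, h8⟩ := mom_hi μ (L := L) (d := d) (2 * r + 1)
  have hCT := hTg.1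
  have hB0 := hB'.le
  refine ⟨1 + 2 ^ q * (n ^ q * (n * (C4 + B)) + CT ^ q * C8), by
    have : (0:ℝ) ≤ 2 ^ q * (n ^ q * (n * (C4 + B)) + CT ^ q * C8) := by positivity
    linarith, ?_⟩
  filter_upwards [h4 0, FB_two, params (d := d) hκ 0] with z h4 hz2 hz j i y
  obtain ⟨hz1, h12, -, hab, hba, hm⟩ := hz
  by_cases hij : j = i
  · subst hij
    simp only [bd_self]
    rw [zero_pow (by omega), ee_const]
    have : (0:ℝ) ≤ 2 ^ q * (n ^ q * (n * (C4 + B)) + CT ^ q * C8) := by positivity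
    linarith
  have hz0 : 0 < z.1 := by linarith
  have hc4 : ∀ c : Fin n, EX μ L (z.1 ^ 4) (fun U : Ed d (2 * (z.2 + 1)) → G =>
      (z.1 ^ 2 * cc L c (Gc U (zt _ (bs d κ₀ z.1)) j i)) ^ q) ≤ C4 + B := by
    intro c
    obtain ⟨h5, h6⟩ := h4 (fun _ => 0) (fun _ _ => by simp) (fun _ => (j, i)) (fun _ => hij)
      (fun _ => c)
    have e1 : (fun U : Ed d (2 * (z.2 + 1)) → G =>
        (z.1 ^ 2 * cc L c (Gc U (zt _ (bs d κ₀ z.1)) j i)) ^ q) =
        Pk L κ₀ z (fun _ : Fin q => 0) (fun _ => (j, i)) (fun _ => c) := by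
      funext U
      unfold Pk
      simp only [add_zero, Finset.prod_const, Finset.card_univ, Fintype.card_fin]
    rw [e1]
    have h7 : C4 / (aof (ex d κ₀) z.1 : ℝ) ≤ C4 := by
      refine div_le_self hC4.le ?_
      have : 1 ≤ aof (ex d κ₀) z.1 := by omega
      exact_mod_cast this
    rw [abs_le] at h5 h6
    linarith [h5.2, h6.2]
  have e2 := ee_base μ (L := L) κ₀ z j i y (fun t => t ^ q)
  have e3 := ee_base μ (L := L) κ₀ z j i y (fun t => t ^ (2 * q))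
  have h9 := h8 z hz2.1 hz2.2 j i y
  have e4 : 2 * (2 * r + 1 + 1) = 2 * q := by omega
  rw [e4, e3] at h9
  rw [e2]
  have cG : Continuous fun U : Ed d (2 * (z.2 + 1)) → G => Gc U (zt _ (bs d κ₀ z.1)) j i :=
    Gc_cont _ _ _
  have cdv : Continuous fun U : Ed d (2 * (z.2 + 1)) → G =>
      z.1 ^ 2 * dv L (Gc U (zt _ (bs d κ₀ z.1)) j i) := continuous_const.mul (dv_cont.comp cG)
  have ccc : ∀ c, Continuous fun U : Ed d (2 * (z.2 + 1)) → G =>
      z.1 ^ 2 * cc L c (Gc U (zt _ (bs d κ₀ z.1)) j i) := fun c =>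
    continuous_const.mul ((cc_cont c).comp cG)
  have hev : Even q := ⟨r + 1, by omega⟩
  have key : ∀ U : Ed d (2 * (z.2 + 1)) → G,
      (z.1 ^ 2 * dv L (Gc U (zt _ (bs d κ₀ z.1)) j i)) ^ q ≤
        2 ^ q * (n ^ q * (∑ c, (z.1 ^ 2 * cc L c (Gc U (zt _ (bs d κ₀ z.1)) j i)) ^ q) +
          CT ^ q / z.1 ^ (2 * q) * (z.1 ^ 2 * dv L (Gc U (zt _ (bs d κ₀ z.1)) j i)) ^ (2 * q)) := by
    intro U
    obtain ⟨g, hg⟩ : ∃ g, g = Gc U (zt _ (bs d κ₀ z.1)) j i := ⟨_, rfl⟩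
    rw [← hg]
    have k1 := dv_le_cc hTg g
    have k0 := dv_nonneg (L := L) g
    obtain ⟨A, hA⟩ : ∃ A, A = ∑ c, |z.1 ^ 2 * cc L c g| := ⟨_, rfl⟩
    obtain ⟨D, hD⟩ : ∃ D, D = z.1 ^ 2 * (CT * dv L g ^ 2) := ⟨_, rfl⟩
    have hA0 : 0 ≤ A := by rw [hA]; positivity
    have hD0 : 0 ≤ D := by rw [hD]; positivity
    have k2 : z.1 ^ 2 * dv L g ≤ A + D := by
      have : A = z.1 ^ 2 * ∑ c, |cc L c g| := by
        rw [hA, Finset.mul_sum]
        refine Finset.sum_congr rfl fun c _ => ?_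
        rw [abs_mul, abs_of_nonneg (sq_nonneg z.1)]
      rw [this, hD, ← mul_add]
      exact mul_le_mul_of_nonneg_left k1 (sq_nonneg _)
    have k3 : (z.1 ^ 2 * dv L g) ^ q ≤ (A + D) ^ q := pow_le_pow_left₀ (by positivity) k2 q
    have k4 : (A + D) ^ q ≤ 2 ^ q * (A ^ q + D ^ q) := by
      refine (add_pow_le hA0 hD0 q).trans ?_
      refine mul_le_mul_of_nonneg_right ?_ (by positivity)
      exact pow_le_pow_right₀ (by norm_num) (Nat.sub_le _ _)
    have k5 : A ^ q ≤ n ^ q * ∑ c, (z.1 ^ 2 * cc L c g) ^ q := by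
      rw [hA]
      obtain ⟨s, rfl⟩ : ∃ s, q = s + 1 := ⟨q - 1, by omega⟩
      have := pow_sum_le_card_mul_sum_pow (s := (Finset.univ : Finset (Fin n)))
        (f := fun c => |z.1 ^ 2 * cc L c g|) (fun c _ => abs_nonneg _) s
      simp only [Finset.card_univ, Fintype.card_fin] at this
      refine this.trans ?_
      have e5 : ∑ c, |z.1 ^ 2 * cc L c g| ^ (s + 1) = ∑ c, (z.1 ^ 2 * cc L c g) ^ (s + 1) :=
        Finset.sum_congr rfl fun c _ => hev.pow_abs _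
      rw [e5]
      have e6 : (0:ℝ) ≤ ∑ c, (z.1 ^ 2 * cc L c g) ^ (s + 1) :=
        Finset.sum_nonneg fun c _ => hev.pow_nonneg _
      rcases Nat.eq_zero_or_pos n with hn | hn
      · subst hn; simp
      · refine mul_le_mul_of_nonneg_right ?_ e6
        exact pow_le_pow_right₀ (by exact_mod_cast hn) (Nat.le_succ _)
    have k6 : D ^ q = CT ^ q / z.1 ^ (2 * q) * (z.1 ^ 2 * dv L g) ^ (2 * q) := by
      rw [hD, mul_pow, mul_pow, mul_pow, ← pow_mul, ← pow_mul, ← pow_mul]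
      have : z.1 ^ (2 * (2 * q)) = z.1 ^ (2 * q) * z.1 ^ (2 * q) := by
        rw [← pow_add]; congr 1; ring
      rw [this]
      have hne : z.1 ^ (2 * q) ≠ 0 := by positivity
      field_simp
    rw [← k6]
    have k7 := mul_le_mul_of_nonneg_left (add_le_add_left k5 (D ^ q)) (by positivity : (0:ℝ) ≤ 2 ^ q)
    linarith
  have ccq : ∀ c, Continuous fun U : Ed d (2 * (z.2 + 1)) → G =>
      (z.1 ^ 2 * cc L c (Gc U (zt _ (bs d κ₀ z.1)) j i)) ^ q := fun c => (ccc c).pow q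
  have s1 : Continuous fun U : Ed d (2 * (z.2 + 1)) → G =>
      (n:ℝ) ^ q * ∑ c, (z.1 ^ 2 * cc L c (Gc U (zt _ (bs d κ₀ z.1)) j i)) ^ q :=
    continuous_const.mul (continuous_finsetSum _ fun c _ => ccq c)
  have s2 : Continuous fun U : Ed d (2 * (z.2 + 1)) → G =>
      CT ^ q / z.1 ^ (2 * q) * (z.1 ^ 2 * dv L (Gc U (zt _ (bs d κ₀ z.1)) j i)) ^ (2 * q) :=
    continuous_const.mul (cdv.pow _)
  have s0 : Continuous fun U : Ed d (2 * (z.2 + 1)) → G =>
      2 ^ q * (n ^ q * (∑ c, (z.1 ^ 2 * cc L c (Gc U (zt _ (bs d κ₀ z.1)) j i)) ^ q) +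
          CT ^ q / z.1 ^ (2 * q) * (z.1 ^ 2 * dv L (Gc U (zt _ (bs d κ₀ z.1)) j i)) ^ (2 * q)) :=
    continuous_const.mul (s1.add s2)
  refine (EX_mono μ (L := L) (β := z.1 ^ 4) (cdv.pow q) s0 key).trans ?_
  rw [EX_smul, EX_add μ s1 s2, EX_smul, EX_smul, EX_sum μ _ fun c _ => ccq c]
  have t1 : ∑ c, EX μ L (z.1 ^ 4) (fun U : Ed d (2 * (z.2 + 1)) → G =>
      (z.1 ^ 2 * cc L c (Gc U (zt _ (bs d κ₀ z.1)) j i)) ^ q) ≤ n * (C4 + B) := by
    calc _ ≤ ∑ _c : Fin n, (C4 + B) := Finset.sum_le_sum fun c _ => hc4 c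
      _ = n * (C4 + B) := by
        rw [Finset.sum_const, Finset.card_univ, Fintype.card_fin, nsmul_eq_mul]
  have t2 : CT ^ q / z.1 ^ (2 * q) * EX μ L (z.1 ^ 4) (fun U : Ed d (2 * (z.2 + 1)) → G =>
      (z.1 ^ 2 * dv L (Gc U (zt _ (bs d κ₀ z.1)) j i)) ^ (2 * q)) ≤ CT ^ q * C8 := by
    calc _ ≤ CT ^ q / z.1 ^ (2 * q) * (C8 * z.1) := mul_le_mul_of_nonneg_left h9 (by positivity)
      _ = CT ^ q * C8 * (z.1 / z.1 ^ (2 * q)) := by ring
      _ ≤ CT ^ q * C8 * 1 := by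
        refine mul_le_mul_of_nonneg_left ?_ (by positivity)
        rw [div_le_one (by positivity)]
        calc z.1 = z.1 ^ 1 := (pow_one _).symm
          _ ≤ z.1 ^ (2 * q) := pow_le_pow_right₀ hz1 (by omega)
      _ = _ := mul_one _
  have t3 : (n:ℝ) ^ q * ∑ c, EX μ L (z.1 ^ 4) (fun U : Ed d (2 * (z.2 + 1)) → G =>
      (z.1 ^ 2 * cc L c (Gc U (zt _ (bs d κ₀ z.1)) j i)) ^ q) ≤ n ^ q * (n * (C4 + B)) :=
    mul_le_mul_of_nonneg_left t1 (by positivity)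
  have t4 := mul_le_mul_of_nonneg_left (add_le_add t3 t2) (by positivity : (0:ℝ) ≤ 2 ^ q)
  linarith

/-- all moments of the plaquettes are bounded -/
theorem momp (hd : 3 ≤ d) (hB : S_B2) (hT : S_TR) (hW : S_W1) (hH : S_HAF) {CT : ℝ}
    (hTg : Tg L CT) (r : ℕ) : ∃ C : ℝ, 1 ≤ C ∧ ∀ᶠ z in FB, ∀ (j i : Fin d) (y : Zp d),
      ee μ L z (fun u => bd L z.1 u j i y ^ r) ≤ C := by
  obtain ⟨C, hC, h⟩ := momq μ (L := L) hd hB hT hW hH hTg r
  refine ⟨1 + C, by linarith, ?_⟩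
  filter_upwards [h] with z hz j i y
  have h1 := ee_mono μ (L := L) (x := z) (F := fun u => bd L z.1 u j i y ^ r)
    (H := fun u => 1 + bd L z.1 u j i y ^ (2 * (r + 1))) ((bd_cont _ _ _ _).pow _)
    (continuous_const.add ((bd_cont _ _ _ _).pow _)) fun u => by
      have h0 := bd_nonneg (L := L) z.1 u j i y
      rcases le_total (bd L z.1 u j i y) 1 with h1 | h1
      · have := pow_le_one₀ h0 h1 (n := r)
        have h2 := pow_nonneg h0 (2 * (r + 1))
        linarith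
      · have := pow_le_pow_right₀ h1 (by omega : r ≤ 2 * (r + 1))
        linarith
  rw [ee_add μ (L := L) (x := z) (F := fun _ => (1:ℝ))
    (H := fun u => bd L z.1 u j i y ^ (2 * (r + 1))) continuous_const
    ((bd_cont _ _ _ _).pow _), ee_const] at h1
  linarith [hz j i y]

end

end Pool.Agent.Y16.YM
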