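import Mathlib
import Pool.Agent.Y16.NL.Mq
import Pool.Agent.Y16.YM.Cov

/-!
# The leading order of all products of field strengths in the comb gauge
-/

open MeasureTheory Matrix Filter
open scoped Matrix.Norms.Frobenius Topology
open Pool.Agent.H906R3.YM Pool.Agent.W793.YM Pool.Agent.TH940.YM
open Pool.Agent.W793.SCH (haf Near pk gK DD mx el TK S_B1 S_B2 S_TR S_W1 S_HAF green plaq_moment2)

namespace Pool.Agent.Y16.YM

set_option linter.unusedSectionVars false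
set_option linter.unusedVariables false
set_option maxHeartbeats 400000

noncomputable section

section ineq

variable {ι : Type*}

lemma prod_le_one_add [DecidableEq ι] (s : Finset ι) {a : ι → ℝ} (ha : ∀ i ∈ s, 0 ≤ a i) :
    ∏ i ∈ s, a i ≤ 1 + ∑ i ∈ s, a i ^ s.card := by
  by_cases h : ∀ i ∈ s, a i ≤ 1
  · have h1 : ∏ i ∈ s, a i ≤ 1 := Finset.prod_le_one ha h
    have h2 : 0 ≤ ∑ i ∈ s, a i ^ s.card := Finset.sum_nonneg fun i hi => pow_nonneg (ha i hi) _
    linarith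
  · push Not at h
    obtain ⟨i0, hi0, h1⟩ := h
    obtain ⟨m, hm, hmax⟩ := s.exists_max_image a ⟨i0, hi0⟩
    have h2 : ∏ i ∈ s, a i ≤ ∏ _i ∈ s, a m := Finset.prod_le_prod ha fun i hi => hmax i hi
    rw [Finset.prod_const] at h2
    have h3 : a m ^ s.card ≤ ∑ i ∈ s, a i ^ s.card :=
      Finset.single_le_sum (f := fun i => a i ^ s.card) (fun i hi => pow_nonneg (ha i hi) _) hm
    linarith

lemma prod_sub_le [DecidableEq ι] (s : Finset ι) {a b t : ι → ℝ} {δ : ℝ} (hδ : 0 ≤ δ)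
    (ht : ∀ i ∈ s, 0 ≤ t i) (ha : ∀ i ∈ s, |a i| ≤ t i) (hb : ∀ i ∈ s, |b i| ≤ t i)
    (hab : ∀ i ∈ s, |a i - b i| ≤ δ * t i) :
    |∏ i ∈ s, a i - ∏ i ∈ s, b i| ≤ s.card * (δ * ∏ i ∈ s, t i) := by
  induction s using Finset.induction_on with
  | empty => simp
  | insert j s hj ih =>
    have ih' := ih (fun i hi => ht i (Finset.mem_insert_of_mem hi))
      (fun i hi => ha i (Finset.mem_insert_of_mem hi))
      (fun i hi => hb i (Finset.mem_insert_of_mem hi))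
      (fun i hi => hab i (Finset.mem_insert_of_mem hi))
    rw [Finset.prod_insert hj, Finset.prod_insert hj, Finset.prod_insert hj,
      Finset.card_insert_of_notMem hj]
    have h1 := ht j (Finset.mem_insert_self _ _)
    have h2 := ha j (Finset.mem_insert_self _ _)
    have h3 := hb j (Finset.mem_insert_self _ _)
    have h4 := hab j (Finset.mem_insert_self _ _)
    have h5 : |∏ i ∈ s, b i| ≤ ∏ i ∈ s, t i := by
      rw [Finset.abs_prod]
      exact Finset.prod_le_prod (fun i _ => abs_nonneg _)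
        fun i hi => hb i (Finset.mem_insert_of_mem hi)
    have e : a j * ∏ i ∈ s, a i - b j * ∏ i ∈ s, b i =
        a j * (∏ i ∈ s, a i - ∏ i ∈ s, b i) + (a j - b j) * ∏ i ∈ s, b i := by ring
    rw [e]
    refine (abs_add_le _ _).trans ?_
    rw [abs_mul, abs_mul]
    have h6 : |a j| * |∏ i ∈ s, a i - ∏ i ∈ s, b i| ≤ t j * (s.card * (δ * ∏ i ∈ s, t i)) :=
      mul_le_mul h2 ih' (abs_nonneg _) h1
    have h7 : |a j - b j| * |∏ i ∈ s, b i| ≤ δ * t j * ∏ i ∈ s, t i :=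
      mul_le_mul h4 h5 (abs_nonneg _) (by positivity)
    push_cast
    linarith

end ineq

variable {G : Type} [Group G] [TopologicalSpace G] [IsTopologicalGroup G] [CompactSpace G]
  [SecondCountableTopology G] [MeasurableSpace G] [BorelSpace G] (μ : Measure G)
  [IsProbabilityMeasure μ] [μ.IsMulLeftInvariant] [μ.IsMulRightInvariant] [μ.IsInvInvariant]
  {N n : ℕ} {L : LD G N n} {d : ℕ}

lemma bK_momr (κ₀ r : ℕ) : ∃ C : ℝ, 0 < C ∧ ∀ z : ℝ × ℕ, 1 ≤ z.1 → 1 ≤ z.2 → ∀ (x : Zp d)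
    (p : Fin d × Fin d), EX μ L (z.1 ^ 4) (fun U : Ed d (2 * (z.2 + 1)) → G =>
      bK L κ₀ z.1 x p U ^ (2 * (r + 1))) ≤ C * z.1 := by
  obtain ⟨C, hC, h⟩ := mom_hi μ (L := L) (d := d) r
  refine ⟨C, hC, fun z hz1 hz2 x p => ?_⟩
  have h1 := h z hz1 hz2 p.1 p.2 x
  rw [ee_ub μ (κ₀ := κ₀)] at h1
  refine le_trans (le_of_eq ?_) h1
  congr 1
  funext U
  unfold bK bd ub Gc
  rw [plz_tr, dv_conj, plqT_uz, add_comm x]

/-- the error of the comparison -/
lemma frame_errk {κ₀ : ℕ} (hκ : 1 ≤ κ₀) (hd : 1 ≤ d) {k : ℕ} (x : Fin k → Zp d)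
    (p : Fin k → Fin d × Fin d) :
    Tendsto (fun z : ℝ × ℕ => ((2 * Kb d κ₀ z.1 + 2 : ℕ) : ℝ) *
      EX μ L (z.1 ^ 4) (fun U : Ed d (2 * (z.2 + 1)) → G => sB L (2 * Kb d κ₀ z.1 + 2) U *
        ∏ i, bK L κ₀ z.1 (x i) (p i) U)) FB (𝓝 0) := by
  obtain ⟨C1, hC1, h1⟩ := sB_mom μ (L := L) 0 1
  obtain ⟨C8, hC8, h8⟩ : ∃ C : ℝ, 0 < C ∧ ∀ z : ℝ × ℕ, 1 ≤ z.1 → 1 ≤ z.2 → ∀ i : Fin k,
      EX μ L (z.1 ^ 4) (fun U : Ed d (2 * (z.2 + 1)) → G =>
      bK L κ₀ z.1 (x i) (p i) U ^ (2 * k)) ≤ C * z.1 := by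
    rcases Nat.eq_zero_or_pos k with hk | hk
    · subst hk
      exact ⟨1, one_pos, fun z _ _ i => i.elim0⟩
    · obtain ⟨r, hr⟩ : ∃ r, k = r + 1 := ⟨k - 1, by omega⟩
      obtain ⟨C, hC, h⟩ := bK_momr μ (L := L) (d := d) κ₀ r
      refine ⟨C, hC, fun z h1 h2 i => ?_⟩
      have := h z h1 h2 (x i) (p i)
      rw [← hr] at this
      exact this
  obtain ⟨K1, hK1⟩ : ∃ K1 : ℝ, K1 = (C1 * (d ^ 2) ^ 2 + (1 + k * C8)) *
      (4 * 3 ^ (4 * κ₀)) ^ (d + 1) := ⟨_, rfl⟩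
  have he : 1 ≤ ex d κ₀ := by unfold ex; omega
  have hlim : Tendsto (fun z : ℝ × ℕ => K1 / (aof (ex d κ₀) z.1 : ℝ)) FB (𝓝 0) :=
    tendsto_const_nhds.div_atTop (tendsto_natCast_atTop_atTop.comp
      ((aof_tendsto he).comp FB_fst))
  have hb : ∀ z : ℝ × ℕ, ∀ v, ∀ U : Ed d (2 * (z.2 + 1)) → G, 0 ≤ bK L κ₀ z.1 (x v) (p v) U :=
    fun z v U => mul_nonneg (sq_nonneg _) (dv_nonneg _)
  refine squeeze_zero' ?_ ?_ hlim
  · filter_upwards [FB_two] with z hz
    refine mul_nonneg (Nat.cast_nonneg _) (EX_nonneg μ fun U => ?_)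
    exact mul_nonneg (sB_nonneg _ _) (Finset.prod_nonneg fun i _ => hb z i U)
  · filter_upwards [FB_two, params (d := d) hκ 0] with z hz2 hz
    obtain ⟨hz1, h12, -, hab, hba, hm⟩ := hz
    have hz0 : 0 < z.1 := by linarith
    obtain ⟨M, hM⟩ : ∃ M, M = 2 * Kb d κ₀ z.1 + 2 := ⟨_, rfl⟩
    obtain ⟨q, hq⟩ : ∃ q : ℝ, q = (M : ℝ) ^ d := ⟨_, rfl⟩
    have hM1 : (1:ℝ) ≤ M := by
      have : 1 ≤ M := by omega
      exact_mod_cast this
    have hM0 : (0:ℝ) < M := by linarith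
    have hq0 : 0 < q := by rw [hq]; positivity
    rw [← hM]
    have key : ∀ U : Ed d (2 * (z.2 + 1)) → G, sB L M U * ∏ i, bK L κ₀ z.1 (x i) (p i) U ≤
        (1 / z.1 ^ 2) * (1 / q * (z.1 ^ 2 * sB L M U) ^ (2 * (0 + 1)) +
          q * (1 + ∑ i, bK L κ₀ z.1 (x i) (p i) U ^ (2 * k))) := by
      intro U
      obtain ⟨t, ht⟩ : ∃ t, t = z.1 ^ 2 * sB L M U := ⟨_, rfl⟩
      obtain ⟨P, hP⟩ : ∃ P, P = ∏ i, bK L κ₀ z.1 (x i) (p i) U := ⟨_, rfl⟩
      rw [← ht, ← hP]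
      have e1 : sB L M U = t / z.1 ^ 2 := by rw [ht]; field_simp
      have e2 : P ^ 2 ≤ 1 + ∑ i, bK L κ₀ z.1 (x i) (p i) U ^ (2 * k) := by
        have := prod_le_one_add (Finset.univ : Finset (Fin k))
          (a := fun i => bK L κ₀ z.1 (x i) (p i) U ^ 2) (fun i _ => sq_nonneg _)
        rw [Finset.prod_pow, ← hP, Finset.card_univ, Fintype.card_fin] at this
        simp only [← pow_mul] at this
        exact this
      have e3 : t * P ≤ 1 / q * t ^ 2 + q * P ^ 2 := by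
        have h3 : 0 ≤ (t / q - P) ^ 2 := sq_nonneg _
        have h4 : 0 ≤ (t / q) ^ 2 + P ^ 2 := by positivity
        have h5 : t * P = q * (t / q * P) := by field_simp
        have h6 : 1 / q * t ^ 2 = q * (t / q) ^ 2 := by field_simp
        rw [h5, h6]
        nlinarith
      rw [e1]
      have e4 : t / z.1 ^ 2 * P = 1 / z.1 ^ 2 * (t * P) := by ring
      rw [e4]
      refine mul_le_mul_of_nonneg_left ?_ (by positivity)
      have e5 := mul_le_mul_of_nonneg_left e2 hq0.le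
      simp only [zero_add, mul_one]
      linarith
    have cs : Continuous fun U : Ed d (2 * (z.2 + 1)) → G => sB L M U := sB_cont M
    have cb : ∀ v : Fin k, Continuous fun U : Ed d (2 * (z.2 + 1)) → G =>
        bK L κ₀ z.1 (x v) (p v) U := fun v => bK_cont _ _ _
    have cb8 : ∀ v : Fin k, Continuous fun U : Ed d (2 * (z.2 + 1)) → G =>
        bK L κ₀ z.1 (x v) (p v) U ^ (2 * k) := fun v => (cb v).pow _
    have cl : Continuous fun U : Ed d (2 * (z.2 + 1)) → G => sB L M U *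
        ∏ i, bK L κ₀ z.1 (x i) (p i) U := cs.mul (continuous_finsetProd _ fun i _ => cb i)
    have c1 : Continuous fun U : Ed d (2 * (z.2 + 1)) → G =>
        1 / q * (z.1 ^ 2 * sB L M U) ^ (2 * (0 + 1)) :=
      continuous_const.mul ((continuous_const.mul cs).pow _)
    have c3 : Continuous fun U : Ed d (2 * (z.2 + 1)) → G =>
        ∑ i, bK L κ₀ z.1 (x i) (p i) U ^ (2 * k) := continuous_finsetSum _ fun i _ => cb8 i
    have c4 : Continuous fun U : Ed d (2 * (z.2 + 1)) → G =>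
        1 + ∑ i, bK L κ₀ z.1 (x i) (p i) U ^ (2 * k) := continuous_const.add c3
    have c5 : Continuous fun U : Ed d (2 * (z.2 + 1)) → G =>
        q * (1 + ∑ i, bK L κ₀ z.1 (x i) (p i) U ^ (2 * k)) := continuous_const.mul c4
    have c6 : Continuous fun U : Ed d (2 * (z.2 + 1)) → G =>
        (1 / z.1 ^ 2) * (1 / q * (z.1 ^ 2 * sB L M U) ^ (2 * (0 + 1)) +
          q * (1 + ∑ i, bK L κ₀ z.1 (x i) (p i) U ^ (2 * k))) :=
      continuous_const.mul (c1.add c5)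
    have m1 := EX_mono μ (L := L) (β := z.1 ^ 4) cl c6 key
    rw [EX_smul, EX_add μ c1 c5, EX_smul, EX_smul,
      EX_add μ (F := fun _ => (1:ℝ)) continuous_const c3, EX_const, EX_sum μ _ fun i _ => cb8 i] at m1
    have k1 := h1 z.1 hz1 z.1 hz1 (by rw [pow_one]; linarith) d (z.2 + 1) (by omega) M
    have k5 : 1 / q * EX μ L (z.1 ^ 4) (fun U : Ed d (2 * (z.2 + 1)) → G =>
        (z.1 ^ 2 * sB L M U) ^ (2 * (0 + 1))) ≤ C1 * (d ^ 2) ^ 2 * q * z.1 := by
      calc _ ≤ 1 / q * (C1 * ((M : ℝ) ^ d * d ^ 2) ^ (2 * (0 + 1)) * z.1) :=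
            mul_le_mul_of_nonneg_left k1 (by positivity)
        _ = _ := by
          rw [← hq]
          field_simp
          ring
    have k6 : q * (1 + ∑ i, EX μ L (z.1 ^ 4) (fun U : Ed d (2 * (z.2 + 1)) → G =>
        bK L κ₀ z.1 (x i) (p i) U ^ (2 * k))) ≤ q * ((1 + k * C8) * z.1) := by
      refine mul_le_mul_of_nonneg_left ?_ hq0.le
      have s1 : ∑ i, EX μ L (z.1 ^ 4) (fun U : Ed d (2 * (z.2 + 1)) → G =>
        bK L κ₀ z.1 (x i) (p i) U ^ (2 * k)) ≤ ∑ _i : Fin k, C8 * z.1 :=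
        Finset.sum_le_sum fun i _ => h8 z hz1 hz2.2 i
      rw [Finset.sum_const, Finset.card_univ, Fintype.card_fin, nsmul_eq_mul] at s1
      linarith
    have k7 : EX μ L (z.1 ^ 4) (fun U : Ed d (2 * (z.2 + 1)) → G => sB L M U *
        ∏ i, bK L κ₀ z.1 (x i) (p i) U) ≤ (C1 * (d ^ 2) ^ 2 + (1 + k * C8)) * q / z.1 := by
      refine m1.trans ?_
      calc _ ≤ 1 / z.1 ^ 2 * (C1 * (d ^ 2) ^ 2 * q * z.1 + q * ((1 + k * C8) * z.1)) :=
            mul_le_mul_of_nonneg_left (add_le_add k5 k6) (by positivity)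
        _ = _ := by field_simp
    -- the size of the box
    obtain ⟨a, ha⟩ : ∃ a, a = aof (ex d κ₀) z.1 := ⟨_, rfl⟩
    have hK := Kb_ge (d := d) hκ z.1 h12
    rw [← ha] at hab h12 hK ⊢
    have ha1 : (1:ℝ) ≤ a := by
      have : 1 ≤ a := by omega
      exact_mod_cast this
    have hM4 : (M:ℝ) ≤ 4 * 3 ^ (4 * κ₀) * a ^ (4 * κ₀) := by
      have e1 : M ≤ 4 * Kb d κ₀ z.1 := by omega
      have e2 : ((Kb d κ₀ z.1 : ℕ) : ℝ) = 3 ^ (4 * κ₀) * a ^ (4 * κ₀) := by
        unfold Kb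
        rw [← ha]; push_cast; rw [mul_pow]
      calc (M:ℝ) ≤ ((4 * Kb d κ₀ z.1 : ℕ) : ℝ) := by exact_mod_cast e1
        _ = _ := by push_cast; rw [e2]; ring
    have hMd : (M:ℝ) * q ≤ (4 * 3 ^ (4 * κ₀)) ^ (d + 1) * a ^ (4 * κ₀ * (d + 1)) := by
      calc (M:ℝ) * q = (M:ℝ) ^ (d + 1) := by rw [hq, pow_succ]; ring
        _ ≤ (4 * 3 ^ (4 * κ₀) * (a:ℝ) ^ (4 * κ₀)) ^ (d + 1) :=
            pow_le_pow_left₀ (by positivity) hM4 _
        _ = _ := by rw [mul_pow, ← pow_mul (a:ℝ)]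
    have hab' : (a:ℝ) ^ (4 * κ₀ * (d + 1)) * a ≤ z.1 := by
      refine le_trans ?_ hab
      rw [← pow_succ]
      refine pow_le_pow_right₀ ha1 ?_
      unfold ex
      have : 4 * κ₀ * (d + 1) ≤ 4 * κ₀ * (2 * d + 3) := Nat.mul_le_mul_left _ (by omega)
      omega
    have hQ0 : 0 ≤ C1 * ((d:ℝ) ^ 2) ^ 2 + (1 + k * C8) := by positivity
    calc (M:ℝ) * EX μ L (z.1 ^ 4) (fun U : Ed d (2 * (z.2 + 1)) → G => sB L M U *
        ∏ i, bK L κ₀ z.1 (x i) (p i) U) ≤
        M * ((C1 * (d ^ 2) ^ 2 + (1 + k * C8)) * q / z.1) := mul_le_mul_of_nonneg_left k7 hM0.le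
      _ = (C1 * (d ^ 2) ^ 2 + (1 + k * C8)) * (M * q) / z.1 := by ring
      _ ≤ (C1 * (d ^ 2) ^ 2 + (1 + k * C8)) * ((4 * 3 ^ (4 * κ₀)) ^ (d + 1) *
          a ^ (4 * κ₀ * (d + 1))) / z.1 := by gcongr
      _ = K1 * a ^ (4 * κ₀ * (d + 1)) / z.1 := by rw [hK1]; ring
      _ ≤ K1 / a := by
          rw [div_le_div_iff₀ hz0 (by linarith)]
          have hK10 : 0 ≤ K1 := by rw [hK1]; positivity
          calc K1 * (a:ℝ) ^ (4 * κ₀ * (d + 1)) * a = K1 * ((a:ℝ) ^ (4 * κ₀ * (d + 1)) * a) := by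
                ring
            _ ≤ K1 * z.1 := mul_le_mul_of_nonneg_left hab' hK10

/-! ### tensors -/

/-- the contraction of a tensor -/
def tn {k n : ℕ} (T : (Fin k → Fin n) → ℝ) (A : Fin k → Fin n → ℝ) : ℝ :=
  ∑ c : Fin k → Fin n, T c * ∏ i, A i (c i)

/-- the average of a monomial over the rotations -/
def Tav (L : LD G N n) {k : ℕ} (c c' : Fin k → Fin n) : ℝ :=
  ∫ h : G, ∏ i, L.adm h (c i) (c' i) ∂μ

lemma admprod_cont {k : ℕ} (c c' : Fin k → Fin n) :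
    Continuous fun h : G => ∏ i, L.adm h (c i) (c' i) :=
  continuous_finsetProd _ fun i _ => adm_cont _ _

/-- products of rotated vectors -/
lemma prod_rot {k : ℕ} (h : G) (A : Fin k → Fin n → ℝ) (c : Fin k → Fin n) :
    ∏ i, rot L h (A i) (c i) = ∑ c' : Fin k → Fin n, (∏ i, L.adm h (c i) (c' i)) *
      ∏ i, A i (c' i) := by
  unfold rot
  rw [Finset.prod_univ_sum]
  rw [Fintype.piFinset_univ]
  exact Finset.sum_congr rfl fun c' _ => Finset.prod_mul_distrib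

lemma adm_prod_mul {k : ℕ} (h g : G) (c c'' : Fin k → Fin n) :
    ∏ i, L.adm (h * g) (c i) (c'' i) = ∑ c' : Fin k → Fin n,
      (∏ i, L.adm h (c i) (c' i)) * ∏ i, L.adm g (c' i) (c'' i) := by
  have := prod_rot (L := L) h (fun i b => L.adm g b (c'' i)) c
  rw [← this]
  refine Finset.prod_congr rfl fun i _ => ?_
  rw [adm_mul]
  rfl

/-- the averaged tensor is invariant -/
lemma Tav_inv {k : ℕ} (c : Fin k → Fin n) (g : G) (A : Fin k → Fin n → ℝ) :
    tn (Tav μ L c) (fun i => rot L g (A i)) = tn (Tav μ L c) A := by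
  have hint : ∀ c' : Fin k → Fin n, Integrable (fun h : G => ∏ i, L.adm h (c i) (c' i)) μ :=
    fun c' => (admprod_cont c c').integrable_of_hasCompactSupport
      (HasCompactSupport.of_compactSpace _)
  have h1 : ∀ c'' : Fin k → Fin n, ∑ c' : Fin k → Fin n, Tav μ L c c' *
      ∏ i, L.adm g (c' i) (c'' i) = Tav μ L c c'' := by
    intro c''
    unfold Tav
    rw [← integral_mul_right_eq_self (fun h : G => ∏ i, L.adm h (c i) (c'' i)) g]
    simp only [adm_prod_mul]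
    rw [integral_finsetSum _ fun c' _ => (hint c').mul_const _]
    exact Finset.sum_congr rfl fun c' _ => (integral_mul_const _ _).symm
  unfold tn
  simp only [prod_rot, Finset.mul_sum]
  rw [Finset.sum_comm]
  refine Finset.sum_congr rfl fun c'' _ => ?_
  rw [← h1 c'', Finset.sum_mul]
  exact Finset.sum_congr rfl fun c' _ => by ring

/-- a product of components of the field strengths -/
def mf (L : LD G N n) {k : ℕ} (x : Fin k → Zp d) (p : Fin k → Fin d × Fin d) (c : Fin k → Fin n)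
    (u : Zp d → Fin d → G) : ℝ := ∏ i, fF L (p i).1 (p i).2 (x i) u (c i)

lemma mf_cont {k : ℕ} (x : Fin k → Zp d) (p : Fin k → Fin d × Fin d) (c : Fin k → Fin n) :
    Continuous fun u : Zp d → Fin d → G => mf L x p c u :=
  continuous_finsetProd _ fun i _ => fF_cont _ _ _ _

/-- conjugation of a configuration -/
def cj (h : G) (u : Zp d → Fin d → G) : Zp d → Fin d → G := fun x i => h * u x i * h⁻¹

lemma sgP_cj (h : G) (f : ℤ → G) (k : ℕ) :
    sgP (fun m => h * f m * h⁻¹) k = h * sgP f k * h⁻¹ := by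
  induction k with
  | zero => simp [sgP]
  | succ k ih =>
    show sgP (fun m => h * f m * h⁻¹) k * (h * f k * h⁻¹) = h * (sgP f k * f k) * h⁻¹
    rw [ih]; group

lemma sgN_cj (h : G) (f : ℤ → G) (k : ℕ) :
    sgN (fun m => h * f m * h⁻¹) k = h * sgN f k * h⁻¹ := by
  induction k with
  | zero => simp [sgN]
  | succ k ih =>
    show sgN (fun m => h * f m * h⁻¹) k * (h * f (-((k : ℤ) + 1)) * h⁻¹)⁻¹ =
      h * (sgN f k * (f (-((k : ℤ) + 1)))⁻¹) * h⁻¹
    rw [ih]; group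

lemma Qz_cj (h : G) (u : Zp d → Fin d → G) (x : Zp d) (k : ℕ) :
    Qz (cj h u) x k = h * Qz u x k * h⁻¹ := by
  induction k with
  | zero =>
    show (1 : G) = h * 1 * h⁻¹
    group
  | succ k ih =>
    rw [Qz_succ, Qz_succ, ih]
    split_ifs with hk
    · have : sg (fun m => cj h u (Function.update (trn x k) ⟨k, hk⟩ m) ⟨k, hk⟩) (x ⟨k, hk⟩) =
          h * sg (fun m => u (Function.update (trn x k) ⟨k, hk⟩ m) ⟨k, hk⟩) (x ⟨k, hk⟩) * h⁻¹ := by
        unfold sg cj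
        split_ifs
        · exact sgP_cj h _ _
        · exact sgN_cj h _ _
      rw [this]; group
    · group

lemma Gz_cj (h : G) (u : Zp d → Fin d → G) (x : Zp d) (i j : Fin d) :
    Gz (cj h u) x i j = h * Gz u x i j * h⁻¹ := by
  unfold Gz Pz
  rw [Qz_cj]
  unfold plz cj
  group

lemma fF_cj (h : G) (u : Zp d → Fin d → G) (j k : Fin d) (x : Zp d) :
    fF L j k x (cj h u) = rot L h (fF L j k x u) := by
  funext a
  unfold fF cg
  rw [Gz_cj, cc_rot]

/-- the expectation is invariant under conjugation -/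
lemma ee_cj {z : ℝ × ℕ} {F : (Zp d → Fin d → G) → ℝ} (hF : Continuous F) (h : G) :
    ee μ L z (fun u => F (cj h u)) = ee μ L z F := by
  unfold ee
  rw [← EX_gt μ (L := L) (fun _ : St d (2 * (z.2 + 1)) => h) (F := fun U => F (uz U))
    (hF.comp uz_cont)]
  rfl

/-- the expectation of a monomial is the one of its average -/
lemma ee_avg {z : ℝ × ℕ} {k : ℕ} (x : Fin k → Zp d) (p : Fin k → Fin d × Fin d)
    (c : Fin k → Fin n) : ee μ L z (mf L x p c) =
      ee μ L z (fun u => tn (Tav μ L c) fun i => fF L (p i).1 (p i).2 (x i) u) := by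
  have hint : ∀ c' : Fin k → Fin n, Integrable (fun h : G => ∏ i, L.adm h (c i) (c' i)) μ :=
    fun c' => (admprod_cont c c').integrable_of_hasCompactSupport
      (HasCompactSupport.of_compactSpace _)
  have h1 : ∀ h : G, ee μ L z (mf L x p c) = ∑ c' : Fin k → Fin n,
      (∏ i, L.adm h (c i) (c' i)) * ee μ L z (mf L x p c') := by
    intro h
    rw [← ee_cj μ (L := L) (mf_cont x p c) h]
    have e : (fun u : Zp d → Fin d → G => mf L x p c (cj h u)) = fun u =>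
        ∑ c' : Fin k → Fin n, (∏ i, L.adm h (c i) (c' i)) * mf L x p c' u := by
      funext u
      unfold mf
      simp only [fF_cj]
      exact prod_rot h _ c
    have cm : ∀ c' : Fin k → Fin n, Continuous fun u : Zp d → Fin d → G =>
        (∏ i, L.adm h (c i) (c' i)) * mf L x p c' u := fun c' =>
      continuous_const.mul (mf_cont x p c')
    rw [e, ee_sum μ _ fun c' => cm c']
    exact Finset.sum_congr rfl fun c' _ => ee_smul μ _ _
  have h2 : ee μ L z (mf L x p c) = ∫ h : G, ee μ L z (mf L x p c) ∂μ := by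
    rw [integral_const]; simp
  have h3 : ∫ h : G, ee μ L z (mf L x p c) ∂μ = ∑ c' : Fin k → Fin n,
      Tav μ L c c' * ee μ L z (mf L x p c') := by
    rw [integral_congr_ae (Filter.Eventually.of_forall fun h => h1 h),
      integral_finsetSum _ fun c' _ => (hint c').mul_const _]
    exact Finset.sum_congr rfl fun c' _ => integral_mul_const _ _
  rw [h2, h3]
  unfold tn
  have cm : ∀ c' : Fin k → Fin n, Continuous fun u : Zp d → Fin d → G =>
      Tav μ L c c' * ∏ i, fF L (p i).1 (p i).2 (x i) u (c' i) := fun c' =>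
    continuous_const.mul (mf_cont x p c')
  rw [ee_sum μ _ fun c' => cm c']
  exact Finset.sum_congr rfl fun c' _ => (ee_smul μ _ _).symm

lemma pow2_nn (b : ℝ) (k : ℕ) : 0 ≤ b ^ (2 * k) := by
  rw [pow_mul]; positivity

lemma tn_sub {k : ℕ} (T : (Fin k → Fin n) → ℝ) {A B : Fin k → Fin n → ℝ} {t : Fin k → ℝ} {δ : ℝ}
    (hδ : 0 ≤ δ) (ht : ∀ i, 0 ≤ t i) (ha : ∀ i c, |A i c| ≤ t i) (hb : ∀ i c, |B i c| ≤ t i)
    (hab : ∀ i c, |A i c - B i c| ≤ δ * t i) :
    |tn T A - tn T B| ≤ (∑ c, |T c|) * (k * (δ * ∏ i, t i)) := by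
  unfold tn
  rw [← Finset.sum_sub_distrib, Finset.sum_mul]
  refine (Finset.abs_sum_le_sum_abs _ _).trans (Finset.sum_le_sum fun c _ => ?_)
  rw [← mul_sub, abs_mul]
  refine mul_le_mul_of_nonneg_left ?_ (abs_nonneg _)
  have h := prod_sub_le (Finset.univ : Finset (Fin k)) (a := fun i => A i (c i))
    (b := fun i => B i (c i)) hδ (fun i _ => ht i) (fun i _ => ha i _) (fun i _ => hb i _)
    (fun i _ => hab i _)
  rw [Finset.card_univ, Fintype.card_fin] at h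
  exact h

lemma tn_cont {X : Type*} [TopologicalSpace X] {k : ℕ} (T : (Fin k → Fin n) → ℝ)
    {A : X → Fin k → Fin n → ℝ} (hA : ∀ i c, Continuous fun x => A x i c) :
    Continuous fun x => tn T (A x) :=
  continuous_finsetSum _ fun c _ => continuous_const.mul
    (continuous_finsetProd _ fun i _ => hA i (c i))

/-- the comparison of the frames -/
lemma tn_frame {κ₀ : ℕ} (hκ : 1 ≤ κ₀) {z : ℝ × ℕ} {R : ℕ} (h12 : 12 ≤ aof (ex d κ₀) z.1)
    (hR : R ≤ aof (ex d κ₀) z.1) (hm : 2 * Kb d κ₀ z.1 ≤ z.2 + 1)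
    (U : Ed d (2 * (z.2 + 1)) → G) {k : ℕ} (x : Fin k → Zp d) (p : Fin k → Fin d × Fin d)
    (hx : ∀ u, l1 (x u) ≤ R) (T : (Fin k → Fin n) → ℝ)
    (hT : ∀ (g : G) A, tn T (fun i => rot L g (A i)) = tn T A) :
    z.1 ^ (2 * k) * |tn T (fun i => fF L (p i).1 (p i).2 (x i) (ub d κ₀ z.1 U)) -
      tn T (fun i => cK L κ₀ z.1 (x i) (p i) U)| ≤
      ((∑ c, |T c|) * (k * (2 * (R * (d * ((2 * Kb d κ₀ z.1 + 2 : ℕ) : ℝ))))) *
        (sB L (2 * Kb d κ₀ z.1 + 2) U * ∏ i, bK L κ₀ z.1 (x i) (p i) U)) := by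
  obtain ⟨ρ, hρ⟩ : ∃ ρ, ρ = Rb d κ₀ z.1 U 0 := ⟨_, rfl⟩
  obtain ⟨h, hh⟩ : ∃ h, h = R * (d * ((2 * Kb d κ₀ z.1 + 2 : ℕ) : ℝ) *
    sB L (2 * Kb d κ₀ z.1 + 2) U) := ⟨_, rfl⟩
  have hh0 : 0 ≤ h := by
    rw [hh]
    exact mul_nonneg (Nat.cast_nonneg _) (mul_nonneg (by positivity) (sB_nonneg _ _))
  have e1 : ∀ i, rot L ρ (fF L (p i).1 (p i).2 (x i) (ub d κ₀ z.1 U)) = fun a =>
      cc L a (Hb d κ₀ z.1 U (x i) * Gc U (zt _ (bs d κ₀ z.1 + x i)) (p i).1 (p i).2 *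
        (Hb d κ₀ z.1 U (x i))⁻¹) := by
    intro i
    funext a
    have e4 := Gz_ub (d := d) (κ₀ := κ₀) z.1 U (x i) (p i).1 (p i).2
    rw [← e4, cc_rot, hρ]
    rfl
  obtain ⟨s, hs⟩ : ∃ s : Fin k → ℝ, s = fun v => dv L (Gc U (zt _ (bs d κ₀ z.1 + x v))
    (p v).1 (p v).2) := ⟨_, rfl⟩
  have hs0 : ∀ v, 0 ≤ s v := fun v => by rw [hs]; exact dv_nonneg _
  rw [← hT ρ]
  simp only [e1]
  have h1 := tn_sub T (δ := 2 * h) (t := s)
    (A := fun i a => cc L a (Hb d κ₀ z.1 U (x i) * Gc U (zt _ (bs d κ₀ z.1 + x i)) (p i).1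
      (p i).2 * (Hb d κ₀ z.1 U (x i))⁻¹)) (B := fun i => cK L κ₀ z.1 (x i) (p i) U)
    (by positivity) hs0 (fun v a => by
      refine (cc_le a _).trans ?_
      rw [dv_conj, hs]) (fun v a => by
      rw [hs]; exact cc_le a _) (fun v a => by
      refine (conj1 a _ _).trans ?_
      have h1 := Hb_le (L := L) hκ h12 hR hm U (hx v)
      rw [← hh] at h1
      have h2 : dv L (Gc U (zt _ (bs d κ₀ z.1 + x v)) (p v).1 (p v).2) = s v := by rw [hs]
      rw [h2]
      exact mul_le_mul_of_nonneg_right (by linarith) (hs0 v))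
  calc _ ≤ z.1 ^ (2 * k) * ((∑ c, |T c|) * (k * (2 * h * ∏ i, s i))) :=
        mul_le_mul_of_nonneg_left h1 (pow2_nn _ _)
    _ = _ := by
        have e5 : ∏ i, bK L κ₀ z.1 (x i) (p i) U = z.1 ^ (2 * k) * ∏ i, s i := by
          unfold bK
          rw [Finset.prod_mul_distrib, Finset.prod_const, Finset.card_univ, Fintype.card_fin,
            ← pow_mul, hs]
        rw [e5, hh]
        ring

/-- **The leading order of a product of field strengths.** -/
theorem mf_lim (hd : 3 ≤ d) (hB : S_B2) (hT : S_TR) (hW : S_W1) (hH : S_HAF) {k : ℕ}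
    (x : Fin k → Zp d) (p : Fin k → Fin d × Fin d) (c : Fin k → Fin n) :
    ∃ g, Tendsto (fun z => z.1 ^ (2 * k) * ee μ L z (mf L x p c)) FB (𝓝 g) := by
  by_cases hp : ∀ u, (p u).1 ≠ (p u).2
  swap
  · push Not at hp
    obtain ⟨u0, hu0⟩ := hp
    refine ⟨0, ?_⟩
    have e : mf L x p c = fun _ => (0:ℝ) := by
      funext u
      unfold mf
      refine Finset.prod_eq_zero (Finset.mem_univ u0) ?_
      unfold fF cg
      rw [hu0, Gz_self, cc_one]
    simp only [e, ee_const, mul_zero]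
    exact tendsto_const_nhds
  obtain ⟨κ₀, C, B, hκ, hC, hB0, hk⟩ := kL μ (L := L) hd hB hT hW hH k
  obtain ⟨R, hR⟩ : ∃ R, R = ∑ u, l1 (x u) := ⟨_, rfl⟩
  have hx : ∀ u, l1 (x u) ≤ R := fun u => by
    rw [hR]
    exact Finset.single_le_sum (f := fun u => l1 (x u)) (fun _ _ => Nat.zero_le _)
      (Finset.mem_univ u)
  have he : 1 ≤ ex d κ₀ := by unfold ex; omega
  have hlim : Tendsto (fun z : ℝ × ℕ => C / (aof (ex d κ₀) z.1 : ℝ)) FB (𝓝 0) :=
    tendsto_const_nhds.div_atTop (tendsto_natCast_atTop_atTop.comp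
      ((aof_tendsto he).comp FB_fst))
  have hcor : ∀ c' : Fin k → Fin n, Tendsto (fun z => EX μ L (z.1 ^ 4) (Pk L κ₀ z x p c')) FB
      (𝓝 (haf (AC (green d) (fun _ => []) p x c') (List.finRange k))) := by
    intro c'
    rw [tendsto_iff_norm_sub_tendsto_zero]
    refine squeeze_zero' (Filter.Eventually.of_forall fun z => norm_nonneg _) ?_ hlim
    filter_upwards [hk R] with z hz
    have h1 := (hz x (fun u i => (l1_coord (x u) i).trans (by exact_mod_cast hx u)) p hp c').1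
    rw [Real.norm_eq_abs]
    exact h1
  obtain ⟨T, hTd⟩ : ∃ T, T = Tav μ L c := ⟨_, rfl⟩
  have hTi : ∀ (g : G) A, tn T (fun i => rot L g (A i)) = tn T A := fun g A => by
    rw [hTd]; exact Tav_inv μ c g A
  refine ⟨∑ c', T c' * haf (AC (green d) (fun _ => []) p x c') (List.finRange k), ?_⟩
  have hK : Tendsto (fun z : ℝ × ℕ => z.1 ^ (2 * k) * EX μ L (z.1 ^ 4)
      (fun U : Ed d (2 * (z.2 + 1)) → G => tn T fun i => cK L κ₀ z.1 (x i) (p i) U)) FB
      (𝓝 (∑ c', T c' * haf (AC (green d) (fun _ => []) p x c') (List.finRange k))) := by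
    have e1 : (fun z : ℝ × ℕ => z.1 ^ (2 * k) * EX μ L (z.1 ^ 4)
        (fun U : Ed d (2 * (z.2 + 1)) → G => tn T fun i => cK L κ₀ z.1 (x i) (p i) U)) =
        fun z => ∑ c', T c' * EX μ L (z.1 ^ 4) (Pk L κ₀ z x p c') := by
      funext z
      have e2 : (fun U : Ed d (2 * (z.2 + 1)) → G => z.1 ^ (2 * k) *
          tn T fun i => cK L κ₀ z.1 (x i) (p i) U) = fun U => ∑ c', T c' * Pk L κ₀ z x p c' U := by
        funext U
        unfold tn Pk cK
        rw [Finset.mul_sum]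
        refine Finset.sum_congr rfl fun c' _ => ?_
        rw [Finset.prod_mul_distrib, Finset.prod_const, Finset.card_univ, Fintype.card_fin,
          ← pow_mul]
        ring
      have cm : ∀ c' : Fin k → Fin n, Continuous fun U : Ed d (2 * (z.2 + 1)) → G =>
          T c' * Pk L κ₀ z x p c' U := fun c' => continuous_const.mul (Pk_cont _ _ _ _ _)
      rw [← EX_smul, e2, EX_sum μ _ fun c' _ => cm c']
      exact Finset.sum_congr rfl fun c' _ => EX_smul μ _ _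
    rw [e1]
    exact tendsto_finsetSum _ fun c' _ => (hcor c').const_mul _
  have hD : Tendsto (fun z : ℝ × ℕ => z.1 ^ (2 * k) * ee μ L z (mf L x p c) -
      z.1 ^ (2 * k) * EX μ L (z.1 ^ 4)
      (fun U : Ed d (2 * (z.2 + 1)) → G => tn T fun i => cK L κ₀ z.1 (x i) (p i) U)) FB (𝓝 0) := by
    have hE := (frame_errk μ (L := L) hκ (by omega) x p).const_mul
      ((∑ c, |T c|) * (k * (2 * (R * d))))
    rw [mul_zero] at hE
    refine squeeze_zero_norm' ?_ hE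
    filter_upwards [params (d := d) hκ R] with z hz
    obtain ⟨hz1, h12, hRa, hab, hba, hm⟩ := hz
    rw [ee_avg μ x p c, ← hTd, ee_ub μ (κ₀ := κ₀), ← EX_smul, ← EX_smul]
    have cU : Continuous fun U : Ed d (2 * (z.2 + 1)) → G => ub d κ₀ z.1 U :=
      continuous_pi fun y => (continuous_apply _).comp uz_cont
    have c1 : Continuous fun U : Ed d (2 * (z.2 + 1)) → G => z.1 ^ (2 * k) *
        tn T fun i => fF L (p i).1 (p i).2 (x i) (ub d κ₀ z.1 U) :=
      continuous_const.mul (tn_cont T fun i c => (fF_cont _ _ _ _).comp cU)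
    have c2 : Continuous fun U : Ed d (2 * (z.2 + 1)) → G => z.1 ^ (2 * k) *
        tn T fun i => cK L κ₀ z.1 (x i) (p i) U :=
      continuous_const.mul (tn_cont T fun i c => cK_cont _ _ _ _)
    rw [Real.norm_eq_abs]
    refine (EX_close μ c1 c2).trans ?_
    have c3 : Continuous fun U : Ed d (2 * (z.2 + 1)) → G =>
        ((∑ c, |T c|) * (k * (2 * (R * (d * ((2 * Kb d κ₀ z.1 + 2 : ℕ) : ℝ)))))) *
        (sB L (2 * Kb d κ₀ z.1 + 2) U * ∏ i, bK L κ₀ z.1 (x i) (p i) U) :=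
      continuous_const.mul ((sB_cont _).mul (continuous_finsetProd _ fun i _ => bK_cont _ _ _))
    refine (EX_mono μ (c1.sub c2).abs c3 fun U => ?_).trans (le_of_eq ?_)
    · have h1 := tn_frame (L := L) hκ h12 hRa hm U x p hx T hTi
      show |z.1 ^ (2 * k) * tn T (fun i => fF L (p i).1 (p i).2 (x i) (ub d κ₀ z.1 U)) -
        z.1 ^ (2 * k) * tn T (fun i => cK L κ₀ z.1 (x i) (p i) U)| ≤ _
      rw [← mul_sub, abs_mul, abs_of_nonneg (pow2_nn z.1 k)]
      exact h1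
    · rw [EX_smul]; ring
  have := hK.add hD
  rw [add_zero] at this
  refine this.congr fun z => ?_
  ring

end

end Pool.Agent.Y16.YM
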