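import Mathlib
import Pool.Agent.Y16.NL.Zk

/-!
# Expansions of functions of a configuration in powers of the field strengths
-/

open MeasureTheory Matrix Filter
open scoped Matrix.Norms.Frobenius Topology
open Pool.Agent.H906R3.YM Pool.Agent.W793.YM Pool.Agent.TH940.YM
open Pool.Agent.W793.SCH (haf Near pk gK DD mx el TK S_B1 S_B2 S_TR S_W1 S_HAF green plaq_moment2)

namespace Pool.Agent.Y16.YM

set_option linter.unusedSectionVars false
set_option linter.unusedVariables false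
set_option maxHeartbeats 400000

noncomputable section

variable {G : Type} [Group G] [TopologicalSpace G] [IsTopologicalGroup G] [CompactSpace G]
  [SecondCountableTopology G] [MeasurableSpace G] [BorelSpace G] (μ : Measure G)
  [IsProbabilityMeasure μ] [μ.IsMulLeftInvariant] [μ.IsMulRightInvariant] [μ.IsInvInvariant]
  {N n : ℕ} {L : LD G N n} {d : ℕ}

/-! ### the sums of the deviations -/

lemma bal_mono {R R' : ℕ} (h : R ≤ R') : bal d R ⊆ bal d R' := by
  intro q hq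
  unfold bal at *
  rw [Finset.mem_product, Fintype.mem_piFinset] at *
  refine ⟨fun i => ?_, hq.2⟩
  have := hq.1 i
  rw [Finset.mem_Icc] at *
  have h' : (R : ℤ) ≤ R' := by exact_mod_cast h
  omega

lemma SR_mono {R R' : ℕ} (h : R ≤ R') (u : Zp d → Fin d → G) : SR L R u ≤ SR L R' u :=
  Finset.sum_le_sum_of_subset_of_nonneg (bal_mono h) fun q _ _ => dv_nonneg _

lemma bdd_cont {F : (Zp d → Fin d → G) → ℝ} (hF : Continuous F) :
    ∃ K : ℝ, 0 ≤ K ∧ ∀ u, |F u| ≤ K := by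
  obtain ⟨K, hK⟩ := (isCompact_univ : IsCompact (Set.univ : Set (Zp d → Fin d → G))).exists_bound_of_continuousOn
    hF.continuousOn
  refine ⟨|K|, abs_nonneg _, fun u => ?_⟩
  have := hK u (Set.mem_univ _)
  rw [Real.norm_eq_abs] at this
  exact this.trans (le_abs_self _)

/-- higher powers are smaller -/
lemma SR_pow_le (R : ℕ) {k m : ℕ} (h : k ≤ m) : ∃ C : ℝ, 0 ≤ C ∧ ∀ u : Zp d → Fin d → G,
    SR L R u ^ m ≤ C * SR L R u ^ k := by
  obtain ⟨K, hK0, hK⟩ := bdd_cont (SR_cont (L := L) (d := d) R)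
  refine ⟨K ^ (m - k), by positivity, fun u => ?_⟩
  have h0 := SR_nonneg (L := L) R u
  have h1 : SR L R u ≤ K := (le_abs_self _).trans (hK u)
  have e : m = (m - k) + k := by omega
  calc SR L R u ^ m = SR L R u ^ (m - k) * SR L R u ^ k := by rw [← pow_add, ← e]
    _ ≤ _ := mul_le_mul_of_nonneg_right (pow_le_pow_left₀ h0 h1 _) (by positivity)

theorem SR_momp (hd : 3 ≤ d) (hB : S_B2) (hT : S_TR) (hW : S_W1) (hH : S_HAF) {CT : ℝ}
    (hTg : Tg L CT) (R r : ℕ) : ∃ C : ℝ, 1 ≤ C ∧ ∀ᶠ z in FB,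
      ee μ L z (fun u : Zp d → Fin d → G => (z.1 ^ 2 * SR L R u) ^ r) ≤ C := by
  obtain ⟨C, hC, h⟩ := momp μ (L := L) hd hB hT hW hH hTg r
  obtain ⟨K, hK⟩ : ∃ K : ℝ, K = (bal d R).card := ⟨_, rfl⟩
  have hK0 : 0 ≤ K := by rw [hK]; positivity
  refine ⟨1 + (1 + K) ^ r * (K * C), by
    have : 0 ≤ (1 + K) ^ r * (K * C) := by positivity
    linarith, ?_⟩
  filter_upwards [h] with z hz
  rcases Nat.eq_zero_or_pos r with hr | hr
  · subst hr
    simp only [pow_zero, ee_const, one_mul]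
    have : 0 ≤ K * C := by positivity
    linarith
  have key : ∀ u : Zp d → Fin d → G, (z.1 ^ 2 * SR L R u) ^ r ≤
      K ^ (r - 1) * ∑ q ∈ bal d R, bd L z.1 u q.2.1 q.2.2 q.1 ^ r := by
    intro u
    obtain ⟨s, rfl⟩ : ∃ s, r = s + 1 := ⟨r - 1, by omega⟩
    have h1 := pow_sum_le_card_mul_sum_pow (s := bal d R)
      (f := fun q => bd L z.1 u q.2.1 q.2.2 q.1) (fun q _ => bd_nonneg _ _ _ _ _) s
    have h2 : z.1 ^ 2 * SR L R u = ∑ q ∈ bal d R, bd L z.1 u q.2.1 q.2.2 q.1 := by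
      unfold SR bd
      rw [Finset.mul_sum]
    rw [h2, hK]
    exact h1
  have cb : ∀ q : Zp d × Fin d × Fin d, Continuous fun u : Zp d → Fin d → G =>
      bd L z.1 u q.2.1 q.2.2 q.1 ^ r := fun q => (bd_cont _ _ _ _).pow _
  have c1 : Continuous fun u : Zp d → Fin d → G =>
      K ^ (r - 1) * ∑ q ∈ bal d R, bd L z.1 u q.2.1 q.2.2 q.1 ^ r :=
    continuous_const.mul (continuous_finsetSum _ fun q _ => cb q)
  refine (ee_mono μ ((continuous_const.mul (SR_cont R)).pow _) c1 key).trans ?_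
  rw [ee_smul, ee_sum μ _ fun q => cb q]
  have h3 : ∑ q ∈ bal d R, ee μ L z (fun u => bd L z.1 u q.2.1 q.2.2 q.1 ^ r) ≤ K * C := by
    calc _ ≤ ∑ _q ∈ bal d R, C := Finset.sum_le_sum fun q _ => hz _ _ _
      _ = K * C := by rw [Finset.sum_const, nsmul_eq_mul, hK]
  have h4 : K ^ (r - 1) ≤ (1 + K) ^ r := by
    calc K ^ (r - 1) ≤ (1 + K) ^ (r - 1) := pow_le_pow_left₀ hK0 (by linarith) _
      _ ≤ (1 + K) ^ r := pow_le_pow_right₀ (by linarith) (Nat.sub_le _ _)
  have h5 : K ^ (r - 1) * ∑ q ∈ bal d R, ee μ L z (fun u => bd L z.1 u q.2.1 q.2.2 q.1 ^ r) ≤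
      (1 + K) ^ r * (K * C) :=
    mul_le_mul h4 h3 (Finset.sum_nonneg fun q _ => ee_nonneg μ fun u =>
      pow_nonneg (bd_nonneg _ _ _ _ _) _) (by positivity)
  linarith

/-- errors of a higher order are negligible -/
lemma err_negl (hd : 3 ≤ d) (hB : S_B2) (hT : S_TR) (hW : S_W1) (hH : S_HAF) {CT : ℝ}
    (hTg : Tg L CT) {R k m : ℕ} (hkm : k < m) {F : (Zp d → Fin d → G) → ℝ} (hF : Continuous F)
    {C : ℝ} (h : ∀ u, |F u| ≤ C * SR L R u ^ m) :
    Tendsto (fun z => z.1 ^ (2 * k) * ee μ L z F) FB (𝓝 0) := by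
  obtain ⟨C1, hC1, h1⟩ := SR_momp μ (L := L) hd hB hT hW hH hTg R m
  have hC : ∀ u : Zp d → Fin d → G, |F u| ≤ |C| * SR L R u ^ m := fun u =>
    (h u).trans (mul_le_mul_of_nonneg_right (le_abs_self _) (pow_nonneg (SR_nonneg _ _) _))
  have hlim : Tendsto (fun z : ℝ × ℕ => |C| * C1 / z.1) FB (𝓝 0) :=
    tendsto_const_nhds.div_atTop FB_fst
  refine squeeze_zero_norm' ?_ hlim
  filter_upwards [h1, FB_ge 1] with z hz hz1
  have hz0 : 0 < z.1 := by linarith
  rw [Real.norm_eq_abs, abs_mul, abs_of_nonneg (pow2_nn z.1 k)]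
  have c1 : Continuous fun u : Zp d → Fin d → G => |C| * SR L R u ^ m :=
    continuous_const.mul ((SR_cont R).pow _)
  have h2 := ee_abs_le μ (L := L) (x := z) hF c1 hC
  rw [ee_smul] at h2
  have h3 : ee μ L z (fun u : Zp d → Fin d → G => (z.1 ^ 2 * SR L R u) ^ m) =
      z.1 ^ (2 * m) * ee μ L z (fun u : Zp d → Fin d → G => SR L R u ^ m) := by
    rw [← ee_smul]
    congr 1
    funext u
    rw [mul_pow, ← pow_mul]
  rw [h3] at hz
  obtain ⟨e, he⟩ : ∃ e, e = ee μ L z (fun u : Zp d → Fin d → G => SR L R u ^ m) := ⟨_, rfl⟩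
  rw [← he] at h2 hz
  have he0 : 0 ≤ e := by
    rw [he]
    exact ee_nonneg μ fun u => pow_nonneg (SR_nonneg _ _) _
  have h4 : z.1 ^ (2 * k) * e ≤ C1 / z.1 := by
    rw [le_div_iff₀ hz0]
    have h5 : z.1 ^ (2 * k) * z.1 ≤ z.1 ^ (2 * m) := by
      rw [← pow_succ]
      exact pow_le_pow_right₀ hz1 (by omega)
    calc z.1 ^ (2 * k) * e * z.1 = z.1 ^ (2 * k) * z.1 * e := by ring
      _ ≤ z.1 ^ (2 * m) * e := mul_le_mul_of_nonneg_right h5 he0
      _ ≤ C1 := hz
  calc z.1 ^ (2 * k) * |ee μ L z F| ≤ z.1 ^ (2 * k) * (|C| * e) :=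
        mul_le_mul_of_nonneg_left h2 (pow2_nn _ _)
    _ = |C| * (z.1 ^ (2 * k) * e) := by ring
    _ ≤ |C| * (C1 / z.1) := mul_le_mul_of_nonneg_left h4 (abs_nonneg _)
    _ = _ := by ring

/-! ### homogeneous polynomials of the field strengths -/

/-- a component of a field strength -/
abbrev Xl (d n : ℕ) := (Fin d × Fin d) × Zp d × Fin n

/-- its value -/
def xv (L : LD G N n) (ℓ : Xl d n) (u : Zp d → Fin d → G) : ℝ := fF L ℓ.1.1 ℓ.1.2 ℓ.2.1 u ℓ.2.2

/-- a product of components -/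
def xm (L : LD G N n) (ls : List (Xl d n)) (u : Zp d → Fin d → G) : ℝ :=
  (ls.map fun ℓ => xv L ℓ u).prod

lemma xv_cont (ℓ : Xl d n) : Continuous fun u : Zp d → Fin d → G => xv L ℓ u := fF_cont _ _ _ _

lemma xm_nil (u : Zp d → Fin d → G) : xm L ([] : List (Xl d n)) u = 1 := rfl

lemma xm_cons (ℓ : Xl d n) (ls : List (Xl d n)) (u : Zp d → Fin d → G) :
    xm L (ℓ :: ls) u = xv L ℓ u * xm L ls u := by
  unfold xm
  rw [List.map_cons, List.prod_cons]

lemma xm_append (ls ls' : List (Xl d n)) (u : Zp d → Fin d → G) :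
    xm L (ls ++ ls') u = xm L ls u * xm L ls' u := by
  unfold xm
  rw [List.map_append, List.prod_append]

lemma xm_cont (ls : List (Xl d n)) : Continuous fun u : Zp d → Fin d → G => xm L ls u := by
  induction ls with
  | nil => exact continuous_const
  | cons ℓ ls ih =>
    simp only [xm_cons]
    exact (xv_cont ℓ).mul ih

/-- the homogeneous polynomials of degree `k` -/
def Pl (L : LD G N n) (d k : ℕ) : Submodule ℝ ((Zp d → Fin d → G) → ℝ) :=
  Submodule.span ℝ {Φ | ∃ ls : List (Xl d n), ls.length = k ∧ Φ = xm L ls}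

lemma xm_mem (ls : List (Xl d n)) {k : ℕ} (h : ls.length = k) : xm L ls ∈ Pl L d k :=
  Submodule.subset_span ⟨ls, h, rfl⟩

lemma one_mem : (fun _ => (1:ℝ)) ∈ Pl L d 0 := by
  have : (fun _ => (1:ℝ)) = xm L ([] : List (Xl d n)) := by funext u; rw [xm_nil]
  rw [this]
  exact xm_mem _ rfl

lemma xv_mem (ℓ : Xl d n) : xv L ℓ ∈ Pl L d 1 := by
  have : xv L ℓ = xm L [ℓ] := by funext u; rw [xm_cons, xm_nil, mul_one]
  rw [this]
  exact xm_mem _ rfl

lemma Pl.mul {k m : ℕ} {Φ Ψ : (Zp d → Fin d → G) → ℝ} (hΦ : Φ ∈ Pl L d k) (hΨ : Ψ ∈ Pl L d m) :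
    (fun u => Φ u * Ψ u) ∈ Pl L d (k + m) := by
  induction hΦ using Submodule.span_induction with
  | mem x hx =>
    obtain ⟨ls, hl, rfl⟩ := hx
    induction hΨ using Submodule.span_induction with
    | mem y hy =>
      obtain ⟨ls', hl', rfl⟩ := hy
      have : (fun u => xm L ls u * xm L ls' u) = xm L (ls ++ ls') := by
        funext u; rw [xm_append]
      rw [this]
      exact xm_mem _ (by rw [List.length_append, hl, hl'])
    | zero =>
      have : (fun u => xm L ls u * (0 : (Zp d → Fin d → G) → ℝ) u) = 0 := by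
        funext u; simp
      rw [this]; exact Submodule.zero_mem _
    | add y y' _ _ h1 h2 =>
      have : (fun u => xm L ls u * (y + y') u) =
          (fun u => xm L ls u * y u) + fun u => xm L ls u * y' u := by
        funext u; simp [mul_add]
      rw [this]; exact Submodule.add_mem _ h1 h2
    | smul c y _ h1 =>
      have : (fun u => xm L ls u * (c • y) u) = c • fun u => xm L ls u * y u := by
        funext u; simp; ring
      rw [this]; exact Submodule.smul_mem _ _ h1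
  | zero =>
    have : (fun u => (0 : (Zp d → Fin d → G) → ℝ) u * Ψ u) = 0 := by
      funext u; simp
    rw [this]; exact Submodule.zero_mem _
  | add y y' _ _ h1 h2 =>
    have : (fun u => (y + y') u * Ψ u) = (fun u => y u * Ψ u) + fun u => y' u * Ψ u := by
      funext u; simp [add_mul]
    rw [this]; exact Submodule.add_mem _ h1 h2
  | smul c y _ h1 =>
    have : (fun u => (c • y) u * Ψ u) = c • fun u => y u * Ψ u := by
      funext u; simp; ring
    rw [this]; exact Submodule.smul_mem _ _ h1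

lemma Pl.cont {k : ℕ} {Φ : (Zp d → Fin d → G) → ℝ} (hΦ : Φ ∈ Pl L d k) : Continuous Φ := by
  induction hΦ using Submodule.span_induction with
  | mem x hx =>
    obtain ⟨ls, hl, rfl⟩ := hx
    exact xm_cont ls
  | zero => exact continuous_const
  | add y y' _ _ h1 h2 => exact h1.add h2
  | smul c y _ h1 => exact h1.const_smul c

lemma coord_l1 {x : Zp d} {R : ℕ} (h : l1 x ≤ R) (i : Fin d) : |x i| ≤ R :=
  (l1_coord x i).trans (by exact_mod_cast h)

lemma xv_bd (ℓ : Xl d n) {R : ℕ} (h : l1 ℓ.2.1 ≤ R) (u : Zp d → Fin d → G) :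
    |xv L ℓ u| ≤ SR L R u := (cc_le _ _).trans (le_SR u _ _ (coord_l1 h))

lemma xm_bd (ls : List (Xl d n)) : ∃ R : ℕ, ∀ u : Zp d → Fin d → G,
    |xm L ls u| ≤ SR L R u ^ ls.length := by
  induction ls with
  | nil => exact ⟨0, fun u => by rw [xm_nil]; simp⟩
  | cons ℓ ls ih =>
    obtain ⟨R, hR⟩ := ih
    refine ⟨max R (l1 ℓ.2.1), fun u => ?_⟩
    rw [xm_cons, abs_mul, List.length_cons, pow_succ, mul_comm (SR L _ u ^ _)]
    refine mul_le_mul (xv_bd ℓ (le_max_right _ _) u) ((hR u).trans ?_) (abs_nonneg _)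
      (SR_nonneg _ _)
    exact pow_le_pow_left₀ (SR_nonneg _ _) (SR_mono (le_max_left _ _) u) _

lemma Pl.bd {k : ℕ} {Φ : (Zp d → Fin d → G) → ℝ} (hΦ : Φ ∈ Pl L d k) :
    ∃ (R : ℕ) (C : ℝ), 0 ≤ C ∧ ∀ u, |Φ u| ≤ C * SR L R u ^ k := by
  induction hΦ using Submodule.span_induction with
  | mem x hx =>
    obtain ⟨ls, hl, rfl⟩ := hx
    obtain ⟨R, hR⟩ := xm_bd (L := L) ls
    exact ⟨R, 1, zero_le_one, fun u => by rw [one_mul, ← hl]; exact hR u⟩
  | zero => exact ⟨0, 0, le_rfl, fun u => by simp⟩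
  | add y y' _ _ h1 h2 =>
    obtain ⟨R1, C1, hC1, h1⟩ := h1
    obtain ⟨R2, C2, hC2, h2⟩ := h2
    refine ⟨max R1 R2, C1 + C2, by positivity, fun u => ?_⟩
    have e1 := (h1 u).trans (mul_le_mul_of_nonneg_left (pow_le_pow_left₀ (SR_nonneg _ _)
      (SR_mono (le_max_left R1 R2) u) k) hC1)
    have e2 := (h2 u).trans (mul_le_mul_of_nonneg_left (pow_le_pow_left₀ (SR_nonneg _ _)
      (SR_mono (le_max_right R1 R2) u) k) hC2)
    rw [add_mul]
    exact (abs_add_le _ _).trans (add_le_add e1 e2)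
  | smul c y _ h1 =>
    obtain ⟨R1, C1, hC1, h1⟩ := h1
    refine ⟨R1, |c| * C1, by positivity, fun u => ?_⟩
    rw [Pi.smul_apply, smul_eq_mul, abs_mul, mul_assoc]
    exact mul_le_mul_of_nonneg_left (h1 u) (abs_nonneg _)

theorem Pl.lim (hd : 3 ≤ d) (hB : S_B2) (hT : S_TR) (hW : S_W1) (hH : S_HAF) {k : ℕ}
    {Φ : (Zp d → Fin d → G) → ℝ} (hΦ : Φ ∈ Pl L d k) :
    ∃ g, Tendsto (fun z => z.1 ^ (2 * k) * ee μ L z Φ) FB (𝓝 g) := by
  have h : Φ ∈ Pl L d k ∧ ∃ g, Tendsto (fun z => z.1 ^ (2 * k) * ee μ L z Φ) FB (𝓝 g) := by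
    induction hΦ using Submodule.span_induction with
    | mem x hx =>
      obtain ⟨ls, hl, rfl⟩ := hx
      refine ⟨xm_mem ls hl, ?_⟩
      subst hl
      obtain ⟨g, hg⟩ := mf_lim μ (L := L) hd hB hT hW hH (fun i : Fin ls.length => (ls.get i).2.1)
        (fun i => (ls.get i).1) (fun i => (ls.get i).2.2)
      refine ⟨g, ?_⟩
      have e : mf L (fun i : Fin ls.length => (ls.get i).2.1) (fun i => (ls.get i).1)
          (fun i => (ls.get i).2.2) = xm L ls := by
        funext u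
        unfold mf xm
        rw [← List.prod_ofFn]
        congr 1
        conv_rhs => rw [← List.ofFn_get ls, List.map_ofFn]
        rfl
      rw [e] at hg
      exact hg
    | zero =>
      refine ⟨Submodule.zero_mem _, 0, ?_⟩
      have e : ∀ z : ℝ × ℕ, ee μ L z (0 : (Zp d → Fin d → G) → ℝ) = 0 := fun z => ee_const μ 0
      simp only [e, mul_zero]
      exact tendsto_const_nhds
    | add y y' _ _ h1 h2 =>
      obtain ⟨m1, g1, h1⟩ := h1
      obtain ⟨m2, g2, h2⟩ := h2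
      refine ⟨Submodule.add_mem _ m1 m2, g1 + g2, ?_⟩
      refine (h1.add h2).congr fun z => ?_
      have := ee_add μ (L := L) (x := z) (Pl.cont m1) (Pl.cont m2)
      show _ = z.1 ^ (2 * k) * ee μ L z (fun u => y u + y' u)
      rw [this]; ring
    | smul c y _ h1 =>
      obtain ⟨m1, g1, h1⟩ := h1
      refine ⟨Submodule.smul_mem _ _ m1, c * g1, ?_⟩
      refine (h1.const_mul c).congr fun z => ?_
      have := ee_smul μ (L := L) (x := z) c y
      show _ = z.1 ^ (2 * k) * ee μ L z (fun u => c * y u)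
      rw [this]; ring
  exact h.2

end

end Pool.Agent.Y16.YM
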