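import Mathlib
import Pool.Agent.Y16.NL.ExA

/-!
# The algebra of expansions
-/

open MeasureTheory Matrix Filter
open scoped Matrix.Norms.Frobenius Topology
open Pool.Agent.H906R3.YM Pool.Agent.W793.YM Pool.Agent.TH940.YM
open Pool.Agent.W793.SCH (haf Near pk gK DD mx el TK S_B1 S_B2 S_TR S_W1 S_HAF green plaq_moment2)

namespace Pool.Agent.Y16.YM

set_option linter.unusedSectionVars false
set_option linter.unusedVariables false
set_option maxHeartbeats 400000

noncomputable section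

variable {G : Type} [Group G] [TopologicalSpace G] [IsTopologicalGroup G] [CompactSpace G]
  [SecondCountableTopology G] [MeasurableSpace G] [BorelSpace G] (μ : Measure G)
  [IsProbabilityMeasure μ] [μ.IsMulLeftInvariant] [μ.IsMulRightInvariant] [μ.IsInvInvariant]
  {N n : ℕ} {L : LD G N n} {d : ℕ}

/-- `F` is of order `m` -/
def Ob (L : LD G N n) (m : ℕ) (F : (Zp d → Fin d → G) → ℝ) : Prop :=
  ∃ (R : ℕ) (C : ℝ), 0 ≤ C ∧ ∀ u, |F u| ≤ C * SR L R u ^ m

lemma Ob.add {m : ℕ} {F H : (Zp d → Fin d → G) → ℝ} (hF : Ob L m F) (hH : Ob L m H) :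
    Ob L m (fun u => F u + H u) := by
  obtain ⟨R1, C1, hC1, h1⟩ := hF
  obtain ⟨R2, C2, hC2, h2⟩ := hH
  refine ⟨max R1 R2, C1 + C2, by positivity, fun u => ?_⟩
  have e1 := (h1 u).trans (mul_le_mul_of_nonneg_left (pow_le_pow_left₀ (SR_nonneg _ _)
    (SR_mono (le_max_left R1 R2) u) m) hC1)
  have e2 := (h2 u).trans (mul_le_mul_of_nonneg_left (pow_le_pow_left₀ (SR_nonneg _ _)
    (SR_mono (le_max_right R1 R2) u) m) hC2)
  rw [add_mul]
  exact (abs_add_le _ _).trans (add_le_add e1 e2)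

lemma Ob.smul {m : ℕ} {F : (Zp d → Fin d → G) → ℝ} (hF : Ob L m F) (c : ℝ) :
    Ob L m (fun u => c * F u) := by
  obtain ⟨R1, C1, hC1, h1⟩ := hF
  refine ⟨R1, |c| * C1, by positivity, fun u => ?_⟩
  rw [abs_mul, mul_assoc]
  exact mul_le_mul_of_nonneg_left (h1 u) (abs_nonneg _)

lemma Ob.neg {m : ℕ} {F : (Zp d → Fin d → G) → ℝ} (hF : Ob L m F) :
    Ob L m (fun u => -F u) := by
  obtain ⟨R1, C1, hC1, h1⟩ := hF
  exact ⟨R1, C1, hC1, fun u => by rw [abs_neg]; exact h1 u⟩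

lemma Ob.sub {m : ℕ} {F H : (Zp d → Fin d → G) → ℝ} (hF : Ob L m F) (hH : Ob L m H) :
    Ob L m (fun u => F u - H u) := by
  have := hF.add hH.neg
  simpa only [← sub_eq_add_neg] using this

lemma Ob.zero (m : ℕ) : Ob L m (fun _ : Zp d → Fin d → G => 0) := ⟨0, 0, le_rfl, fun u => by simp⟩

lemma Ob.sum {ι : Type*} [DecidableEq ι] {m : ℕ} (s : Finset ι)
    {F : ι → (Zp d → Fin d → G) → ℝ} (h : ∀ i ∈ s, Ob L m (F i)) :
    Ob L m (fun u => ∑ i ∈ s, F i u) := by
  induction s using Finset.induction_on with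
  | empty => simpa using Ob.zero m
  | insert j s hj ih =>
    have e : (fun u => ∑ i ∈ insert j s, F i u) = fun u => F j u + ∑ i ∈ s, F i u := by
      funext u; rw [Finset.sum_insert hj]
    rw [e]
    exact (h j (Finset.mem_insert_self _ _)).add
      (ih fun i hi => h i (Finset.mem_insert_of_mem hi))

lemma Ob.mul {k m : ℕ} {F H : (Zp d → Fin d → G) → ℝ} (hF : Ob L k F) (hH : Ob L m H) :
    Ob L (k + m) (fun u => F u * H u) := by
  obtain ⟨R1, C1, hC1, h1⟩ := hF
  obtain ⟨R2, C2, hC2, h2⟩ := hH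
  refine ⟨max R1 R2, C1 * C2, by positivity, fun u => ?_⟩
  have e1 := (h1 u).trans (mul_le_mul_of_nonneg_left (pow_le_pow_left₀ (SR_nonneg _ _)
    (SR_mono (le_max_left R1 R2) u) k) hC1)
  have e2 := (h2 u).trans (mul_le_mul_of_nonneg_left (pow_le_pow_left₀ (SR_nonneg _ _)
    (SR_mono (le_max_right R1 R2) u) m) hC2)
  rw [abs_mul, pow_add]
  calc |F u| * |H u| ≤ (C1 * SR L (max R1 R2) u ^ k) * (C2 * SR L (max R1 R2) u ^ m) :=
        mul_le_mul e1 e2 (abs_nonneg _) (mul_nonneg hC1 (pow_nonneg (SR_nonneg _ _) _))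
    _ = _ := by ring

lemma Ob.mono {k m : ℕ} {F : (Zp d → Fin d → G) → ℝ} (hF : Ob L m F) (h : k ≤ m) : Ob L k F := by
  obtain ⟨R1, C1, hC1, h1⟩ := hF
  obtain ⟨C, hC, h2⟩ := SR_pow_le (L := L) (d := d) R1 h
  refine ⟨R1, C1 * C, by positivity, fun u => (h1 u).trans ?_⟩
  rw [mul_assoc]
  exact mul_le_mul_of_nonneg_left (h2 u) hC1

lemma Ob_pl {k : ℕ} {Φ : (Zp d → Fin d → G) → ℝ} (h : Φ ∈ Pl L d k) : Ob L k Φ := Pl.bd h

/-- bounded functions -/
lemma Ob_cont {F : (Zp d → Fin d → G) → ℝ} (hF : Continuous F) : Ob L 0 F := by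
  obtain ⟨K, hK0, hK⟩ := bdd_cont hF
  exact ⟨0, K, hK0, fun u => by rw [pow_zero, mul_one]; exact hK u⟩

lemma Ob_le {m : ℕ} {F H : (Zp d → Fin d → G) → ℝ} (hF : Ob L m F) (h : ∀ u, |H u| ≤ |F u|) :
    Ob L m H := by
  obtain ⟨R, C, hC, h1⟩ := hF
  exact ⟨R, C, hC, fun u => (h u).trans (h1 u)⟩

/-- `F` has an expansion in powers of the field strengths, beginning with the order `k`, up to errors
of the order `m` -/
def Ex (L : LD G N n) (k m : ℕ) (F : (Zp d → Fin d → G) → ℝ) : Prop :=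
  ∃ Ψ : ℕ → (Zp d → Fin d → G) → ℝ, (∀ i, Ψ i ∈ Pl L d i) ∧
    Ob L m (fun u => F u - ∑ i ∈ Finset.Ico k m, Ψ i u)

lemma Ex.add {k m : ℕ} {F H : (Zp d → Fin d → G) → ℝ} (hF : Ex L k m F) (hH : Ex L k m H) :
    Ex L k m (fun u => F u + H u) := by
  obtain ⟨Ψ, h1, h2⟩ := hF
  obtain ⟨Ψ', h1', h2'⟩ := hH
  refine ⟨fun i => Ψ i + Ψ' i, fun i => Submodule.add_mem _ (h1 i) (h1' i), ?_⟩
  have := h2.add h2'
  refine Ob_le this fun u => le_of_eq ?_
  congr 1
  simp only [Pi.add_apply, Finset.sum_add_distrib]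
  ring

lemma Ex.smul {k m : ℕ} {F : (Zp d → Fin d → G) → ℝ} (hF : Ex L k m F) (c : ℝ) :
    Ex L k m (fun u => c * F u) := by
  obtain ⟨Ψ, h1, h2⟩ := hF
  refine ⟨fun i => c • Ψ i, fun i => Submodule.smul_mem _ _ (h1 i), ?_⟩
  refine Ob_le (h2.smul c) fun u => le_of_eq ?_
  congr 1
  simp only [Pi.smul_apply, smul_eq_mul, ← Finset.mul_sum]
  ring

lemma Ex.neg {k m : ℕ} {F : (Zp d → Fin d → G) → ℝ} (hF : Ex L k m F) :
    Ex L k m (fun u => -F u) := by
  have := hF.smul (-1)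
  simpa using this

lemma Ex.sub {k m : ℕ} {F H : (Zp d → Fin d → G) → ℝ} (hF : Ex L k m F) (hH : Ex L k m H) :
    Ex L k m (fun u => F u - H u) := by
  have := hF.add hH.neg
  simpa only [← sub_eq_add_neg] using this

/-- an expansion may be changed by an error of order `m` -/
lemma Ex.close {k m : ℕ} {F H : (Zp d → Fin d → G) → ℝ} (hF : Ex L k m F)
    (h : Ob L m (fun u => H u - F u)) : Ex L k m H := by
  obtain ⟨Ψ, h1, h2⟩ := hF
  refine ⟨Ψ, h1, Ob_le (h.add h2) fun u => le_of_eq ?_⟩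
  congr 1
  ring

lemma Ex_of_Ob {k m : ℕ} {F : (Zp d → Fin d → G) → ℝ} (h : Ob L m F) : Ex L k m F := by
  refine ⟨fun _ => 0, fun i => Submodule.zero_mem _, ?_⟩
  refine Ob_le h fun u => le_of_eq ?_
  simp

lemma Ex.zero (k m : ℕ) : Ex L k m (fun _ : Zp d → Fin d → G => 0) := Ex_of_Ob (Ob.zero m)

lemma Ex.sum {ι : Type*} [DecidableEq ι] {k m : ℕ} (s : Finset ι)
    {F : ι → (Zp d → Fin d → G) → ℝ} (h : ∀ i ∈ s, Ex L k m (F i)) :
    Ex L k m (fun u => ∑ i ∈ s, F i u) := by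
  induction s using Finset.induction_on with
  | empty => simpa using Ex.zero k m
  | insert j s hj ih =>
    have e : (fun u => ∑ i ∈ insert j s, F i u) = fun u => F j u + ∑ i ∈ s, F i u := by
      funext u; rw [Finset.sum_insert hj]
    rw [e]
    exact (h j (Finset.mem_insert_self _ _)).add
      (ih fun i hi => h i (Finset.mem_insert_of_mem hi))

/-- homogeneous polynomials -/
lemma Ex_pl {k m j : ℕ} {Φ : (Zp d → Fin d → G) → ℝ} (h : Φ ∈ Pl L d j) (hk : k ≤ j) :
    Ex L k m Φ := by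
  rcases lt_or_ge j m with hj | hj
  · refine ⟨fun i => if i = j then Φ else 0, fun i => ?_, ?_⟩
    · show (if i = j then Φ else 0) ∈ _
      split_ifs with hi
      · rw [hi]; exact h
      · exact Submodule.zero_mem _
    · refine Ob_le (Ob.zero m) fun u => le_of_eq ?_
      congr 1
      rw [Finset.sum_eq_single j]
      · simp
      · intro b _ hb
        show (if b = j then Φ else 0) u = 0
        rw [if_neg hb]; rfl
      · intro hn
        exact absurd (Finset.mem_Ico.2 ⟨hk, hj⟩) hn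
  · exact Ex_of_Ob ((Ob_pl h).mono hj)

lemma Ex_const (c : ℝ) (m : ℕ) : Ex L 0 m (fun _ : Zp d → Fin d → G => c) := by
  have := (Ex_pl (m := m) (one_mem (L := L) (d := d)) le_rfl).smul c
  simpa using this

lemma Ex.mono_left {k k' m : ℕ} {F : (Zp d → Fin d → G) → ℝ} (hF : Ex L k m F) (h : k' ≤ k) :
    Ex L k' m F := by
  obtain ⟨Ψ, h1, h2⟩ := hF
  have h3 : Ex L k' m (fun u => ∑ i ∈ Finset.Ico k m, Ψ i u) :=
    Ex.sum _ fun i hi => Ex_pl (h1 i) (h.trans (Finset.mem_Ico.1 hi).1)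
  exact h3.close h2

lemma Ex.mono_right {k m m' : ℕ} {F : (Zp d → Fin d → G) → ℝ} (hF : Ex L k m F) (h : m' ≤ m) :
    Ex L k m' F := by
  obtain ⟨Ψ, h1, h2⟩ := hF
  have h3 : Ex L k m' (fun u => ∑ i ∈ Finset.Ico k m, Ψ i u) :=
    Ex.sum _ fun i hi => Ex_pl (h1 i) (Finset.mem_Ico.1 hi).1
  exact h3.close (h2.mono h)

lemma Ex.ob {k m : ℕ} {F : (Zp d → Fin d → G) → ℝ} (hF : Ex L k m F) (hkm : k ≤ m) : Ob L k F := by
  obtain ⟨Ψ, h1, h2⟩ := hF
  have h3 : Ob L k (fun u => ∑ i ∈ Finset.Ico k m, Ψ i u) :=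
    Ob.sum _ fun i hi => (Ob_pl (h1 i)).mono (Finset.mem_Ico.1 hi).1
  refine Ob_le (h3.add (h2.mono hkm)) fun u => le_of_eq ?_
  congr 1; ring

lemma Ex.mul {k k' s : ℕ} {F H : (Zp d → Fin d → G) → ℝ} (hF : Ex L k (k + s) F)
    (hH : Ex L k' (k' + s) H) : Ex L (k + k') (k + k' + s) (fun u => F u * H u) := by
  obtain ⟨Ψ, h1, h2⟩ := hF
  have oH := hH.ob (by omega)
  obtain ⟨Ψ', h1', h2'⟩ := hH
  have h3 : Ex L (k + k') (k + k' + s) (fun u => (∑ i ∈ Finset.Ico k (k + s), Ψ i u) *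
      ∑ j ∈ Finset.Ico k' (k' + s), Ψ' j u) := by
    have e : (fun u => (∑ i ∈ Finset.Ico k (k + s), Ψ i u) *
        ∑ j ∈ Finset.Ico k' (k' + s), Ψ' j u) = fun u => ∑ i ∈ Finset.Ico k (k + s),
        ∑ j ∈ Finset.Ico k' (k' + s), Ψ i u * Ψ' j u := by
      funext u
      rw [Finset.sum_mul]
      exact Finset.sum_congr rfl fun i _ => Finset.mul_sum _ _ _
    rw [e]
    refine Ex.sum _ fun i hi => Ex.sum _ fun j hj => Ex_pl (Pl.mul (h1 i) (h1' j)) ?_
    rw [Finset.mem_Ico] at hi hj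
    omega
  have oA : Ob L k (fun u => ∑ i ∈ Finset.Ico k (k + s), Ψ i u) :=
    Ob.sum _ fun i hi => (Ob_pl (h1 i)).mono (Finset.mem_Ico.1 hi).1
  refine h3.close ?_
  have o1 := h2.mul oH
  have o2 := oA.mul h2'
  have o1' : Ob L (k + k' + s) (fun u => (F u - ∑ i ∈ Finset.Ico k (k + s), Ψ i u) * H u) :=
    o1.mono (by omega)
  have o2' : Ob L (k + k' + s) (fun u => (∑ i ∈ Finset.Ico k (k + s), Ψ i u) *
      (H u - ∑ j ∈ Finset.Ico k' (k' + s), Ψ' j u)) := o2.mono (by omega)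
  refine Ob_le (o1'.add o2') fun u => le_of_eq ?_
  congr 1
  ring

/-- the leading order of an expectation -/
theorem Ex.lim (hd : 3 ≤ d) (hB : S_B2) (hT : S_TR) (hW : S_W1) (hH : S_HAF) {CT : ℝ}
    (hTg : Tg L CT) {k m : ℕ} (hkm : k < m) {F : (Zp d → Fin d → G) → ℝ} (hF : Ex L k m F)
    (hc : Continuous F) : ∃ g, Tendsto (fun z => z.1 ^ (2 * k) * ee μ L z F) FB (𝓝 g) := by
  have h1 : Ex L k (k + 1) F := hF.mono_right hkm
  obtain ⟨Ψ, h2, R, C, hC, h3⟩ := h1
  simp only [Nat.Ico_succ_singleton, Finset.sum_singleton] at h3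
  obtain ⟨g, hg⟩ := Pl.lim μ (L := L) hd hB hT hW hH (h2 k)
  have cΨ := Pl.cont (h2 k)
  have h4 := err_negl μ (L := L) hd hB hT hW hH hTg (Nat.lt_succ_self k) (hc.sub cΨ) h3
  refine ⟨g, ?_⟩
  have h5 := hg.add h4
  rw [add_zero] at h5
  refine h5.congr fun z => ?_
  have h6 : ee μ L z (F - Ψ k) = ee μ L z F - ee μ L z (Ψ k) := ee_sub μ hc cΨ
  rw [h6]; ring

/-- a function of higher order does not contribute -/
theorem Ob.lim (hd : 3 ≤ d) (hB : S_B2) (hT : S_TR) (hW : S_W1) (hH : S_HAF) {CT : ℝ}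
    (hTg : Tg L CT) {k m : ℕ} (hkm : k < m) {F : (Zp d → Fin d → G) → ℝ} (hF : Ob L m F)
    (hc : Continuous F) : Tendsto (fun z => z.1 ^ (2 * k) * ee μ L z F) FB (𝓝 0) := by
  obtain ⟨R, C, hC, h⟩ := hF
  exact err_negl μ (L := L) hd hB hT hW hH hTg hkm hc h

/-! ### matrix valued functions -/

/-- expansions of matrix valued functions -/
def EM (L : LD G N n) (k m : ℕ) (F : (Zp d → Fin d → G) → Mat N) : Prop :=
  ∀ A : Mat N, Ex L k m (fun u => ip A (F u))

lemma EM.add {k m : ℕ} {F H : (Zp d → Fin d → G) → Mat N} (hF : EM L k m F) (hH : EM L k m H) :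
    EM L k m (fun u => F u + H u) := fun A => by
  have := (hF A).add (hH A)
  simpa only [map_add] using this

lemma EM.sub {k m : ℕ} {F H : (Zp d → Fin d → G) → Mat N} (hF : EM L k m F) (hH : EM L k m H) :
    EM L k m (fun u => F u - H u) := fun A => by
  have := (hF A).sub (hH A)
  simpa only [map_sub] using this

lemma EM.neg {k m : ℕ} {F : (Zp d → Fin d → G) → Mat N} (hF : EM L k m F) :
    EM L k m (fun u => -F u) := fun A => by
  have := (hF A).neg
  simpa only [map_neg] using this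

lemma EM.mono_left {k k' m : ℕ} {F : (Zp d → Fin d → G) → Mat N} (hF : EM L k m F)
    (h : k' ≤ k) : EM L k' m F := fun A => (hF A).mono_left h

lemma EM.mono_right {k m m' : ℕ} {F : (Zp d → Fin d → G) → Mat N} (hF : EM L k m F)
    (h : m' ≤ m) : EM L k m' F := fun A => (hF A).mono_right h

lemma EM_smul {k m : ℕ} {f : (Zp d → Fin d → G) → ℝ} (hf : Ex L k m f) (B : Mat N) :
    EM L k m (fun u => f u • B) := fun A => by
  have := hf.smul (ip A B)
  refine (by simpa only [map_smul, smul_eq_mul, mul_comm] using this)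

lemma EM.sum {ι : Type*} [DecidableEq ι] {k m : ℕ} (s : Finset ι)
    {F : ι → (Zp d → Fin d → G) → Mat N} (h : ∀ i ∈ s, EM L k m (F i)) :
    EM L k m (fun u => ∑ i ∈ s, F i u) := fun A => by
  have := Ex.sum s fun i hi => h i hi A
  simpa only [map_sum] using this

/-- the matrix units, real and imaginary -/
def eb (N : ℕ) : (Fin N × Fin N) × Fin 2 → Mat N := fun q =>
  Matrix.single q.1.1 q.1.2 (if q.2 = 0 then 1 else Complex.I)

lemma ip_single (A : Mat N) (i j : Fin N) (w : ℂ) :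
    ip A (Matrix.single i j w) = (star (A i j) * w).re := by
  rw [ip_apply, Matrix.trace]
  have h : ∀ k, (Aᴴ * Matrix.single i j w).diag k = if k = j then star (A i j) * w else 0 := by
    intro k
    rw [Matrix.diag_apply, Matrix.mul_apply]
    split_ifs with hk
    · subst hk
      rw [Finset.sum_eq_single i]
      · simp [Matrix.single]
      · intro b _ hb
        simp [Matrix.single, hb.symm]
      · intro h; exact absurd (Finset.mem_univ _) h
    · refine Finset.sum_eq_zero fun b _ => ?_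
      simp [Matrix.single, Ne.symm hk]
  simp only [h, Finset.sum_ite_eq', Finset.mem_univ, if_true]

lemma mat_expand (M : Mat N) : M = ∑ q, ip (eb N q) M • eb N q := by
  ext i j
  rw [Matrix.sum_apply, Fintype.sum_prod_type, Finset.sum_eq_single (i, j)]
  · rw [Fin.sum_univ_two]
    have h0 : ip (eb N ((i, j), 0)) M = (M i j).re := by
      rw [ip_comm]
      unfold eb
      rw [ip_single]
      simp
    have h1 : ip (eb N ((i, j), 1)) M = (M i j).im := by
      rw [ip_comm]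
      unfold eb
      rw [ip_single]
      simp
    rw [h0, h1]
    unfold eb
    simp [Matrix.single]
  · intro q _ hq
    refine Finset.sum_eq_zero fun s _ => ?_
    have : ¬(q.1 = i ∧ q.2 = j) := fun h => hq (Prod.ext h.1 h.2)
    simp only [Matrix.smul_apply, eb, Matrix.single, Matrix.of_apply, if_neg this, smul_zero]
  · intro h; exact absurd (Finset.mem_univ _) h

lemma EM.mul {k k' s : ℕ} {F H : (Zp d → Fin d → G) → Mat N} (hF : EM L k (k + s) F)
    (hH : EM L k' (k' + s) H) : EM L (k + k') (k + k' + s) (fun u => F u * H u) := by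
  have e : (fun u => F u * H u) = fun u => ∑ q, ∑ q',
      (ip (eb N q) (F u) * ip (eb N q') (H u)) • (eb N q * eb N q') := by
    funext u
    conv_lhs => rw [mat_expand (F u), mat_expand (H u)]
    rw [Finset.sum_mul]
    refine Finset.sum_congr rfl fun q _ => ?_
    rw [Finset.mul_sum]
    refine Finset.sum_congr rfl fun q' _ => ?_
    rw [smul_mul_smul_comm]
  rw [e]
  exact EM.sum _ fun q _ => EM.sum _ fun q' _ => EM_smul ((hF _).mul (hH _)) _

lemma EM_const (A : Mat N) (m : ℕ) : EM L 0 m (fun _ : Zp d → Fin d → G => A) := fun B =>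
  Ex_const _ _

lemma EM.ct {k m : ℕ} {F : (Zp d → Fin d → G) → Mat N} (hF : EM L k m F) :
    EM L k m (fun u => (F u)ᴴ) := fun A => by
  have h : ∀ u, ip A ((F u)ᴴ) = ip Aᴴ (F u) := by
    intro u
    rw [ip_apply, ip_apply, conjTranspose_conjTranspose]
    have : trace (Aᴴ * (F u)ᴴ) = star (trace (F u * A)) := by
      rw [← trace_conjTranspose, conjTranspose_mul]
    rw [this, trace_mul_comm]
    simp
  simp only [h]
  exact hF _

end

end Pool.Agent.Y16.YM
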