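import Mathlib
import Pool.Agent.Y16.NL.ExB

/-!
# The expansions of the links, of the second order part of the field strength and of the current
-/

open MeasureTheory Matrix Filter
open scoped Matrix.Norms.Frobenius Topology
open Pool.Agent.H906R3.YM Pool.Agent.W793.YM Pool.Agent.TH940.YM
open Pool.Agent.W793.SCH (haf Near pk gK DD mx el TK S_B1 S_B2 S_TR S_W1 S_HAF green plaq_moment2)

namespace Pool.Agent.Y16.YM

set_option linter.unusedSectionVars false
set_option linter.unusedVariables false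
set_option maxHeartbeats 400000

noncomputable section

variable {G : Type} [Group G] [TopologicalSpace G] [IsTopologicalGroup G] [CompactSpace G]
  [SecondCountableTopology G] [MeasurableSpace G] [BorelSpace G]
  {N n : ℕ} {L : LD G N n} {d : ℕ}

/-- the projection to the Lie algebra -/
def PL (L : LD G N n) (M : Mat N) : Mat N := ∑ a, ip (L.X a) M • L.X a

/-- the part of a group element in the Lie algebra -/
def Yg (L : LD G N n) (g : G) : Mat N := ∑ a, cc L a g • L.X a

/-- the group is the graph of a function with an expansion up to the third order -/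
def Tg4 (L : LD G N n) : Prop := ∃ C : ℝ, 0 ≤ C ∧ ∀ g, ‖L.rho g - 1 - Yg L g -
  (1 / 2 : ℝ) • (Yg L g * Yg L g) -
  (1 / 6 : ℝ) • (Yg L g * (Yg L g * Yg L g) - PL L (Yg L g * (Yg L g * Yg L g)))‖ ≤
    C * dv L g ^ 4

lemma EM.close {k m : ℕ} {F H : (Zp d → Fin d → G) → Mat N} (hF : EM L k m F)
    (h : ∃ (R : ℕ) (C : ℝ), 0 ≤ C ∧ ∀ u, ‖H u - F u‖ ≤ C * SR L R u ^ m) : EM L k m H := by
  intro A
  obtain ⟨R, C, hC, h⟩ := h
  refine (hF A).close ⟨R, ‖A‖ * C, by positivity, fun u => ?_⟩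
  show |ip A (H u) - ip A (F u)| ≤ _
  rw [← map_sub, mul_assoc]
  exact (abs_ip_le _ _).trans (mul_le_mul_of_nonneg_left (h u) (norm_nonneg _))

lemma EM.smul {k m : ℕ} {F : (Zp d → Fin d → G) → Mat N} (hF : EM L k m F) (c : ℝ) :
    EM L k m (fun u => c • F u) := fun A => by
  have := (hF A).smul c
  simpa only [map_smul, smul_eq_mul] using this

lemma EM.proj {k m : ℕ} {F : (Zp d → Fin d → G) → Mat N} (hF : EM L k m F) :
    EM L k m (fun u => PL L (F u)) := EM.sum _ fun a _ => EM_smul (hF _) _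

lemma Ex_fF (j k : Fin d) (x : Zp d) (a : Fin n) {k₀ m : ℕ} (h : k₀ ≤ 1) :
    Ex L k₀ m (fun u => fF L j k x u a) := Ex_pl (xv_mem ((j, k), x, a)) h

lemma EM_Yg (j k : Fin d) (x : Zp d) {k₀ m : ℕ} (h : k₀ ≤ 1) :
    EM L k₀ m (fun u => Yg L (Gz u x j k)) := EM.sum _ fun a _ => EM_smul (Ex_fF j k x a h) _

/-- a group valued function with an expansion -/
def EW (L : LD G N n) (w : (Zp d → Fin d → G) → G) : Prop :=
  EM L 1 4 (fun u => L.rho (w u) - 1) ∧ EM L 2 4 (fun u => L.rho (w u) - 1 - Yg L (w u))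

lemma EW_Gz (hT : Tg4 L) (x : Zp d) (j k : Fin d) : EW L (fun u => Gz u x j k) := by
  obtain ⟨C, hC, h⟩ := hT
  have hY1 : EM L 1 (1 + 3) (fun u => Yg L (Gz u x j k)) := EM_Yg j k x le_rfl
  have hY2 : EM L 2 (2 + 3) (fun u => Yg L (Gz u x j k) * Yg L (Gz u x j k)) := hY1.mul hY1
  have hY3 : EM L 3 (3 + 3) (fun u => Yg L (Gz u x j k) *
      (Yg L (Gz u x j k) * Yg L (Gz u x j k))) := hY1.mul hY2
  have h2 : EM L 2 4 (fun u => (1 / 2 : ℝ) • (Yg L (Gz u x j k) * Yg L (Gz u x j k)) +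
      (1 / 6 : ℝ) • (Yg L (Gz u x j k) * (Yg L (Gz u x j k) * Yg L (Gz u x j k)) -
        Pool.Agent.Y16.YM.PL L (Yg L (Gz u x j k) * (Yg L (Gz u x j k) * Yg L (Gz u x j k))))) :=
    ((hY2.mono_right (by norm_num)).smul _).add
      ((((hY3.sub hY3.proj).mono_left (by norm_num)).mono_right (by norm_num)).smul _)
  have h3 : EM L 2 4 (fun u => L.rho (Gz u x j k) - 1 - Yg L (Gz u x j k)) := by
    refine h2.close ⟨l1 x, C, hC, fun u => ?_⟩
    have h4 := h (Gz u x j k)
    have e : L.rho (Gz u x j k) - 1 - Yg L (Gz u x j k) -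
        ((1 / 2 : ℝ) • (Yg L (Gz u x j k) * Yg L (Gz u x j k)) +
      (1 / 6 : ℝ) • (Yg L (Gz u x j k) * (Yg L (Gz u x j k) * Yg L (Gz u x j k)) -
        Pool.Agent.Y16.YM.PL L (Yg L (Gz u x j k) * (Yg L (Gz u x j k) * Yg L (Gz u x j k))))) =
        L.rho (Gz u x j k) - 1 - Yg L (Gz u x j k) -
        (1 / 2 : ℝ) • (Yg L (Gz u x j k) * Yg L (Gz u x j k)) -
      (1 / 6 : ℝ) • (Yg L (Gz u x j k) * (Yg L (Gz u x j k) * Yg L (Gz u x j k)) -
        Pool.Agent.Y16.YM.PL L (Yg L (Gz u x j k) * (Yg L (Gz u x j k) * Yg L (Gz u x j k)))) := by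
      abel
    rw [e]
    refine h4.trans (mul_le_mul_of_nonneg_left ?_ hC)
    exact pow_le_pow_left₀ (dv_nonneg _) (le_SR u j k (coord_l1 le_rfl)) 4
  refine ⟨?_, h3⟩
  have h5 := (h3.mono_left (by norm_num : 1 ≤ 2)).add hY1
  simpa only [sub_add_cancel] using h5

lemma EW_one : EW L (fun _ : Zp d → Fin d → G => (1 : G)) := by
  have h0 : Yg L (1 : G) = 0 := by
    unfold Yg
    simp only [cc_one, zero_smul, Finset.sum_const_zero]
  constructor
  · intro A
    simp only [map_one, sub_self, map_zero]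
    exact Ex.zero _ _
  · intro A
    simp only [map_one, sub_self, h0, map_zero]
    exact Ex.zero _ _

lemma Yg_mul (g h : G) : Yg L (g * h) = Yg L g + Yg L h +
    PL L ((L.rho g - 1) * (L.rho h - 1)) := by
  unfold Yg PL
  simp only [cc_mul, add_smul, Finset.sum_add_distrib]

lemma Yg_inv (g : G) : Yg L g⁻¹ = -Yg L g := by
  unfold Yg
  simp only [cc_inv, neg_smul, Finset.sum_neg_distrib]

lemma Yg_ct (g : G) : (Yg L g)ᴴ = -Yg L g := by
  unfold Yg
  rw [conjTranspose_sum, ← Finset.sum_neg_distrib]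
  refine Finset.sum_congr rfl fun a _ => ?_
  rw [conjTranspose_smul, skew, smul_neg]
  simp

lemma mx_id1 (A B : Mat N) : A * B - 1 = A - 1 + (B - 1) + (A - 1) * (B - 1) := by
  noncomm_ring

lemma mx_id2 (A B Y Y' Z : Mat N) : A * B - 1 - (Y + Y' + Z) =
    A - 1 - Y + (B - 1 - Y') + ((A - 1) * (B - 1) - Z) := by
  noncomm_ring

lemma mx_id3 (A B Y Y' : Mat N) : A * B - Y * Y' = (A - Y) * B + Y * (B - Y') := by
  noncomm_ring

lemma EW.mul {w w' : (Zp d → Fin d → G) → G} (h : EW L w) (h' : EW L w') :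
    EW L (fun u => w u * w' u) := by
  have hp : EM L 2 5 (fun u => (L.rho (w u) - 1) * (L.rho (w' u) - 1)) :=
    EM.mul (k := 1) (k' := 1) (s := 3) (F := fun u => L.rho (w u) - 1)
      (H := fun u => L.rho (w' u) - 1) h.1 h'.1
  have hp4 := hp.mono_right (by norm_num : 4 ≤ 5)
  constructor
  · have h1 : EM L 1 4 (fun u => L.rho (w u) - 1 + (L.rho (w' u) - 1) +
        (L.rho (w u) - 1) * (L.rho (w' u) - 1)) :=
      (h.1.add h'.1).add (hp4.mono_left (by norm_num : 1 ≤ 2))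
    have e : (fun u => L.rho (w u * w' u) - 1) = fun u => L.rho (w u) - 1 + (L.rho (w' u) - 1) +
        (L.rho (w u) - 1) * (L.rho (w' u) - 1) := by
      funext u
      rw [map_mul]
      exact mx_id1 _ _
    rw [e]
    exact h1
  · have h1 : EM L 2 4 (fun u => L.rho (w u) - 1 - Yg L (w u) + (L.rho (w' u) - 1 - Yg L (w' u)) +
        ((L.rho (w u) - 1) * (L.rho (w' u) - 1) -
          PL L ((L.rho (w u) - 1) * (L.rho (w' u) - 1)))) :=
      (h.2.add h'.2).add (hp4.sub hp4.proj)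
    have e : (fun u => L.rho (w u * w' u) - 1 - Yg L (w u * w' u)) = fun u =>
        L.rho (w u) - 1 - Yg L (w u) + (L.rho (w' u) - 1 - Yg L (w' u)) +
        ((L.rho (w u) - 1) * (L.rho (w' u) - 1) -
          PL L ((L.rho (w u) - 1) * (L.rho (w' u) - 1))) := by
      funext u
      rw [Yg_mul, map_mul]
      exact mx_id2 _ _ _ _ _
    rw [e]
    exact h1

lemma EW.inv {w : (Zp d → Fin d → G) → G} (h : EW L w) : EW L (fun u => (w u)⁻¹) := by
  have e1 : ∀ g : G, L.rho g⁻¹ - 1 = (L.rho g - 1)ᴴ := by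
    intro g
    rw [conjTranspose_sub, conjTranspose_one, L.rho_inv]
  constructor
  · simp only [e1]
    exact h.1.ct
  · have e : (fun u => L.rho (w u)⁻¹ - 1 - Yg L (w u)⁻¹) = fun u =>
        (L.rho (w u) - 1 - Yg L (w u))ᴴ := by
      funext u
      rw [e1, Yg_inv, conjTranspose_sub (L.rho (w u) - 1), Yg_ct]
    rw [e]
    exact h.2.ct

/-- the links have an expansion -/
theorem EW_Vz (hT : Tg4 L) : ∀ (x : Zp d) (i : Fin d), EW L (fun u => Vz u x i) := by
  refine comb_step (fun x i h => ?_) (fun x i j hij h h0 ih => ?_) fun x i j hij h h0 ih => ?_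
  · have e : (fun u : Zp d → Fin d → G => Vz u x i) = fun _ => 1 := by
      funext u; exact Vz_tree u x i h
    rw [e]
    exact EW_one
  · have e : (fun u : Zp d → Fin d → G => Vz u (x + ez j) i) = fun u =>
        Gz u x j i * Vz u x i := by
      funext u; exact Vz_step u x hij h
    rw [e]
    exact (EW_Gz hT x j i).mul ih
  · have e : (fun u : Zp d → Fin d → G => Vz u (x - ez j) i) = fun u =>
        (Gz u (x - ez j) j i)⁻¹ * Vz u x i := by
      funext u; exact Vz_stepn u x hij h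
    rw [e]
    exact (EW_Gz hT (x - ez j) j i).inv.mul ih

lemma EW.cc {w : (Zp d → Fin d → G) → G} (h : EW L w) (a : Fin n) :
    Ex L 1 4 (fun u => cc L a (w u)) := by
  have := h.1 (L.X a)
  simpa only [← cc_sub] using this

/-- a product of two group elements -/
lemma EW.cc_mul2 {w w' : (Zp d → Fin d → G) → G} (h : EW L w) (h' : EW L w') (a : Fin n) :
    Ex L 2 4 (fun u => Pool.Agent.Y16.YM.cc L a (w u * w' u) - Pool.Agent.Y16.YM.cc L a (w u) -
      Pool.Agent.Y16.YM.cc L a (w' u)) := by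
  have hp : EM L 2 5 (fun u => (L.rho (w u) - 1) * (L.rho (w' u) - 1)) :=
    EM.mul (k := 1) (k' := 1) (s := 3) (F := fun u => L.rho (w u) - 1)
      (H := fun u => L.rho (w' u) - 1) h.1 h'.1
  have h1 := (hp.mono_right (by norm_num : 4 ≤ 5)) (L.X a)
  refine (by
    have e : (fun u => Pool.Agent.Y16.YM.cc L a (w u * w' u) - Pool.Agent.Y16.YM.cc L a (w u) -
      Pool.Agent.Y16.YM.cc L a (w' u)) = fun u =>
        ip (L.X a) ((L.rho (w u) - 1) * (L.rho (w' u) - 1)) := by
      funext u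
      rw [cc_mul]; ring
    rw [e]; exact h1)

/-- the product of two deviations -/
lemma EW.qd {w w' : (Zp d → Fin d → G) → G} (h : EW L w) (h' : EW L w') (c : Fin n) :
    Ex L 3 4 (fun u => ip (L.X c) ((L.rho (w u) - 1) * (L.rho (w' u) - 1)) -
      Pool.Agent.Y16.YM.qd L (fun a => Pool.Agent.Y16.YM.cc L a (w u))
        (fun a => Pool.Agent.Y16.YM.cc L a (w' u)) c) := by
  have hY : EM L 1 (1 + 2) (fun u => Yg L (w u)) := EM.sum _ fun a _ =>
    EM_smul ((h.cc a).mono_right (by norm_num)) _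
  have h1 : EM L 3 (3 + 2) (fun u => (L.rho (w u) - 1 - Yg L (w u)) * (L.rho (w' u) - 1)) :=
    EM.mul (k := 2) (k' := 1) (s := 2) h.2 (h'.1.mono_right (by norm_num))
  have h2 : EM L 3 (3 + 2) (fun u => Yg L (w u) * (L.rho (w' u) - 1 - Yg L (w' u))) :=
    EM.mul (k := 1) (k' := 2) (s := 2) hY h'.2
  have h3 := ((h1.add h2).mono_right (by norm_num : 4 ≤ 3 + 2)) (L.X c)
  have e : (fun u => ip (L.X c) ((L.rho (w u) - 1) * (L.rho (w' u) - 1)) -
      Pool.Agent.Y16.YM.qd L (fun a => Pool.Agent.Y16.YM.cc L a (w u))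
        (fun a => Pool.Agent.Y16.YM.cc L a (w' u)) c) = fun u =>
      ip (L.X c) ((L.rho (w u) - 1 - Yg L (w u)) * (L.rho (w' u) - 1) +
        Yg L (w u) * (L.rho (w' u) - 1 - Yg L (w' u))) := by
    funext u
    have e2 : Pool.Agent.Y16.YM.qd L (fun a => Pool.Agent.Y16.YM.cc L a (w u))
        (fun a => Pool.Agent.Y16.YM.cc L a (w' u)) c = ip (L.X c) (Yg L (w u) * Yg L (w' u)) :=
      (ip_sum2 _ _ _).symm
    rw [e2, ← map_sub, mx_id3]
  rw [e]
  exact h3

/-- products of expansions -/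
lemma Ex_qd {A B : (Zp d → Fin d → G) → Fin n → ℝ} {k k' s : ℕ}
    (hA : ∀ a, Ex L k (k + s) (fun u => A u a)) (hB : ∀ a, Ex L k' (k' + s) (fun u => B u a))
    (c : Fin n) : Ex L (k + k') (k + k' + s) (fun u => qd L (A u) (B u) c) := by
  unfold qd
  exact Ex.sum _ fun a _ => Ex.sum _ fun b _ => ((hA a).mul (hB b)).smul _

lemma Ex_pm (i : Fin d) (x : Zp d) (a : Fin n) {k m : ℕ} (h : k ≤ 1) :
    Ex L k m (fun u : Zp d → Fin d → G => pm L i x u a) := by
  unfold pm
  simp only [pot_eq]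
  exact Ex.sum _ fun q _ => (Ex_fF (L := L) q.1 i (cut x q.1 q.2) a h).smul _

/-- the potential to first order -/
theorem am_sub_pm (hT : Tg4 L) (a : Fin n) : ∀ (x : Zp d) (i : Fin d),
    Ex L 2 4 (fun u => am L i x u a - pm L i x u a) := by
  refine comb_step (fun x i h => ?_) (fun x i j hij h h0 ih => ?_) fun x i j hij h h0 ih => ?_
  · have e : (fun u : Zp d → Fin d → G => am L i x u a - pm L i x u a) = fun _ => 0 := by
      funext u
      unfold am pm
      rw [Vz_tree u x i h, cc_one, pot_tree _ h, sub_zero]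
    rw [e]
    exact Ex.zero _ _
  · have h1 := (EW_Gz hT x j i).cc_mul2 (EW_Vz hT x i) a
    have e : (fun u : Zp d → Fin d → G => am L i (x + ez j) u a - pm L i (x + ez j) u a) = fun u =>
        (am L i x u a - pm L i x u a) + (cc L a (Gz u x j i * Vz u x i) - cc L a (Gz u x j i) -
          cc L a (Vz u x i)) := by
      funext u
      unfold am pm
      rw [Vz_step u x hij h, pot_step _ hij h]
      show _ - (_ + cc L a (Gz u x j i)) = _
      ring
    rw [e]
    exact ih.add h1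
  · have h1 := (EW_Gz hT (x - ez j) j i).inv.cc_mul2 (EW_Vz hT x i) a
    have e : (fun u : Zp d → Fin d → G => am L i (x - ez j) u a - pm L i (x - ez j) u a) = fun u =>
        (am L i x u a - pm L i x u a) + (cc L a ((Gz u (x - ez j) j i)⁻¹ * Vz u x i) -
          cc L a (Gz u (x - ez j) j i)⁻¹ - cc L a (Vz u x i)) := by
      funext u
      have h2 := pot_step (cg L u a) hij (tail_sub h)
      rw [sub_add_cancel] at h2
      unfold am pm
      rw [Vz_stepn u x hij h, h2]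
      show _ = (_ - (_ + cc L a (Gz u (x - ez j) j i))) + _
      rw [cc_inv]
      ring
    rw [e]
    exact ih.add h1

/-- the quadratic part of the second order part of the field strength -/
def om2 (L : LD G N n) (j k : Fin d) (x : Zp d) (u : Zp d → Fin d → G) (α : Fin n) : ℝ :=
  w4 L (pm L j x u) (pm L k (x + ez j) u) (pm L j (x + ez k) u) (pm L k x u) α

/-- the quadratic part of the second order part of the current -/
def rh2 (L : LD G N n) (k : Fin d) (x : Zp d) (u : Zp d → Fin d → G) (α : Fin n) : ℝ :=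
  ∑ j, 2 * qd L (pm L j (x - ez j) u) (fF L k j (x - ez j) u) α

lemma Ex_am (hT : Tg4 L) (i : Fin d) (x : Zp d) (a : Fin n) :
    Ex L 1 4 (fun u : Zp d → Fin d → G => am L i x u a) := (EW_Vz hT x i).cc a

lemma qd_am_sub (hT : Tg4 L) (i j : Fin d) (x y : Zp d) (c : Fin n) :
    Ex L 3 4 (fun u : Zp d → Fin d → G => qd L (am L i x u) (am L j y u) c -
      qd L (pm L i x u) (pm L j y u) c) := by
  have h1 := Ex_qd (L := L) (k := 2) (k' := 1) (s := 2)
    (A := fun (u : Zp d → Fin d → G) a => am L i x u a - pm L i x u a)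
    (B := fun u => am L j y u) (fun a => am_sub_pm hT a x i)
    (fun a => (Ex_am hT j y a).mono_right (by norm_num)) c
  have h2 := Ex_qd (L := L) (k := 1) (k' := 2) (s := 2)
    (A := fun (u : Zp d → Fin d → G) => pm L i x u)
    (B := fun u a => am L j y u a - pm L j y u a) (fun a => Ex_pm i x a le_rfl)
    (fun a => am_sub_pm hT a y j) c
  have h3 := (h1.add h2).mono_right (by norm_num : 4 ≤ 3 + 2)
  have e : (fun u : Zp d → Fin d → G => qd L (am L i x u) (am L j y u) c -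
      qd L (pm L i x u) (pm L j y u) c) = fun u =>
      qd L (fun a => am L i x u a - pm L i x u a) (am L j y u) c +
      qd L (pm L i x u) (fun a => am L j y u a - pm L j y u a) c := by
    funext u
    rw [qd_sub_left, qd_sub_right]; ring
  rw [e]
  exact h3

/-- a plaquette to second order -/
lemma EW.plq {w1 w2 w3 w4' : (Zp d → Fin d → G) → G} (h1 : EW L w1) (h2 : EW L w2) (h3 : EW L w3)
    (h4 : EW L w4') (c : Fin n) :
    Ex L 3 4 (fun u => Pool.Agent.Y16.YM.cc L c (w1 u * w2 u * (w3 u)⁻¹ * (w4' u)⁻¹) -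
      (Pool.Agent.Y16.YM.cc L c (w1 u) + Pool.Agent.Y16.YM.cc L c (w2 u) -
        Pool.Agent.Y16.YM.cc L c (w3 u) - Pool.Agent.Y16.YM.cc L c (w4' u)) -
      w4 L (fun a => Pool.Agent.Y16.YM.cc L a (w1 u)) (fun a => Pool.Agent.Y16.YM.cc L a (w2 u))
        (fun a => Pool.Agent.Y16.YM.cc L a (w3 u))
        (fun a => Pool.Agent.Y16.YM.cc L a (w4' u)) c) := by
  have q1 := h1.qd h2 c
  have q2 := h3.inv.qd h4.inv c
  have q3 := (h1.mul h2).qd (h3.inv.mul h4.inv) c
  have q4 := Ex_qd (L := L) (k := 2) (k' := 1) (s := 2)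
    (A := fun u a => Pool.Agent.Y16.YM.cc L a (w1 u * w2 u) - Pool.Agent.Y16.YM.cc L a (w1 u) -
      Pool.Agent.Y16.YM.cc L a (w2 u))
    (B := fun u a => Pool.Agent.Y16.YM.cc L a ((w3 u)⁻¹ * (w4' u)⁻¹))
    (fun a => h1.cc_mul2 h2 a)
    (fun a => ((h3.inv.mul h4.inv).cc a).mono_right (by norm_num)) c
  have q5 := Ex_qd (L := L) (k := 1) (k' := 2) (s := 2)
    (A := fun u a => Pool.Agent.Y16.YM.cc L a (w1 u) + Pool.Agent.Y16.YM.cc L a (w2 u))
    (B := fun u a => Pool.Agent.Y16.YM.cc L a ((w3 u)⁻¹ * (w4' u)⁻¹) -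
      Pool.Agent.Y16.YM.cc L a (w3 u)⁻¹ - Pool.Agent.Y16.YM.cc L a (w4' u)⁻¹)
    (fun a => ((h1.cc a).add (h2.cc a)).mono_right (by norm_num))
    (fun a => h3.inv.cc_mul2 h4.inv a) c
  have h5 := ((q1.add q2).add q3).add
    ((q4.add q5).mono_right (by norm_num : 4 ≤ 3 + 2))
  refine h5.close ?_
  refine Ob_le (Ob.zero 4) fun u => le_of_eq ?_
  rw [abs_eq_abs]
  left
  rw [mul_assoc, cc_mul, cc_mul, cc_mul c (w3 u)⁻¹]
  unfold w4
  simp only [cc_inv, qd_sub_left, qd_sub_right, qd_add_left, qd_add_right, qd_neg_left,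
    qd_neg_right]
  ring

theorem om_sub_om2 (hT : Tg4 L) (j k : Fin d) (x : Zp d) (α : Fin n) :
    Ex L 3 4 (fun u : Zp d → Fin d → G => om L j k x u α - om2 L j k x u α) := by
  have h1 := (EW_Vz hT x j).plq (EW_Vz hT (x + ez j) k) (EW_Vz hT (x + ez k) j) (EW_Vz hT x k) α
  have h2 := ((((qd_am_sub hT j k x (x + ez j) α).sub (qd_am_sub hT j j x (x + ez k) α)).sub
    (qd_am_sub hT j k x x α)).sub (qd_am_sub hT k j (x + ez j) (x + ez k) α)).sub
    (qd_am_sub hT k k (x + ez j) x α) |>.add (qd_am_sub hT j k (x + ez k) x α)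
  have h3 := h1.add h2
  refine h3.close (Ob_le (Ob.zero 4) fun u => le_of_eq ?_)
  rw [abs_eq_abs]
  left
  unfold om om2 w4 fF cg
  rw [Gz_eq]
  unfold am
  ring

/-- a conjugate to second order -/
lemma EW.conj {h g : (Zp d → Fin d → G) → G} (hh : EW L h) (hg : EW L g) (c : Fin n) :
    Ex L 3 4 (fun u => Pool.Agent.Y16.YM.cc L c (h u * g u * (h u)⁻¹) -
      Pool.Agent.Y16.YM.cc L c (g u) -
      2 * Pool.Agent.Y16.YM.qd L (fun a => Pool.Agent.Y16.YM.cc L a (h u))
        (fun a => Pool.Agent.Y16.YM.cc L a (g u)) c) := by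
  have q1 := hg.qd hh.inv c
  have q2 := hh.qd (hg.mul hh.inv) c
  have q3 := Ex_qd (L := L) (k := 1) (k' := 2) (s := 2)
    (A := fun u a => Pool.Agent.Y16.YM.cc L a (h u))
    (B := fun u a => Pool.Agent.Y16.YM.cc L a (g u * (h u)⁻¹) -
      Pool.Agent.Y16.YM.cc L a (g u) - Pool.Agent.Y16.YM.cc L a (h u)⁻¹)
    (fun a => (hh.cc a).mono_right (by norm_num))
    (fun a => hg.cc_mul2 hh.inv a) c
  have h5 := (q1.add q2).add (q3.mono_right (by norm_num : 4 ≤ 3 + 2))
  refine h5.close ?_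
  refine Ob_le (Ob.zero 4) fun u => le_of_eq ?_
  rw [abs_eq_abs]
  left
  rw [mul_assoc, cc_mul, cc_mul c (g u)]
  simp only [cc_inv, qd_sub_left, qd_sub_right, qd_add_left, qd_add_right, qd_neg_left,
    qd_neg_right]
  have e1 := qd_swap (L := L) (fun a => Pool.Agent.Y16.YM.cc L a (g u))
    (fun a => Pool.Agent.Y16.YM.cc L a (h u)) c
  have e2 := qd_swap (L := L) (fun a => Pool.Agent.Y16.YM.cc L a (h u))
    (fun a => Pool.Agent.Y16.YM.cc L a (h u)) c
  have e3 : Pool.Agent.Y16.YM.qd L (fun a => Pool.Agent.Y16.YM.cc L a (h u))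
    (fun a => Pool.Agent.Y16.YM.cc L a (h u)) c = 0 := by linarith
  rw [e1, e3]
  ring

theorem rh_sub_rh2 (hT : Tg4 L) (k : Fin d) (x : Zp d) (α : Fin n) :
    Ex L 3 4 (fun u : Zp d → Fin d → G => rh L k x u α - rh2 L k x u α) := by
  have h1 : ∀ j : Fin d, Ex L 3 4 (fun u : Zp d → Fin d → G =>
      (fF L k j (x - ez j) u α - cc L α ((Vz u (x - ez j) j)⁻¹ *
      Gz u (x - ez j) k j * Vz u (x - ez j) j)) -
      2 * qd L (pm L j (x - ez j) u) (fF L k j (x - ez j) u) α) := by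
    intro j
    have q1 := ((EW_Vz hT (x - ez j) j).inv.conj (EW_Gz hT (x - ez j) k j) α).neg
    have q2 := (Ex_qd (L := L) (k := 2) (k' := 1) (s := 2)
      (A := fun (u : Zp d → Fin d → G) a => am L j (x - ez j) u a - pm L j (x - ez j) u a)
      (B := fun u => fF L k j (x - ez j) u) (fun a => am_sub_pm hT a _ _)
      (fun a => Ex_fF _ _ _ _ le_rfl) α).smul 2
    have h5 := q1.add (q2.mono_right (by norm_num : 4 ≤ 3 + 2))
    refine h5.close (Ob_le (Ob.zero 4) fun u => le_of_eq ?_)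
    rw [abs_eq_abs]
    left
    simp only [inv_inv, cc_inv, qd_sub_left, qd_neg_left]
    unfold fF cg am
    ring
  have h2 := Ex.sum (Finset.univ : Finset (Fin d)) fun j _ => h1 j
  refine h2.close (Ob_le (Ob.zero 4) fun u => le_of_eq ?_)
  rw [abs_eq_abs]
  left
  rw [rh_eq]
  unfold rh2
  rw [← Finset.sum_sub_distrib]
  ring

end

end Pool.Agent.Y16.YM
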