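import Mathlib
import Pool.Agent.Y16.NL.Vx

/-!
# The derivatives of the field strengths in the comb frame
-/

open MeasureTheory Matrix Filter
open scoped Matrix.Norms.Frobenius Topology
open Pool.Agent.H906R3.YM Pool.Agent.W793.YM Pool.Agent.TH940.YM
open Pool.Agent.W793.SCH (haf Near pk gK DD mx el TK S_B1 S_B2 S_TR S_W1 S_HAF green plaq_moment2)

namespace Pool.Agent.Y16.YM

set_option linter.unusedSectionVars false
set_option linter.unusedVariables false
set_option maxHeartbeats 400000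

noncomputable section

section sgm

variable {d : ℕ}

/-- the multiplicity of a link in the path to `x` -/
def sgm (x y : Zp d) (k : Fin d) : ℝ :=
  if (∀ i, i < k → y i = x i) ∧ (∀ i, k < i → y i = 0) then
    (if 0 ≤ y k ∧ y k < x k then 1 else 0) - (if x k ≤ y k ∧ y k < 0 then 1 else 0) else 0

lemma sgm_zero (y : Zp d) (k : Fin d) : sgm 0 y k = 0 := by
  unfold sgm
  have h1 : ¬(0 ≤ y k ∧ y k < (0 : Zp d) k) := fun h => by
    have := h.2; rw [Pi.zero_apply] at this; omega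
  have h2 : ¬((0 : Zp d) k ≤ y k ∧ y k < 0) := fun h => by
    have := h.1; rw [Pi.zero_apply] at this; omega
  rw [if_neg h1, if_neg h2, sub_zero, ite_self]

lemma sgm_int (a b : ℤ) : ((if 0 ≤ b ∧ b < a + 1 then 1 else 0) -
    (if a + 1 ≤ b ∧ b < 0 then 1 else 0) : ℝ) = (if 0 ≤ b ∧ b < a then 1 else 0) -
    (if a ≤ b ∧ b < 0 then 1 else 0) + (if a = b then 1 else 0) := by
  split_ifs <;> first | (exfalso; omega) | norm_num

lemma sgm_tree {x : Zp d} (y : Zp d) {j : Fin d} (k : Fin d) (h : ∀ i, j < i → x i = 0) :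
    sgm (x + ez j) y k = sgm x y k + if x = y ∧ j = k then 1 else 0 := by
  rcases lt_trichotomy k j with hk | hk | hk
  · have e : ∀ i, i ≤ k → (x + ez j) i = x i := fun i hi => by
      rw [Pi.add_apply, ez_ne (lt_of_le_of_lt hi hk).ne, add_zero]
    have hd : ¬(x = y ∧ j = k) := fun h' => hk.ne h'.2.symm
    rw [if_neg hd, add_zero]
    unfold sgm
    have h3 : (∀ i, i < k → y i = (x + ez j) i) ↔ (∀ i, i < k → y i = x i) :=
      forall_congr' fun i => forall_congr' fun hi => by rw [e i hi.le]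
    rw [e k le_rfl]
    simp only [h3]
  · subst hk
    have e : ∀ i, i < k → (x + ez k) i = x i := fun i hi => by
      rw [Pi.add_apply, ez_ne hi.ne, add_zero]
    have h3 : (∀ i, i < k → y i = (x + ez k) i) ↔ (∀ i, i < k → y i = x i) :=
      forall_congr' fun i => forall_congr' fun hi => by rw [e i hi]
    have e2 : (x + ez k) k = x k + 1 := by rw [Pi.add_apply, ez_same]
    unfold sgm
    rw [e2]
    simp only [h3]
    by_cases hC : (∀ i, i < k → y i = x i) ∧ (∀ i, k < i → y i = 0)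
    · rw [if_pos hC, if_pos hC, sgm_int]
      congr 1
      by_cases hxy : x k = y k
      · rw [if_pos hxy, if_pos]
        refine ⟨?_, trivial⟩
        funext i
        rcases lt_trichotomy i k with hi | hi | hi
        · exact (hC.1 i hi).symm
        · subst hi; exact hxy
        · rw [h i hi, hC.2 i hi]
      · rw [if_neg hxy, if_neg fun h' => hxy (by rw [h'.1])]
    · rw [if_neg hC, if_neg hC, if_neg, zero_add]
      rintro ⟨rfl, -⟩
      exact hC ⟨fun i _ => rfl, fun i hi => h i hi⟩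
  · have hd : ¬(x = y ∧ j = k) := fun h' => hk.ne h'.2
    rw [if_neg hd, add_zero]
    have e1 : x k = 0 := h k hk
    have e2 : (x + ez j) k = 0 := by rw [Pi.add_apply, ez_ne hk.ne', add_zero, e1]
    unfold sgm
    rw [e1, e2]
    have h1 : ¬(0 ≤ y k ∧ y k < 0) := fun h => by omega
    rw [if_neg h1, sub_zero, ite_self, ite_self]

lemma sgm_far {x y : Zp d} {k : Fin d} (h : l1 x < l1 y) : sgm x y k = 0 := by
  unfold sgm
  by_cases hC : (∀ i, i < k → y i = x i) ∧ (∀ i, k < i → y i = 0)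
  · rw [if_pos hC]
    have h4 : ¬(0 ≤ y k ∧ y k < x k) ∧ ¬(x k ≤ y k ∧ y k < 0) := by
      by_contra h5
      have h6 : (y k).natAbs ≤ (x k).natAbs := by omega
      refine absurd h (not_lt.2 (Finset.sum_le_sum fun i _ => ?_))
      rcases lt_trichotomy i k with hi | hi | hi
      · rw [hC.1 i hi]
      · subst hi; exact h6
      · rw [hC.2 i hi]; simp
    rw [if_neg h4.1, if_neg h4.2, sub_zero]
  · rw [if_neg hC]

lemma sgm_abs (x y : Zp d) (k : Fin d) : |sgm x y k| ≤ 1 := by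
  unfold sgm
  split_ifs <;> first | (exfalso; omega) | norm_num

end sgm

section der

variable {G : Type*} [Group G] [TopologicalSpace G] [IsTopologicalGroup G] [CompactSpace G]
  [SecondCountableTopology G] [MeasurableSpace G] [BorelSpace G] (μ : Measure G)
  [IsProbabilityMeasure μ] [μ.IsMulLeftInvariant] [μ.IsMulRightInvariant] [μ.IsInvInvariant]
  {N n : ℕ} {L : LD G N n} {d l : ℕ} [NeZero l]

lemma dl_reg {x y : Zp d} {m : ℤ} (hm : ∀ i, m + |y i| < l) (hx : ∀ i, |x i| ≤ m) (k j : Fin d) :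
    dl ((zt l y, k) : Ed d l) (zt l x, j) = if x = y ∧ j = k then 1 else 0 := by
  unfold dl
  by_cases h : x = y ∧ j = k
  · rw [if_pos h, h.1, h.2, if_pos rfl]
  · rw [if_neg h, if_neg fun h' => h ⟨zt_inj (Prod.ext_iff.1 h').1 fun i => ?_,
      (Prod.ext_iff.1 h').2⟩]
    have h1 := hm i
    have h2 := hx i
    have h3 : |x i - y i| ≤ |x i| + |y i| := abs_sub _ _
    omega

lemma Yf_self (c : Fin n) (p : G) : L.rho p * Yf L c p = L.X c * L.rho p := by
  unfold Yf
  rw [← mul_assoc, ← mul_assoc, rho_cancel, one_mul]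

lemma Yf_self' (c : Fin n) (p : G) : Yf L c p * L.rho p⁻¹ = L.rho p⁻¹ * L.X c := by
  unfold Yf
  rw [mul_assoc, rho_cancel, mul_one]

/-- the derivative of the transport -/
lemma der_Pz {y : Zp d} (k : Fin d) (c : Fin n) (U : Ed d l → G) {m : ℤ}
    (hm : ∀ i, m + |y i| < l) : ∀ x : Zp d, (∀ i, |x i| ≤ m) →
    HasDerivAt (fun t => L.rho (Pz (uz (fl L ((zt l y, k) : Ed d l) (fun U => Pz (uz U) y) c t U)) x))
      (sgm x y k • (L.X c * L.rho (Pz (uz U) x))) 0 := by
  obtain ⟨F, hF⟩ : ∃ F : ℝ → Ed d l → G, F = fun t =>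
    fl L ((zt l y, k) : Ed d l) (fun U => Pz (uz U) y) c t U := ⟨_, rfl⟩
  have hFt : ∀ t, fl L ((zt l y, k) : Ed d l) (fun U => Pz (uz U) y) c t U = F t := fun t => by
    rw [hF]
  have hF0 : F 0 = U := by rw [hF]; exact fl_zero c U
  simp only [hFt]
  refine comb_ind ?_ ?_ ?_
  · intro _
    rw [sgm_zero, zero_smul]
    simp only [Pz_zero, map_one]
    exact hasDerivAt_const _ _
  · intro x j h h0 ih hx
    have hx' : ∀ i, |x i| ≤ m := fun i => by
      have h1 := hx i
      by_cases hi : i = j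
      · subst hi
        rw [Pi.add_apply, ez_same] at h1
        rw [abs_le] at *
        omega
      · rwa [Pi.add_apply, ez_ne hi, add_zero] at h1
    have h1 := ih hx'
    have h2 := der_link (L := L) (e := ((zt l y, k) : Ed d l)) (P := fun U => Pz (uz U) y) c U
      (zt l x, j)
    simp only [hFt] at h2
    have h3 := h1.mul h2
    have e : (fun t => L.rho (Pz (uz (F t)) (x + ez j))) =
        (fun t => L.rho (Pz (uz (F t)) x)) * fun t => L.rho (F t (zt l x, j)) := by
      funext t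
      rw [Pz_tree _ _ _ h, map_mul]; rfl
    rw [e]
    refine h3.congr_deriv ?_
    rw [hF0, sgm_tree y k h, dl_reg hm hx' k j, Pz_tree _ _ _ h, map_mul]
    have e1 : uz U x j = U (zt l x, j) := rfl
    rw [e1]
    by_cases hd : x = y ∧ j = k
    · rw [if_pos hd, one_smul, ← hd.1, ← mul_assoc (L.rho (Pz (uz U) x)), Yf_self, add_smul,
        one_smul, smul_mul_assoc, mul_assoc]
    · rw [if_neg hd, zero_smul, mul_zero, add_zero, add_zero, smul_mul_assoc, mul_assoc]
  · intro x j h h0 ih hx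
    have hx' : ∀ i, |x i| ≤ m := fun i => by
      have h1 := hx i
      by_cases hi : i = j
      · subst hi
        rw [Pi.sub_apply, ez_same] at h1
        rw [abs_le] at *
        omega
      · rwa [Pi.sub_apply, ez_ne hi, sub_zero] at h1
    have h1 := ih hx'
    have h2 := der_inv (L := L) (e := ((zt l y, k) : Ed d l)) (P := fun U => Pz (uz U) y) c U
      (zt l (x - ez j), j)
    simp only [hFt] at h2
    have h3 := h1.mul h2
    have hP : ∀ u : Zp d → Fin d → G, Pz u (x - ez j) = Pz u x * (u (x - ez j) j)⁻¹ := fun u => by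
      have := Pz_tree u (x - ez j) j (tail_sub h)
      rw [sub_add_cancel] at this
      rw [this, mul_inv_cancel_right]
    have e : (fun t => L.rho (Pz (uz (F t)) (x - ez j))) =
        (fun t => L.rho (Pz (uz (F t)) x)) * fun t => L.rho (F t (zt l (x - ez j), j))⁻¹ := by
      funext t
      rw [hP, map_mul]; rfl
    rw [e]
    refine h3.congr_deriv ?_
    have hs := sgm_tree y k (tail_sub h)
    rw [sub_add_cancel] at hs
    rw [hF0, hs, dl_reg hm hx k j]
    have e1 : Pz (uz U) x = Pz (uz U) (x - ez j) * U (zt l (x - ez j), j) := by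
      have := Pz_tree (uz U) (x - ez j) j (tail_sub h)
      rw [sub_add_cancel] at this
      exact this
    have e2 : L.rho (Pz (uz U) x) * L.rho (U (zt l (x - ez j), j))⁻¹ =
        L.rho (Pz (uz U) (x - ez j)) := by
      rw [← map_mul, e1, mul_inv_cancel_right]
    by_cases hd : x - ez j = y ∧ j = k
    · rw [if_pos hd, one_smul, mul_neg, ← mul_assoc (L.rho (Pz (uz U) x)), e2, smul_mul_assoc,
        mul_assoc (L.X c), e2, ← hd.1, Yf_self, add_smul, one_smul]
      abel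
    · rw [if_neg hd, zero_smul, neg_zero, mul_zero, add_zero, add_zero, smul_mul_assoc,
        mul_assoc (L.X c), e2]

/-- the derivative of a field strength -/
def DG (L : LD G N n) (c : Fin n) (y : Zp d) (k : Fin d) (x : Zp d) (i j : Fin d)
    (u : Zp d → Fin d → G) : Mat N :=
  sgm x y k • (L.X c * L.rho (Gz u x i j) - L.rho (Gz u x i j) * L.X c) +
  (if x = y ∧ i = k then (1:ℝ) else 0) • (L.X c * L.rho (Gz u x i j)) +
  (if x + ez i = y ∧ j = k then (1:ℝ) else 0) •
    (L.rho (Vz u x i) * L.X c * L.rho ((Vz u x i)⁻¹ * Gz u x i j)) -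
  (if x + ez j = y ∧ i = k then (1:ℝ) else 0) •
    (L.rho (Gz u x i j * Vz u x j) * L.X c * L.rho (Vz u x j)⁻¹) -
  (if x = y ∧ j = k then (1:ℝ) else 0) • (L.rho (Gz u x i j) * L.X c)

lemma fr1 (c : Fin n) (p g : G) : L.rho p * (Yf L c p * L.rho g) * L.rho p⁻¹ =
    L.X c * L.rho (p * g * p⁻¹) := by
  rw [← mul_assoc, Yf_self, map_mul, map_mul]
  simp only [mul_assoc]

lemma fr2 (c : Fin n) (p p' v g : G) :
    L.rho p * (L.rho v * Yf L c p' * L.rho (v⁻¹ * g)) * L.rho p⁻¹ =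
      L.rho (p * v * p'⁻¹) * L.X c * L.rho ((p * v * p'⁻¹)⁻¹ * (p * g * p⁻¹)) := by
  have e : (p * v * p'⁻¹)⁻¹ * (p * g * p⁻¹) = p' * v⁻¹ * g * p⁻¹ := by group
  rw [e]
  unfold Yf
  simp only [map_mul, mul_assoc]

lemma fr3 (c : Fin n) (p p' v g : G) :
    L.rho p * (L.rho (g * v) * Yf L c p' * L.rho v⁻¹) * L.rho p⁻¹ =
      L.rho (p * g * p⁻¹ * (p * v * p'⁻¹)) * L.X c * L.rho (p * v * p'⁻¹)⁻¹ := by
  have e : p * g * p⁻¹ * (p * v * p'⁻¹) = p * g * v * p'⁻¹ := by group
  have e2 : (p * v * p'⁻¹)⁻¹ = p' * v⁻¹ * p⁻¹ := by group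
  rw [e, e2]
  unfold Yf
  simp only [map_mul, mul_assoc]

lemma fr4 (c : Fin n) (p g : G) : L.rho p * (L.rho g * Yf L c p) * L.rho p⁻¹ =
    L.rho (p * g * p⁻¹) * L.X c := by
  rw [mul_assoc, mul_assoc, Yf_self', map_mul, map_mul]
  simp only [mul_assoc]

lemma der_Gz {x y : Zp d} (k : Fin d) (c : Fin n) (U : Ed d l → G) {m : ℤ}
    (hm : ∀ i, m + |y i| < l) (hx : ∀ i, |x i| + 1 ≤ m) (i j : Fin d) :
    HasDerivAt (fun t => L.rho (Gz (uz (fl L ((zt l y, k) : Ed d l)
      (fun U => Pz (uz U) y) c t U)) x i j)) (DG L c y k x i j (uz U)) 0 := by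
  have hx0 : ∀ i, |x i| ≤ m := fun i => by have := hx i; omega
  have hx1 : ∀ j i : Fin d, |(x + ez j) i| ≤ m := fun j i => by
    have h1 := hx i
    have h2 := ez_abs j i
    rw [Pi.add_apply]
    exact (abs_add_le _ _).trans (by omega)
  have h1 := der_Pz (L := L) k c U hm x hx0
  have h2 := der_plq (L := L) (e := ((zt l y, k) : Ed d l)) (P := fun U => Pz (uz U) y) c U
    (zt l x) i j
  have h3 : HasDerivAt (fun t => L.rho (Pz (uz (fl L ((zt l y, k) : Ed d l)
      (fun U => Pz (uz U) y) c t U)) x)⁻¹)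
      (-(sgm x y k • (L.rho (Pz (uz U) x)⁻¹ * L.X c))) 0 := by
    have h4 : HasDerivAt (fun t => (L.rho (Pz (uz (fl L ((zt l y, k) : Ed d l)
      (fun U => Pz (uz U) y) c t U)) x))ᴴ) ((sgm x y k • (L.X c * L.rho (Pz (uz U) x)))ᴴ) 0 :=
      (ctL N).hasFDerivAt.comp_hasDerivAt (0 : ℝ) h1
    have h5 : (sgm x y k • (L.X c * L.rho (Pz (uz U) x)))ᴴ =
        -(sgm x y k • (L.rho (Pz (uz U) x)⁻¹ * L.X c)) := by
      rw [conjTranspose_smul, conjTranspose_mul, skew, L.rho_inv, mul_neg, smul_neg]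
      simp
    rw [h5] at h4
    simpa only [L.rho_inv] using h4
  obtain ⟨F, hF⟩ : ∃ F : ℝ → Ed d l → G, F = fun t =>
    fl L ((zt l y, k) : Ed d l) (fun U => Pz (uz U) y) c t U := ⟨_, rfl⟩
  have hFt : ∀ t, fl L ((zt l y, k) : Ed d l) (fun U => Pz (uz U) y) c t U = F t := fun t => by
    rw [hF]
  have hF0 : F 0 = U := by rw [hF]; exact fl_zero c U
  simp only [hFt] at h1 h2 h3 ⊢
  have h6 := (h1.mul h2).mul h3
  have e : (fun t => L.rho (Gz (uz (F t)) x i j)) =
      ((fun t => L.rho (Pz (uz (F t)) x)) * fun t => L.rho (plqT (F t) (zt l x) i j)) *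
        fun t => L.rho (Pz (uz (F t)) x)⁻¹ := by
    funext t
    unfold Gz
    simp only [Pi.mul_apply, plqT_uz, map_mul]
  rw [e]
  refine h6.congr_deriv ?_
  rw [hF0]
  have hz : ∀ j, zt l x + eT j = zt l (x + ez j) := fun j => (zt_add x j).symm
  have d1 := dl_reg (l := l) hm hx0 k i
  have d2 := dl_reg (l := l) hm (hx1 i) k j
  have d3 := dl_reg (l := l) hm (hx1 j) k i
  have d4 := dl_reg (l := l) hm hx0 k j
  obtain ⟨p, hp⟩ : ∃ p, p = Pz (uz U) x := ⟨_, rfl⟩
  obtain ⟨g, hg⟩ : ∃ g, g = plz (uz U) x i j := ⟨_, rfl⟩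
  have hG : Gz (uz U) x i j = p * g * p⁻¹ := by rw [hp, hg]; rfl
  have e1 : ∀ i, U (zt l x, i) = uz U x i := fun i => rfl
  have t1 : L.rho p * ((if x = y ∧ i = k then (1:ℝ) else 0) • (Yf L c (Pz (uz U) y) * L.rho g)) *
      L.rho p⁻¹ = (if x = y ∧ i = k then (1:ℝ) else 0) • (L.X c * L.rho (p * g * p⁻¹)) := by
    split_ifs with h
    · rw [one_smul, one_smul, ← h.1, ← hp, fr1]
    · rw [zero_smul, zero_smul, mul_zero, zero_mul]
  have t2 : L.rho p * ((if x + ez i = y ∧ j = k then (1:ℝ) else 0) • (L.rho (uz U x i) *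
      Yf L c (Pz (uz U) y) * L.rho ((uz U x i)⁻¹ * g))) * L.rho p⁻¹ =
      (if x + ez i = y ∧ j = k then (1:ℝ) else 0) •
        (L.rho (Vz (uz U) x i) * L.X c * L.rho ((Vz (uz U) x i)⁻¹ * (p * g * p⁻¹))) := by
    split_ifs with h
    · rw [one_smul, one_smul, ← h.1, fr2]
      unfold Vz
      rw [← hp]
    · rw [zero_smul, zero_smul, mul_zero, zero_mul]
  have t3 : L.rho p * ((if x + ez j = y ∧ i = k then (1:ℝ) else 0) • (L.rho (g * uz U x j) *
      Yf L c (Pz (uz U) y) * L.rho (uz U x j)⁻¹)) * L.rho p⁻¹ =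
      (if x + ez j = y ∧ i = k then (1:ℝ) else 0) •
        (L.rho (p * g * p⁻¹ * Vz (uz U) x j) * L.X c * L.rho (Vz (uz U) x j)⁻¹) := by
    split_ifs with h
    · rw [one_smul, one_smul, ← h.1, fr3]
      unfold Vz
      rw [← hp]
    · rw [zero_smul, zero_smul, mul_zero, zero_mul]
  have t4 : L.rho p * ((if x = y ∧ j = k then (1:ℝ) else 0) • (L.rho g * Yf L c (Pz (uz U) y))) *
      L.rho p⁻¹ = (if x = y ∧ j = k then (1:ℝ) else 0) • (L.rho (p * g * p⁻¹) * L.X c) := by
    split_ifs with h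
    · rw [one_smul, one_smul, ← h.1, ← hp, fr4]
    · rw [zero_smul, zero_smul, mul_zero, zero_mul]
  simp only [Pi.mul_apply]
  rw [hF0]
  unfold Dpl DG
  rw [hz, hz, d1, d2, d3, d4, plqT_uz, e1, e1, hG, ← hg, ← hp, ← t1, ← t2, ← t3, ← t4]
  have e3 : L.rho p * L.rho p⁻¹ = 1 := rho_cancel p
  have e4 : L.rho (p * g * p⁻¹) = L.rho p * L.rho g * L.rho p⁻¹ := by rw [map_mul, map_mul]
  rw [e4]
  simp only [smul_mul_assoc, mul_add, add_mul, mul_sub, sub_mul, smul_sub, mul_neg, mul_smul_comm,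
    mul_assoc]
  abel

end der

end

end Pool.Agent.Y16.YM
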