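import Mathlib
import Pool.Agent.Y16.YM.Ker2
import Pool.Agent.Y16.YM.Grn

/-!
# Two forms with a given differential and a given divergence, general version
-/

open Filter
open scoped Topology
open Pool.Agent.W793.SCH (pk)
open Pool.Agent.TH940.YM (dF dB)

namespace Pool.Agent.Y16.YM

set_option linter.unusedSectionVars false
set_option linter.unusedVariables false

noncomputable section

variable {d : ℕ}

/-- the size of the pairing -/
def BS (s : ℕ) (J : List (Fin d)) (j k : Fin d) (t : ℕ) : ℝ :=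
  (∑ i, (KK (i :: i :: J) (s + 1) t + KK (j :: i :: J) (s + 1) t + KK (k :: i :: J) (s + 1) t)) +
    KK (j :: J) s t + KK (k :: J) s t

lemma BS_summable (hd : 1 ≤ d) (s : ℕ) {J : List (Fin d)} (hJ : s + 2 ≤ J.length) (j k : Fin d) :
    Summable fun t => BS s J j k t := by
  unfold BS
  have h2 : ∀ a b : Fin d, Summable fun t => KK (a :: b :: J) (s + 1) t := fun a b =>
    KK_summable hd _ _ (by simp only [List.length_cons]; omega)
  have h1 : ∀ a : Fin d, Summable fun t => KK (a :: J) s t := fun a =>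
    KK_summable hd _ _ (by simp only [List.length_cons]; omega)
  exact ((summable_sum fun i _ => ((h2 i i).add (h2 j i)).add (h2 k i)).add (h1 j)).add (h1 k)

lemma BS_nonneg (s : ℕ) (J : List (Fin d)) (j k : Fin d) (t : ℕ) : 0 ≤ BS s J j k t := by
  unfold BS
  have := fun (J : List (Fin d)) s => KK_nonneg J s t
  have h1 : 0 ≤ ∑ i, (KK (i :: i :: J) (s + 1) t + KK (j :: i :: J) (s + 1) t +
      KK (k :: i :: J) (s + 1) t) :=
    Finset.sum_nonneg fun i _ => add_nonneg (add_nonneg (this _ _) (this _ _)) (this _ _)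
  linarith [this (j :: J) s, this (k :: J) s]

lemma WJ_Lf_les (s : ℕ) (J : List (Fin d)) (t : ℕ) {w : Fin d → Fin d → Fz' d}
    {r : Fin d → Fz' d} {M : ℝ} (hM : 0 ≤ M) (hw : ∀ j k z, |w j k z| ≤ M * (ll z + 1) ^ (s + 1))
    (hs : ∀ k z, |r k z| ≤ M * (ll z + 1) ^ s) (j k : Fin d) :
    |WJ J t (Lf w r j k)| ≤ M * BS s J j k t := by
  rw [WJ_Lf]
  have h2 : ∀ (a b i j k : Fin d), |WJ (a :: b :: J) t (fun z => w j k (z - Pi.single i 1))| ≤
      M * KK (a :: b :: J) (s + 1) t := by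
    intro a b i j k
    refine WJ_le _ (s + 1) t fun z => (hw j k _).trans ?_
    refine mul_le_mul_of_nonneg_left (pow_le_pow_left₀ ?_ ?_ _) hM
    · have := ll_nonneg (z - Pi.single i 1); linarith
    · have := ll_sub z i; linarith
  have h1 : ∀ a k : Fin d, |WJ (a :: J) t (r k)| ≤ M * KK (a :: J) s t := by
    intro a k
    refine WJ_le _ s t fun z => (hs k _).trans ?_
    have := ll_nonneg z
    exact mul_le_mul_of_nonneg_left (pow_le_pow_left₀ (by linarith) (by linarith) _) hM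
  have e : M * BS s J j k t = (∑ i, (M * KK (i :: i :: J) (s + 1) t +
      M * KK (j :: i :: J) (s + 1) t + M * KK (k :: i :: J) (s + 1) t)) +
      M * KK (j :: J) s t + M * KK (k :: J) s t := by
    unfold BS
    rw [mul_add, mul_add, Finset.mul_sum]
    congr 2
    exact Finset.sum_congr rfl fun i _ => by ring
  rw [e]
  refine (abs_sub _ _).trans (add_le_add ((abs_add_le _ _).trans (add_le_add
    ((Finset.abs_sum_le_sum_abs _ _).trans (Finset.sum_le_sum fun i _ => ?_)) (h1 j k))) (h1 k j))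
  exact (abs_add_le _ _).trans (add_le_add ((abs_add_le _ _).trans
    (add_le_add (h2 i i i j k) (h2 j i i k i))) (h2 k i i i j))

lemma Lf_congr {w w' : Fin d → Fin d → Fz' d} {r r' : Fin d → Fz' d} {z : Fin d → ℤ}
    (h1 : ∀ j k y, ll y ≤ ll z + 2 → w j k y = w' j k y)
    (h2 : ∀ k y, ll y ≤ ll z + 2 → r k y = r' k y) (j k : Fin d) :
    Lf w r j k z = Lf w' r' j k z := by
  have hnb : ∀ (g g' : Fz' d) (y : Fin d → ℤ), (∀ x, ll x ≤ ll y + 1 → g x = g' x) → ∀ i,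
      nb i g y = nb i g' y := fun g g' y h i => by
    unfold nb
    rw [h _ (ll_add y i), h y (by linarith)]
  have hdT : ∀ i y, ll y ≤ ll z + 1 → dT w i j k y = dT w' i j k y := fun i y hy => by
    unfold dT
    rw [hnb (w j k) (w' j k) y (fun x hx => h1 _ _ x (by linarith)) i,
      hnb (w k i) (w' k i) y (fun x hx => h1 _ _ x (by linarith)) j,
      hnb (w i j) (w' i j) y (fun x hx => h1 _ _ x (by linarith)) k]
  unfold Lf
  rw [hnb (r k) (r' k) z (fun x hx => h2 _ x (by linarith)) j,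
    hnb (r j) (r' j) z (fun x hx => h2 _ x (by linarith)) k]
  congr 2
  refine Finset.sum_congr rfl fun i _ => ?_
  unfold ns
  rw [hdT i z (by linarith), hdT i _ (ll_sub z i)]

/-- truncation -/
def tc (R : ℝ) (g : Fz' d) : Fz' d := fun z => if ll z ≤ R then g z else 0

lemma tc_of_le {R : ℝ} {g : Fz' d} {z : Fin d → ℤ} (h : ll z ≤ R) : tc R g z = g z := if_pos h

lemma tc_bd {R M : ℝ} {s : ℕ} {g : Fz' d} (hM : 0 ≤ M)
    (h : ∀ z, ll z ≤ R → |g z| ≤ M * (ll z + 1) ^ s) (z : Fin d → ℤ) :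
    |tc R g z| ≤ M * (ll z + 1) ^ s := by
  unfold tc
  have := ll_nonneg z
  split_ifs with hz
  · exact h z hz
  · rw [abs_zero]; positivity

/-- the representation of the derivative -/
lemma ker_rep (hd : 1 ≤ d) (J : List (Fin d)) {τ Ω : Fin d → Fin d → Fz' d} {A σ : Fin d → Fz' d}
    {T : ℕ} {R : ℝ} (hR : T + J.length + 2 ≤ R)
    (h1 : ∀ j k z, τ j k z = Ω j k z + (nb j (A k) z - nb k (A j) z))
    (h2 : ∀ j k z, τ k j z = -τ j k z) (h3 : ∀ k z, ll z ≤ R → dvg τ k z = σ k z)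
    (j k : Fin d) : dF J (τ j k) 0 = WJ J T (τ j k) - 1 / (4 * d : ℝ) *
      ∑ t ∈ Finset.range T, WJ J t (Lf (fun j k => tc R (Ω j k)) (fun k => tc R (σ k)) j k) := by
  rw [WJ_tele hd J T (τ j k)]
  congr 2
  refine Finset.sum_congr rfl fun t ht => ?_
  rw [Finset.mem_range] at ht
  refine WJ_congr J t fun z hz => ?_
  have htT : (t : ℝ) ≤ T := by exact_mod_cast ht.le
  have hzR : ll z + 2 ≤ R := by linarith
  rw [hodge h2, ← Lf_congr (w := Ω) (r := σ) (z := z)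
    (fun j k y hy => (tc_of_le (g := Ω j k) (hy.trans hzR)).symm)
    (fun k y hy => (tc_of_le (g := σ k) (hy.trans hzR)).symm)]
  unfold Lf
  have e1 : ∀ i, ns i (dT τ i j k) z = ns i (dT Ω i j k) z := by
    intro i
    unfold ns
    rw [dT_exact Ω A h1, dT_exact Ω A h1]
  have e2 : ∀ a b : Fin d, nb a (dvg τ b) z = nb a (σ b) z := by
    intro a b
    unfold nb
    have := ll_add z a
    rw [h3 b z (by linarith), h3 b _ (by linarith)]
  simp only [e1, e2]

lemma WJ_end (hd : 1 ≤ d) (J : List (Fin d)) (hJ : 4 ≤ J.length) : ∃ C : ℝ, 0 < C ∧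
    ∀ (T : ℕ), 1 ≤ T → ∀ (g : Fz' d) (B : ℝ), (∀ z, |g z| ≤ B) →
      |WJ J T g| ≤ C * (B / (T : ℝ) ^ 2) := by
  obtain ⟨C, hC, hK⟩ := KK_bd hd J 0
  refine ⟨C, hC, fun T hT g B hg => ?_⟩
  have hB : 0 ≤ B := (abs_nonneg _).trans (hg 0)
  have hT1 : (1:ℝ) ≤ Real.sqrt T := Real.one_le_sqrt.2 (by exact_mod_cast hT)
  have h1 := WJ_le J 0 T (M := B) (g := g) fun z => by rw [pow_zero, mul_one]; exact hg z
  have h2 := hK T hT
  rw [pow_zero] at h2
  have hT0 : (0:ℝ) < T := by exact_mod_cast hT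
  have h3 : (1:ℝ) / Real.sqrt T ^ J.length ≤ 1 / (T : ℝ) ^ 2 := by
    have e : (T : ℝ) ^ 2 = Real.sqrt T ^ 4 := by
      calc (T : ℝ) ^ 2 = (Real.sqrt T ^ 2) ^ 2 := by rw [Real.sq_sqrt hT0.le]
        _ = _ := by rw [← pow_mul]
    rw [e]
    exact one_div_le_one_div_of_le (by positivity) (pow_le_pow_right₀ hT1 hJ)
  calc |WJ J T g| ≤ B * KK J 0 T := h1
    _ ≤ B * (C * (1 / (T : ℝ) ^ 2)) := by
      refine mul_le_mul_of_nonneg_left (h2.trans ?_) hB
      exact mul_le_mul_of_nonneg_left h3 hC.le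
    _ = _ := by ring

/-- the bound at the origin -/
lemma ker_bd0 (hd : 1 ≤ d) (s : ℕ) (J : List (Fin d)) (hJ : 4 ≤ J.length)
    (hs : s + 2 ≤ J.length) (j k : Fin d) : ∃ C : ℝ, 0 < C ∧
    ∀ (τ Ω : Fin d → Fin d → Fz' d) (A σ : Fin d → Fz' d) (T : ℕ) (R M B : ℝ), 1 ≤ T → 0 ≤ M →
      T + J.length + 2 ≤ R →
      (∀ j k z, τ j k z = Ω j k z + (nb j (A k) z - nb k (A j) z)) →
      (∀ j k z, τ k j z = -τ j k z) → (∀ k z, ll z ≤ R → dvg τ k z = σ k z) →
      (∀ j k z, ll z ≤ R → |Ω j k z| ≤ M * (ll z + 1) ^ (s + 1)) →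
      (∀ k z, ll z ≤ R → |σ k z| ≤ M * (ll z + 1) ^ s) → (∀ j k z, |τ j k z| ≤ B) →
      |dF J (τ j k) 0| ≤ C * (M + B / (T : ℝ) ^ 2) := by
  obtain ⟨C, hC, hE⟩ := WJ_end hd J hJ
  obtain ⟨S, hS⟩ : ∃ S, S = ∑' t, BS s J j k t := ⟨_, rfl⟩
  have hsum := BS_summable hd s hs j k
  have hS0 : 0 ≤ S := by rw [hS]; exact tsum_nonneg fun t => BS_nonneg _ _ _ _ _
  refine ⟨C + S, by positivity, fun τ Ω A σ T R M B hT hM hR h1 h2 h3 h4 h5 h6 => ?_⟩
  rw [ker_rep hd J hR h1 h2 h3 j k]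
  have hB : 0 ≤ B := (abs_nonneg _).trans (h6 j k 0)
  have a1 := hE T hT (τ j k) B (h6 j k)
  have a2 : |∑ t ∈ Finset.range T, WJ J t (Lf (fun j k => tc R (Ω j k)) (fun k => tc R (σ k)) j k)| ≤
      M * S := by
    refine (Finset.abs_sum_le_sum_abs _ _).trans ?_
    calc _ ≤ ∑ t ∈ Finset.range T, M * BS s J j k t := Finset.sum_le_sum fun t _ =>
          WJ_Lf_les s J t hM (fun j k z => tc_bd hM (h4 j k) z) (fun k z => tc_bd hM (h5 k) z) j k
      _ = M * ∑ t ∈ Finset.range T, BS s J j k t := (Finset.mul_sum _ _ _).symm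
      _ ≤ M * S := by
        refine mul_le_mul_of_nonneg_left ?_ hM
        rw [hS]
        exact hsum.sum_le_tsum _ fun t _ => BS_nonneg _ _ _ _ _
  have hd1 : (1:ℝ) ≤ d := by exact_mod_cast hd
  have a3 : 1 / (4 * d : ℝ) ≤ 1 := by
    rw [div_le_one (by positivity)]; linarith
  have a4 : (0:ℝ) ≤ 1 / (4 * d : ℝ) := by positivity
  have a5 : 0 ≤ B / (T : ℝ) ^ 2 := by positivity
  refine (abs_sub _ _).trans ?_
  rw [abs_mul, abs_of_nonneg a4]
  have a6 : 1 / (4 * d : ℝ) * |∑ t ∈ Finset.range T,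
      WJ J t (Lf (fun j k => tc R (Ω j k)) (fun k => tc R (σ k)) j k)| ≤ 1 * (M * S) :=
    mul_le_mul a3 a2 (abs_nonneg _) zero_le_one
  have a7 : 0 ≤ S * (B / (T : ℝ) ^ 2) := by positivity
  have a8 : 0 ≤ C * M := by positivity
  calc _ ≤ C * (B / (T : ℝ) ^ 2) + 1 * (M * S) := add_le_add a1 a6
    _ ≤ (C + S) * (M + B / (T : ℝ) ^ 2) := by nlinarith

/-- the limit at the origin -/
lemma ker_lim0 {X : Type*} {F : Filter X} (hd : 1 ≤ d) (s : ℕ) (J : List (Fin d))
    (hJ : 4 ≤ J.length) (hs : s + 2 ≤ J.length)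
    (τ Ω : X → Fin d → Fin d → Fz' d) (A σ : X → Fin d → Fz' d) (Ω' : Fin d → Fin d → Fz' d)
    (σ' : Fin d → Fz' d) (T : X → ℕ) (R B : X → ℝ) (M : ℝ) (hM : 0 ≤ M)
    (hR : ∀ᶠ x in F, T x + J.length + 2 ≤ R x)
    (h1 : ∀ x j k z, τ x j k z = Ω x j k z + (nb j (A x k) z - nb k (A x j) z))
    (h2 : ∀ x j k z, τ x k j z = -τ x j k z)
    (h3 : ∀ᶠ x in F, ∀ k z, ll z ≤ R x → dvg (τ x) k z = σ x k z)
    (h4 : ∀ᶠ x in F, ∀ j k z, ll z ≤ R x → |Ω x j k z| ≤ M * (ll z + 1) ^ (s + 1))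
    (h5 : ∀ᶠ x in F, ∀ k z, ll z ≤ R x → |σ x k z| ≤ M * (ll z + 1) ^ s)
    (h6 : ∀ᶠ x in F, ∀ j k z, |τ x j k z| ≤ B x)
    (h7 : Tendsto T F atTop) (h8 : Tendsto (fun x => B x / (T x : ℝ) ^ 2) F (𝓝 0))
    (h9 : ∀ j k z, Tendsto (fun x => Ω x j k z) F (𝓝 (Ω' j k z)))
    (h10 : ∀ k z, Tendsto (fun x => σ x k z) F (𝓝 (σ' k z))) (j k : Fin d) :
    Tendsto (fun x => dF J (τ x j k) 0) F
      (𝓝 (-(1 / (4 * d : ℝ) * ∑' t, WJ J t (Lf Ω' σ' j k)))) := by
  have hRt : ∀ c : ℝ, ∀ᶠ x in F, c ≤ R x := by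
    intro c
    obtain ⟨m, hm⟩ := exists_nat_ge c
    filter_upwards [hR, h7.eventually (eventually_ge_atTop m)] with x hx hx2
    have : (m:ℝ) ≤ T x := by exact_mod_cast hx2
    have h0 : (0:ℝ) ≤ J.length := Nat.cast_nonneg _
    linarith
  -- the sum over the times
  have hsum : Tendsto (fun x => ∑' t, if t < T x then WJ J t (Lf (fun j k => tc (R x) (Ω x j k))
      (fun k => tc (R x) (σ x k)) j k) else 0) F (𝓝 (∑' t, WJ J t (Lf Ω' σ' j k))) := by
    refine tendsto_tsum_of_dominated_convergence (bound := fun t => M * BS s J j k t)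
      ((BS_summable hd s hs j k).mul_left M) (fun t => ?_) ?_
    · have h9' : ∀ j k z, Tendsto (fun x => tc (R x) (Ω x j k) z) F (𝓝 (Ω' j k z)) := by
        intro j k z
        refine (h9 j k z).congr' ?_
        filter_upwards [hRt (ll z)] with x hx
        rw [tc_of_le hx]
      have h10' : ∀ k z, Tendsto (fun x => tc (R x) (σ x k) z) F (𝓝 (σ' k z)) := by
        intro k z
        refine (h10 k z).congr' ?_
        filter_upwards [hRt (ll z)] with x hx
        rw [tc_of_le hx]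
      refine (WJ_tendsto J t (Lf_tendsto h9' h10' j k)).congr' ?_
      filter_upwards [h7.eventually (eventually_gt_atTop t)] with x hx
      rw [if_pos hx]
    · filter_upwards [h4, h5] with x hx4 hx5 t
      rw [Real.norm_eq_abs]
      have hle := WJ_Lf_les s J t hM (fun j k z => tc_bd hM (hx4 j k) z)
        (fun k z => tc_bd hM (hx5 k) z) j k
      split_ifs
      · exact hle
      · rw [abs_zero]; exact (abs_nonneg _).trans hle
  -- the boundary term
  have hbd : Tendsto (fun x => WJ J (T x) (τ x j k)) F (𝓝 0) := by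
    obtain ⟨C, hC, hE⟩ := WJ_end hd J hJ
    have hlim := h8.const_mul C
    rw [mul_zero] at hlim
    refine squeeze_zero_norm' ?_ hlim
    filter_upwards [h6, h7.eventually (eventually_ge_atTop 1)] with x hx6 hx7
    rw [Real.norm_eq_abs]
    exact hE (T x) hx7 _ _ (hx6 j k)
  have hfin := hbd.sub (hsum.const_mul (1 / (4 * d : ℝ)))
  rw [zero_sub] at hfin
  refine hfin.congr' ?_
  filter_upwards [h3, hR] with x hx3 hxR
  rw [ker_rep hd J hxR (h1 x) (h2 x) hx3 j k]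
  congr 2
  rw [tsum_eq_sum (s := Finset.range (T x)) fun t ht => if_neg (by
    rw [Finset.mem_range] at ht; exact ht)]
  refine Finset.sum_congr rfl fun t ht => ?_
  rw [Finset.mem_range] at ht
  rw [if_pos ht]

/-! ### other base points -/

/-- the translate of a function -/
def shf (v : Fin d → ℤ) (g : Fz' d) : Fz' d := fun z => g (z + v)

lemma shf_nb (v : Fin d → ℤ) (i : Fin d) (g : Fz' d) : nb i (shf v g) = shf v (nb i g) := by
  funext z
  unfold nb shf
  beta_reduce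
  rw [add_right_comm]

lemma shf_ns (v : Fin d → ℤ) (i : Fin d) (g : Fz' d) : ns i (shf v g) = shf v (ns i g) := by
  funext z
  unfold ns shf
  beta_reduce
  rw [sub_add_eq_add_sub]

lemma shf_dF (v : Fin d → ℤ) (J : List (Fin d)) (g : Fz' d) :
    dF J (shf v g) = shf v (dF J g) := by
  induction J with
  | nil => rfl
  | cons i J ih => rw [dF_cons, dF_cons, ih, shf_nb]

lemma dF_shf (v : Fin d → ℤ) (J : List (Fin d)) (g : Fz' d) : dF J g v = dF J (shf v g) 0 := by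
  rw [shf_dF]
  unfold shf
  rw [zero_add]

lemma shf_dvg (v : Fin d → ℤ) (w : Fin d → Fin d → Fz' d) (k : Fin d) :
    dvg (fun j k => shf v (w j k)) k = shf v (dvg w k) := by
  funext z
  unfold dvg
  simp only [shf_ns]
  rfl

lemma ll_plus (x y : Fin d → ℤ) : ll (x + y) ≤ ll x + ll y := by
  have := ll_tri (x + y) (-y)
  rwa [add_neg_cancel_right, ll_neg] at this

lemma ll_shift (z v : Fin d → ℤ) (s : ℕ) :
    (ll (z + v) + 1) ^ s ≤ (ll v + 1) ^ s * (ll z + 1) ^ s := by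
  rw [← mul_pow]
  have h1 := ll_plus z v
  have h2 := ll_nonneg z
  have h3 := ll_nonneg v
  have h4 := ll_nonneg (z + v)
  exact pow_le_pow_left₀ (by linarith) (by nlinarith) s

/-- **The bound.** -/
theorem ker_bd (hd : 1 ≤ d) (s : ℕ) (J : List (Fin d)) (hJ : 4 ≤ J.length)
    (hs : s + 2 ≤ J.length) (v : Fin d → ℤ) (j k : Fin d) : ∃ C : ℝ, 0 < C ∧
    ∀ (τ Ω : Fin d → Fin d → Fz' d) (A σ : Fin d → Fz' d) (T : ℕ) (R M B : ℝ), 1 ≤ T → 0 ≤ M →
      T + J.length + 2 + ll v ≤ R →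
      (∀ j k z, τ j k z = Ω j k z + (nb j (A k) z - nb k (A j) z)) →
      (∀ j k z, τ k j z = -τ j k z) → (∀ k z, ll z ≤ R → dvg τ k z = σ k z) →
      (∀ j k z, ll z ≤ R → |Ω j k z| ≤ M * (ll z + 1) ^ (s + 1)) →
      (∀ k z, ll z ≤ R → |σ k z| ≤ M * (ll z + 1) ^ s) → (∀ j k z, |τ j k z| ≤ B) →
      |dF J (τ j k) v| ≤ C * (M + B / (T : ℝ) ^ 2) := by
  obtain ⟨C, hC, h⟩ := ker_bd0 hd s J hJ hs j k
  have hv := ll_nonneg v
  have hP : 1 ≤ (ll v + 1) ^ (s + 1) := one_le_pow₀ (by linarith)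
  refine ⟨C * (ll v + 1) ^ (s + 1), by positivity,
    fun τ Ω A σ T R M B hT hM hR h1 h2 h3 h4 h5 h6 => ?_⟩
  have hB : 0 ≤ B := (abs_nonneg _).trans (h6 j k 0)
  have hz : ∀ z : Fin d → ℤ, ll z ≤ R - ll v → ll (z + v) ≤ R := fun z hz => by
    have := ll_plus z v; linarith
  have key := h (fun j k => shf v (τ j k)) (fun j k => shf v (Ω j k)) (fun k => shf v (A k))
    (fun k => shf v (σ k)) T (R - ll v) (M * (ll v + 1) ^ (s + 1)) B hT (by positivity)
    (by linarith) (fun j k z => by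
      rw [shf_nb, shf_nb]
      exact h1 j k (z + v)) (fun j k z => h2 j k (z + v)) (fun k z hz' => by
      rw [shf_dvg]
      exact h3 k (z + v) (hz z hz')) (fun j k z hz' => by
      refine (h4 j k (z + v) (hz z hz')).trans ?_
      rw [mul_assoc]
      exact mul_le_mul_of_nonneg_left (ll_shift z v _) hM) (fun k z hz' => by
      refine (h5 k (z + v) (hz z hz')).trans ?_
      rw [mul_assoc]
      refine mul_le_mul_of_nonneg_left ((ll_shift z v _).trans ?_) hM
      have h8 := ll_nonneg z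
      refine mul_le_mul_of_nonneg_right ?_ (by positivity)
      exact pow_le_pow_right₀ (by linarith) (Nat.le_succ _)) (fun j k z => h6 j k (z + v))
  rw [dF_shf]
  refine key.trans ?_
  have h9 : 0 ≤ B / (T : ℝ) ^ 2 := by positivity
  rw [mul_assoc]
  refine mul_le_mul_of_nonneg_left ?_ hC.le
  nlinarith

/-- **The limit.** -/
theorem ker_lim {X : Type*} {F : Filter X} (hd : 1 ≤ d) (s : ℕ) (J : List (Fin d))
    (hJ : 4 ≤ J.length) (hs : s + 2 ≤ J.length) (v : Fin d → ℤ)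
    (τ Ω : X → Fin d → Fin d → Fz' d) (A σ : X → Fin d → Fz' d)
    (T : X → ℕ) (R B : X → ℝ) (M : ℝ) (hM : 0 ≤ M)
    (hR : ∀ᶠ x in F, T x + J.length + 2 + ll v ≤ R x)
    (h1 : ∀ x j k z, τ x j k z = Ω x j k z + (nb j (A x k) z - nb k (A x j) z))
    (h2 : ∀ x j k z, τ x k j z = -τ x j k z)
    (h3 : ∀ᶠ x in F, ∀ k z, ll z ≤ R x → dvg (τ x) k z = σ x k z)
    (h4 : ∀ᶠ x in F, ∀ j k z, ll z ≤ R x → |Ω x j k z| ≤ M * (ll z + 1) ^ (s + 1))
    (h5 : ∀ᶠ x in F, ∀ k z, ll z ≤ R x → |σ x k z| ≤ M * (ll z + 1) ^ s)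
    (h6 : ∀ᶠ x in F, ∀ j k z, |τ x j k z| ≤ B x)
    (h7 : Tendsto T F atTop) (h8 : Tendsto (fun x => B x / (T x : ℝ) ^ 2) F (𝓝 0))
    (h9 : ∀ j k z, ∃ g, Tendsto (fun x => Ω x j k z) F (𝓝 g))
    (h10 : ∀ k z, ∃ g, Tendsto (fun x => σ x k z) F (𝓝 g)) (j k : Fin d) :
    ∃ g, Tendsto (fun x => dF J (τ x j k) v) F (𝓝 g) := by
  choose Ω' h9 using h9
  choose σ' h10 using h10
  have hv := ll_nonneg v
  have hz : ∀ (x : X) (z : Fin d → ℤ), ll z ≤ R x - ll v → ll (z + v) ≤ R x := fun x z hz => by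
    have := ll_plus z v; linarith
  have key := ker_lim0 hd s J hJ hs (fun x j k => shf v (τ x j k)) (fun x j k => shf v (Ω x j k))
    (fun x k => shf v (A x k)) (fun x k => shf v (σ x k)) (fun j k => shf v (Ω' j k))
    (fun k => shf v (σ' k)) T (fun x => R x - ll v) B (M * (ll v + 1) ^ (s + 1)) (by positivity)
    (by filter_upwards [hR] with x hx; linarith) (fun x j k z => by
      rw [shf_nb, shf_nb]
      exact h1 x j k (z + v)) (fun x j k z => h2 x j k (z + v)) (by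
      filter_upwards [h3] with x hx k z hz'
      rw [shf_dvg]
      exact hx k (z + v) (hz x z hz')) (by
      filter_upwards [h4] with x hx j k z hz'
      refine (hx j k (z + v) (hz x z hz')).trans ?_
      rw [mul_assoc]
      exact mul_le_mul_of_nonneg_left (ll_shift z v _) hM) (by
      filter_upwards [h5] with x hx k z hz'
      refine (hx k (z + v) (hz x z hz')).trans ?_
      rw [mul_assoc]
      refine mul_le_mul_of_nonneg_left ((ll_shift z v _).trans ?_) hM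
      have h8 := ll_nonneg z
      refine mul_le_mul_of_nonneg_right ?_ (by positivity)
      exact pow_le_pow_right₀ (by linarith) (Nat.le_succ _)) (by
      filter_upwards [h6] with x hx j k z
      exact hx j k (z + v)) h7 h8 (fun j k z => h9 j k (z + v)) (fun k z => h10 k (z + v)) j k
  simp only [dF_shf v J]
  exact ⟨_, key⟩

end

end Pool.Agent.Y16.YM
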