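import Mathlib
import Pool.Agent.Y16.NL.Dr
import Pool.Agent.Y16.NL.Kr

/-!
# The derivatives of the components of the field strengths, to first order
-/

open MeasureTheory Matrix Filter
open scoped Matrix.Norms.Frobenius Topology
open Pool.Agent.H906R3.YM Pool.Agent.W793.YM Pool.Agent.TH940.YM
open Pool.Agent.W793.SCH (haf Near pk gK DD mx el TK S_B1 S_B2 S_TR S_W1 S_HAF green plaq_moment2)

namespace Pool.Agent.Y16.YM

set_option linter.unusedSectionVars false
set_option linter.unusedVariables false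
set_option maxHeartbeats 400000

noncomputable section

/-- the incidence number of a link and a plaquette -/
def ic {d : ℕ} (y : Zp d) (k : Fin d) (p : Fin d × Fin d) (x : Zp d) : ℝ :=
  (if x = y ∧ p.1 = k then 1 else 0) + (if x + ez p.1 = y ∧ p.2 = k then 1 else 0) -
    (if x + ez p.2 = y ∧ p.1 = k then 1 else 0) - (if x = y ∧ p.2 = k then 1 else 0)

lemma ic_abs {d : ℕ} (y : Zp d) (k : Fin d) (p : Fin d × Fin d) (x : Zp d) :
    |ic y k p x| ≤ 4 := by
  unfold ic
  split_ifs <;> norm_num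

lemma ic_far {d : ℕ} {y : Zp d} {k : Fin d} {p : Fin d × Fin d} {x : Zp d}
    (h : l1 x + 1 < l1 y) : ic y k p x = 0 := by
  have h1 : x ≠ y := fun e => by rw [e] at h; omega
  have h2 : ∀ i, x + ez i ≠ y := fun i e => by
    have := l1_succ_le x i
    rw [e] at this; omega
  unfold ic
  rw [if_neg fun e => h1 e.1, if_neg fun e => h2 _ e.1, if_neg fun e => h2 _ e.1,
    if_neg fun e => h1 e.1]
  ring

section one

variable {G : Type} [Group G] [TopologicalSpace G] [IsTopologicalGroup G] [CompactSpace G]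
  [SecondCountableTopology G] [MeasurableSpace G] [BorelSpace G]
  {N n : ℕ} {L : LD G N n} {d : ℕ}

/-- the derivative of a component -/
def kg (L : LD G N n) (c : Fin n) (y : Zp d) (k : Fin d) (p : Fin d × Fin d) (a : Fin n)
    (x : Zp d) (u : Zp d → Fin d → G) : ℝ := ip (L.X a) (DG L c y k x p.1 p.2 u)

/-- its leading part -/
def kc (c : Fin n) (y : Zp d) (k : Fin d) (p : Fin d × Fin d) (a : Fin n) (x : Zp d) : ℝ :=
  if a = c then ic y k p x else 0

/-- the remainder -/
def kr (L : LD G N n) (c : Fin n) (y : Zp d) (k : Fin d) (p : Fin d × Fin d) (a : Fin n)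
    (x : Zp d) (u : Zp d → Fin d → G) : ℝ := kg L c y k p a x u - kc c y k p a x

lemma DG_sub (c : Fin n) (y : Zp d) (k : Fin d) (x : Zp d) (p : Fin d × Fin d)
    (u : Zp d → Fin d → G) : DG L c y k x p.1 p.2 u - ic y k p x • L.X c =
  sgm x y k • (L.X c * (L.rho (Gz u x p.1 p.2) - 1) - (L.rho (Gz u x p.1 p.2) - 1) * L.X c) +
  (if x = y ∧ p.1 = k then (1:ℝ) else 0) • (L.X c * (L.rho (Gz u x p.1 p.2) - 1)) +
  (if x + ez p.1 = y ∧ p.2 = k then (1:ℝ) else 0) •
    (L.rho (Vz u x p.1) * L.X c * L.rho ((Vz u x p.1)⁻¹ * Gz u x p.1 p.2) - L.X c) -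
  (if x + ez p.2 = y ∧ p.1 = k then (1:ℝ) else 0) •
    (L.rho (Gz u x p.1 p.2 * Vz u x p.2) * L.X c * L.rho (Vz u x p.2)⁻¹ - L.X c) -
  (if x = y ∧ p.2 = k then (1:ℝ) else 0) • ((L.rho (Gz u x p.1 p.2) - 1) * L.X c) := by
  unfold DG ic
  simp only [mul_sub, sub_mul, mul_one, one_mul, smul_sub, add_smul, sub_smul]
  abel

lemma kr_eq (c : Fin n) (y : Zp d) (k : Fin d) (p : Fin d × Fin d) (a : Fin n) (x : Zp d)
    (u : Zp d → Fin d → G) : kr L c y k p a x u =
      ip (L.X a) (DG L c y k x p.1 p.2 u - ic y k p x • L.X c) := by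
  unfold kr kg kc
  rw [map_sub, map_smul, ip_X, smul_eq_mul, mul_ite, mul_one, mul_zero]

lemma sand_le (c : Fin n) (g h : G) :
    ‖L.rho g * L.X c * L.rho h - L.X c‖ ≤ dv L g + dv L h := by
  have e : L.rho g * L.X c * L.rho h - L.X c =
      (L.rho g - 1) * L.X c * L.rho h + L.X c * (L.rho h - 1) := by noncomm_ring
  rw [e]
  refine (norm_add_le _ _).trans (add_le_add ?_ ?_)
  · rw [norm_rmul]
    refine (norm_mul_le _ _).trans ?_
    rw [norm_X, mul_one]; exact le_rfl
  · refine (norm_mul_le _ _).trans ?_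
    rw [norm_X, one_mul]; exact le_rfl

lemma ite_smul_le {P : Prop} [Decidable P] (M : Mat N) {K : ℝ} (h : ‖M‖ ≤ K) :
    ‖(if P then (1:ℝ) else 0) • M‖ ≤ K := by
  have h0 := norm_nonneg M
  split_ifs
  · rwa [one_smul]
  · rw [zero_smul, norm_zero]; linarith

lemma kr_le (c : Fin n) (y : Zp d) (k : Fin d) (p : Fin d × Fin d) (a : Fin n) (x : Zp d)
    (u : Zp d → Fin d → G) : |kr L c y k p a x u| ≤
      6 * dv L (Gz u x p.1 p.2) + 2 * dv L (Vz u x p.1) + 2 * dv L (Vz u x p.2) := by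
  rw [kr_eq, DG_sub]
  refine (ip_le _ _).trans ?_
  obtain ⟨g, hg⟩ : ∃ g, g = dv L (Gz u x p.1 p.2) := ⟨_, rfl⟩
  have hX1 : ‖L.X c * (L.rho (Gz u x p.1 p.2) - 1)‖ ≤ g := by
    refine (norm_mul_le _ _).trans ?_
    rw [norm_X, one_mul, hg]; exact le_rfl
  have hX2 : ‖(L.rho (Gz u x p.1 p.2) - 1) * L.X c‖ ≤ g := by
    refine (norm_mul_le _ _).trans ?_
    rw [norm_X, mul_one, hg]; exact le_rfl
  have hv1 := dv_inv (L := L) (Vz u x p.1)
  have hv2 := dv_inv (L := L) (Vz u x p.2)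
  have t0 : ‖sgm x y k • (L.X c * (L.rho (Gz u x p.1 p.2) - 1) -
      (L.rho (Gz u x p.1 p.2) - 1) * L.X c)‖ ≤ 2 * g := by
    rw [norm_smul, Real.norm_eq_abs]
    have h1 := (norm_sub_le (L.X c * (L.rho (Gz u x p.1 p.2) - 1))
      ((L.rho (Gz u x p.1 p.2) - 1) * L.X c)).trans (add_le_add hX1 hX2)
    have h2 := sgm_abs x y k
    calc _ ≤ 1 * (g + g) := mul_le_mul h2 h1 (norm_nonneg _) zero_le_one
      _ = _ := by ring
  have t2 := sand_le (L := L) c (Vz u x p.1) ((Vz u x p.1)⁻¹ * Gz u x p.1 p.2)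
  have t2' := dv_mul (L := L) (Vz u x p.1)⁻¹ (Gz u x p.1 p.2)
  have t3 := sand_le (L := L) c (Gz u x p.1 p.2 * Vz u x p.2) (Vz u x p.2)⁻¹
  have t3' := dv_mul (L := L) (Gz u x p.1 p.2) (Vz u x p.2)
  rw [← hg] at t2' t3'
  rw [← hg]
  have s1 := ite_smul_le (P := x = y ∧ p.1 = k) _ hX1
  have s2 := ite_smul_le (P := x + ez p.1 = y ∧ p.2 = k) _ t2
  have s3 := ite_smul_le (P := x + ez p.2 = y ∧ p.1 = k) _ t3
  have s4' := ite_smul_le (P := x = y ∧ p.2 = k) _ hX2
  refine (norm_sub_le _ _).trans ((add_le_add ((norm_sub_le _ _).trans (add_le_add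
    ((norm_add_le _ _).trans (add_le_add ((norm_add_le _ _).trans (add_le_add t0 s1)) s2)) s3))
      s4').trans ?_)
  linarith

/-- the derivative vanishes far away -/
lemma kg_far {c : Fin n} {y : Zp d} {k : Fin d} {p : Fin d × Fin d} {a : Fin n} {x : Zp d}
    (h : l1 x + 1 < l1 y) (u : Zp d → Fin d → G) : kg L c y k p a x u = 0 := by
  have h1 : x ≠ y := fun e => by rw [e] at h; omega
  have h2 : ∀ i, x + ez i ≠ y := fun i e => by
    have := l1_succ_le x i
    rw [e] at this; omega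
  unfold kg DG
  rw [sgm_far (by omega), if_neg fun e => h1 e.1, if_neg fun e => h2 _ e.1,
    if_neg fun e => h2 _ e.1, if_neg fun e => h1 e.1]
  simp

lemma kc_far {c : Fin n} {y : Zp d} {k : Fin d} {p : Fin d × Fin d} {a : Fin n} {x : Zp d}
    (h : l1 x + 1 < l1 y) : kc c y k p a x = 0 := by
  unfold kc
  rw [ic_far h, ite_self]

lemma kc_abs (c : Fin n) (y : Zp d) (k : Fin d) (p : Fin d × Fin d) (a : Fin n) (x : Zp d) :
    |kc c y k p a x| ≤ 4 := by
  unfold kc
  split_ifs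
  · exact ic_abs _ _ _ _
  · norm_num

/-- matrices with an expansion -/
lemma EM0 {w : (Zp d → Fin d → G) → G} (h : EW L w) : EM L 0 3 (fun u => L.rho (w u)) := by
  have h1 := ((h.1.mono_left (by norm_num : 0 ≤ 1)).mono_right (by norm_num : 3 ≤ 4)).add
    (EM_const (L := L) (d := d) (1 : Mat N) 3)
  simpa only [sub_add_cancel] using h1

lemma EM_cm {k m : ℕ} {F : (Zp d → Fin d → G) → Mat N} (hF : EM L k m F) (h : k ≤ m)
    (A : Mat N) : EM L k m (fun u => A * F u) := by
  obtain ⟨s, rfl⟩ : ∃ s, m = k + s := ⟨m - k, by omega⟩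
  have h1 := EM.mul (k := 0) (k' := k) (s := s) (EM_const (L := L) (d := d) A (0 + s)) hF
  rwa [zero_add] at h1

lemma EM_mc {k m : ℕ} {F : (Zp d → Fin d → G) → Mat N} (hF : EM L k m F) (h : k ≤ m)
    (A : Mat N) : EM L k m (fun u => F u * A) := by
  obtain ⟨s, rfl⟩ : ∃ s, m = k + s := ⟨m - k, by omega⟩
  have h1 := EM.mul (k := k) (k' := 0) (s := s) hF (EM_const (L := L) (d := d) A (0 + s))
  rwa [add_zero] at h1

lemma mx_id4 (A X B : Mat N) : A * X * B - X = (A - 1) * (X * B) + X * (B - 1) := by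
  noncomm_ring

lemma EM_sand (c : Fin n) {w w' : (Zp d → Fin d → G) → G} (h : EW L w) (h' : EW L w') :
    EM L 1 4 (fun u => L.rho (w u) * L.X c * L.rho (w' u) - L.X c) := by
  have h1 : EM L 0 (0 + 3) (fun u => L.X c * L.rho (w' u)) :=
    EM_cm (EM0 h') (by norm_num) (L.X c)
  have h2 : EM L 1 4 (fun u => (L.rho (w u) - 1) * (L.X c * L.rho (w' u))) :=
    EM.mul (k := 1) (k' := 0) (s := 3) h.1 h1
  have h3 : EM L 1 4 (fun u => L.X c * (L.rho (w' u) - 1)) := EM_cm h'.1 (by norm_num) _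
  have h4 := h2.add h3
  have e : (fun u => L.rho (w u) * L.X c * L.rho (w' u) - L.X c) = fun u =>
      (L.rho (w u) - 1) * (L.X c * L.rho (w' u)) + L.X c * (L.rho (w' u) - 1) := by
    funext u
    exact mx_id4 _ _ _
  rw [e]
  exact h4

/-- the remainder has an expansion -/
theorem kr_Ex (hT : Tg4 L) (c : Fin n) (y : Zp d) (k : Fin d) (p : Fin d × Fin d) (a : Fin n)
    (x : Zp d) : Ex L 1 4 (fun u : Zp d → Fin d → G => kr L c y k p a x u) := by
  have hG := EW_Gz (L := L) hT x p.1 p.2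
  have hV1 := EW_Vz (L := L) hT x p.1
  have hV2 := EW_Vz (L := L) hT x p.2
  have g1 : EM L 1 4 (fun u : Zp d → Fin d → G => L.X c * (L.rho (Gz u x p.1 p.2) - 1)) :=
    EM_cm hG.1 (by norm_num) _
  have g2 : EM L 1 4 (fun u : Zp d → Fin d → G => (L.rho (Gz u x p.1 p.2) - 1) * L.X c) :=
    EM_mc hG.1 (by norm_num) _
  have h0 := (g1.sub g2).smul (sgm x y k)
  have h1 := g1.smul (if x = y ∧ p.1 = k then (1:ℝ) else 0)
  have h2 := (EM_sand (L := L) c hV1 (hV1.inv.mul hG)).smul
    (if x + ez p.1 = y ∧ p.2 = k then (1:ℝ) else 0)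
  have h3 := (EM_sand (L := L) c (hG.mul hV2) hV2.inv).smul
    (if x + ez p.2 = y ∧ p.1 = k then (1:ℝ) else 0)
  have h4 := g2.smul (if x = y ∧ p.2 = k then (1:ℝ) else 0)
  have h5 := ((((h0.add h1).add h2).sub h3).sub h4) (L.X a)
  refine h5.close (Ob_le (Ob.zero 4) fun u => le_of_eq ?_)
  rw [abs_eq_abs, kr_eq, DG_sub]
  left
  beta_reduce
  rw [sub_eq_zero]

lemma smul_cont {X : Type*} [TopologicalSpace X] (r : ℝ) {f : X → Mat N} (hf : Continuous f) :
    Continuous fun u => r • f u := (continuous_const_smul r).comp hf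

lemma DG_cont (c : Fin n) (y : Zp d) (k : Fin d) (x : Zp d) (i j : Fin d) :
    Continuous fun u : Zp d → Fin d → G => DG L c y k x i j u := by
  unfold DG
  have hG : Continuous fun u : Zp d → Fin d → G => L.rho (Gz u x i j) :=
    L.cont.comp (Gz_cont _ _ _)
  have hA : Continuous fun u : Zp d → Fin d → G =>
      L.rho (Vz u x i) * L.X c * L.rho ((Vz u x i)⁻¹ * Gz u x i j) :=
    ((L.cont.comp (Vz_cont x i)).mul continuous_const).mul
      (L.cont.comp ((Vz_cont x i).inv.mul (Gz_cont x i j)))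
  have hB : Continuous fun u : Zp d → Fin d → G =>
      L.rho (Gz u x i j * Vz u x j) * L.X c * L.rho (Vz u x j)⁻¹ :=
    ((L.cont.comp ((Gz_cont x i j).mul (Vz_cont x j))).mul continuous_const).mul
      (L.cont.comp (Vz_cont x j).inv)
  have c1 : Continuous fun u : Zp d → Fin d → G => L.X c * L.rho (Gz u x i j) :=
    continuous_const.mul hG
  have c2 : Continuous fun u : Zp d → Fin d → G => L.rho (Gz u x i j) * L.X c :=
    hG.mul continuous_const
  refine Continuous.sub (Continuous.sub (Continuous.add (Continuous.add ?_ ?_) ?_) ?_) ?_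
  · exact smul_cont _ (c1.sub c2)
  · exact smul_cont _ c1
  · exact smul_cont _ hA
  · exact smul_cont _ hB
  · exact smul_cont _ c2

lemma kg_cont (c : Fin n) (y : Zp d) (k : Fin d) (p : Fin d × Fin d) (a : Fin n) (x : Zp d) :
    Continuous fun u : Zp d → Fin d → G => kg L c y k p a x u :=
  (ip (L.X a)).continuous.comp (DG_cont _ _ _ _ _ _)

lemma kr_cont (c : Fin n) (y : Zp d) (k : Fin d) (p : Fin d × Fin d) (a : Fin n) (x : Zp d) :
    Continuous fun u : Zp d → Fin d → G => kr L c y k p a x u :=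
  (kg_cont _ _ _ _ _ _).sub continuous_const

end one

/-! ### repeated differences -/

section dif

variable {G : Type} {d : ℕ}

/-- repeated differences preserve properties of functions -/
lemma dF_prop {P : ((Zp d → Fin d → G) → ℝ) → Prop}
    (hP : ∀ F H, P F → P H → P (fun u => F u - H u)) {f : Zp d → (Zp d → Fin d → G) → ℝ}
    (h : ∀ x, P (f x)) (J : List (Fin d)) : ∀ x, P (fun u => dF J (fun x => f x u) x) := by
  induction J with
  | nil => exact h
  | cons i J ih =>
    intro x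
    exact hP _ _ (ih (x + Pi.single i 1)) (ih x)

lemma dF_sub (J : List (Fin d)) (f g : Zp d → ℝ) (x : Zp d) :
    dF J (fun x => f x - g x) x = dF J f x - dF J g x := by
  induction J generalizing x with
  | nil => rfl
  | cons i J ih =>
    show dF J (fun x => f x - g x) (x + Pi.single i 1) - dF J (fun x => f x - g x) x = _
    rw [ih, ih]
    show _ = (dF J f (x + Pi.single i 1) - dF J f x) - (dF J g (x + Pi.single i 1) - dF J g x)
    ring

lemma dF_zero {J : List (Fin d)} {f : Zp d → ℝ} {x : Zp d} {m : ℕ} (hm : l1 x + J.length ≤ m)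
    (h : ∀ y, l1 y ≤ m → f y = 0) : dF J f x = 0 := by
  induction J generalizing x with
  | nil => exact h x (by simpa using hm)
  | cons i J ih =>
    rw [List.length_cons] at hm
    show dF J f (x + Pi.single i 1) - dF J f x = 0
    have h2 : l1 (x + Pi.single i 1) ≤ l1 x + 1 := l1_succ_le x i
    rw [ih (x := x + Pi.single i 1) (by omega), ih (x := x) (by omega), sub_zero]

lemma dF_abs {J : List (Fin d)} {f : Zp d → ℝ} {K : ℝ} (h : ∀ y, |f y| ≤ K) (x : Zp d) :
    |dF J f x| ≤ 2 ^ J.length * K := by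
  induction J generalizing x with
  | nil => rw [List.length_nil, pow_zero, one_mul]; exact h x
  | cons i J ih =>
    show |dF J f (x + Pi.single i 1) - dF J f x| ≤ _
    rw [List.length_cons, pow_succ]
    refine (abs_sub _ _).trans ?_
    linarith [ih (x + Pi.single i 1), ih x]

end dif

end

end Pool.Agent.Y16.YM
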