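import Mathlib
import Pool.Agent.Y16.NL.Zk

/-!
# The expectation of a field strength vanishes
-/

open MeasureTheory Matrix Filter
open scoped Matrix.Norms.Frobenius Topology
open Pool.Agent.H906R3.YM Pool.Agent.W793.YM Pool.Agent.TH940.YM
open Pool.Agent.W793.SCH (haf Near pk gK DD mx el TK S_B1 S_B2 S_TR S_W1 S_HAF green plaq_moment2)

namespace Pool.Agent.Y16.YM

set_option linter.unusedSectionVars false
set_option linter.unusedVariables false
set_option maxHeartbeats 400000

noncomputable section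

section gen

variable {G : Type*} [Group G] [TopologicalSpace G] [IsTopologicalGroup G] [CompactSpace G]
  [SecondCountableTopology G] [MeasurableSpace G] [BorelSpace G] (μ : Measure G)
  [IsProbabilityMeasure μ] [μ.IsMulLeftInvariant] [μ.IsMulRightInvariant] [μ.IsInvInvariant]
  {N n : ℕ} {L : LD G N n} {d l : ℕ} [NeZero l]

/-- permutation of the coordinates of a configuration -/
def swc (π : Equiv.Perm (Fin d)) (U : Ed d l → G) : Ed d l → G :=
  fun e => U (e.1 ∘ π, π.symm e.2)

/-- permutation of the links -/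
def swE (π : Equiv.Perm (Fin d)) : Ed d l ≃ Ed d l where
  toFun e := (e.1 ∘ π.symm, π e.2)
  invFun e := (e.1 ∘ π, π.symm e.2)
  left_inv e := by
    refine Prod.ext ?_ (by simp)
    funext i
    simp
  right_inv e := by
    refine Prod.ext ?_ (by simp)
    funext i
    simp

lemma integral_sw (π : Equiv.Perm (Fin d)) (F : (Ed d l → G) → ℝ) :
    ∫ U, F (swc π U) ∂(ME μ (Ed d l)) = ∫ U, F U ∂(ME μ (Ed d l)) := by
  have h1 := measurePreserving_piCongrLeft (fun _ : Ed d l => μ) (swE π)
  have h2 : ((MeasurableEquiv.piCongrLeft (fun _ : Ed d l => G) (swE π)) :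
      (Ed d l → G) → (Ed d l → G)) = swc π := by
    funext U e
    have h6 : e = swE π (e.1 ∘ π, π.symm e.2) := ((swE π).right_inv e).symm
    conv_lhs => rw [h6]
    exact Equiv.piCongrLeft_apply_apply (fun _ : Ed d l => G) (swE π) U (e.1 ∘ π, π.symm e.2)
  have h3 := h1.integral_comp (MeasurableEquiv.measurableEmbedding _) F
  rw [← h3, ← h2]

lemma eT_comp (π : Equiv.Perm (Fin d)) (x : St d l) (k : Fin d) :
    (x + eT k) ∘ π = x ∘ π + eT (π.symm k) := by
  funext i
  have e : (eT k : St d l) (π i) = (eT (π.symm k) : St d l) i := by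
    unfold eT
    by_cases h : π i = k
    · have h' : i = π.symm k := by rw [← h]; simp
      subst h'
      simp
    · have h' : i ≠ π.symm k := fun e => h (by rw [e]; simp)
      rw [Pi.single_eq_of_ne h, Pi.single_eq_of_ne h']
  show x (π i) + (eT k : St d l) (π i) = x (π i) + (eT (π.symm k) : St d l) i
  rw [e]

lemma plqT_sw (π : Equiv.Perm (Fin d)) (U : Ed d l → G) (x : St d l) (i j : Fin d) :
    plqT (swc π U) x i j = plqT U (x ∘ π) (π.symm i) (π.symm j) := by
  unfold plqT swc
  simp only [eT_comp]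

lemma two_sum (f : Fin d → Fin d → ℝ) (hf : ∀ i j, f i j = f j i) :
    2 * ∑ i, ∑ j, (if i < j then f i j else 0) = ∑ i, ∑ j, if i ≠ j then f i j else 0 := by
  have h1 : ∑ i, ∑ j, (if i < j then f i j else 0) = ∑ i, ∑ j, (if j < i then f i j else 0) := by
    rw [Finset.sum_comm]
    refine Finset.sum_congr rfl fun i _ => Finset.sum_congr rfl fun j _ => ?_
    rw [hf i j]
  rw [two_mul]
  nth_rewrite 2 [h1]
  rw [← Finset.sum_add_distrib]
  refine Finset.sum_congr rfl fun i _ => ?_
  rw [← Finset.sum_add_distrib]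
  refine Finset.sum_congr rfl fun j _ => ?_
  rcases lt_trichotomy i j with h | h | h
  · rw [if_pos h, if_neg h.not_gt, if_pos h.ne, add_zero]
  · rw [if_neg h.not_lt, if_neg h.not_gt, if_neg (not_not.2 h), add_zero]
  · rw [if_neg h.not_gt, if_pos h, if_pos h.ne', zero_add]

lemma act_sw (π : Equiv.Perm (Fin d)) (U : Ed d l → G) : act L (swc π U) = act L U := by
  have h1 : ∀ x, ∑ i, ∑ j, (if i < j then we L (plqT U x (π.symm i) (π.symm j)) else 0) =
      ∑ i, ∑ j, if i < j then we L (plqT U x i j) else 0 := by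
    intro x
    have hs : ∀ i j, we L (plqT U x i j) = we L (plqT U x j i) := fun i j => by
      rw [plqT_swap U x i j, we_inv]
    have a1 := two_sum (fun i j => we L (plqT U x (π.symm i) (π.symm j))) fun i j => hs _ _
    have a2 := two_sum (fun i j => we L (plqT U x i j)) fun i j => hs _ _
    have a3 : ∑ i, ∑ j, (if i ≠ j then we L (plqT U x (π.symm i) (π.symm j)) else 0) =
        ∑ i, ∑ j, if i ≠ j then we L (plqT U x i j) else 0 := by
      rw [← Equiv.sum_comp π.symm (fun i => ∑ j, if i ≠ j then we L (plqT U x i j) else 0)]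
      refine Finset.sum_congr rfl fun i _ => ?_
      rw [← Equiv.sum_comp π.symm (fun j => if π.symm i ≠ j then
        we L (plqT U x (π.symm i) j) else 0)]
      refine Finset.sum_congr rfl fun j _ => ?_
      by_cases h : i = j
      · rw [if_neg (not_not.2 h), if_neg (not_not.2 (by rw [h]))]
      · rw [if_pos h, if_pos fun e => h (π.symm.injective e)]
    linarith
  unfold act
  simp only [plqT_sw]
  rw [Finset.sum_congr rfl fun (x : St d l) _ => h1 (x ∘ π)]
  exact Equiv.sum_comp (Equiv.arrowCongr π.symm (Equiv.refl (ZMod l)))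
    (fun x => ∑ i, ∑ j, if i < j then we L (plqT U x i j) else 0)

lemma EX_sw (β : ℝ) (π : Equiv.Perm (Fin d)) (F : (Ed d l → G) → ℝ) :
    EX μ L β (fun U => F (swc π U)) = EX μ L β F := by
  unfold EX Zt
  rw [← integral_sw μ π (fun U => F U * Real.exp (-(β * act L U)))]
  simp only [act_sw]

end gen

variable {G : Type} [Group G] [TopologicalSpace G] [IsTopologicalGroup G] [CompactSpace G]
  [SecondCountableTopology G] [MeasurableSpace G] [BorelSpace G] (μ : Measure G)
  [IsProbabilityMeasure μ] [μ.IsMulLeftInvariant] [μ.IsMulRightInvariant] [μ.IsInvInvariant]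
  {N n : ℕ} {L : LD G N n} {d : ℕ}

lemma ee_plz_swap (z : ℝ × ℕ) (Φ : G → ℝ) (i j : Fin d) :
    ee μ L z (fun u : Zp d → Fin d → G => Φ (plz u 0 i j)⁻¹) =
      ee μ L z (fun u : Zp d → Fin d → G => Φ (plz u 0 i j)) := by
  unfold ee
  have h := EX_sw μ (L := L) (l := 2 * (z.2 + 1)) (z.1 ^ 4) (Equiv.swap i j)
    (fun U => Φ (plz (uz U) 0 i j))
  rw [← h]
  congr 1
  funext U
  beta_reduce
  rw [← plqT_uz, ← plqT_uz, plqT_sw, ← plqT_swap]
  have e : (zt (2 * (z.2 + 1)) (0 : Zp d) : St d _) ∘ (Equiv.swap i j) =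
      zt (2 * (z.2 + 1)) (0 : Zp d) := by
    funext k; simp [zt]
  rw [e]
  simp

/-- the expectation of a component of a field strength vanishes -/
theorem ee_one (z : ℝ × ℕ) (i j : Fin d) (x : Zp d) (a : Fin n) :
    ee μ L z (fun u : Zp d → Fin d → G => fF L i j x u a) = 0 := by
  obtain ⟨W, hW⟩ : ∃ W : Fin n → ℝ, W = fun a => ee μ L z (fun u : Zp d → Fin d → G =>
    fF L i j x u a) := ⟨_, rfl⟩
  have hinv : ∀ h : G, rot L h W = W := by
    intro h
    funext c
    have e1 := ee_cj μ (L := L) (z := z) (fF_cont (L := L) i j x c) h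
    have e2 : (fun u : Zp d → Fin d → G => fF L i j x (cj h u) c) = fun u =>
        ∑ b, L.adm h c b * fF L i j x u b := by
      funext u; rw [fF_cj]; rfl
    have c1 : ∀ b, Continuous fun u : Zp d → Fin d → G => L.adm h c b * fF L i j x u b :=
      fun b => continuous_const.mul (fF_cont (L := L) i j x b)
    rw [e2, ee_sum μ _ c1] at e1
    have e3 : ∀ b, ee μ L z (fun u : Zp d → Fin d → G => L.adm h c b * fF L i j x u b) =
        L.adm h c b * W b := fun b => by
      rw [ee_smul, hW]
    simp only [e3] at e1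
    have e4 : rot L h W c = ∑ b, L.adm h c b * W b := rfl
    rw [e4, e1, hW]
  obtain ⟨Φ, hΦ⟩ : ∃ Φ : G → ℝ, Φ = fun g => ∑ a, W a * cc L a g := ⟨_, rfl⟩
  have h1 : ∑ a, W a * W a = ee μ L z (fun u : Zp d → Fin d → G => Φ (plz u x i j)) := by
    have e : (fun u : Zp d → Fin d → G => Φ (plz u x i j)) = fun u =>
        ∑ a, W a * fF L i j x u a := by
      funext u
      have e1 : (fun a => fF L i j x u a) = rot L (Pz u x) (fun a => cc L a (plz u x i j)) := by
        funext a
        exact cc_rot (Pz u x) (plz u x i j) a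
      have e2 := rot_dot (L := L) (Pz u x) W (fun a => cc L a (plz u x i j))
      rw [hinv, ← e1] at e2
      rw [hΦ]
      exact e2.symm
    have c1 : ∀ b, Continuous fun u : Zp d → Fin d → G => W b * fF L i j x u b :=
      fun b => continuous_const.mul (fF_cont (L := L) i j x b)
    rw [e, ee_sum μ _ c1]
    refine Finset.sum_congr rfl fun a _ => ?_
    rw [ee_smul, hW]
  have h2 : ee μ L z (fun u : Zp d → Fin d → G => Φ (plz u x i j)) =
      ee μ L z (fun u : Zp d → Fin d → G => Φ (plz u 0 i j)) := by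
    rw [← ee_tr μ (L := L) (x := z) x (fun u => Φ (plz u 0 i j))]
    congr 1
    funext u
    rw [plz_tr, zero_add]
  have h3 : ee μ L z (fun u : Zp d → Fin d → G => Φ (plz u 0 i j)) = 0 := by
    have e1 := ee_plz_swap μ (L := L) z Φ i j
    have e2 : (fun u : Zp d → Fin d → G => Φ (plz u 0 i j)⁻¹) = fun u => -Φ (plz u 0 i j) := by
      funext u
      rw [hΦ]
      simp only [cc_inv, mul_neg, Finset.sum_neg_distrib]
    rw [e2, ee_neg] at e1
    linarith
  rw [h2, h3] at h1
  have h4 : ∀ a ∈ (Finset.univ : Finset (Fin n)), W a * W a = 0 :=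
    (Finset.sum_eq_zero_iff_of_nonneg fun a _ => mul_self_nonneg _).1 h1
  have h5 := mul_self_eq_zero.1 (h4 a (Finset.mem_univ _))
  rw [hW] at h5
  exact h5

end

end Pool.Agent.Y16.YM
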