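import Mathlib
import Pool.Agent.Y16.NL.Dr2
import Pool.Agent.Y16.NL.Sw

/-!
# The Schwinger-Dyson equations for products of differentiated field strengths
-/

open MeasureTheory Matrix Filter
open scoped Matrix.Norms.Frobenius Topology
open Pool.Agent.H906R3.YM Pool.Agent.W793.YM Pool.Agent.TH940.YM
open Pool.Agent.W793.SCH (haf Near pk gK DD mx el TK S_B1 S_B2 S_TR S_W1 S_HAF green plaq_moment2)

namespace Pool.Agent.Y16.YM

set_option linter.unusedSectionVars false
set_option linter.unusedVariables false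
set_option maxHeartbeats 400000

noncomputable section

variable {G : Type} [Group G] [TopologicalSpace G] [IsTopologicalGroup G] [CompactSpace G]
  [SecondCountableTopology G] [MeasurableSpace G] [BorelSpace G] (μ : Measure G)
  [IsProbabilityMeasure μ] [μ.IsMulLeftInvariant] [μ.IsMulRightInvariant] [μ.IsInvInvariant]
  {N n : ℕ} {L : LD G N n} {d : ℕ}

/-- `F'` is the derivative of `F` along the flow at a link -/
def Dv (L : LD G N n) (l : ℕ) [NeZero l] (y : Zp d) (k : Fin d) (c : Fin n)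
    (F F' : (Zp d → Fin d → G) → ℝ) : Prop :=
  ∀ U : Ed d l → G, HasDerivAt (fun t => F (uz (fl L ((zt l y, k) : Ed d l)
    (fun U => Pz (uz U) y) c t U))) (F' (uz U)) 0

section

variable {l : ℕ} [NeZero l] {y : Zp d} {k : Fin d} {c : Fin n}

lemma Dv.sub {F F' H H' : (Zp d → Fin d → G) → ℝ} (hF : Dv L l y k c F F')
    (hH : Dv L l y k c H H') : Dv L l y k c (fun u => F u - H u) (fun u => F' u - H' u) :=
  fun U => (hF U).sub (hH U)

lemma Dv.prod {ι : Type*} [DecidableEq ι] (s : Finset ι)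
    {f f' : ι → (Zp d → Fin d → G) → ℝ} (h : ∀ i ∈ s, Dv L l y k c (f i) (f' i)) :
    Dv L l y k c (fun u => ∏ i ∈ s, f i u) (fun u => ∑ i ∈ s, f' i u * ∏ j ∈ s.erase i, f j u) := by
  intro U
  have h1 := HasDerivAt.fun_finsetProd (u := s) (f := fun i t => f i (uz (fl L
    ((zt l y, k) : Ed d l) (fun U => Pz (uz U) y) c t U))) (f' := fun i => f' i (uz U))
    (x := (0:ℝ)) fun i hi => h i hi U
  refine h1.congr_deriv ?_
  refine Finset.sum_congr rfl fun i _ => ?_
  rw [smul_eq_mul, mul_comm]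
  have h0 : fl L ((zt l y, k) : Ed d l) (fun U => Pz (uz U) y) c 0 U = U := fl_zero c U
  rw [h0]

lemma Dv_fF {x : Zp d} {m : ℤ} (hm : ∀ i, m + |y i| < l) (hx : ∀ i, |x i| + 1 ≤ m)
    (p : Fin d × Fin d) (a : Fin n) : Dv L l y k c (fun u => fF L p.1 p.2 x u a)
      (kg L c y k p a x) := by
  intro U
  have h1 := der_Gz (L := L) k c U hm hx p.1 p.2
  exact (ip (L.X a)).hasFDerivAt.comp_hasDerivAt (0 : ℝ) h1

lemma Dv_dF {m : ℤ} (hm : ∀ i, m + |y i| < l) (p : Fin d × Fin d) (a : Fin n)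
    (J : List (Fin d)) : ∀ x : Zp d, (∀ i, |x i| + 1 + J.length ≤ m) →
    Dv L l y k c (fun u => dF J (fun x => fF L p.1 p.2 x u a) x)
      (fun u => dF J (fun x => kg L c y k p a x u) x) := by
  induction J with
  | nil => intro x hx; exact Dv_fF hm (fun i => by simpa using hx i) p a
  | cons i J ih =>
    intro x hx
    have h1 : ∀ j, |(x + Pi.single i 1 : Zp d) j| + 1 + J.length ≤ m := fun j => by
      have h2 := hx j
      have h3 : |(ez i : Zp d) j| ≤ 1 := ez_abs i j
      have h4 := abs_add_le (x j) ((ez i : Zp d) j)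
      rw [List.length_cons] at h2
      push_cast at h2
      have h5 : (x + Pi.single i 1 : Zp d) j = x j + (ez i : Zp d) j := rfl
      rw [h5]
      omega
    exact (ih _ h1).sub (ih x fun j => by
      have h2 := hx j
      rw [List.length_cons] at h2
      push_cast at h2
      omega)

/-- the Schwinger-Dyson equation -/
theorem sd_one {F F' : (Zp d → Fin d → G) → ℝ} (hy : ∀ i, 2 * (|y i| + 1) < l)
    (h : Dv L l y k c F F') (hF : Continuous F) (hF' : Continuous F') (β : ℝ) :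
    EX μ L β (fun U : Ed d l → G => F' (uz U)) =
      β * EX μ L β (fun U : Ed d l → G => DS L (uz U) c y k * F (uz U)) := by
  have key : Zt μ L β (fun U : Ed d l → G => F' (uz U)) =
      β * Zt μ L β (fun U : Ed d l → G => DS L (uz U) c y k * F (uz U)) := by
    have cD : Continuous fun U : Ed d l → G => F' (uz U) := hF'.comp uz_cont
    have cP : Continuous fun U : Ed d l → G => F (uz U) := hF.comp uz_cont
    have cS : Continuous fun U : Ed d l → G => DS L (uz U) c y k := (DS_cont c y k).comp uz_cont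
    have cw := wt_contT (L := L) (d := d) (l := l) β
    have h1 := int_der μ (L := L) (fr_Pz (G := G) hy k) c
      (F := fun U : Ed d l → G => F (uz U) * Real.exp (-(β * act L U)))
      (F' := fun U => F' (uz U) * Real.exp (-(β * act L U)) -
        β * (DS L (uz U) c y k * F (uz U) * Real.exp (-(β * act L U))))
      (cP.mul cw) ((cD.mul cw).sub (continuous_const.mul ((cS.mul cP).mul cw))) (fun U => by
        have h0 : fl L ((zt l y, k) : Ed d l) (fun U => Pz (uz U) y) c 0 U = U := fl_zero c U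
        have a1 := h U
        have a2 := ((der_act (L := L) (x := y) (k := k) c U).const_mul β).neg.exp
        have a3 := a1.mul a2
        simp only [Pi.neg_apply, h0] at a3
        refine a3.congr_deriv ?_
        ring)
    have i1 : Integrable (fun U : Ed d l → G => F' (uz U) * Real.exp (-(β * act L U)))
        (ME μ (Ed d l)) := integrable_cont μ (cD.mul cw)
    have i2 : Integrable (fun U : Ed d l → G => β * (DS L (uz U) c y k * F (uz U) *
        Real.exp (-(β * act L U)))) (ME μ (Ed d l)) :=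
      integrable_cont μ (continuous_const.mul ((cS.mul cP).mul cw))
    rw [integral_sub i1 i2, integral_const_mul] at h1
    unfold Zt
    linarith
  unfold EX
  rw [key, mul_div_assoc]

end

theorem sd_ee {z : ℝ × ℕ} {y : Zp d} {k : Fin d} {c : Fin n} {F F' : (Zp d → Fin d → G) → ℝ}
    (hy : ∀ i, 2 * (|y i| + 1) < ((2 * (z.2 + 1) : ℕ) : ℤ))
    (h : Dv L (2 * (z.2 + 1)) y k c F F') (hF : Continuous F) (hF' : Continuous F') :
    ee μ L z F' = z.1 ^ 4 * ee μ L z (fun u => DS L u c y k * F u) :=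
  sd_one μ hy h hF hF' (z.1 ^ 4)

/-! ### the two form of correlations with a function -/

/-- the correlation of the field strength with a function -/
def te (L : LD G N n) (z : ℝ × ℕ) (R : (Zp d → Fin d → G) → ℝ) (c : Fin n) :
    Fin d → Fin d → Fz' d := fun j k y => ee μ L z (fun u => fF L j k y u c * R u)

lemma te_anti (z : ℝ × ℕ) (R : (Zp d → Fin d → G) → ℝ) (c : Fin n) (j k : Fin d) (y : Zp d) :
    te μ L z R c k j y = -te μ L z R c j k y := by
  unfold te
  rw [← ee_neg]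
  congr 1
  funext u
  unfold fF cg
  rw [Gz_swap, cc_inv]; ring

lemma te_exact {R : (Zp d → Fin d → G) → ℝ} (hR : Continuous R) (z : ℝ × ℕ) (c : Fin n)
    (j k : Fin d) (y : Zp d) : te μ L z R c j k y = ee μ L z (fun u => om L j k y u c * R u) +
      (nb j (fun y => ee μ L z (fun u => am L k y u c * R u)) y -
        nb k (fun y => ee μ L z (fun u => am L j y u c * R u)) y) := by
  unfold te nb
  have ca : ∀ i (y : Zp d), Continuous fun u : Zp d → Fin d → G => am L i y u c * R u := fun i y =>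
    (am_cont i y c).mul hR
  have co : Continuous fun u : Zp d → Fin d → G => om L j k y u c * R u :=
    (om_cont j k y c).mul hR
  have c1 : Continuous fun u : Zp d → Fin d → G =>
      am L k (y + ez j) u c * R u - am L k y u c * R u := (ca _ _).sub (ca _ _)
  have c2 : Continuous fun u : Zp d → Fin d → G =>
      am L j (y + ez k) u c * R u - am L j y u c * R u := (ca _ _).sub (ca _ _)
  have c3 : Continuous fun u : Zp d → Fin d → G =>
      (am L k (y + ez j) u c * R u - am L k y u c * R u) -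
        (am L j (y + ez k) u c * R u - am L j y u c * R u) := c1.sub c2
  have e : (fun u : Zp d → Fin d → G => fF L j k y u c * R u) = fun u => om L j k y u c * R u +
      ((am L k (y + ez j) u c * R u - am L k y u c * R u) -
        (am L j (y + ez k) u c * R u - am L j y u c * R u)) := by
    funext u
    unfold om; ring
  rw [e, ee_add μ co c3, ee_sub μ c1 c2, ee_sub μ (ca _ _) (ca _ _), ee_sub μ (ca _ _) (ca _ _)]

lemma te_div {R R' : (Zp d → Fin d → G) → ℝ} (hR : Continuous R) (hR' : Continuous R')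
    {z : ℝ × ℕ} {y : Zp d} {k : Fin d} {c : Fin n}
    (hy : ∀ i, 2 * (|y i| + 1) < ((2 * (z.2 + 1) : ℕ) : ℤ)) (hz : 0 < z.1)
    (h : Dv L (2 * (z.2 + 1)) y k c R R') :
    dvg (te μ L z R c) k y = ee μ L z (fun u => rh L k y u c * R u) -
      ee μ L z R' / z.1 ^ 4 := by
  have h1 := sd_ee μ hy h hR hR'
  have h2 : ee μ L z R' / z.1 ^ 4 = ee μ L z (fun u => DS L u c y k * R u) := by
    rw [h1]; field_simp
  have cf : ∀ j (y : Zp d), Continuous fun u : Zp d → Fin d → G => fF L k j y u c * R u :=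
    fun j y => (fF_cont k j y c).mul hR
  have c1 : ∀ j, Continuous fun u : Zp d → Fin d → G =>
      fF L k j y u c * R u - fF L k j (y - ez j) u c * R u := fun j => (cf _ _).sub (cf _ _)
  have cr : Continuous fun u : Zp d → Fin d → G => rh L k y u c * R u := (rh_cont k y c).mul hR
  have e : (fun u : Zp d → Fin d → G => DS L u c y k * R u) = fun u =>
      (∑ j, (fF L k j y u c * R u - fF L k j (y - ez j) u c * R u)) + rh L k y u c * R u := by
    funext u
    unfold rh
    rw [← Finset.sum_congr rfl fun j _ => sub_mul (fF L k j y u c) (fF L k j (y - ez j) u c) (R u),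
      ← Finset.sum_mul]
    ring
  have h3 : ee μ L z (fun u => DS L u c y k * R u) =
      ∑ j, (te μ L z R c k j y - te μ L z R c k j (y - ez j)) +
        ee μ L z (fun u => rh L k y u c * R u) := by
    rw [e, ee_add μ (continuous_finsetSum _ fun j _ => c1 j) cr, ee_sum μ Finset.univ c1]
    congr 1
    refine Finset.sum_congr rfl fun j _ => ?_
    exact ee_sub μ (cf _ _) (cf _ _)
  rw [h2, h3]
  unfold dvg ns
  have h4 : ∀ j, te μ L z R c j k y - te μ L z R c j k (y - Pi.single j 1) =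
      -(te μ L z R c k j y - te μ L z R c k j (y - ez j)) := by
    intro j
    rw [te_anti μ z R c k j y, te_anti μ z R c k j (y - Pi.single j 1)]; ring
  rw [Finset.sum_congr rfl fun j _ => h4 j, Finset.sum_neg_distrib]
  ring

/-! ### legs -/

/-- the data of a leg: a component of a field strength and a list of differences -/
abbrev Lg (d n : ℕ) := Xl d n × List (Fin d)

/-- the value of a leg -/
def lv (L : LD G N n) (ℓ : Lg d n) (u : Zp d → Fin d → G) : ℝ :=
  dF ℓ.2 (fun x => fF L ℓ.1.1.1 ℓ.1.1.2 x u ℓ.1.2.2) ℓ.1.2.1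

/-- its derivative -/
def ld (L : LD G N n) (c : Fin n) (y : Zp d) (k : Fin d) (ℓ : Lg d n) (u : Zp d → Fin d → G) : ℝ :=
  dF ℓ.2 (fun x => kg L c y k ℓ.1.1 ℓ.1.2.2 x u) ℓ.1.2.1

/-- the leading part of the derivative -/
def lc (c : Fin n) (y : Zp d) (k : Fin d) (ℓ : Lg d n) : ℝ :=
  dF ℓ.2 (fun x => kc c y k ℓ.1.1 ℓ.1.2.2 x) ℓ.1.2.1

/-- the remainder of the derivative -/
def le' (L : LD G N n) (c : Fin n) (y : Zp d) (k : Fin d) (ℓ : Lg d n)
    (u : Zp d → Fin d → G) : ℝ := dF ℓ.2 (fun x => kr L c y k ℓ.1.1 ℓ.1.2.2 x u) ℓ.1.2.1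

lemma ld_eq (c : Fin n) (y : Zp d) (k : Fin d) (ℓ : Lg d n) (u : Zp d → Fin d → G) :
    ld L c y k ℓ u = lc c y k ℓ + le' L c y k ℓ u := by
  unfold ld lc le' kr
  rw [dF_sub]; ring

lemma lv_nil (ξ : Xl d n) : lv L (ξ, []) = xv L ξ := rfl

lemma lv_mem (ℓ : Lg d n) : lv L ℓ ∈ Pl L d 1 :=
  dF_prop (P := fun F => F ∈ Pl L d 1) (fun F H hF hH => Submodule.sub_mem _ hF hH)
    (fun x => xv_mem (L := L) (ℓ.1.1, x, ℓ.1.2.2)) ℓ.2 ℓ.1.2.1

lemma lv_cont (ℓ : Lg d n) : Continuous (lv L ℓ : (Zp d → Fin d → G) → ℝ) := Pl.cont (lv_mem ℓ)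

lemma ld_cont (c : Fin n) (y : Zp d) (k : Fin d) (ℓ : Lg d n) :
    Continuous (ld L c y k ℓ : (Zp d → Fin d → G) → ℝ) :=
  dF_prop (P := fun F => Continuous F) (fun F H hF hH => hF.sub hH)
    (fun x => kg_cont (L := L) c y k ℓ.1.1 ℓ.1.2.2 x) ℓ.2 ℓ.1.2.1

lemma le_cont (c : Fin n) (y : Zp d) (k : Fin d) (ℓ : Lg d n) :
    Continuous (le' L c y k ℓ : (Zp d → Fin d → G) → ℝ) :=
  dF_prop (P := fun F => Continuous F) (fun F H hF hH => hF.sub hH)
    (fun x => kr_cont (L := L) c y k ℓ.1.1 ℓ.1.2.2 x) ℓ.2 ℓ.1.2.1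

lemma le_Ex (hT : Tg4 L) (c : Fin n) (y : Zp d) (k : Fin d) (ℓ : Lg d n) :
    Ex L 1 4 (le' L c y k ℓ : (Zp d → Fin d → G) → ℝ) :=
  dF_prop (P := fun F => Ex L 1 4 F) (fun F H hF hH => hF.sub hH)
    (fun x => kr_Ex (L := L) hT c y k ℓ.1.1 ℓ.1.2.2 x) ℓ.2 ℓ.1.2.1

lemma ld_far {c : Fin n} {y : Zp d} {k : Fin d} {ℓ : Lg d n}
    (h : l1 ℓ.1.2.1 + ℓ.2.length + 1 < l1 y) (u : Zp d → Fin d → G) : ld L c y k ℓ u = 0 :=
  dF_zero (m := l1 ℓ.1.2.1 + ℓ.2.length) le_rfl fun x hx => kg_far (by omega) u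

lemma lc_far {c : Fin n} {y : Zp d} {k : Fin d} {ℓ : Lg d n}
    (h : l1 ℓ.1.2.1 + ℓ.2.length + 1 < l1 y) : lc c y k ℓ = 0 :=
  dF_zero (m := l1 ℓ.1.2.1 + ℓ.2.length) le_rfl fun x hx => kc_far (by omega)

lemma le_far {c : Fin n} {y : Zp d} {k : Fin d} {ℓ : Lg d n}
    (h : l1 ℓ.1.2.1 + ℓ.2.length + 1 < l1 y) (u : Zp d → Fin d → G) : le' L c y k ℓ u = 0 := by
  have h1 := ld_eq (L := L) c y k ℓ u
  rw [ld_far h, lc_far h] at h1
  linarith

lemma lc_abs (c : Fin n) (y : Zp d) (k : Fin d) (ℓ : Lg d n) :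
    |lc c y k ℓ| ≤ 2 ^ ℓ.2.length * 4 := dF_abs (fun x => kc_abs _ _ _ _ _ x) _

/-- the product of the legs -/
def pv (L : LD G N n) {ι : Type*} (s : Finset ι) (ℓ : ι → Lg d n) (u : Zp d → Fin d → G) : ℝ :=
  ∏ i ∈ s, lv L (ℓ i) u

lemma pv_cont {ι : Type*} (s : Finset ι) (ℓ : ι → Lg d n) :
    Continuous (pv L s ℓ : (Zp d → Fin d → G) → ℝ) :=
  continuous_finsetProd _ fun i _ => lv_cont _

lemma pv_mem {ι : Type*} [DecidableEq ι] (s : Finset ι) (ℓ : ι → Lg d n) :
    pv L s ℓ ∈ Pl L d s.card := by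
  induction s using Finset.induction_on with
  | empty =>
    have e : (pv L ∅ ℓ : (Zp d → Fin d → G) → ℝ) = fun _ => 1 := by
      funext u; unfold pv; rw [Finset.prod_empty]
    rw [e, Finset.card_empty]
    exact one_mem
  | insert j s hj ih =>
    have e : (pv L (insert j s) ℓ : (Zp d → Fin d → G) → ℝ) = fun u => lv L (ℓ j) u * pv L s ℓ u := by
      funext u; unfold pv; rw [Finset.prod_insert hj]
    rw [e, Finset.card_insert_of_notMem hj, add_comm]
    exact Pl.mul (lv_mem _) ih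

/-- its derivative -/
def pd (L : LD G N n) {ι : Type*} [DecidableEq ι] (c : Fin n) (y : Zp d) (k : Fin d)
    (s : Finset ι) (ℓ : ι → Lg d n) (u : Zp d → Fin d → G) : ℝ :=
  ∑ i ∈ s, ld L c y k (ℓ i) u * pv L (s.erase i) ℓ u

lemma pd_cont {ι : Type*} [DecidableEq ι] (c : Fin n) (y : Zp d) (k : Fin d)
    (s : Finset ι) (ℓ : ι → Lg d n) :
    Continuous (pd L c y k s ℓ : (Zp d → Fin d → G) → ℝ) :=
  continuous_finsetSum _ fun i _ => (ld_cont _ _ _ _).mul (pv_cont _ _)

lemma pv_insert {ι : Type*} [DecidableEq ι] {s : Finset ι} {j : ι} (hj : j ∈ s) (ℓ : ι → Lg d n)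
    (u : Zp d → Fin d → G) : pv L s ℓ u = lv L (ℓ j) u * pv L (s.erase j) ℓ u := by
  unfold pv
  rw [Finset.mul_prod_erase s (fun i => lv L (ℓ i) u) hj]

lemma Dv_pv {ι : Type*} [DecidableEq ι] {l : ℕ} [NeZero l] {y : Zp d} {k : Fin d} {c : Fin n}
    {m : ℤ} (hm : ∀ i, m + |y i| < l) (s : Finset ι) (ℓ : ι → Lg d n)
    (h : ∀ i ∈ s, ∀ j, |(ℓ i).1.2.1 j| + 1 + (ℓ i).2.length ≤ m) :
    Dv L l y k c (pv L s ℓ) (pd L c y k s ℓ) :=
  Dv.prod s fun i hi => Dv_dF hm _ _ _ _ (h i hi)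

end

end Pool.Agent.Y16.YM
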