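import Mathlib
import Pool.Agent.Y16.NL.Sdp

/-!
# Families of functions with moments of controlled growth
-/

open MeasureTheory Matrix Filter
open scoped Matrix.Norms.Frobenius Topology
open Pool.Agent.H906R3.YM Pool.Agent.W793.YM Pool.Agent.TH940.YM
open Pool.Agent.W793.SCH (haf Near pk gK DD mx el TK S_B1 S_B2 S_TR S_W1 S_HAF green plaq_moment2)

namespace Pool.Agent.Y16.YM

set_option linter.unusedSectionVars false
set_option linter.unusedVariables false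
set_option maxHeartbeats 400000

noncomputable section

variable {G : Type} [Group G] [TopologicalSpace G] [IsTopologicalGroup G] [CompactSpace G]
  [SecondCountableTopology G] [MeasurableSpace G] [BorelSpace G] (μ : Measure G)
  [IsProbabilityMeasure μ] [μ.IsMulLeftInvariant] [μ.IsMulRightInvariant] [μ.IsInvInvariant]
  {N n : ℕ} {L : LD G N n} {d : ℕ}

/-- the moments of the family grow at most like the powers of `K` -/
def Gr (L : LD G N n) {A : Type} (K : A → ℝ) (F : ℝ × ℕ → A → (Zp d → Fin d → G) → ℝ) : Prop :=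
  (∀ z a, Continuous (F z a)) ∧ ∀ m : ℕ, ∃ C : ℝ, 1 ≤ C ∧ ∀ᶠ z in FB, ∀ a,
    ee μ L z (fun u => |F z a u| ^ m) ≤ C * K a ^ m

variable {μ} {A B : Type} {K K' : A → ℝ} {F H : ℝ × ℕ → A → (Zp d → Fin d → G) → ℝ}

lemma Gr.mul (hK : ∀ a, 0 < K a) (hK' : ∀ a, 0 < K' a) (hF : Gr μ L K F) (hH : Gr μ L K' H) :
    Gr μ L (fun a => K a * K' a) (fun z a u => F z a u * H z a u) := by
  refine ⟨fun z a => (hF.1 z a).mul (hH.1 z a), fun m => ?_⟩
  obtain ⟨C1, hC1, h1⟩ := hF.2 (2 * m)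
  obtain ⟨C2, hC2, h2⟩ := hH.2 (2 * m)
  refine ⟨(C1 + C2) / 2, by linarith, ?_⟩
  filter_upwards [h1, h2] with z h1 h2 a
  obtain ⟨P, hP⟩ : ∃ P, P = K a ^ m := ⟨_, rfl⟩
  obtain ⟨Q, hQ⟩ : ∃ Q, Q = K' a ^ m := ⟨_, rfl⟩
  have hP0 : 0 < P := by rw [hP]; exact pow_pos (hK a) m
  have hQ0 : 0 < Q := by rw [hQ]; exact pow_pos (hK' a) m
  have c1 : Continuous fun u => |F z a u| ^ (2 * m) := (hF.1 z a).abs.pow _
  have c2 : Continuous fun u => |H z a u| ^ (2 * m) := (hH.1 z a).abs.pow _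
  have key : ∀ u, |F z a u * H z a u| ^ m ≤
      Q / (2 * P) * |F z a u| ^ (2 * m) + P / (2 * Q) * |H z a u| ^ (2 * m) := by
    intro u
    obtain ⟨x, hx⟩ : ∃ x, x = |F z a u| ^ m := ⟨_, rfl⟩
    obtain ⟨y, hy⟩ : ∃ y, y = |H z a u| ^ m := ⟨_, rfl⟩
    have e1 : |F z a u| ^ (2 * m) = x ^ 2 := by rw [hx, ← pow_mul, mul_comm]
    have e2 : |H z a u| ^ (2 * m) = y ^ 2 := by rw [hy, ← pow_mul, mul_comm]
    rw [abs_mul, mul_pow, e1, e2, ← hx, ← hy]
    have e3 : Q / (2 * P) * x ^ 2 + P / (2 * Q) * y ^ 2 - x * y =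
        (Q * x - P * y) ^ 2 / (2 * P * Q) := by
      field_simp; ring
    have e4 : 0 ≤ (Q * x - P * y) ^ 2 / (2 * P * Q) := by positivity
    linarith
  have d1 : Continuous fun u => Q / (2 * P) * |F z a u| ^ (2 * m) := continuous_const.mul c1
  have d2 : Continuous fun u => P / (2 * Q) * |H z a u| ^ (2 * m) := continuous_const.mul c2
  have h3 : ee μ L z (fun u => |F z a u * H z a u| ^ m) ≤
      ee μ L z (fun u => Q / (2 * P) * |F z a u| ^ (2 * m) + P / (2 * Q) * |H z a u| ^ (2 * m)) :=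
    ee_mono μ (((hF.1 z a).mul (hH.1 z a)).abs.pow m) (d1.add d2) key
  rw [ee_add μ d1 d2, ee_smul, ee_smul] at h3
  refine h3.trans ?_
  have a1 := mul_le_mul_of_nonneg_left (h1 a) (by positivity : 0 ≤ Q / (2 * P))
  have a2 := mul_le_mul_of_nonneg_left (h2 a) (by positivity : 0 ≤ P / (2 * Q))
  have e1 : K a ^ (2 * m) = P ^ 2 := by rw [hP, ← pow_mul, mul_comm]
  have e2 : K' a ^ (2 * m) = Q ^ 2 := by rw [hQ, ← pow_mul, mul_comm]
  rw [e1] at a1
  rw [e2] at a2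
  refine (add_le_add a1 a2).trans (le_of_eq ?_)
  rw [mul_pow, ← hP, ← hQ]
  field_simp

lemma Gr.add (hK : ∀ a, 0 ≤ K a) (hF : Gr μ L K F) (hH : Gr μ L K H) :
    Gr μ L K (fun z a u => F z a u + H z a u) := by
  refine ⟨fun z a => (hF.1 z a).add (hH.1 z a), fun m => ?_⟩
  obtain ⟨C1, hC1, h1⟩ := hF.2 m
  obtain ⟨C2, hC2, h2⟩ := hH.2 m
  have h2m : (1:ℝ) ≤ 2 ^ m := one_le_pow₀ (by norm_num)
  refine ⟨2 ^ m * (C1 + C2), by nlinarith, ?_⟩
  filter_upwards [h1, h2] with z h1 h2 a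
  have c1 : Continuous fun u => |F z a u| ^ m := (hF.1 z a).abs.pow _
  have c2 : Continuous fun u => |H z a u| ^ m := (hH.1 z a).abs.pow _
  have d1 : Continuous fun u => |F z a u| ^ m + |H z a u| ^ m := c1.add c2
  have h3 : ee μ L z (fun u => |F z a u + H z a u| ^ m) ≤
      ee μ L z (fun u => 2 ^ m * (|F z a u| ^ m + |H z a u| ^ m)) :=
    ee_mono μ (((hF.1 z a).add (hH.1 z a)).abs.pow m) (continuous_const.mul d1) fun u => by
      have h4 : |F z a u + H z a u| ^ m ≤ (|F z a u| + |H z a u|) ^ m :=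
        pow_le_pow_left₀ (abs_nonneg _) (abs_add_le _ _) m
      refine h4.trans ((add_pow_le (abs_nonneg _) (abs_nonneg _) m).trans ?_)
      refine mul_le_mul_of_nonneg_right ?_ (by positivity)
      exact pow_le_pow_right₀ (by norm_num) (Nat.sub_le _ _)
  rw [ee_smul, ee_add μ c1 c2] at h3
  refine h3.trans ?_
  have := mul_le_mul_of_nonneg_left (add_le_add (h1 a) (h2 a)) (by positivity : (0:ℝ) ≤ 2 ^ m)
  refine this.trans (le_of_eq ?_)
  ring

lemma Gr.mono (hK : ∀ a, 0 ≤ K a) (h : ∀ a, K a ≤ K' a) (hF : Gr μ L K F) : Gr μ L K' F := by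
  refine ⟨hF.1, fun m => ?_⟩
  obtain ⟨C1, hC1, h1⟩ := hF.2 m
  refine ⟨C1, hC1, ?_⟩
  filter_upwards [h1] with z h1 a
  exact (h1 a).trans (mul_le_mul_of_nonneg_left (pow_le_pow_left₀ (hK a) (h a) m) (by linarith))

lemma Gr.le (hc : ∀ z a, Continuous (H z a)) (hF : Gr μ L K F)
    (h : ∀ᶠ z in FB, ∀ a u, |H z a u| ≤ |F z a u|) : Gr μ L K H := by
  refine ⟨hc, fun m => ?_⟩
  obtain ⟨C1, hC1, h1⟩ := hF.2 m
  refine ⟨C1, hC1, ?_⟩
  filter_upwards [h1, h] with z h1 h a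
  exact (ee_mono μ ((hc z a).abs.pow m) ((hF.1 z a).abs.pow m) fun u =>
    pow_le_pow_left₀ (abs_nonneg _) (h a u) m).trans (h1 a)

lemma Gr.smul (hK : ∀ a, 0 ≤ K a) (hF : Gr μ L K F) (c : ℝ) :
    Gr μ L K (fun z a u => c * F z a u) := by
  refine ⟨fun z a => continuous_const.mul (hF.1 z a), fun m => ?_⟩
  obtain ⟨C1, hC1, h1⟩ := hF.2 m
  refine ⟨1 + |c| ^ m * C1, by
    have : 0 ≤ |c| ^ m * C1 := by positivity
    linarith, ?_⟩
  filter_upwards [h1] with z h1 a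
  have e : (fun u => |c * F z a u| ^ m) = fun u => |c| ^ m * |F z a u| ^ m := by
    funext u; rw [abs_mul, mul_pow]
  rw [e, ee_smul]
  have h2 := mul_le_mul_of_nonneg_left (h1 a) (by positivity : 0 ≤ |c| ^ m)
  have h3 : 0 ≤ K a ^ m := pow_nonneg (hK a) m
  nlinarith

lemma Gr.re (f : B → A) (hF : Gr μ L K F) : Gr μ L (fun b => K (f b)) (fun z b u => F z (f b) u) := by
  refine ⟨fun z b => hF.1 z (f b), fun m => ?_⟩
  obtain ⟨C1, hC1, h1⟩ := hF.2 m
  refine ⟨C1, hC1, ?_⟩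
  filter_upwards [h1] with z h1 b
  exact h1 (f b)

/-- the growth may be changed by a factor -/
lemma Gr.cst {r : ℝ} (hr : 0 ≤ r) (hK : ∀ a, 0 ≤ K a) (hF : Gr μ L (fun a => r * K a) F) :
    Gr μ L K F := by
  refine ⟨hF.1, fun m => ?_⟩
  obtain ⟨C1, hC1, h1⟩ := hF.2 m
  refine ⟨1 + C1 * r ^ m, by
    have : 0 ≤ C1 * r ^ m := by positivity
    linarith, ?_⟩
  filter_upwards [h1] with z h1 a
  refine (h1 a).trans ?_
  rw [mul_pow]
  have h3 : 0 ≤ K a ^ m := pow_nonneg (hK a) m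
  nlinarith

lemma Gr.sum {ι : Type*} [DecidableEq ι] (hK : ∀ a, 0 ≤ K a) (s : Finset ι)
    {F : ι → ℝ × ℕ → A → (Zp d → Fin d → G) → ℝ} (hF : ∀ i ∈ s, Gr μ L K (F i)) :
    Gr μ L K (fun z a u => ∑ i ∈ s, F i z a u) := by
  induction s using Finset.induction_on with
  | empty =>
    refine ⟨fun z a => by simp only [Finset.sum_empty]; exact continuous_const, fun m => ⟨1, le_rfl,
      Eventually.of_forall fun z a => ?_⟩⟩
    simp only [Finset.sum_empty, abs_zero]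
    rw [ee_const, one_mul]
    rcases Nat.eq_zero_or_pos m with hm | hm
    · subst hm; simp
    · rw [zero_pow hm.ne']; exact pow_nonneg (hK a) m
  | insert j s hj ih =>
    have h1 := (hF j (Finset.mem_insert_self _ _)).add hK
      (ih fun i hi => hF i (Finset.mem_insert_of_mem hi))
    have e : (fun (z : ℝ × ℕ) (a : A) (u : Zp d → Fin d → G) => ∑ i ∈ insert j s, F i z a u) =
        fun z a u => F j z a u + ∑ i ∈ s, F i z a u := by
      funext z a u; rw [Finset.sum_insert hj]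
    rw [e]; exact h1

lemma Gr_one (r : ℝ) : Gr μ L (fun _ : A => (1:ℝ))
    (fun (_ : ℝ × ℕ) _ (_ : Zp d → Fin d → G) => r) := by
  refine ⟨fun z a => continuous_const, fun m => ⟨1 + |r| ^ m, by
    have : 0 ≤ |r| ^ m := by positivity
    linarith, Eventually.of_forall fun z a => ?_⟩⟩
  rw [ee_const, one_pow, mul_one]; linarith

lemma Gr.prod {ι : Type*} [DecidableEq ι] (s : Finset ι)
    {F : ι → ℝ × ℕ → A → (Zp d → Fin d → G) → ℝ} (hF : ∀ i ∈ s, Gr μ L (fun _ => (1:ℝ)) (F i)) :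
    Gr μ L (fun _ => (1:ℝ)) (fun z a u => ∏ i ∈ s, F i z a u) := by
  induction s using Finset.induction_on with
  | empty =>
    simp only [Finset.prod_empty]
    exact Gr_one 1
  | insert j s hj ih =>
    have h1 := (hF j (Finset.mem_insert_self _ _)).mul (fun _ => one_pos) (fun _ => one_pos)
      (ih fun i hi => hF i (Finset.mem_insert_of_mem hi))
    have e : (fun (z : ℝ × ℕ) (a : A) (u : Zp d → Fin d → G) => ∏ i ∈ insert j s, F i z a u) =
        fun z a u => F j z a u * ∏ i ∈ s, F i z a u := by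
      funext z a u; rw [Finset.prod_insert hj]
    rw [e]
    simpa only [mul_one] using h1

/-- sums over sets of controlled size -/
lemma Gr.bsum {K' : A × B → ℝ} {F : ℝ × ℕ → A × B → (Zp d → Fin d → G) → ℝ}
    (S : A → Finset B) {w : A → ℝ} (hw : ∀ a, ((S a).card : ℝ) ≤ w a)
    (hK' : ∀ q, 0 ≤ K' q) (hKK : ∀ a, ∀ b ∈ S a, K' (a, b) ≤ K a) (hK : ∀ a, 0 ≤ K a)
    (hF : Gr μ L K' F) : Gr μ L (fun a => w a * K a) (fun z a u => ∑ b ∈ S a, F z (a, b) u) := by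
  refine ⟨fun z a => continuous_finsetSum _ fun b _ => hF.1 z (a, b), fun m => ?_⟩
  obtain ⟨C1, hC1, h1⟩ := hF.2 m
  refine ⟨C1, hC1, ?_⟩
  filter_upwards [h1] with z h1 a
  rcases Nat.eq_zero_or_pos m with hm | hm
  · subst hm
    simp only [pow_zero, ee_const, mul_one]
    exact hC1
  obtain ⟨s, rfl⟩ : ∃ s, m = s + 1 := ⟨m - 1, by omega⟩
  have c1 : ∀ b, Continuous fun u => |F z (a, b) u| ^ (s + 1) := fun b => (hF.1 z (a, b)).abs.pow _
  have c2 : Continuous fun u => ((S a).card : ℝ) ^ s * ∑ b ∈ S a, |F z (a, b) u| ^ (s + 1) :=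
    continuous_const.mul (continuous_finsetSum _ fun b _ => c1 b)
  have h3 : ee μ L z (fun u => |∑ b ∈ S a, F z (a, b) u| ^ (s + 1)) ≤
      ee μ L z (fun u => ((S a).card : ℝ) ^ s * ∑ b ∈ S a, |F z (a, b) u| ^ (s + 1)) :=
    ee_mono μ ((continuous_finsetSum (S a) fun b _ => hF.1 z (a, b)).abs.pow (s + 1)) c2
      fun u => by
      have h4 : |∑ b ∈ S a, F z (a, b) u| ^ (s + 1) ≤ (∑ b ∈ S a, |F z (a, b) u|) ^ (s + 1) :=
        pow_le_pow_left₀ (abs_nonneg _) (Finset.abs_sum_le_sum_abs _ _) _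
      exact h4.trans (pow_sum_le_card_mul_sum_pow (s := S a) (f := fun b => |F z (a, b) u|)
        (fun b _ => abs_nonneg _) s)
  rw [ee_smul, ee_sum μ _ c1] at h3
  refine h3.trans ?_
  have hc0 : (0:ℝ) ≤ (S a).card := Nat.cast_nonneg _
  have h5 : ∑ b ∈ S a, ee μ L z (fun u => |F z (a, b) u| ^ (s + 1)) ≤
      (S a).card * (C1 * K a ^ (s + 1)) := by
    calc _ ≤ ∑ _b ∈ S a, C1 * K a ^ (s + 1) := Finset.sum_le_sum fun b hb =>
          (h1 (a, b)).trans (mul_le_mul_of_nonneg_left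
            (pow_le_pow_left₀ (hK' _) (hKK a b hb) _) (by linarith))
      _ = _ := by rw [Finset.sum_const, nsmul_eq_mul]
  calc ((S a).card : ℝ) ^ s * _ ≤ ((S a).card : ℝ) ^ s * ((S a).card * (C1 * K a ^ (s + 1))) :=
        mul_le_mul_of_nonneg_left h5 (by positivity)
    _ = C1 * (((S a).card : ℝ) ^ (s + 1) * K a ^ (s + 1)) := by ring
    _ ≤ C1 * (w a ^ (s + 1) * K a ^ (s + 1)) := by
      refine mul_le_mul_of_nonneg_left ?_ (by linarith)
      exact mul_le_mul_of_nonneg_right (pow_le_pow_left₀ hc0 (hw a) _) (pow_nonneg (hK a) _)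
    _ = _ := by rw [mul_pow]

/-- the bound of the expectations -/
lemma Gr.ee_le (hF : Gr μ L K F) : ∃ C : ℝ, 0 ≤ C ∧ ∀ᶠ z in FB, ∀ a,
    |ee μ L z (F z a)| ≤ C * K a := by
  obtain ⟨C1, hC1, h1⟩ := hF.2 1
  refine ⟨C1, by linarith, ?_⟩
  filter_upwards [h1] with z h1 a
  have h2 := h1 a
  simp only [pow_one] at h2
  exact (ee_abs μ (hF.1 z a)).trans h2

/-! ### basic families -/

variable (μ)

section fam

variable (hd : 3 ≤ d) (hB : S_B2) (hT : S_TR) (hW : S_W1) (hH : S_HAF) {CT : ℝ} (hTg : Tg L CT)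

include hd hB hT hW hH hTg

lemma Gr_dg : Gr μ L (fun _ => (1:ℝ)) (fun z (a : Fin d × Fin d × Zp d) u =>
    z.1 ^ 2 * dg L u a.1 a.2.1 a.2.2) := by
  refine ⟨fun z a => continuous_const.mul (dg_cont _ _ _), fun m => ?_⟩
  obtain ⟨C, hC, h⟩ := momp μ (L := L) hd hB hT hW hH hTg m
  refine ⟨C, hC, ?_⟩
  filter_upwards [h] with z h a
  rw [one_pow, mul_one]
  have h1 := h a.1 a.2.1 a.2.2
  have e : (fun u : Zp d → Fin d → G => |z.1 ^ 2 * dg L u a.1 a.2.1 a.2.2| ^ m) =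
      fun u => bd L z.1 u a.1 a.2.1 a.2.2 ^ m := by
    funext u
    rw [← bd_dg, abs_of_nonneg (bd_nonneg _ _ _ _ _)]
  rw [e]; exact h1

lemma Gr_Ob {k : ℕ} {F : (Zp d → Fin d → G) → ℝ} (hF : Ob L k F) (hc : Continuous F) :
    Gr μ L (fun _ : A => (1:ℝ)) (fun z _ u => z.1 ^ (2 * k) * F u) := by
  obtain ⟨R, C, hC, h⟩ := hF
  refine ⟨fun z a => continuous_const.mul hc, fun m => ?_⟩
  obtain ⟨C1, hC1, h1⟩ := SR_momp μ (L := L) hd hB hT hW hH hTg R (k * m)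
  refine ⟨1 + C ^ m * C1, by
    have : 0 ≤ C ^ m * C1 := by positivity
    linarith, ?_⟩
  filter_upwards [h1] with z h1 a
  rw [one_pow, mul_one]
  have hcs : Continuous fun u : Zp d → Fin d → G => (z.1 ^ 2 * SR L R u) ^ (k * m) :=
    (continuous_const.mul (SR_cont R)).pow _
  have h3 : ee μ L z (fun u => |z.1 ^ (2 * k) * F u| ^ m) ≤
      ee μ L z (fun u => C ^ m * (z.1 ^ 2 * SR L R u) ^ (k * m)) :=
    ee_mono μ ((continuous_const.mul hc).abs.pow m) (continuous_const.mul hcs) fun u => by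
      have h4 : |z.1 ^ (2 * k) * F u| ≤ C * (z.1 ^ 2 * SR L R u) ^ k := by
        rw [abs_mul, abs_of_nonneg (pow2_nn z.1 k)]
        calc z.1 ^ (2 * k) * |F u| ≤ z.1 ^ (2 * k) * (C * SR L R u ^ k) :=
              mul_le_mul_of_nonneg_left (h u) (pow2_nn _ _)
          _ = _ := by rw [mul_pow, ← pow_mul]; ring
      refine (pow_le_pow_left₀ (abs_nonneg _) h4 m).trans (le_of_eq ?_)
      rw [mul_pow, ← pow_mul]
  rw [ee_smul] at h3
  have h5 := mul_le_mul_of_nonneg_left h1 (by positivity : 0 ≤ C ^ m)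
  linarith

end fam

end

end Pool.Agent.Y16.YM
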