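import Mathlib
import Pool.Agent.Y16.NL.Gr

/-!
# The growth of the basic families
-/

open MeasureTheory Matrix Filter
open scoped Matrix.Norms.Frobenius Topology
open Pool.Agent.H906R3.YM Pool.Agent.W793.YM Pool.Agent.TH940.YM
open Pool.Agent.W793.SCH (haf Near pk gK DD mx el TK S_B1 S_B2 S_TR S_W1 S_HAF green plaq_moment2)

namespace Pool.Agent.Y16.YM

set_option linter.unusedSectionVars false
set_option linter.unusedVariables false
set_option maxHeartbeats 400000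

noncomputable section

section gl

variable {d : ℕ}

/-- the growth function -/
def gl (x : Zp d) : ℝ := 1 + l1 x

lemma one_le_gl (x : Zp d) : 1 ≤ gl x := by
  unfold gl
  have : (0:ℝ) ≤ l1 x := Nat.cast_nonneg _
  linarith

lemma gl_pos (x : Zp d) : 0 < gl x := by linarith [one_le_gl x]

lemma gl_nn (x : Zp d) : 0 ≤ gl x := (gl_pos x).le

lemma gl_succ (x : Zp d) (i : Fin d) : gl (x + ez i) ≤ 2 * gl x := by
  unfold gl
  have h1 : (l1 (x + ez i) : ℝ) ≤ l1 x + 1 := by exact_mod_cast l1_succ_le x i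
  have : (0:ℝ) ≤ l1 x := Nat.cast_nonneg _
  linarith

lemma gl_pred (x : Zp d) (i : Fin d) : gl (x - ez i) ≤ 2 * gl x := by
  unfold gl
  have h1 : (l1 (x - ez i) : ℝ) ≤ l1 x + 1 := by exact_mod_cast l1_pred_le x i
  have : (0:ℝ) ≤ l1 x := Nat.cast_nonneg _
  linarith

end gl

variable {G : Type} [Group G] [TopologicalSpace G] [IsTopologicalGroup G] [CompactSpace G]
  [SecondCountableTopology G] [MeasurableSpace G] [BorelSpace G]
  {N n : ℕ} {L : LD G N n} {d : ℕ}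

lemma am_le (u : Zp d → Fin d → G) (i : Fin d) (x : Zp d) (a : Fin n) :
    |am L i x u a| ≤ poa (dg L u) i x := (cc_le _ _).trans (dv_Vz u x i)

lemma pm_le (u : Zp d → Fin d → G) (i : Fin d) (x : Zp d) (a : Fin n) :
    |pm L i x u a| ≤ poa (dg L u) i x := by
  unfold pm
  rw [pot_eq, poa_eq]
  refine (Finset.abs_sum_le_sum_abs _ _).trans (Finset.sum_le_sum fun q _ => ?_)
  rw [abs_mul]
  have h1 : |(if 0 ≤ q.2 then (1:ℝ) else -1)| = 1 := by split_ifs <;> norm_num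
  rw [h1, one_mul]
  exact cc_le _ _

/-- the third order part of the second order part of the field strength -/
lemma om3_le {CT : ℝ} (hTg : Tg L CT) (j k : Fin d) (x : Zp d) (u : Zp d → Fin d → G)
    (α : Fin n) : |om L j k x u α - om2 L j k x u α| ≤
      (4 + 12 * ((n + 1) * CT) + 12 * n ^ 2) * s4 L j k x u ^ 3 := by
  obtain ⟨s, hs⟩ : ∃ s, s = s4 L j k x u := ⟨_, rfl⟩
  have hs0 : 0 ≤ s := by rw [hs]; exact s4_nonneg _ _ _ _
  obtain ⟨l1', l2', l3', l4'⟩ := s4_links (L := L) j k x u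
  rw [← hs] at l1' l2' l3' l4'
  have h1 := plq2 (L := L) hTg α (g1 := Vz u x j) (g2 := Vz u (x + ez j) k)
    (g3 := Vz u (x + ez k) j) (g4 := Vz u x k) l1' l2' l3' l4'
  rw [← Gz_eq] at h1
  have q1 : poa (dg L u) j x ≤ s := by
    rw [hs]; unfold s4
    linarith [poa_nn (L := L) u k (x + ez j), poa_nn (L := L) u j (x + ez k),
      poa_nn (L := L) u k x]
  have q2 : poa (dg L u) k (x + ez j) ≤ s := by
    rw [hs]; unfold s4
    linarith [poa_nn (L := L) u j x, poa_nn (L := L) u j (x + ez k),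
      poa_nn (L := L) u k x]
  have q3 : poa (dg L u) j (x + ez k) ≤ s := by
    rw [hs]; unfold s4
    linarith [poa_nn (L := L) u j x, poa_nn (L := L) u k (x + ez j),
      poa_nn (L := L) u k x]
  have q4 : poa (dg L u) k x ≤ s := by
    rw [hs]; unfold s4
    linarith [poa_nn (L := L) u j x, poa_nn (L := L) u k (x + ez j),
      poa_nn (L := L) u j (x + ez k)]
  have key : ∀ (i i' : Fin d) (y y' : Zp d), poa (dg L u) i y ≤ s → poa (dg L u) i' y' ≤ s →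
      |qd L (am L i y u) (am L i' y' u) α - qd L (pm L i y u) (pm L i' y' u) α| ≤
        2 * n ^ 2 * s ^ 3 := by
    intro i i' y y' h h'
    have e1 : ∀ (i : Fin d) (y : Zp d), poa (dg L u) i y ≤ s → ∀ a,
        |am L i y u a - pm L i y u a| ≤ s ^ 2 := fun i y h a =>
      (cc_Vz u a y i).trans (pow_le_pow_left₀ (poa_nn u i y) h 2)
    have h2 := qd_err (L := L) (A := am L i y u) (A' := pm L i y u) (B := am L i' y' u)
      (B' := pm L i' y' u) (s := s) (e := s ^ 2) (f := s ^ 2)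
      (fun a => (am_le u i y a).trans h) (fun a => (pm_le u i' y' a).trans h')
      (e1 i y h) (e1 i' y' h') α
    refine h2.trans (le_of_eq ?_)
    ring
  have k1 := key j k x (x + ez j) q1 q2
  have k2 := key j j x (x + ez k) q1 q3
  have k3 := key j k x x q1 q4
  have k4 := key k j (x + ez j) (x + ez k) q2 q3
  have k5 := key k k (x + ez j) x q2 q4
  have k6 := key j k (x + ez k) x q3 q4
  rw [← hs]
  have hom : om L j k x u α = cc L α (Gz u x j k) - (cc L α (Vz u x j) +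
      cc L α (Vz u (x + ez j) k) - cc L α (Vz u (x + ez k) j) - cc L α (Vz u x k)) := rfl
  have hw : om2 L j k x u α = qd L (pm L j x u) (pm L k (x + ez j) u) α -
      qd L (pm L j x u) (pm L j (x + ez k) u) α - qd L (pm L j x u) (pm L k x u) α -
      qd L (pm L k (x + ez j) u) (pm L j (x + ez k) u) α -
      qd L (pm L k (x + ez j) u) (pm L k x u) α + qd L (pm L j (x + ez k) u) (pm L k x u) α := rfl
  have hw' : w4 L (fun a => cc L a (Vz u x j)) (fun a => cc L a (Vz u (x + ez j) k))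
      (fun a => cc L a (Vz u (x + ez k) j)) (fun a => cc L a (Vz u x k)) α =
      qd L (am L j x u) (am L k (x + ez j) u) α -
      qd L (am L j x u) (am L j (x + ez k) u) α - qd L (am L j x u) (am L k x u) α -
      qd L (am L k (x + ez j) u) (am L j (x + ez k) u) α -
      qd L (am L k (x + ez j) u) (am L k x u) α + qd L (am L j (x + ez k) u) (am L k x u) α := rfl
  rw [hom, hw]
  rw [hw'] at h1
  rw [abs_le] at h1 k1 k2 k3 k4 k5 k6 ⊢
  constructor <;> nlinarith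

lemma rh3_le {CT : ℝ} (hTg : Tg L CT) (k : Fin d) (x : Zp d) (u : Zp d → Fin d → G)
    (α : Fin n) : |rh L k x u α - rh2 L k x u α| ≤
      ∑ j, (1 + 2 * ((n + 1) * CT) + 2 * n ^ 2) * (poa (dg L u) j (x - ez j) *
        dg L u k j (x - ez j) * (poa (dg L u) j (x - ez j) + dg L u k j (x - ez j))) := by
  have hCT := hTg.1
  rw [rh_eq]
  unfold rh2
  rw [← Finset.sum_sub_distrib]
  refine (Finset.abs_sum_le_sum_abs _ _).trans (Finset.sum_le_sum fun j _ => ?_)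
  obtain ⟨y, hy⟩ : ∃ y, y = x - ez j := ⟨_, rfl⟩
  rw [← hy]
  have h1 := conj2 (L := L) hTg α (Vz u y j)⁻¹ (Gz u y k j)
  rw [inv_inv] at h1
  simp only [cc_inv, qd_neg_left] at h1
  obtain ⟨p, hp⟩ : ∃ p, p = poa (dg L u) j y := ⟨_, rfl⟩
  obtain ⟨g, hg⟩ : ∃ g, g = dg L u k j y := ⟨_, rfl⟩
  have hp0 : 0 ≤ p := by rw [hp]; exact poa_nn _ _ _
  have hg0 : 0 ≤ g := by rw [hg]; exact dg_nonneg _ _ _ _
  have hv : dv L (Vz u y j)⁻¹ ≤ p := by rw [dv_inv, hp]; exact dv_Vz u y j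
  have hv0 := dv_nonneg (L := L) (Vz u y j)⁻¹
  have hg' : dv L (Gz u y k j) = g := by rw [hg]; rfl
  rw [hg'] at h1
  have h2 : dv L (Vz u y j)⁻¹ * g * (dv L (Vz u y j)⁻¹ + g) ≤ p * g * (p + g) := by
    refine mul_le_mul (mul_le_mul_of_nonneg_right hv hg0) (by linarith) (by positivity)
      (by positivity)
  have h3 : |2 * qd L (am L j y u) (fF L k j y u) α - 2 * qd L (pm L j y u) (fF L k j y u) α| ≤
      2 * n ^ 2 * (p ^ 2 * g) := by
    have h4 := qd_le (L := L) (A := fun a => am L j y u a - pm L j y u a) (B := fF L k j y u)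
      (s := p ^ 2) (t := g) (fun a => by rw [hp]; exact cc_Vz u a y j)
      (fun b => by rw [hg]; exact cc_le _ _) α
    rw [qd_sub_left] at h4
    rw [← mul_sub, abs_mul, abs_two]
    linarith
  have h5 : cc L α (Gz u y k j) = fF L k j y u α := rfl
  have h6 : qd L (fun a => cc L a (Vz u y j)) (fun a => cc L a (Gz u y k j)) α =
      qd L (am L j y u) (fF L k j y u) α := rfl
  rw [h5, h6] at h1
  rw [← hp, ← hg]
  have h7 : 0 ≤ p * g := by positivity
  have h8 : p ^ 2 * g ≤ p * g * (p + g) := by nlinarith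
  have h9 : (1 + 2 * ((n + 1) * CT)) * (dv L (Vz u y j)⁻¹ * g * (dv L (Vz u y j)⁻¹ + g)) ≤
      (1 + 2 * ((n + 1) * CT)) * (p * g * (p + g)) :=
    mul_le_mul_of_nonneg_left h2 (by positivity)
  have h10 : 2 * (n:ℝ) ^ 2 * (p ^ 2 * g) ≤ 2 * n ^ 2 * (p * g * (p + g)) :=
    mul_le_mul_of_nonneg_left h8 (by positivity)
  rw [abs_le] at h1 h3 ⊢
  constructor <;> nlinarith

section two

variable {μ : Measure G}
  [IsProbabilityMeasure μ] [μ.IsMulLeftInvariant] [μ.IsMulRightInvariant] [μ.IsInvInvariant]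
  {A : Type} {K K' : A → ℝ} {F : ℝ × ℕ → A → (Zp d → Fin d → G) → ℝ}

lemma Gr.two (hK' : ∀ a, 0 ≤ K' a) (hK : ∀ a, 0 ≤ K a) (h : ∀ a, K a ≤ 2 * K' a)
    (hF : Gr μ L K F) : Gr μ L K' F := Gr.cst (r := 2) (by norm_num) hK' (hF.mono hK h)

end two

section fam

variable (μ : Measure G)
  [IsProbabilityMeasure μ] [μ.IsMulLeftInvariant] [μ.IsMulRightInvariant] [μ.IsInvInvariant]
variable (hd : 3 ≤ d) (hB : S_B2) (hT : S_TR) (hW : S_W1) (hH : S_HAF) {CT : ℝ} (hTg : Tg L CT)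

include hd hB hT hW hH hTg

lemma Gr_poa : Gr μ L (fun a : Fin d × Zp d => gl a.2) (fun z a u =>
    z.1 ^ 2 * poa (dg L u) a.1 a.2) := by
  have h1 := (Gr_dg μ (L := L) hd hB hT hW hH hTg).re
    (fun q : (Fin d × Zp d) × ((_ : Fin d) × ℤ) => (q.2.1, q.1.1, cut q.1.2 q.2.1 q.2.2))
  have h2 := h1.bsum (K := fun _ => 1) (fun a : Fin d × Zp d => stp a.1 a.2)
    (w := fun a => gl a.2) (fun a => by
      have := stp_card a.1 a.2
      unfold gl; linarith) (fun _ => zero_le_one) (fun _ _ _ => le_rfl) (fun _ => zero_le_one)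
  simp only [mul_one] at h2
  have e : (fun (z : ℝ × ℕ) (a : Fin d × Zp d) (u : Zp d → Fin d → G) =>
      z.1 ^ 2 * poa (dg L u) a.1 a.2) = fun z a u => ∑ b ∈ stp a.1 a.2,
        z.1 ^ 2 * dg L u b.1 a.1 (cut a.2 b.1 b.2) := by
    funext z a u
    rw [poa_eq, Finset.mul_sum]
  rw [e]
  exact h2

lemma Gr_fF : Gr μ L (fun _ => (1:ℝ)) (fun z (a : Xl d n) u => z.1 ^ 2 * xv L a u) := by
  refine ((Gr_dg μ (L := L) hd hB hT hW hH hTg).re
    (fun a : Xl d n => (a.1.1, a.1.2, a.2.1))).le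
    (fun z a => continuous_const.mul (xv_cont a)) (Eventually.of_forall fun z a u => ?_)
  rw [abs_mul, abs_mul]
  refine mul_le_mul_of_nonneg_left ?_ (abs_nonneg _)
  rw [abs_of_nonneg (dg_nonneg _ _ _ _)]
  exact cc_le _ _

lemma Gr_lv (J : List (Fin d)) : Gr μ L (fun _ => (1:ℝ)) (fun z (a : Xl d n) u =>
    z.1 ^ 2 * lv L (a, J) u) := by
  induction J with
  | nil => exact Gr_fF μ hd hB hT hW hH hTg
  | cons i J ih =>
    have h1 := ih.re (fun a : Xl d n => (a.1, a.2.1 + ez i, a.2.2))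
    have h2 := h1.add (fun _ => zero_le_one) (ih.smul (fun _ => zero_le_one) (-1))
    have e : (fun (z : ℝ × ℕ) (a : Xl d n) (u : Zp d → Fin d → G) =>
        z.1 ^ 2 * lv L (a, i :: J) u) = fun z a u =>
        z.1 ^ 2 * lv L ((a.1, a.2.1 + ez i, a.2.2), J) u + -1 * (z.1 ^ 2 * lv L (a, J) u) := by
      funext z a u
      have e1 : lv L (a, i :: J) u = lv L ((a.1, a.2.1 + ez i, a.2.2), J) u - lv L (a, J) u := rfl
      rw [e1]; ring
    rw [e]
    exact h2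

lemma Gr_kr : Gr μ L (fun a : Fin n × Zp d × Fin d × Xl d n => gl a.2.2.2.2.1) (fun z a u =>
    z.1 ^ 2 * kr L a.1 a.2.1 a.2.2.1 a.2.2.2.1 a.2.2.2.2.2 a.2.2.2.2.1 u) := by
  have g1 := ((Gr_dg μ (L := L) hd hB hT hW hH hTg).re
    (fun a : Fin n × Zp d × Fin d × Xl d n =>
      (a.2.2.2.1.1, a.2.2.2.1.2, a.2.2.2.2.1))).mono (K' := fun a => gl a.2.2.2.2.1)
      (fun _ => zero_le_one) (fun a => one_le_gl _)
  have g2 := (Gr_poa μ (L := L) hd hB hT hW hH hTg).re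
    (fun a : Fin n × Zp d × Fin d × Xl d n => (a.2.2.2.1.1, a.2.2.2.2.1))
  have g3 := (Gr_poa μ (L := L) hd hB hT hW hH hTg).re
    (fun a : Fin n × Zp d × Fin d × Xl d n => (a.2.2.2.1.2, a.2.2.2.2.1))
  have nn : ∀ a : Fin n × Zp d × Fin d × Xl d n, 0 ≤ gl a.2.2.2.2.1 := fun a => gl_nn _
  refine (((g1.smul nn 6).add nn (g2.smul nn 2)).add nn (g3.smul nn 2)).le
    (fun z a => continuous_const.mul (kr_cont _ _ _ _ _ _)) (Eventually.of_forall fun z a u => ?_)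
  have h1 := kr_le (L := L) a.1 a.2.1 a.2.2.1 a.2.2.2.1 a.2.2.2.2.2 a.2.2.2.2.1 u
  have h2 := dv_Vz (L := L) u a.2.2.2.2.1 a.2.2.2.1.1
  have h3 := dv_Vz (L := L) u a.2.2.2.2.1 a.2.2.2.1.2
  have h4 := poa_nn (L := L) u a.2.2.2.1.1 a.2.2.2.2.1
  have h5 := poa_nn (L := L) u a.2.2.2.1.2 a.2.2.2.2.1
  have h6 := dg_nonneg (L := L) u a.2.2.2.1.1 a.2.2.2.1.2 a.2.2.2.2.1
  have h7 : dv L (Gz u a.2.2.2.2.1 a.2.2.2.1.1 a.2.2.2.1.2) =
    dg L u a.2.2.2.1.1 a.2.2.2.1.2 a.2.2.2.2.1 := rfl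
  rw [h7] at h1
  rw [abs_mul, abs_of_nonneg (sq_nonneg z.1)]
  refine le_trans ?_ (le_abs_self _)
  have h8 := mul_le_mul_of_nonneg_left (h1.trans (by linarith :
    6 * dg L u a.2.2.2.1.1 a.2.2.2.1.2 a.2.2.2.2.1 + 2 * dv L (Vz u a.2.2.2.2.1 a.2.2.2.1.1) +
      2 * dv L (Vz u a.2.2.2.2.1 a.2.2.2.1.2) ≤
    6 * dg L u a.2.2.2.1.1 a.2.2.2.1.2 a.2.2.2.2.1 + 2 * poa (dg L u) a.2.2.2.1.1 a.2.2.2.2.1 +
      2 * poa (dg L u) a.2.2.2.1.2 a.2.2.2.2.1)) (sq_nonneg z.1)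
  refine h8.trans (le_of_eq ?_)
  ring

lemma Gr_le (J : List (Fin d)) : Gr μ L (fun a : Fin n × Zp d × Fin d × Xl d n => gl a.2.2.2.2.1)
    (fun z a u => z.1 ^ 2 * le' L a.1 a.2.1 a.2.2.1 (a.2.2.2, J) u) := by
  have nn : ∀ a : Fin n × Zp d × Fin d × Xl d n, 0 ≤ gl a.2.2.2.2.1 := fun a => gl_nn _
  induction J with
  | nil => exact Gr_kr μ hd hB hT hW hH hTg
  | cons i J ih =>
    have h0 := ih.re (fun a : Fin n × Zp d × Fin d × Xl d n =>
      (a.1, a.2.1, a.2.2.1, (a.2.2.2.1, a.2.2.2.2.1 + ez i, a.2.2.2.2.2)))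
    have h1 : Gr μ L (fun a : Fin n × Zp d × Fin d × Xl d n => gl a.2.2.2.2.1) (fun z a u =>
        z.1 ^ 2 * le' L a.1 a.2.1 a.2.2.1 ((a.2.2.2.1, a.2.2.2.2.1 + ez i, a.2.2.2.2.2), J) u) :=
      Gr.two nn (fun a => gl_nn _) (fun a => gl_succ _ _) h0
    have h2 := h1.add nn (ih.smul nn (-1))
    have e : (fun (z : ℝ × ℕ) (a : Fin n × Zp d × Fin d × Xl d n) (u : Zp d → Fin d → G) =>
        z.1 ^ 2 * le' L a.1 a.2.1 a.2.2.1 (a.2.2.2, i :: J) u) = fun z a u =>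
        z.1 ^ 2 * le' L a.1 a.2.1 a.2.2.1 ((a.2.2.2.1, a.2.2.2.2.1 + ez i, a.2.2.2.2.2), J) u +
          -1 * (z.1 ^ 2 * le' L a.1 a.2.1 a.2.2.1 (a.2.2.2, J) u) := by
      funext z a u
      have e1 : le' L a.1 a.2.1 a.2.2.1 (a.2.2.2, i :: J) u =
        le' L a.1 a.2.1 a.2.2.1 ((a.2.2.2.1, a.2.2.2.2.1 + ez i, a.2.2.2.2.2), J) u -
          le' L a.1 a.2.1 a.2.2.1 (a.2.2.2, J) u := rfl
      rw [e1]; ring
    rw [e]
    exact h2

lemma Gr_s4 : Gr μ L (fun a : Fin d × Fin d × Zp d => gl a.2.2) (fun z a u =>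
    z.1 ^ 2 * s4 L a.1 a.2.1 a.2.2 u) := by
  have nn : ∀ a : Fin d × Fin d × Zp d, 0 ≤ gl a.2.2 := fun a => gl_nn _
  have P := Gr_poa μ (L := L) hd hB hT hW hH hTg
  have g1 := P.re (fun a : Fin d × Fin d × Zp d => (a.1, a.2.2))
  have g2 : Gr μ L (fun a : Fin d × Fin d × Zp d => gl a.2.2) (fun z a u =>
      z.1 ^ 2 * poa (dg L u) a.2.1 (a.2.2 + ez a.1)) :=
    Gr.two nn (fun a => gl_nn _) (fun a => gl_succ _ _)
      (P.re (fun a : Fin d × Fin d × Zp d => (a.2.1, a.2.2 + ez a.1)))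
  have g3 : Gr μ L (fun a : Fin d × Fin d × Zp d => gl a.2.2) (fun z a u =>
      z.1 ^ 2 * poa (dg L u) a.1 (a.2.2 + ez a.2.1)) :=
    Gr.two nn (fun a => gl_nn _) (fun a => gl_succ _ _)
      (P.re (fun a : Fin d × Fin d × Zp d => (a.1, a.2.2 + ez a.2.1)))
  have g4 := P.re (fun a : Fin d × Fin d × Zp d => (a.2.1, a.2.2))
  refine (((g1.add nn g2).add nn g3).add nn g4).le (fun z a => continuous_const.mul
    (s4_cont _ _ _)) (Eventually.of_forall fun z a u => le_of_eq ?_)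
  rw [abs_eq_abs]
  left
  unfold s4
  ring

lemma Gr_om : Gr μ L (fun a : Fin d × Fin d × Zp d × Fin n => gl a.2.2.1 * gl a.2.2.1)
    (fun z a u => z.1 ^ 4 * om L a.1 a.2.1 a.2.2.1 u a.2.2.2) := by
  have S := (Gr_s4 μ (L := L) hd hB hT hW hH hTg).re
    (fun a : Fin d × Fin d × Zp d × Fin n => (a.1, a.2.1, a.2.2.1))
  have pos : ∀ a : Fin d × Fin d × Zp d × Fin n, 0 < gl a.2.2.1 := fun a => gl_pos _
  have g1 := (S.mul pos pos S).smul (fun a => mul_nonneg (gl_nn _) (gl_nn _)) 6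
  refine g1.le (fun z a => continuous_const.mul (om_cont _ _ _ _))
    (Eventually.of_forall fun z a u => ?_)
  have h1 := om_le (L := L) a.1 a.2.1 a.2.2.1 u a.2.2.2
  have h2 : 0 ≤ z.1 ^ 4 := by positivity
  rw [abs_mul, abs_of_nonneg h2]
  refine le_trans ?_ (le_abs_self _)
  refine (mul_le_mul_of_nonneg_left h1 h2).trans (le_of_eq ?_)
  ring

lemma Gr_om3 : Gr μ L (fun a : Fin d × Fin d × Zp d × Fin n =>
      gl a.2.2.1 * gl a.2.2.1 * gl a.2.2.1) (fun z a u => z.1 ^ 6 *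
        (om L a.1 a.2.1 a.2.2.1 u a.2.2.2 - om2 L a.1 a.2.1 a.2.2.1 u a.2.2.2)) := by
  have S := (Gr_s4 μ (L := L) hd hB hT hW hH hTg).re
    (fun a : Fin d × Fin d × Zp d × Fin n => (a.1, a.2.1, a.2.2.1))
  have pos : ∀ a : Fin d × Fin d × Zp d × Fin n, 0 < gl a.2.2.1 := fun a => gl_pos _
  have pos2 : ∀ a : Fin d × Fin d × Zp d × Fin n, 0 < gl a.2.2.1 * gl a.2.2.1 := fun a =>
    mul_pos (gl_pos _) (gl_pos _)
  have g1 := ((S.mul pos pos S).mul pos2 pos S).smul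
    (fun a => mul_nonneg (mul_nonneg (gl_nn _) (gl_nn _)) (gl_nn _))
    (4 + 12 * ((n + 1) * CT) + 12 * n ^ 2)
  refine g1.le (fun z a => continuous_const.mul ((om_cont _ _ _ _).sub ?_))
    (Eventually.of_forall fun z a u => ?_)
  · unfold om2 w4
    have hq : ∀ (i i' : Fin d) (y y' : Zp d), Continuous fun u : Zp d → Fin d → G =>
        qd L (pm L i y u) (pm L i' y' u) a.2.2.2 := fun i i' y y' =>
      qd_cont (fun c => pm_cont i y c) (fun c => pm_cont i' y' c) _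
    exact (((((hq _ _ _ _).sub (hq _ _ _ _)).sub (hq _ _ _ _)).sub (hq _ _ _ _)).sub
      (hq _ _ _ _)).add (hq _ _ _ _)
  · have h1 := om3_le (L := L) hTg a.1 a.2.1 a.2.2.1 u a.2.2.2
    have h2 : 0 ≤ z.1 ^ 6 := by positivity
    rw [abs_mul, abs_of_nonneg h2]
    refine le_trans ?_ (le_abs_self _)
    refine (mul_le_mul_of_nonneg_left h1 h2).trans (le_of_eq ?_)
    ring

lemma Gr_rh : Gr μ L (fun a : Fin d × Zp d × Fin n => gl a.2.1)
    (fun z a u => z.1 ^ 4 * rh L a.1 a.2.1 u a.2.2) := by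
  have nn : ∀ a : Fin d × Zp d × Fin n, 0 ≤ gl a.2.1 := fun a => gl_nn _
  have g : ∀ j : Fin d, Gr μ L (fun a : Fin d × Zp d × Fin n => gl a.2.1) (fun z a u =>
      2 * ((z.1 ^ 2 * poa (dg L u) j (a.2.1 - ez j)) *
        (z.1 ^ 2 * dg L u a.1 j (a.2.1 - ez j)))) := by
    intro j
    have g1 : Gr μ L (fun a : Fin d × Zp d × Fin n => gl a.2.1) (fun z a u =>
        z.1 ^ 2 * poa (dg L u) j (a.2.1 - ez j)) :=
      Gr.two nn (fun a => gl_nn _) (fun a => gl_pred _ _)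
        ((Gr_poa μ (L := L) hd hB hT hW hH hTg).re
          (fun a : Fin d × Zp d × Fin n => (j, a.2.1 - ez j)))
    have g2 := (Gr_dg μ (L := L) hd hB hT hW hH hTg).re
      (fun a : Fin d × Zp d × Fin n => (a.1, j, a.2.1 - ez j))
    have g3 := g1.mul (fun a => gl_pos _) (fun _ => one_pos) g2
    simp only [mul_one] at g3
    exact g3.smul nn 2
  refine (Gr.sum nn Finset.univ fun j _ => g j).le (fun z a => continuous_const.mul
    (rh_cont _ _ _)) (Eventually.of_forall fun z a u => ?_)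
  have h1 := rh_le (L := L) a.1 a.2.1 u a.2.2
  have h2 : 0 ≤ z.1 ^ 4 := by positivity
  rw [abs_mul, abs_of_nonneg h2]
  refine le_trans ?_ (le_abs_self _)
  refine (mul_le_mul_of_nonneg_left h1 h2).trans (le_of_eq ?_)
  rw [Finset.mul_sum]
  exact Finset.sum_congr rfl fun j _ => by ring

lemma Gr_rh3 : Gr μ L (fun a : Fin d × Zp d × Fin n => gl a.2.1 * gl a.2.1)
    (fun z a u => z.1 ^ 6 * (rh L a.1 a.2.1 u a.2.2 - rh2 L a.1 a.2.1 u a.2.2)) := by
  have nn : ∀ a : Fin d × Zp d × Fin n, 0 ≤ gl a.2.1 := fun a => gl_nn _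
  have pos : ∀ a : Fin d × Zp d × Fin n, 0 < gl a.2.1 := fun a => gl_pos _
  have nn2 : ∀ a : Fin d × Zp d × Fin n, 0 ≤ gl a.2.1 * gl a.2.1 := fun a =>
    mul_nonneg (gl_nn _) (gl_nn _)
  have g : ∀ j : Fin d, Gr μ L (fun a : Fin d × Zp d × Fin n => gl a.2.1 * gl a.2.1)
      (fun z a u => (1 + 2 * ((n + 1) * CT) + 2 * n ^ 2) *
        (((z.1 ^ 2 * poa (dg L u) j (a.2.1 - ez j)) * (z.1 ^ 2 * dg L u a.1 j (a.2.1 - ez j))) *
          (z.1 ^ 2 * poa (dg L u) j (a.2.1 - ez j) + z.1 ^ 2 * dg L u a.1 j (a.2.1 - ez j)))) := by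
    intro j
    have g1 : Gr μ L (fun a : Fin d × Zp d × Fin n => gl a.2.1) (fun z a u =>
        z.1 ^ 2 * poa (dg L u) j (a.2.1 - ez j)) :=
      Gr.two nn (fun a => gl_nn _) (fun a => gl_pred _ _)
        ((Gr_poa μ (L := L) hd hB hT hW hH hTg).re
          (fun a : Fin d × Zp d × Fin n => (j, a.2.1 - ez j)))
    have g2 := (Gr_dg μ (L := L) hd hB hT hW hH hTg).re
      (fun a : Fin d × Zp d × Fin n => (a.1, j, a.2.1 - ez j))
    have g3 := g1.mul (fun a => gl_pos _) (fun _ => one_pos) g2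
    simp only [mul_one] at g3
    have g4 := g2.mono (K' := fun a => gl a.2.1) (fun _ => zero_le_one) (fun a => one_le_gl _)
    exact (g3.mul pos pos (g1.add nn g4)).smul nn2 _
  refine (Gr.sum nn2 Finset.univ fun j _ => g j).le (fun z a => continuous_const.mul
    ((rh_cont _ _ _).sub ?_)) (Eventually.of_forall fun z a u => ?_)
  · unfold rh2
    exact continuous_finsetSum _ fun j _ => continuous_const.mul
      (qd_cont (fun c => pm_cont _ _ c) (fun c => fF_cont _ _ _ c) _)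
  · have h1 := rh3_le (L := L) hTg a.1 a.2.1 u a.2.2
    have h2 : 0 ≤ z.1 ^ 6 := by positivity
    rw [abs_mul, abs_of_nonneg h2]
    refine le_trans ?_ (le_abs_self _)
    refine (mul_le_mul_of_nonneg_left h1 h2).trans (le_of_eq ?_)
    rw [Finset.mul_sum]
    exact Finset.sum_congr rfl fun j _ => by ring

end fam

end

end Pool.Agent.Y16.YM
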