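import Mathlib
import Pool.Agent.Y16.NL.Gr2

/-!
# Eventual bounds, the number of steps, and preparations for the induction
-/

open MeasureTheory Matrix Filter
open scoped Matrix.Norms.Frobenius Topology
open Pool.Agent.H906R3.YM Pool.Agent.W793.YM Pool.Agent.TH940.YM
open Pool.Agent.W793.SCH (haf Near pk gK DD mx el TK S_B1 S_B2 S_TR S_W1 S_HAF green plaq_moment2)

namespace Pool.Agent.Y16.YM

set_option linter.unusedSectionVars false
set_option linter.unusedVariables false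
set_option maxHeartbeats 400000

noncomputable section

section eb

variable {X : Type*} {P : ℝ × ℕ → X → Prop} {g g' : X → ℝ} {f f' : ℝ × ℕ → X → ℝ}

/-- eventual bounds, uniform in a parameter -/
def EB (P : ℝ × ℕ → X → Prop) (g : X → ℝ) (f : ℝ × ℕ → X → ℝ) : Prop :=
  ∃ C : ℝ, 0 ≤ C ∧ ∀ᶠ z in FB, ∀ x, P z x → |f z x| ≤ C * g x

lemma EB.add (hf : EB P g f) (hf' : EB P g f') : EB P g (fun z x => f z x + f' z x) := by
  obtain ⟨C1, hC1, h1⟩ := hf
  obtain ⟨C2, hC2, h2⟩ := hf'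
  refine ⟨C1 + C2, by positivity, ?_⟩
  filter_upwards [h1, h2] with z h1 h2 x hx
  rw [add_mul]
  exact (abs_add_le _ _).trans (add_le_add (h1 x hx) (h2 x hx))

lemma EB.sub (hf : EB P g f) (hf' : EB P g f') : EB P g (fun z x => f z x - f' z x) := by
  obtain ⟨C1, hC1, h1⟩ := hf
  obtain ⟨C2, hC2, h2⟩ := hf'
  refine ⟨C1 + C2, by positivity, ?_⟩
  filter_upwards [h1, h2] with z h1 h2 x hx
  rw [add_mul]
  exact (abs_sub _ _).trans (add_le_add (h1 x hx) (h2 x hx))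

/-- multiplication by a bounded function, and change of the growth function -/
lemma EB.mul {a : ℝ × ℕ → X → ℝ} {K : ℝ} (hK : 0 ≤ K)
    (h : ∀ z x, P z x → |a z x| * g x ≤ K * g' x) (hf : EB P g f) :
    EB P g' (fun z x => a z x * f z x) := by
  obtain ⟨C1, hC1, h1⟩ := hf
  refine ⟨K * C1, by positivity, ?_⟩
  filter_upwards [h1] with z h1 x hx
  rw [abs_mul]
  calc |a z x| * |f z x| ≤ |a z x| * (C1 * g x) :=
        mul_le_mul_of_nonneg_left (h1 x hx) (abs_nonneg _)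
    _ = C1 * (|a z x| * g x) := by ring
    _ ≤ C1 * (K * g' x) := mul_le_mul_of_nonneg_left (h z x hx) hC1
    _ = _ := by ring

lemma EB.mono {K : ℝ} (hK : 0 ≤ K) (h : ∀ z x, P z x → g x ≤ K * g' x) (hf : EB P g f) :
    EB P g' f := by
  obtain ⟨C1, hC1, h1⟩ := hf
  refine ⟨C1 * K, by positivity, ?_⟩
  filter_upwards [h1] with z h1 x hx
  refine (h1 x hx).trans ?_
  rw [mul_assoc]
  exact mul_le_mul_of_nonneg_left (h z x hx) hC1

lemma EB.sum {ι : Type*} [DecidableEq ι] (s : Finset ι) {f : ι → ℝ × ℕ → X → ℝ}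
    (h : ∀ i ∈ s, EB P g (f i)) : EB P g (fun z x => ∑ i ∈ s, f i z x) := by
  induction s using Finset.induction_on with
  | empty => exact ⟨0, le_rfl, Eventually.of_forall fun z x _ => by simp⟩
  | insert j s hj ih =>
    have h1 := (h j (Finset.mem_insert_self _ _)).add
      (ih fun i hi => h i (Finset.mem_insert_of_mem hi))
    have e : (fun (z : ℝ × ℕ) (x : X) => ∑ i ∈ insert j s, f i z x) =
        fun z x => f j z x + ∑ i ∈ s, f i z x := by
      funext z x; rw [Finset.sum_insert hj]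
    rw [e]; exact h1

lemma EB.re {Y : Type*} {P' : ℝ × ℕ → Y → Prop} (φ : Y → X) (h : ∀ z y, P' z y → P z (φ y))
    (hf : EB P g f) : EB P' (fun y => g (φ y)) (fun z y => f z (φ y)) := by
  obtain ⟨C1, hC1, h1⟩ := hf
  refine ⟨C1, hC1, ?_⟩
  filter_upwards [h1] with z h1 y hy
  exact h1 _ (h z y hy)

lemma EB.congr (h : ∀ z x, 0 < z.1 → P z x → f' z x = f z x) (hf : EB P g f) : EB P g f' := by
  obtain ⟨C1, hC1, h1⟩ := hf
  refine ⟨C1, hC1, ?_⟩
  filter_upwards [h1, FB_ge 1] with z h1 hz x hx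
  rw [h z x (by linarith) hx]
  exact h1 x hx

end eb

/-! ### the number of steps -/

/-- the number of steps -/
def T3 (z : ℝ × ℕ) : ℕ := ⌈z.1 ^ 3⌉₊

lemma T3_ge (z : ℝ × ℕ) : z.1 ^ 3 ≤ T3 z := Nat.le_ceil _

lemma T3_ev (c : ℝ) : ∀ᶠ z in FB, 4 * (T3 z : ℝ) + c ≤ z.2 := by
  filter_upwards [FB_le, FB_ge (10 + |c|)] with z h1 h2
  have hc := abs_nonneg c
  have hc2 := le_abs_self c
  have hz : 0 ≤ z.1 := by linarith
  have h3 : (T3 z : ℝ) < z.1 ^ 3 + 1 := Nat.ceil_lt_add_one (by positivity)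
  have h4 : (10 + |c|) * z.1 ^ 3 ≤ z.1 ^ 4 := by
    have : z.1 ^ 4 = z.1 * z.1 ^ 3 := by ring
    rw [this]
    exact mul_le_mul_of_nonneg_right h2 (by positivity)
  have h5 : 10 ≤ z.1 ^ 3 := by
    have h6 : (10:ℝ) ≤ z.1 := by linarith
    nlinarith [sq_nonneg (z.1 ^ 2 - 1), mul_self_nonneg z.1]
  nlinarith

lemma T3_tendsto : Tendsto T3 FB atTop := by
  unfold T3
  exact tendsto_nat_ceil_atTop.comp ((tendsto_pow_atTop (by norm_num)).comp FB_fst)

lemma T3_end {K : ℝ} (hK : 0 ≤ K) {z : ℝ × ℕ} (hz : 1 ≤ z.1) :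
    K * z.1 ^ 4 / (T3 z : ℝ) ^ 2 ≤ K / z.1 := by
  have h0 : 0 < z.1 := by linarith
  have h1 : (z.1 ^ 3) ^ 2 ≤ (T3 z : ℝ) ^ 2 := pow_le_pow_left₀ (by positivity) (T3_ge z) 2
  calc K * z.1 ^ 4 / (T3 z : ℝ) ^ 2 ≤ K * z.1 ^ 4 / (z.1 ^ 3) ^ 2 :=
        div_le_div_of_nonneg_left (by positivity) (by positivity) h1
    _ = K / z.1 * (1 / z.1) := by field_simp
    _ ≤ K / z.1 * 1 := by
      refine mul_le_mul_of_nonneg_left ?_ (by positivity)
      rw [div_le_one h0]; exact hz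
    _ = _ := mul_one _

lemma T3_bd {K : ℝ} (hK : 0 ≤ K) :
    Tendsto (fun z : ℝ × ℕ => K * z.1 ^ 4 / (T3 z : ℝ) ^ 2) FB (𝓝 0) := by
  have h1 : Tendsto (fun z : ℝ × ℕ => K / z.1) FB (𝓝 0) := tendsto_const_nhds.div_atTop FB_fst
  refine squeeze_zero' ?_ ?_ h1
  · filter_upwards [FB_ge 1] with z hz
    positivity
  · filter_upwards [FB_ge 1] with z hz
    exact T3_end hK hz

/-! ### legs at variable positions -/

section mk

variable {G : Type} [Group G] [TopologicalSpace G] [IsTopologicalGroup G] [CompactSpace G]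
  [SecondCountableTopology G] [MeasurableSpace G] [BorelSpace G] (μ : Measure G)
  [IsProbabilityMeasure μ] [μ.IsMulLeftInvariant] [μ.IsMulRightInvariant] [μ.IsInvInvariant]
  {N n : ℕ} {L : LD G N n} {d : ℕ} {ι : Type} [DecidableEq ι]

/-- the legs: undifferentiated at variable positions for the indices in `b`, otherwise fixed -/
def mk (b : Finset ι) (D : ι → Lg d n) (ξ : ι → Xl d n) (i : ι) : Lg d n :=
  if i ∈ b then (ξ i, []) else D i

/-- the size of the variable positions -/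
def gw (s b : Finset ι) (ξ : ι → Xl d n) : ℝ := 1 + ∑ i ∈ s ∩ b, (l1 (ξ i).2.1 : ℝ)

/-- the variable positions are admissible -/
def Ad (s b : Finset ι) (z : ℝ × ℕ) (ξ : ι → Xl d n) : Prop :=
  ∀ i ∈ s ∩ b, (l1 (ξ i).2.1 : ℝ) ≤ 2 * T3 z

lemma one_le_gw (s b : Finset ι) (ξ : ι → Xl d n) : 1 ≤ gw s b ξ := by
  unfold gw
  have : 0 ≤ ∑ i ∈ s ∩ b, (l1 (ξ i).2.1 : ℝ) := Finset.sum_nonneg fun i _ => Nat.cast_nonneg _
  linarith

lemma gw_mono {s s' : Finset ι} (h : s' ⊆ s) (b : Finset ι) (ξ : ι → Xl d n) :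
    gw s' b ξ ≤ gw s b ξ := by
  unfold gw
  have := Finset.sum_le_sum_of_subset_of_nonneg (f := fun i => (l1 (ξ i).2.1 : ℝ))
    (Finset.inter_subset_inter h (Finset.Subset.refl b)) fun i _ _ => Nat.cast_nonneg _
  linarith

lemma Ad.mono {s s' b : Finset ι} (h : s' ⊆ s) {z : ℝ × ℕ} {ξ : ι → Xl d n} (hA : Ad s b z ξ) :
    Ad s' b z ξ := fun i hi =>
  hA i (Finset.inter_subset_inter h (Finset.Subset.refl b) hi)

/-- the size of the position of a leg -/
lemma gl_mk {s b : Finset ι} (D : ι → Lg d n) (ξ : ι → Xl d n) {i : ι} (hi : i ∈ s) :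
    gl (mk b D ξ i).1.2.1 ≤ gl (D i).1.2.1 * gw s b ξ := by
  have h1 := one_le_gw s b ξ
  have h2 := one_le_gl (D i).1.2.1
  unfold mk
  split_ifs with hb
  · have h3 : gl (ξ i).2.1 ≤ gw s b ξ := by
      unfold gl gw
      have := Finset.single_le_sum (f := fun i => (l1 (ξ i).2.1 : ℝ)) (s := s ∩ b)
        (fun i _ => Nat.cast_nonneg _) (Finset.mem_inter.2 ⟨hi, hb⟩)
      linarith
    show gl (ξ i).2.1 ≤ _
    nlinarith
  · nlinarith

lemma dF_ee (J : List (Fin d)) {f : Zp d → (Zp d → Fin d → G) → ℝ} (hf : ∀ x, Continuous (f x))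
    {R : (Zp d → Fin d → G) → ℝ} (hR : Continuous R) (z : ℝ × ℕ) : ∀ x,
    ee μ L z (fun u => dF J (fun x => f x u) x * R u) =
      dF J (fun x => ee μ L z (fun u => f x u * R u)) x := by
  induction J with
  | nil => intro x; rfl
  | cons i J ih =>
    intro x
    have hc : ∀ x, Continuous fun u => dF J (fun x => f x u) x := fun x =>
      dF_prop (P := fun F => Continuous F) (fun F H hF hH => hF.sub hH) hf J x
    have e : (fun u => dF (i :: J) (fun x => f x u) x * R u) = fun u =>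
        dF J (fun x => f x u) (x + Pi.single i 1) * R u - dF J (fun x => f x u) x * R u := by
      funext u
      have : dF (i :: J) (fun x => f x u) x =
        dF J (fun x => f x u) (x + Pi.single i 1) - dF J (fun x => f x u) x := rfl
      rw [this]; ring
    have hcR : ∀ x, Continuous fun u => dF J (fun x => f x u) x * R u := fun x => (hc x).mul hR
    rw [e, ee_sub μ (hcR _) (hcR _), ih, ih]
    rfl

/-- the expectation of a product of legs in terms of the two form -/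
lemma ee_pv {s : Finset ι} {j : ι} (hj : j ∈ s) (ℓ : ι → Lg d n) (z : ℝ × ℕ) :
    ee μ L z (pv L s ℓ) = dF (ℓ j).2 (te μ L z (pv L (s.erase j) ℓ) (ℓ j).1.2.2
      (ℓ j).1.1.1 (ℓ j).1.1.2) (ℓ j).1.2.1 := by
  have e : (pv L s ℓ : (Zp d → Fin d → G) → ℝ) = fun u =>
      dF (ℓ j).2 (fun x => fF L (ℓ j).1.1.1 (ℓ j).1.1.2 x u (ℓ j).1.2.2) (ℓ j).1.2.1 *
        pv L (s.erase j) ℓ u := by
    funext u
    rw [pv_insert hj]; rfl
  rw [e]
  exact dF_ee μ _ (fun x => fF_cont _ _ _ _) (pv_cont _ _) z _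

/-- the expectation of the derivative -/
lemma pd_ee {z : ℝ × ℕ} (hz : 0 < z.1) (c : Fin n) (y : Zp d) (k : Fin d) (s : Finset ι)
    (ℓ : ι → Lg d n) : z.1 ^ (2 * s.card + 4) * (ee μ L z (pd L c y k s ℓ) / z.1 ^ 4) =
      ∑ i ∈ s, (lc c y k (ℓ i) * (z.1 ^ (2 * (s.erase i).card + 2) *
        ee μ L z (pv L (s.erase i) ℓ)) + z.1 ^ (2 * (1 + (s.erase i).card)) *
          ee μ L z (fun u => le' L c y k (ℓ i) u * pv L (s.erase i) ℓ u)) := by
  have h1 : z.1 ^ (2 * s.card + 4) * (ee μ L z (pd L c y k s ℓ) / z.1 ^ 4) =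
      z.1 ^ (2 * s.card) * ee μ L z (pd L c y k s ℓ) := by
    rw [pow_add]; field_simp
  have hc : ∀ i, Continuous fun u : Zp d → Fin d → G => ld L c y k (ℓ i) u *
      pv L (s.erase i) ℓ u := fun i => (ld_cont _ _ _ _).mul (pv_cont _ _)
  have h2 : ee μ L z (pd L c y k s ℓ) = ∑ i ∈ s, ee μ L z (fun u => ld L c y k (ℓ i) u *
      pv L (s.erase i) ℓ u) := ee_sum μ s hc
  rw [h1, h2, Finset.mul_sum]
  refine Finset.sum_congr rfl fun i hi => ?_
  have hcard : (s.erase i).card + 1 = s.card := Finset.card_erase_add_one hi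
  have e : (fun u : Zp d → Fin d → G => ld L c y k (ℓ i) u * pv L (s.erase i) ℓ u) = fun u =>
      lc c y k (ℓ i) * pv L (s.erase i) ℓ u + le' L c y k (ℓ i) u * pv L (s.erase i) ℓ u := by
    funext u
    rw [ld_eq]; ring
  have c1 : Continuous fun u : Zp d → Fin d → G => lc c y k (ℓ i) * pv L (s.erase i) ℓ u :=
    continuous_const.mul (pv_cont _ _)
  have c2 : Continuous fun u : Zp d → Fin d → G => le' L c y k (ℓ i) u * pv L (s.erase i) ℓ u :=
    (le_cont _ _ _ _).mul (pv_cont _ _)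
  have h3 : ee μ L z (fun u : Zp d → Fin d → G => lc c y k (ℓ i) * pv L (s.erase i) ℓ u) =
      lc c y k (ℓ i) * ee μ L z (pv L (s.erase i) ℓ) := ee_smul μ _ _
  rw [e, ee_add μ c1 c2, h3]
  have e1 : 2 * s.card = 2 * (s.erase i).card + 2 := by omega
  have e2 : 2 * (1 + (s.erase i).card) = 2 * (s.erase i).card + 2 := by ring
  rw [e1, e2]
  ring

section fam

variable (hd : 3 ≤ d) (hB : S_B2) (hT : S_TR) (hW : S_W1) (hH : S_HAF) {CT : ℝ} (hTg : Tg L CT)

include hd hB hT hW hH hTg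

lemma Gr_pv (s b : Finset ι) (D : ι → Lg d n) : Gr μ L (fun _ => (1:ℝ))
    (fun z (ξ : ι → Xl d n) u => z.1 ^ (2 * s.card) * pv L s (mk b D ξ) u) := by
  have h1 : ∀ i ∈ s, Gr μ L (fun _ => (1:ℝ)) (fun z (ξ : ι → Xl d n) u =>
      z.1 ^ 2 * lv L (mk b D ξ i) u) := by
    intro i _
    by_cases hb : i ∈ b
    · have h2 := (Gr_lv μ (L := L) hd hB hT hW hH hTg []).re (fun ξ : ι → Xl d n => ξ i)
      simp only [mk, if_pos hb]
      exact h2
    · have h2 := (Gr_lv μ (L := L) hd hB hT hW hH hTg (D i).2).re (fun ξ : ι → Xl d n => (D i).1)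
      simp only [mk, if_neg hb]
      exact h2
  have h2 := Gr.prod s h1
  have e : (fun (z : ℝ × ℕ) (ξ : ι → Xl d n) (u : Zp d → Fin d → G) =>
      z.1 ^ (2 * s.card) * pv L s (mk b D ξ) u) = fun z ξ u =>
      ∏ i ∈ s, z.1 ^ 2 * lv L (mk b D ξ i) u := by
    funext z ξ u
    rw [Finset.prod_mul_distrib, Finset.prod_const, ← pow_mul]
    rfl
  rw [e]
  exact h2

end fam

/-! ### expansions of the second order parts -/

lemma Ex_om (hT4 : Tg4 L) (j k : Fin d) (x : Zp d) (α : Fin n) :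
    Ex L 2 4 (fun u : Zp d → Fin d → G => om L j k x u α) := by
  have hq : ∀ (i i' : Fin d) (y y' : Zp d), Ex L 2 4 (fun u : Zp d → Fin d → G =>
      qd L (pm L i y u) (pm L i' y' u) α) := fun i i' y y' =>
    Ex_qd (L := L) (k := 1) (k' := 1) (s := 2) (A := fun (u : Zp d → Fin d → G) => pm L i y u)
      (B := fun u => pm L i' y' u) (fun a => Ex_pm i y a le_rfl) (fun a => Ex_pm i' y' a le_rfl) α
  have h1 : Ex L 2 4 (fun u : Zp d → Fin d → G => om2 L j k x u α) :=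
    (((((hq _ _ _ _).sub (hq _ _ _ _)).sub (hq _ _ _ _)).sub (hq _ _ _ _)).sub
      (hq _ _ _ _)).add (hq _ _ _ _)
  have h2 := ((om_sub_om2 (L := L) hT4 j k x α).mono_left (by norm_num : 2 ≤ 3)).add h1
  simpa only [sub_add_cancel] using h2

lemma Ex_rh (hT4 : Tg4 L) (k : Fin d) (x : Zp d) (α : Fin n) :
    Ex L 2 4 (fun u : Zp d → Fin d → G => rh L k x u α) := by
  have h1 : Ex L 2 4 (fun u : Zp d → Fin d → G => rh2 L k x u α) := by
    unfold rh2
    refine Ex.sum _ fun j _ => Ex.smul ?_ 2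
    exact Ex_qd (L := L) (k := 1) (k' := 1) (s := 2)
      (A := fun (u : Zp d → Fin d → G) => pm L j (x - ez j) u)
      (B := fun u => fF L k j (x - ez j) u) (fun a => Ex_pm j (x - ez j) a le_rfl)
      (fun a => Ex_fF k j (x - ez j) a le_rfl) α
  have h2 := ((rh_sub_rh2 (L := L) hT4 k x α).mono_left (by norm_num : 2 ≤ 3)).add h1
  simpa only [sub_add_cancel] using h2

/-- the limit of a product with an expansion -/
lemma lim_mul (hd : 3 ≤ d) (hB : S_B2) (hT : S_TR) (hW : S_W1) (hH : S_HAF) {CT : ℝ}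
    (hTg : Tg L CT) {q : ℕ} {F : (Zp d → Fin d → G) → ℝ} (hF : Ex L q (q + 1) F)
    (hc : Continuous F) (s : Finset ι) (ℓ : ι → Lg d n) :
    ∃ g, Tendsto (fun z => z.1 ^ (2 * (q + s.card)) * ee μ L z (fun u => F u * pv L s ℓ u)) FB
      (𝓝 g) := by
  have h1 : Ex L s.card (s.card + 1) (pv L s ℓ) := Ex_pl (pv_mem s ℓ) le_rfl
  exact Ex.lim μ hd hB hT hW hH hTg (by omega) (hF.mul h1) (hc.mul (pv_cont _ _))

end mk

end

end Pool.Agent.Y16.YM
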