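import Mathlib
import Pool.Agent.Y16.NL.Eb

/-!
# Products of an odd number of field strengths
-/

open MeasureTheory Matrix Filter
open scoped Matrix.Norms.Frobenius Topology
open Pool.Agent.H906R3.YM Pool.Agent.W793.YM Pool.Agent.TH940.YM
open Pool.Agent.W793.SCH (haf Near pk gK DD mx el TK S_B1 S_B2 S_TR S_W1 S_HAF green plaq_moment2)

namespace Pool.Agent.Y16.YM

set_option linter.unusedSectionVars false
set_option linter.unusedVariables false
set_option maxHeartbeats 400000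

noncomputable section

variable {G : Type} [Group G] [TopologicalSpace G] [IsTopologicalGroup G] [CompactSpace G]
  [SecondCountableTopology G] [MeasurableSpace G] [BorelSpace G] (μ : Measure G)
  [IsProbabilityMeasure μ] [μ.IsMulLeftInvariant] [μ.IsMulRightInvariant] [μ.IsInvInvariant]
  {N n : ℕ} {L : LD G N n} {d : ℕ} {ι : Type} [DecidableEq ι]

lemma dF_cm (J : List (Fin d)) (c : ℝ) (f : Zp d → ℝ) (x : Zp d) :
    dF J (fun x => c * f x) x = c * dF J f x := by
  induction J generalizing x with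
  | nil => rfl
  | cons i J ih =>
    show dF J (fun x => c * f x) (x + Pi.single i 1) - dF J (fun x => c * f x) x = _
    rw [ih, ih]
    show _ = c * (dF J f (x + Pi.single i 1) - dF J f x)
    ring

lemma dvg_smul (c : ℝ) (w : Fin d → Fin d → Fz' d) (k : Fin d) (y : Zp d) :
    dvg (fun j k y => c * w j k y) k y = c * dvg w k y := by
  unfold dvg ns
  rw [Finset.mul_sum]
  exact Finset.sum_congr rfl fun i _ => by ring

lemma gl_ll (y : Zp d) : gl y = ll y + 1 := by
  unfold gl; rw [ll_l1]; ring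

lemma mk_len (b : Finset ι) (D : ι → Lg d n) (ξ : ι → Xl d n) (i : ι) :
    (mk b D ξ i).2.length ≤ (D i).2.length := by
  unfold mk; split_ifs <;> simp

/-- the legs lie inside the torus -/
lemma reg_ev (s b : Finset ι) (D : ι → Lg d n) : ∀ᶠ z in FB, ∀ ξ : ι → Xl d n, Ad s b z ξ →
    ∀ i ∈ s, ∀ j, |(mk b D ξ i).1.2.1 j| + 1 + (mk b D ξ i).2.length ≤ (z.2 : ℤ) := by
  obtain ⟨c, hc⟩ : ∃ c : ℕ, c = 1 + ∑ i ∈ s, (l1 (D i).1.2.1 + (D i).2.length + 1) := ⟨_, rfl⟩
  filter_upwards [T3_ev (c : ℝ)] with z hz ξ hA i hi j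
  have hz' : 4 * T3 z + c ≤ z.2 := by exact_mod_cast hz
  unfold mk
  split_ifs with hb
  · have h1 := hA i (Finset.mem_inter.2 ⟨hi, hb⟩)
    have h2 : l1 (ξ i).2.1 ≤ 2 * T3 z := by exact_mod_cast h1
    have h3 := l1_coord (ξ i).2.1 j
    simp only [List.length_nil]
    push_cast
    omega
  · have h1 : l1 (D i).1.2.1 + (D i).2.length + 1 ≤ c := by
      rw [hc]
      have := Finset.single_le_sum (f := fun i => l1 (D i).1.2.1 + (D i).2.length + 1) (s := s)
        (fun i _ => Nat.zero_le _) hi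
      omega
    have h3 := l1_coord (D i).1.2.1 j
    omega

/-- the divergence in terms of the current -/
lemma div_ev (s b : Finset ι) (D : ι → Lg d n) (c : Fin n) (e : ℕ) :
    ∀ᶠ z in FB, ∀ ξ : ι → Xl d n, Ad s b z ξ → ∀ (k : Fin d) (y : Zp d), ll y ≤ 2 * T3 z →
      dvg (fun j k y => z.1 ^ e * te μ L z (pv L s (mk b D ξ)) c j k y) k y =
        z.1 ^ e * ee μ L z (fun u => rh L k y u c * pv L s (mk b D ξ) u) -
          z.1 ^ e * (ee μ L z (pd L c y k s (mk b D ξ)) / z.1 ^ 4) := by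
  filter_upwards [reg_ev s b D, T3_ev 2, FB_ge 1] with z h1 h2 h3 ξ hA k y hy
  have h2' : 4 * T3 z + 2 ≤ z.2 := by exact_mod_cast h2
  rw [ll_l1] at hy
  have hy' : l1 y ≤ 2 * T3 z := by exact_mod_cast hy
  have hyi : ∀ i, |y i| ≤ 2 * T3 z := fun i => (l1_coord y i).trans (by exact_mod_cast hy')
  have hdv : Dv L (2 * (z.2 + 1)) y k c (pv L s (mk b D ξ)) (pd L c y k s (mk b D ξ)) :=
    Dv_pv (m := (z.2 : ℤ)) (fun i => by have := hyi i; push_cast; omega) s _ (h1 ξ hA)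
  have h4 := te_div μ (L := L) (pv_cont s (mk b D ξ)) (pd_cont c y k s (mk b D ξ))
    (fun i => by have := hyi i; push_cast; omega) (by linarith) hdv
  rw [dvg_smul, h4, mul_sub]

section fam

variable (hd : 3 ≤ d) (hB : S_B2) (hT : S_TR) (hW : S_W1) (hH : S_HAF) {CT : ℝ} (hTg : Tg L CT)

include hd hB hT hW hH hTg

/-- products of a family with the legs -/
lemma EB_mul {A : Type} {K : A → ℝ} {F : ℝ × ℕ → A → (Zp d → Fin d → G) → ℝ} {q : ℕ}
    (hK : ∀ a, 0 < K a) (hF : Gr μ L K (fun z a u => z.1 ^ q * F z a u)) (s b : Finset ι)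
    (D : ι → Lg d n) : EB (fun _ (_ : (ι → Xl d n) × A) => True) (fun x => K x.2)
      (fun z x => z.1 ^ (2 * s.card + q) * ee μ L z (fun u => F z x.2 u *
        pv L s (mk b D x.1) u)) := by
  have h1 := (hF.re (fun x : (ι → Xl d n) × A => x.2)).mul (fun x => hK _) (fun _ => one_pos)
    ((Gr_pv μ hd hB hT hW hH hTg s b D).re (fun x : (ι → Xl d n) × A => x.1))
  obtain ⟨C, hC, h2⟩ := h1.ee_le
  refine ⟨C, hC, ?_⟩
  filter_upwards [h2] with z h2 x _
  have h3 := h2 x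
  rw [mul_one] at h3
  have e : (fun u : Zp d → Fin d → G => z.1 ^ q * F z x.2 u *
      (z.1 ^ (2 * s.card) * pv L s (mk b D x.1) u)) = fun u => z.1 ^ (2 * s.card + q) *
        (F z x.2 u * pv L s (mk b D x.1) u) := by
    funext u
    rw [pow_add]; ring
  rw [e, ee_smul] at h3
  exact h3

/-- the bound of the vertex -/
lemma EB_om (s b : Finset ι) (D : ι → Lg d n) :
    EB (fun _ (_ : (ι → Xl d n) × (Fin d × Fin d × Zp d × Fin n)) => True)
      (fun x => gl x.2.2.2.1 * gl x.2.2.2.1) (fun z x => z.1 ^ (2 * s.card + 4) *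
        ee μ L z (fun u => om L x.2.1 x.2.2.1 x.2.2.2.1 u x.2.2.2.2 * pv L s (mk b D x.1) u)) :=
  EB_mul μ hd hB hT hW hH hTg
    (F := fun _ (a : Fin d × Fin d × Zp d × Fin n) u => om L a.1 a.2.1 a.2.2.1 u a.2.2.2)
    (fun a => mul_pos (gl_pos _) (gl_pos _)) (Gr_om μ hd hB hT hW hH hTg) s b D

lemma EB_rh (s b : Finset ι) (D : ι → Lg d n) :
    EB (fun _ (_ : (ι → Xl d n) × (Fin d × Zp d × Fin n)) => True)
      (fun x => gl x.2.2.1) (fun z x => z.1 ^ (2 * s.card + 4) *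
        ee μ L z (fun u => rh L x.2.1 x.2.2.1 u x.2.2.2 * pv L s (mk b D x.1) u)) :=
  EB_mul μ hd hB hT hW hH hTg
    (F := fun _ (a : Fin d × Zp d × Fin n) u => rh L a.1 a.2.1 u a.2.2)
    (fun a => gl_pos _) (Gr_rh μ hd hB hT hW hH hTg) s b D

lemma EB_fF (s b : Finset ι) (D : ι → Lg d n) :
    EB (fun _ (_ : (ι → Xl d n) × Xl d n) => True)
      (fun _ => 1) (fun z x => z.1 ^ (2 * s.card + 2) *
        ee μ L z (fun u => xv L x.2 u * pv L s (mk b D x.1) u)) :=
  EB_mul μ hd hB hT hW hH hTg (F := fun _ (a : Xl d n) u => xv L a u)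
    (fun a => one_pos) (Gr_fF μ hd hB hT hW hH hTg) s b D

/-- the bound of the remainder of the derivative of a leg -/
lemma EB_le (s t b : Finset ι) (D : ι → Lg d n) {i : ι} (hi : i ∈ s) (c : Fin n) :
    EB (fun _ (_ : (ι → Xl d n) × Fin d × Zp d) => True)
      (fun x => gw s b x.1) (fun z x => z.1 ^ (2 * t.card + 2) *
        ee μ L z (fun u => le' L c x.2.2 x.2.1 (mk b D x.1 i) u * pv L t (mk b D x.1) u)) := by
  have h1 : Gr μ L (fun x : (ι → Xl d n) × Fin d × Zp d => gl (mk b D x.1 i).1.2.1)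
      (fun z x u => z.1 ^ 2 * le' L c x.2.2 x.2.1 (mk b D x.1 i) u) := by
    by_cases hb : i ∈ b
    · simp only [mk, if_pos hb]
      exact (Gr_le μ (L := L) hd hB hT hW hH hTg []).re
        (fun x : (ι → Xl d n) × Fin d × Zp d => (c, x.2.2, x.2.1, x.1 i))
    · simp only [mk, if_neg hb]
      exact (Gr_le μ (L := L) hd hB hT hW hH hTg (D i).2).re
        (fun x : (ι → Xl d n) × Fin d × Zp d => (c, x.2.2, x.2.1, (D i).1))
  have h2 := h1.mul (fun x => gl_pos _) (fun _ => one_pos)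
    ((Gr_pv μ hd hB hT hW hH hTg t b D).re (fun x : (ι → Xl d n) × Fin d × Zp d => x.1))
  obtain ⟨C, hC, h3⟩ := h2.ee_le
  refine ⟨C * gl (D i).1.2.1, mul_nonneg hC (gl_nn _), ?_⟩
  filter_upwards [h3] with z h3 x _
  have h4 := h3 x
  rw [mul_one] at h4
  have e : (fun u : Zp d → Fin d → G => z.1 ^ 2 * le' L c x.2.2 x.2.1 (mk b D x.1 i) u *
      (z.1 ^ (2 * t.card) * pv L t (mk b D x.1) u)) = fun u => z.1 ^ (2 * t.card + 2) *
        (le' L c x.2.2 x.2.1 (mk b D x.1 i) u * pv L t (mk b D x.1) u) := by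
    funext u
    rw [pow_add]; ring
  rw [e, ee_smul] at h4
  refine h4.trans ?_
  rw [mul_assoc]
  exact mul_le_mul_of_nonneg_left (gl_mk D x.1 hi) hC

end fam

end

end Pool.Agent.Y16.YM
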