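import Mathlib
import Pool.Agent.Y16.NL.F1

/-!
# Products of an odd number of field strengths: the induction
-/

open MeasureTheory Matrix Filter
open scoped Matrix.Norms.Frobenius Topology
open Pool.Agent.H906R3.YM Pool.Agent.W793.YM Pool.Agent.TH940.YM
open Pool.Agent.W793.SCH (haf Near pk gK DD mx el TK S_B1 S_B2 S_TR S_W1 S_HAF green plaq_moment2)

namespace Pool.Agent.Y16.YM

set_option linter.unusedSectionVars false
set_option linter.unusedVariables false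
set_option maxHeartbeats 400000

noncomputable section

variable {G : Type} [Group G] [TopologicalSpace G] [IsTopologicalGroup G] [CompactSpace G]
  [SecondCountableTopology G] [MeasurableSpace G] [BorelSpace G] (μ : Measure G)
  [IsProbabilityMeasure μ] [μ.IsMulLeftInvariant] [μ.IsMulRightInvariant] [μ.IsInvInvariant]
  {N n : ℕ} {L : LD G N n} {d : ℕ} {ι : Type} [DecidableEq ι]

/-- the scaled expectation of a product with an odd number of legs -/
def od (L : LD G N n) (b : Finset ι) (D : ι → Lg d n) (s : Finset ι) (z : ℝ × ℕ)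
    (ξ : ι → Xl d n) : ℝ := z.1 ^ (2 * s.card + 2) * ee μ L z (pv L s (mk b D ξ))

/-- the statement of the induction -/
def P1 (L : LD G N n) (b : Finset ι) (D : ι → Lg d n) (s : Finset ι) : Prop :=
  EB (Ad s b) (gw s b) (od μ L b D s) ∧ ∀ ξ, ∃ g, Tendsto (fun z => od μ L b D s z ξ) FB (𝓝 g)

section fam

variable (hd : 3 ≤ d) (hB : S_B2) (hT : S_TR) (hW : S_W1) (hH : S_HAF) {CT : ℝ} (hTg : Tg L CT)

include hd hB hT hW hH hTg

/-- the bound of the contact terms -/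
lemma con_EB {b : Finset ι} {D : ι → Lg d n} {s : Finset ι} (c : Fin n)
    (ih : ∀ i ∈ s, EB (Ad (s.erase i) b) (gw (s.erase i) b) (od μ L b D (s.erase i))) :
    EB (fun z (x : (ι → Xl d n) × Fin d × Zp d) => Ad s b z x.1) (fun x => gw s b x.1)
      (fun z x => z.1 ^ (2 * s.card + 4) *
        (ee μ L z (pd L c x.2.2 x.2.1 s (mk b D x.1)) / z.1 ^ 4)) := by
  have h1 : ∀ i ∈ s, EB (fun z (x : (ι → Xl d n) × Fin d × Zp d) => Ad s b z x.1)
      (fun x => gw s b x.1) (fun z x => lc c x.2.2 x.2.1 (mk b D x.1 i) *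
        od μ L b D (s.erase i) z x.1 + z.1 ^ (2 * (s.erase i).card + 2) *
          ee μ L z (fun u => le' L c x.2.2 x.2.1 (mk b D x.1 i) u *
            pv L (s.erase i) (mk b D x.1) u)) := by
    intro i hi
    have a1 := (ih i hi).re (P' := fun z (x : (ι → Xl d n) × Fin d × Zp d) => Ad s b z x.1)
      (fun x => x.1) fun z x hx => hx.mono (Finset.erase_subset _ _)
    have a2 := a1.mul (a := fun z x => lc c x.2.2 x.2.1 (mk b D x.1 i))
      (g' := fun x => gw s b x.1) (K := 2 ^ (D i).2.length * 4) (by positivity)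
      (fun z x _ => by
        have h3 := lc_abs c x.2.2 x.2.1 (mk b D x.1 i)
        have h4 : (2:ℝ) ^ (mk b D x.1 i).2.length ≤ 2 ^ (D i).2.length :=
          pow_le_pow_right₀ (by norm_num) (mk_len b D x.1 i)
        have h5 := gw_mono (Finset.erase_subset i s) b x.1
        have h6 := one_le_gw (s.erase i) b x.1
        exact mul_le_mul (by linarith) h5 (by linarith) (by positivity))
    obtain ⟨C3, hC3, a3⟩ := EB_le μ hd hB hT hW hH hTg s (s.erase i) b D hi c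
    have a4 : EB (fun z (x : (ι → Xl d n) × Fin d × Zp d) => Ad s b z x.1)
      (fun x => gw s b x.1) (fun z x => z.1 ^ (2 * (s.erase i).card + 2) *
          ee μ L z (fun u => le' L c x.2.2 x.2.1 (mk b D x.1 i) u *
            pv L (s.erase i) (mk b D x.1) u)) :=
      ⟨C3, hC3, a3.mono fun z h x _ => h x trivial⟩
    exact a2.add a4
  refine (EB.sum s h1).congr fun z x hz _ => ?_
  rw [pd_ee μ hz]
  refine Finset.sum_congr rfl fun i _ => ?_
  have e2 : 2 * (1 + (s.erase i).card) = 2 * (s.erase i).card + 2 := by ring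
  rw [e2]
  rfl

/-- the limit of the contact terms -/
lemma con_lim (hT4 : Tg4 L) {b : Finset ι} {D : ι → Lg d n} {s : Finset ι} (c : Fin n)
    (ξ : ι → Xl d n)
    (ih : ∀ i ∈ s, ∃ g, Tendsto (fun z => od μ L b D (s.erase i) z ξ) FB (𝓝 g))
    (k : Fin d) (y : Zp d) : ∃ g, Tendsto (fun z => z.1 ^ (2 * s.card + 4) *
        (ee μ L z (pd L c y k s (mk b D ξ)) / z.1 ^ 4)) FB (𝓝 g) := by
  have h1 : ∀ i : ι, ∃ g, i ∈ s → Tendsto (fun z => lc c y k (mk b D ξ i) *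
        od μ L b D (s.erase i) z ξ + z.1 ^ (2 * (1 + (s.erase i).card)) *
          ee μ L z (fun u => le' L c y k (mk b D ξ i) u *
            pv L (s.erase i) (mk b D ξ) u)) FB (𝓝 g) := by
    intro i
    by_cases hi : i ∈ s
    · obtain ⟨g1, a1⟩ := ih i hi
      obtain ⟨g2, a2⟩ := lim_mul μ hd hB hT hW hH hTg (q := 1)
        ((le_Ex hT4 c y k (mk b D ξ i)).mono_right (by norm_num : 1 + 1 ≤ 4)) (le_cont _ _ _ _)
        (s.erase i) (mk b D ξ)
      exact ⟨_, fun _ => (a1.const_mul _).add a2⟩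
    · exact ⟨0, fun h => absurd h hi⟩
  choose g hg using h1
  refine ⟨∑ i ∈ s, g i, (tendsto_finsetSum s fun i hi => hg i hi).congr' ?_⟩
  filter_upwards [FB_ge 1] with z hz
  rw [pd_ee μ (by linarith : 0 < z.1)]
  rfl

/-- the induction step -/
lemma P1_step (hT4 : Tg4 L) {b : Finset ι} {D : ι → Lg d n} {s : Finset ι} {i₀ : ι} (hi₀ : i₀ ∈ s)
    (hb : i₀ ∉ b) (hJ : 4 ≤ (D i₀).2.length)
    (ih : ∀ i ∈ s.erase i₀, P1 μ L b D ((s.erase i₀).erase i)) : P1 μ L b D s := by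
  obtain ⟨s', hs'⟩ : ∃ s', s' = s.erase i₀ := ⟨_, rfl⟩
  have hcard : s'.card + 1 = s.card := by rw [hs']; exact Finset.card_erase_add_one hi₀
  have hsub : s' ⊆ s := by rw [hs']; exact Finset.erase_subset _ _
  rw [← hs'] at ih
  obtain ⟨J, hJe⟩ : ∃ J, J = (D i₀).2 := ⟨_, rfl⟩
  obtain ⟨v, hv⟩ : ∃ v, v = (D i₀).1.2.1 := ⟨_, rfl⟩
  obtain ⟨c, hc⟩ : ∃ c, c = (D i₀).1.2.2 := ⟨_, rfl⟩
  obtain ⟨j₀, hj₀⟩ : ∃ j, j = (D i₀).1.1.1 := ⟨_, rfl⟩
  obtain ⟨k₀, hk₀⟩ : ∃ k, k = (D i₀).1.1.2 := ⟨_, rfl⟩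
  rw [← hJe] at hJ
  -- the functions
  obtain ⟨τ, hτ⟩ : ∃ τ : (ℝ × ℕ) → (ι → Xl d n) → Fin d → Fin d → Fz' d, τ = fun z ξ j k y =>
    z.1 ^ (2 * s'.card + 4) * te μ L z (pv L s' (mk b D ξ)) c j k y := ⟨_, rfl⟩
  obtain ⟨Ω, hΩ⟩ : ∃ Ω : (ℝ × ℕ) → (ι → Xl d n) → Fin d → Fin d → Fz' d, Ω = fun z ξ j k y =>
    z.1 ^ (2 * s'.card + 4) * ee μ L z (fun u => om L j k y u c * pv L s' (mk b D ξ) u) :=
    ⟨_, rfl⟩
  obtain ⟨A, hA⟩ : ∃ A : (ℝ × ℕ) → (ι → Xl d n) → Fin d → Fz' d, A = fun z ξ k y =>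
    z.1 ^ (2 * s'.card + 4) * ee μ L z (fun u => am L k y u c * pv L s' (mk b D ξ) u) :=
    ⟨_, rfl⟩
  obtain ⟨σ, hσ⟩ : ∃ σ : (ℝ × ℕ) → (ι → Xl d n) → Fin d → Fz' d, σ = fun z ξ k y =>
    z.1 ^ (2 * s'.card + 4) * ee μ L z (fun u => rh L k y u c * pv L s' (mk b D ξ) u) -
      z.1 ^ (2 * s'.card + 4) * (ee μ L z (pd L c y k s' (mk b D ξ)) / z.1 ^ 4) := ⟨_, rfl⟩
  -- the identities
  have h1 : ∀ z ξ j k y, τ z ξ j k y = Ω z ξ j k y +
      (nb j (A z ξ k) y - nb k (A z ξ j) y) := by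
    intro z ξ j k y
    rw [hτ, hΩ, hA]
    simp only
    rw [te_exact μ (pv_cont s' (mk b D ξ))]
    unfold nb
    ring
  have h2 : ∀ z ξ j k y, τ z ξ k j y = -τ z ξ j k y := by
    intro z ξ j k y
    rw [hτ]
    simp only
    rw [te_anti]; ring
  have h3 : ∀ᶠ z in FB, ∀ ξ, Ad s' b z ξ → ∀ k y, ll y ≤ 2 * T3 z →
      dvg (τ z ξ) k y = σ z ξ k y := by
    filter_upwards [div_ev μ (L := L) s' b D c (2 * s'.card + 4)] with z hz ξ hξ k y hy
    rw [hτ, hσ]
    exact hz ξ hξ k y hy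
  -- the bounds
  obtain ⟨C1, hC1, b1⟩ := EB_om μ hd hB hT hW hH hTg s' b D
  obtain ⟨C2, hC2, b2⟩ := EB_rh μ hd hB hT hW hH hTg s' b D
  obtain ⟨C3, hC3, b3⟩ := con_EB μ hd hB hT hW hH hTg c fun i hi => (ih i hi).1
  obtain ⟨C4, hC4, b4⟩ := EB_fF μ hd hB hT hW hH hTg s' b D
  have h4 : ∀ᶠ z in FB, ∀ ξ j k y, |Ω z ξ j k y| ≤
      (C1 + C2 + C3) * gw s b ξ * (ll y + 1) ^ (1 + 1) := by
    filter_upwards [b1] with z hz ξ j k y
    have h5 := hz (ξ, j, k, y, c) trivial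
    simp only at h5
    rw [hΩ]
    refine h5.trans ?_
    rw [gl_ll]
    have h6 := one_le_gw s b ξ
    have h7 := ll_nonneg y
    have e : (ll y + 1) ^ (1 + 1) = (ll y + 1) * (ll y + 1) := by ring
    rw [e]
    refine mul_le_mul_of_nonneg_right ?_ (by positivity)
    nlinarith
  have h5 : ∀ᶠ z in FB, ∀ ξ, Ad s' b z ξ → ∀ k y, |σ z ξ k y| ≤
      (C1 + C2 + C3) * gw s b ξ * (ll y + 1) ^ 1 := by
    filter_upwards [b2, b3] with z hz hz3 ξ hξ k y
    have h5 := hz (ξ, k, y, c) trivial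
    have h6 := hz3 (ξ, k, y) hξ
    simp only at h5 h6
    rw [hσ]
    simp only
    refine (abs_sub _ _).trans ((add_le_add h5 h6).trans ?_)
    rw [gl_ll, pow_one]
    have h7 := one_le_gw s b ξ
    have h8 := ll_nonneg y
    have h9 := gw_mono hsub b ξ
    have h10 : 0 ≤ gw s b ξ * ll y := by positivity
    have h11 : C2 * (ll y + 1) ≤ C2 * (gw s b ξ * (ll y + 1)) :=
      mul_le_mul_of_nonneg_left (by nlinarith) hC2
    have h12 : C3 * gw s' b ξ ≤ C3 * (gw s b ξ * (ll y + 1)) :=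
      mul_le_mul_of_nonneg_left (by nlinarith) hC3
    have h13 : 0 ≤ C1 * (gw s b ξ * (ll y + 1)) := by positivity
    nlinarith
  have h6 : ∀ᶠ z in FB, ∀ ξ j k y, |τ z ξ j k y| ≤ C4 * z.1 ^ 4 := by
    filter_upwards [b4, FB_ge 1] with z hz hz1 ξ j k y
    have h5 := hz (ξ, ((j, k), y, c)) trivial
    simp only [mul_one] at h5
    have e : τ z ξ j k y = z.1 ^ 2 * (z.1 ^ (2 * s'.card + 2) * ee μ L z (fun u =>
        xv L ((j, k), y, c) u * pv L s' (mk b D ξ) u)) := by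
      rw [hτ]
      have : te μ L z (pv L s' (mk b D ξ)) c j k y = ee μ L z (fun u =>
        xv L ((j, k), y, c) u * pv L s' (mk b D ξ) u) := rfl
      simp only [this]
      ring
    rw [e, abs_mul, abs_of_nonneg (sq_nonneg z.1)]
    have h7 : z.1 ^ 2 ≤ z.1 ^ 4 := pow_le_pow_right₀ hz1 (by norm_num)
    have h8 := mul_le_mul h7 h5 (abs_nonneg _) (by positivity)
    linarith
  -- the value
  have hval : ∀ z ξ, od μ L b D s z ξ = dF J (τ z ξ j₀ k₀) v := by
    intro z ξ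
    have hm : mk b D ξ i₀ = D i₀ := by unfold mk; rw [if_neg hb]
    unfold od
    rw [ee_pv μ hi₀, hm, ← hs', ← hJe, ← hv, ← hc, ← hj₀, ← hk₀, hτ]
    have e : 2 * s.card + 2 = 2 * s'.card + 4 := by omega
    rw [e]
    exact (dF_cm J _ _ v).symm
  have hR : ∀ᶠ z in FB, (T3 z : ℝ) + J.length + 2 + ll v ≤ 2 * T3 z := by
    have h7 : ∀ᶠ z in FB, ((J.length + 2 + l1 v : ℕ) : ℝ) ≤ T3 z := by
      filter_upwards [T3_tendsto.eventually (eventually_ge_atTop (J.length + 2 + l1 v))] with z hz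
      exact_mod_cast hz
    filter_upwards [h7] with z hz
    push_cast at hz
    rw [ll_l1]
    linarith
  have hT1 : ∀ᶠ z in FB, 1 ≤ T3 z := T3_tendsto.eventually (eventually_ge_atTop 1)
  constructor
  · -- the bound
    obtain ⟨Ck, hCk, hk⟩ := ker_bd (by omega : 1 ≤ d) 1 J hJ (by omega) v j₀ k₀
    refine ⟨Ck * (C1 + C2 + C3 + C4), by positivity, ?_⟩
    filter_upwards [h3, h4, h5, h6, hR, hT1, FB_ge 1] with z h3 h4 h5 h6 hR hT1 hz1 ξ hξ
    have hξ' : Ad s' b z ξ := hξ.mono hsub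
    have hg := one_le_gw s b ξ
    rw [hval]
    refine (hk (τ z ξ) (Ω z ξ) (A z ξ) (σ z ξ) (T3 z) (2 * T3 z) ((C1 + C2 + C3) * gw s b ξ)
      (C4 * z.1 ^ 4) hT1 (by positivity) hR (h1 z ξ) (h2 z ξ) (h3 ξ hξ')
      (fun j k y _ => h4 ξ j k y) (fun k y _ => h5 ξ hξ' k y) (h6 ξ)).trans ?_
    have h7 := T3_end hC4 hz1
    have h8 : C4 / z.1 ≤ C4 := div_le_self hC4 hz1
    rw [mul_assoc]
    refine mul_le_mul_of_nonneg_left ?_ hCk.le
    nlinarith
  · -- the limit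
    intro ξ
    have hAd : ∀ᶠ z in FB, Ad s' b z ξ := by
      have h7 : ∀ᶠ z in FB, ((∑ i ∈ s' ∩ b, l1 (ξ i).2.1 : ℕ) : ℝ) ≤ T3 z := by
        filter_upwards [T3_tendsto.eventually (eventually_ge_atTop (∑ i ∈ s' ∩ b, l1 (ξ i).2.1))]
          with z hz
        exact_mod_cast hz
      filter_upwards [h7] with z hz i hi
      have h8 := Finset.single_le_sum (f := fun i => l1 (ξ i).2.1) (fun i _ => Nat.zero_le _) hi
      have h9 : (l1 (ξ i).2.1 : ℝ) ≤ ((∑ i ∈ s' ∩ b, l1 (ξ i).2.1 : ℕ) : ℝ) := by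
        exact_mod_cast h8
      have h10 : (0:ℝ) ≤ T3 z := Nat.cast_nonneg _
      linarith
    have hg := one_le_gw s b ξ
    simp only [hval]
    refine ker_lim (F := FB) (by omega : 1 ≤ d) 1 J hJ (by omega) v (fun z => τ z ξ)
      (fun z => Ω z ξ) (fun z => A z ξ) (fun z => σ z ξ) T3 (fun z => 2 * T3 z)
      (fun z => C4 * z.1 ^ 4) ((C1 + C2 + C3) * gw s b ξ) (by positivity) hR
      (fun z => h1 z ξ) (fun z => h2 z ξ) ?_ ?_ ?_ ?_ T3_tendsto (T3_bd hC4) ?_ ?_ j₀ k₀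
    · filter_upwards [h3, hAd] with z h3 hξ k y hy
      exact h3 ξ hξ k y hy
    · filter_upwards [h4] with z h4 j k y _
      exact h4 ξ j k y
    · filter_upwards [h5, hAd] with z h5 hξ k y _
      exact h5 ξ hξ k y
    · filter_upwards [h6] with z h6 j k y
      exact h6 ξ j k y
    · intro j k y
      obtain ⟨g, hg⟩ := lim_mul μ hd hB hT hW hH hTg (q := 2)
        ((Ex_om hT4 j k y c).mono_right (by norm_num : 2 + 1 ≤ 4)) (om_cont _ _ _ _)
        s' (mk b D ξ)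
      refine ⟨g, ?_⟩
      rw [hΩ]
      have e : 2 * (2 + s'.card) = 2 * s'.card + 4 := by ring
      rw [e] at hg
      exact hg
    · intro k y
      obtain ⟨g, hg⟩ := lim_mul μ hd hB hT hW hH hTg (q := 2)
        ((Ex_rh hT4 k y c).mono_right (by norm_num : 2 + 1 ≤ 4)) (rh_cont _ _ _)
        s' (mk b D ξ)
      obtain ⟨g', hg'⟩ := con_lim μ hd hB hT hW hH hTg hT4 c ξ (fun i hi => (ih i hi).2 ξ) k y
      refine ⟨g - g', ?_⟩
      rw [hσ]
      have e : 2 * (2 + s'.card) = 2 * s'.card + 4 := by ring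
      rw [e] at hg
      exact hg.sub hg'

/-- **Products of an odd number of legs, at most two of which are undifferentiated.** -/
theorem P1_all (hT4 : Tg4 L) {b : Finset ι} {D : ι → Lg d n}
    (hD : ∀ i, i ∉ b → 4 ≤ (D i).2.length) (s : Finset ι) (hs : (s ∩ b).card ≤ 2)
    (ho : Odd s.card) : P1 μ L b D s := by
  induction s using Finset.strongInduction with
  | H s ih =>
    by_cases hsb : s ⊆ b
    · have h1 : s ∩ b = s := Finset.inter_eq_left.2 hsb
      rw [h1] at hs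
      obtain ⟨m, hm⟩ := ho
      have h2 : s.card = 1 := by omega
      obtain ⟨i, rfl⟩ := Finset.card_eq_one.1 h2
      have hib : i ∈ b := hsb (Finset.mem_singleton_self i)
      have h3 : ∀ z ξ, od μ L b D {i} z ξ = 0 := by
        intro z ξ
        unfold od
        have e : (pv L {i} (mk b D ξ) : (Zp d → Fin d → G) → ℝ) = fun u =>
            fF L (ξ i).1.1 (ξ i).1.2 (ξ i).2.1 u (ξ i).2.2 := by
          funext u
          unfold pv mk
          rw [Finset.prod_singleton, if_pos hib]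
          rfl
        rw [e, ee_one μ z, mul_zero]
      refine ⟨⟨0, le_rfl, Eventually.of_forall fun z ξ _ => by rw [h3]; simp⟩, fun ξ => ⟨0, ?_⟩⟩
      simp only [h3]
      exact tendsto_const_nhds
    · obtain ⟨i₀, hi₀, hb⟩ := Finset.not_subset.1 hsb
      refine P1_step μ hd hB hT hW hH hTg hT4 hi₀ hb (hD i₀ hb) fun i hi => ?_
      have h1 : (s.erase i₀).erase i ⊂ s :=
        lt_of_le_of_lt (Finset.erase_subset _ _) (Finset.erase_ssubset hi₀)
      have hc1 := Finset.card_erase_add_one hi₀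
      have hc2 := Finset.card_erase_add_one hi
      refine ih _ h1 ?_ ?_
      · exact (Finset.card_le_card (Finset.inter_subset_inter h1.subset
          (Finset.Subset.refl b))).trans hs
      · obtain ⟨m, hm⟩ := ho
        exact ⟨m - 1, by omega⟩

end fam

end

end Pool.Agent.Y16.YM
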