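import Mathlib
import Pool.Agent.Y16.NL.F1b

/-!
# Polynomials of degree at most two times legs
-/

open MeasureTheory Matrix Filter
open scoped Matrix.Norms.Frobenius Topology
open Pool.Agent.H906R3.YM Pool.Agent.W793.YM Pool.Agent.TH940.YM
open Pool.Agent.W793.SCH (haf Near pk gK DD mx el TK S_B1 S_B2 S_TR S_W1 S_HAF green plaq_moment2)

namespace Pool.Agent.Y16.YM

set_option linter.unusedSectionVars false
set_option linter.unusedVariables false
set_option maxHeartbeats 400000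

noncomputable section

variable {G : Type} [Group G] [TopologicalSpace G] [IsTopologicalGroup G] [CompactSpace G]
  [SecondCountableTopology G] [MeasurableSpace G] [BorelSpace G] (μ : Measure G)
  [IsProbabilityMeasure μ] [μ.IsMulLeftInvariant] [μ.IsMulRightInvariant] [μ.IsInvInvariant]
  {N n : ℕ} {L : LD G N n} {d : ℕ} {ι : Type} [DecidableEq ι]

/-- the variable indices -/
def b2 (ι : Type) : Finset (Fin 2 ⊕ ι) := (Finset.univ : Finset (Fin 2)).disjSum ∅

/-- the fixed legs -/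
def D2 (D : ι → Lg d n) (ξ₀ : Lg d n) : Fin 2 ⊕ ι → Lg d n := Sum.elim (fun _ => ξ₀) D

lemma inl_b2 (i : Fin 2) : Sum.inl i ∈ b2 ι := by
  unfold b2
  rw [Finset.inl_mem_disjSum]
  exact Finset.mem_univ _

lemma inr_b2 (i : ι) : Sum.inr i ∉ b2 ι := by
  unfold b2
  rw [Finset.inr_mem_disjSum]
  exact Finset.notMem_empty _

lemma disj_b2 (t : Finset (Fin 2)) (s : Finset ι) : t.disjSum s ∩ b2 ι = t.disjSum ∅ := by
  ext x
  rw [Finset.mem_inter]
  rcases x with x | x
  · simp [inl_b2]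
  · simp [inr_b2]

lemma pv_D2 (t : Finset (Fin 2)) (s : Finset ι) (D : ι → Lg d n) (ξ₀ : Lg d n)
    (ξ : Fin 2 → Xl d n) (u : Zp d → Fin d → G) :
    pv L (t.disjSum s) (mk (b2 ι) (D2 D ξ₀) (Sum.elim ξ fun _ => ξ₀.1)) u =
      (∏ i ∈ t, xv L (ξ i) u) * pv L s D u := by
  unfold pv
  rw [Finset.prod_disjSum]
  congr 1
  refine Finset.prod_congr rfl fun i _ => ?_
  unfold mk
  rw [if_pos (inl_b2 i)]
  rfl

section fam

variable (hd : 3 ≤ d) (hB : S_B2) (hT : S_TR) (hW : S_W1) (hH : S_HAF) {CT : ℝ} (hTg : Tg L CT)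

include hd hB hT hW hH hTg

/-- at most two undifferentiated legs -/
lemma od_fin (hT4 : Tg4 L) {D : ι → Lg d n} (hD : ∀ i, 4 ≤ (D i).2.length) (ξ₀ : Lg d n)
    (s : Finset ι) (t : Finset (Fin 2)) (ho : Odd (t.card + s.card)) :
    P1 μ L (b2 ι) (D2 D ξ₀) (t.disjSum s) := by
  refine P1_all μ hd hB hT hW hH hTg hT4 (fun i hi => ?_) _ ?_ ?_
  · rcases i with i | i
    · exact absurd (inl_b2 i) hi
    · exact hD i
  · rw [disj_b2, Finset.card_disjSum, Finset.card_empty, add_zero]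
    exact (Finset.card_le_univ t).trans (by simp)
  · rw [Finset.card_disjSum]
    exact ho

lemma od_fin_lim (hT4 : Tg4 L) {D : ι → Lg d n} (hD : ∀ i, 4 ≤ (D i).2.length)
    (s : Finset ι) (t : Finset (Fin 2)) (ho : Odd (t.card + s.card)) (ξ₀ : Lg d n)
    (ξ : Fin 2 → Xl d n) : ∃ g, Tendsto (fun z => z.1 ^ (2 * (t.card + s.card) + 2) *
      ee μ L z (fun u => (∏ i ∈ t, xv L (ξ i) u) * pv L s D u)) FB (𝓝 g) := by
  obtain ⟨g, hg⟩ := (od_fin μ hd hB hT hW hH hTg hT4 hD ξ₀ s t ho).2 (Sum.elim ξ fun _ => ξ₀.1)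
  refine ⟨g, ?_⟩
  unfold od at hg
  have e : (pv L (t.disjSum s) (mk (b2 ι) (D2 D ξ₀) (Sum.elim ξ fun _ => ξ₀.1)) :
      (Zp d → Fin d → G) → ℝ) = fun u => (∏ i ∈ t, xv L (ξ i) u) * pv L s D u := by
    funext u; exact pv_D2 t s D ξ₀ ξ u
  rw [Finset.card_disjSum] at hg
  simp only [e] at hg
  exact hg

/-- the bound for two undifferentiated legs -/
lemma od_two_bd (hT4 : Tg4 L) {D : ι → Lg d n} (hD : ∀ i, 4 ≤ (D i).2.length)
    (s : Finset ι) (ho : Odd s.card) : ∃ C : ℝ, 0 ≤ C ∧ ∀ᶠ z in FB, ∀ ξ ξ' : Xl d n,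
      (l1 ξ.2.1 : ℝ) ≤ 2 * T3 z → (l1 ξ'.2.1 : ℝ) ≤ 2 * T3 z →
      |z.1 ^ (2 * s.card + 6) * ee μ L z (fun u => xv L ξ u * (xv L ξ' u * pv L s D u))| ≤
        C * (1 + l1 ξ.2.1 + l1 ξ'.2.1) := by
  obtain ⟨m, hm⟩ := ho
  by_cases hX : Nonempty (Xl d n)
  · obtain ⟨x₀⟩ := hX
    obtain ⟨C, hC, h⟩ := (od_fin μ hd hB hT hW hH hTg hT4 hD (x₀, []) s Finset.univ
      ⟨m + 1, by simp [hm]; ring⟩).1
    refine ⟨C, hC, ?_⟩
    filter_upwards [h] with z h ξ ξ' h1 h2
    have h3 := h (Sum.elim ![ξ, ξ'] fun _ => x₀) (fun i hi => by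
      rw [disj_b2] at hi
      rcases i with i | i
      · fin_cases i
        · exact h1
        · exact h2
      · rw [Finset.inr_mem_disjSum] at hi
        exact absurd hi (Finset.notMem_empty _))
    unfold od gw at h3
    have e : (pv L (Finset.univ.disjSum s) (mk (b2 ι) (D2 D (x₀, []))
        (Sum.elim ![ξ, ξ'] fun _ => x₀)) : (Zp d → Fin d → G) → ℝ) =
        fun u => xv L ξ u * (xv L ξ' u * pv L s D u) := by
      funext u
      have := pv_D2 (L := L) Finset.univ s D (x₀, []) ![ξ, ξ'] u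
      rw [Fin.prod_univ_two] at this
      refine this.trans ?_
      simp only [Matrix.cons_val_zero, Matrix.cons_val_one]
      ring
    rw [e, disj_b2, Finset.sum_disjSum, Finset.card_disjSum] at h3
    simp only [Finset.sum_empty, add_zero, Fin.sum_univ_two, Sum.elim_inl, Matrix.cons_val_zero,
      Matrix.cons_val_one, Finset.card_univ, Fintype.card_fin] at h3
    have e2 : 2 * (2 + s.card) + 2 = 2 * s.card + 6 := by ring
    rw [e2] at h3
    rw [add_assoc]
    exact h3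
  · exact ⟨0, le_rfl, Eventually.of_forall fun z ξ => absurd ⟨ξ⟩ hX⟩

/-- monomials -/
lemma od_mon (hT4 : Tg4 L) {D : ι → Lg d n} (hD : ∀ i, 4 ≤ (D i).2.length)
    (s : Finset ι) (ls : List (Xl d n)) (hl : ls.length ≤ 2) (ho : Odd (ls.length + s.card)) :
    ∃ g, Tendsto (fun z => z.1 ^ (2 * (ls.length + s.card) + 2) *
      ee μ L z (fun u => xm L ls u * pv L s D u)) FB (𝓝 g) := by
  rcases ls with _ | ⟨a, ls⟩
  · simp only [List.length_nil, zero_add, xm_nil, one_mul] at ho ⊢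
    obtain ⟨g, hg⟩ := (P1_all μ hd hB hT hW hH hTg hT4 (b := ∅) (D := D) (fun i _ => hD i) s
      (by simp) ho).2
      (fun i => (D i).1)
    refine ⟨g, ?_⟩
    have e : mk ∅ D (fun i => (D i).1) = D := by
      funext i
      unfold mk
      rw [if_neg (Finset.notMem_empty i)]
    unfold od at hg
    rw [e] at hg
    exact hg
  · rcases ls with _ | ⟨a', ls⟩
    · obtain ⟨g, hg⟩ := od_fin_lim μ hd hB hT hW hH hTg hT4 hD s {0} (by simpa using ho) (a, [])
        (fun _ => a)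
      refine ⟨g, ?_⟩
      simp only [Finset.prod_singleton, Finset.card_singleton] at hg
      simp only [List.length_cons, List.length_nil, zero_add, xm_cons, xm_nil, mul_one]
      exact hg
    · have hls : ls = [] := by
        simp only [List.length_cons] at hl
        exact List.length_eq_zero_iff.1 (by omega)
      subst hls
      obtain ⟨g, hg⟩ := od_fin_lim μ hd hB hT hW hH hTg hT4 hD s Finset.univ (by simpa using ho)
        (a, []) ![a, a']
      refine ⟨g, ?_⟩
      simp only [Fin.prod_univ_two, Finset.card_univ, Fintype.card_fin, Matrix.cons_val_zero,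
        Matrix.cons_val_one] at hg
      simp only [List.length_cons, List.length_nil, zero_add, xm_cons, xm_nil, mul_one,
        one_add_one_eq_two]
      exact hg

/-- polynomials -/
lemma od_pl (hT4 : Tg4 L) {D : ι → Lg d n} (hD : ∀ i, 4 ≤ (D i).2.length)
    (s : Finset ι) {q : ℕ} (hq : q ≤ 2) (ho : Odd (q + s.card)) {Φ : (Zp d → Fin d → G) → ℝ}
    (hΦ : Φ ∈ Pl L d q) :
    ∃ g, Tendsto (fun z => z.1 ^ (2 * (q + s.card) + 2) *
      ee μ L z (fun u => Φ u * pv L s D u)) FB (𝓝 g) := by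
  have h : Φ ∈ Pl L d q ∧ ∃ g, Tendsto (fun z => z.1 ^ (2 * (q + s.card) + 2) *
      ee μ L z (fun u => Φ u * pv L s D u)) FB (𝓝 g) := by
    induction hΦ using Submodule.span_induction with
    | mem x hx =>
      obtain ⟨ls, hl, rfl⟩ := hx
      refine ⟨xm_mem ls hl, ?_⟩
      subst hl
      exact od_mon μ hd hB hT hW hH hTg hT4 hD s ls hq ho
    | zero =>
      refine ⟨Submodule.zero_mem _, 0, ?_⟩
      have e : ∀ z : ℝ × ℕ, ee μ L z (fun u => (0 : (Zp d → Fin d → G) → ℝ) u * pv L s D u) = 0 := by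
        intro z
        have e1 : (fun u => (0 : (Zp d → Fin d → G) → ℝ) u * pv L s D u) = fun _ => 0 := by
          funext u; simp
        rw [e1]; exact ee_const μ 0
      simp only [e, mul_zero]
      exact tendsto_const_nhds
    | add y y' _ _ h1 h2 =>
      obtain ⟨m1, g1, h1⟩ := h1
      obtain ⟨m2, g2, h2⟩ := h2
      refine ⟨Submodule.add_mem _ m1 m2, g1 + g2, ?_⟩
      refine (h1.add h2).congr fun z => ?_
      have c1 : Continuous fun u => y u * pv L s D u := (Pl.cont m1).mul (pv_cont _ _)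
      have c2 : Continuous fun u => y' u * pv L s D u := (Pl.cont m2).mul (pv_cont _ _)
      have := ee_add μ (L := L) (x := z) c1 c2
      rw [← mul_add, ← this]
      congr 2
      funext u
      simp [add_mul]
    | smul c y _ h1 =>
      obtain ⟨m1, g1, h1⟩ := h1
      refine ⟨Submodule.smul_mem _ _ m1, c * g1, ?_⟩
      refine (h1.const_mul c).congr fun z => ?_
      have := ee_smul μ (L := L) (x := z) c (fun u => y u * pv L s D u)
      have e : (fun u => (c • y) u * pv L s D u) = fun u => c * (y u * pv L s D u) := by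
        funext u; simp; ring
      rw [e, this]; ring
  exact h.2

/-- functions with an expansion beginning with a term of degree one or two -/
theorem vert (hT4 : Tg4 L) {D : ι → Lg d n} (hD : ∀ i, 4 ≤ (D i).2.length)
    (s : Finset ι) {q : ℕ} (hq : q ≤ 2) (ho : Odd (q + s.card)) {F : (Zp d → Fin d → G) → ℝ}
    (hF : Ex L q (q + 2) F) (hc : Continuous F) :
    ∃ g, Tendsto (fun z => z.1 ^ (2 * (q + s.card) + 2) *
      ee μ L z (fun u => F u * pv L s D u)) FB (𝓝 g) := by
  obtain ⟨Ψ, h1, h2⟩ := hF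
  have hsum : ∀ u, ∑ i ∈ Finset.Ico q (q + 2), Ψ i u = Ψ q u + Ψ (q + 1) u := fun u => by
    rw [Finset.sum_Ico_succ_top (by omega), Nat.Ico_succ_singleton, Finset.sum_singleton]
  simp only [hsum] at h2
  obtain ⟨g1, a1⟩ := od_pl μ hd hB hT hW hH hTg hT4 hD s hq ho (h1 q)
  obtain ⟨g2, a2⟩ := Pl.lim μ (L := L) hd hB hT hW hH (Pl.mul (h1 (q + 1)) (pv_mem s D))
  have cq := Pl.cont (h1 q)
  have cq' := Pl.cont (h1 (q + 1))
  have cp := pv_cont (L := L) s D
  have cR : Continuous fun u => F u - (Ψ q u + Ψ (q + 1) u) := hc.sub (cq.add cq')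
  have a3 := Ob.lim μ (L := L) hd hB hT hW hH hTg (k := q + 1 + s.card)
    (m := q + 2 + s.card) (by omega) (h2.mul (Ob_pl (pv_mem s D))) (cR.mul cp)
  have e1 : 2 * (q + 1 + s.card) = 2 * (q + s.card) + 2 := by ring
  rw [e1] at a2 a3
  refine ⟨g1 + g2 + 0, ((a1.add a2).add a3).congr fun z => ?_⟩
  have c1 : Continuous fun u => Ψ q u * pv L s D u := cq.mul cp
  have c2 : Continuous fun u => Ψ (q + 1) u * pv L s D u := cq'.mul cp
  have c3 : Continuous fun u => (F u - (Ψ q u + Ψ (q + 1) u)) * pv L s D u := cR.mul cp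
  have c4 : Continuous fun u => Ψ q u * pv L s D u + Ψ (q + 1) u * pv L s D u := c1.add c2
  rw [← mul_add, ← mul_add, ← ee_add μ c1 c2, ← ee_add μ c4 c3]
  congr 2
  funext u
  ring

end fam

end

end Pool.Agent.Y16.YM
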