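import Mathlib
import Pool.Agent.Y16.NL.Od

/-!
# Products of an even number of field strengths: bounds
-/

open MeasureTheory Matrix Filter
open scoped Matrix.Norms.Frobenius Topology
open Pool.Agent.H906R3.YM Pool.Agent.W793.YM Pool.Agent.TH940.YM
open Pool.Agent.W793.SCH (haf Near pk gK DD mx el TK S_B1 S_B2 S_TR S_W1 S_HAF green plaq_moment2)

namespace Pool.Agent.Y16.YM

set_option linter.unusedSectionVars false
set_option linter.unusedVariables false
set_option maxHeartbeats 400000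

noncomputable section

variable {G : Type} [Group G] [TopologicalSpace G] [IsTopologicalGroup G] [CompactSpace G]
  [SecondCountableTopology G] [MeasurableSpace G] [BorelSpace G] (μ : Measure G)
  [IsProbabilityMeasure μ] [μ.IsMulLeftInvariant] [μ.IsMulRightInvariant] [μ.IsInvInvariant]
  {N n : ℕ} {L : LD G N n} {d : ℕ} {ι : Type} [DecidableEq ι]

lemma mk_empty (D : ι → Lg d n) (ξ : ι → Xl d n) : mk ∅ D ξ = D := by
  funext i
  unfold mk
  rw [if_neg (Finset.notMem_empty i)]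

lemma ee7 {z : ℝ × ℕ} {f1 f2 f3 f4 f5 f6 f7 : (Zp d → Fin d → G) → ℝ} (h1 : Continuous f1)
    (h2 : Continuous f2) (h3 : Continuous f3) (h4 : Continuous f4) (h5 : Continuous f5)
    (h6 : Continuous f6) (h7 : Continuous f7) :
    ee μ L z (fun u => f1 u - f2 u - f3 u - f4 u - f5 u + f6 u + f7 u) =
      ee μ L z f1 - ee μ L z f2 - ee μ L z f3 - ee μ L z f4 - ee μ L z f5 + ee μ L z f6 +
        ee μ L z f7 := by
  have d1 : Continuous fun u => f1 u - f2 u := h1.sub h2
  have d2 : Continuous fun u => f1 u - f2 u - f3 u := d1.sub h3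
  have d3 : Continuous fun u => f1 u - f2 u - f3 u - f4 u := d2.sub h4
  have d4 : Continuous fun u => f1 u - f2 u - f3 u - f4 u - f5 u := d3.sub h5
  have d5 : Continuous fun u => f1 u - f2 u - f3 u - f4 u - f5 u + f6 u := d4.add h6
  rw [ee_add μ d5 h7, ee_add μ d4 h6, ee_sub μ d3 h5, ee_sub μ d2 h4, ee_sub μ d1 h3,
    ee_sub μ h1 h2]

/-- bilinear expressions -/
lemma qd_lin {A B : (Zp d → Fin d → G) → Fin n → ℝ} {H : (Zp d → Fin d → G) → ℝ}
    (hA : ∀ a, Continuous fun u => A u a) (hB : ∀ a, Continuous fun u => B u a)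
    (hH : Continuous H) {z : ℝ × ℕ} {w K : ℝ}
    (h : ∀ a b, |w * ee μ L z (fun u => A u a * (B u b * H u))| ≤ K) (c : Fin n) :
    |w * ee μ L z (fun u => qd L (A u) (B u) c * H u)| ≤ n ^ 2 * K := by
  have hc : ∀ a b, Continuous fun u => hh L c a b * (A u a * (B u b * H u)) := fun a b =>
    continuous_const.mul ((hA a).mul ((hB b).mul hH))
  have e : (fun u => qd L (A u) (B u) c * H u) = fun u =>
      ∑ a, ∑ b, hh L c a b * (A u a * (B u b * H u)) := by
    funext u
    unfold qd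
    rw [Finset.sum_mul]
    refine Finset.sum_congr rfl fun a _ => ?_
    rw [Finset.sum_mul]
    exact Finset.sum_congr rfl fun b _ => by ring
  have e2 : w * ee μ L z (fun u => qd L (A u) (B u) c * H u) =
      ∑ a, ∑ b, hh L c a b * (w * ee μ L z (fun u => A u a * (B u b * H u))) := by
    rw [e, ee_sum μ _ fun a => continuous_finsetSum _ fun b _ => hc a b, Finset.mul_sum]
    refine Finset.sum_congr rfl fun a _ => ?_
    rw [ee_sum μ _ fun b => hc a b, Finset.mul_sum]
    refine Finset.sum_congr rfl fun b _ => ?_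
    rw [ee_smul]; ring
  rw [e2]
  calc _ ≤ ∑ a : Fin n, ∑ b : Fin n, K := by
        refine (Finset.abs_sum_le_sum_abs _ _).trans (Finset.sum_le_sum fun a _ => ?_)
        refine (Finset.abs_sum_le_sum_abs _ _).trans (Finset.sum_le_sum fun b _ => ?_)
        rw [abs_mul]
        have h1 := hh_le (L := L) c a b
        have h2 := h a b
        have h3 := abs_nonneg (w * ee μ L z (fun u => A u a * (B u b * H u)))
        calc _ ≤ 1 * K := mul_le_mul h1 h2 h3 zero_le_one
          _ = K := one_mul _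
    _ = n ^ 2 * K := by
        simp only [Finset.sum_const, Finset.card_univ, Fintype.card_fin, nsmul_eq_mul]
        ring

/-- the potential -/
lemma pm_lin {H : (Zp d → Fin d → G) → ℝ} (hH : Continuous H) {z : ℝ × ℕ} {w K : ℝ}
    (hK : 0 ≤ K) (i : Fin d) (x : Zp d) (a : Fin n)
    (h : ∀ q ∈ stp i x, |w * ee μ L z (fun u => xv L ((q.1, i), cut x q.1 q.2, a) u * H u)| ≤ K) :
    |w * ee μ L z (fun u => pm L i x u a * H u)| ≤ l1 x * K := by
  have hc : ∀ q : (_ : Fin d) × ℤ, Continuous fun u : Zp d → Fin d → G =>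
      (if 0 ≤ q.2 then (1:ℝ) else -1) * (xv L ((q.1, i), cut x q.1 q.2, a) u * H u) := fun q =>
    continuous_const.mul ((xv_cont _).mul hH)
  have e : (fun u : Zp d → Fin d → G => pm L i x u a * H u) = fun u => ∑ q ∈ stp i x,
      (if 0 ≤ q.2 then (1:ℝ) else -1) * (xv L ((q.1, i), cut x q.1 q.2, a) u * H u) := by
    funext u
    unfold pm
    rw [pot_eq, Finset.sum_mul]
    exact Finset.sum_congr rfl fun q _ => by
      have : cg L u a q.1 i (cut x q.1 q.2) = xv L ((q.1, i), cut x q.1 q.2, a) u := rfl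
      rw [this]; ring
  rw [e, ee_sum μ _ hc, Finset.mul_sum]
  calc _ ≤ ∑ _q ∈ stp i x, K := by
        refine (Finset.abs_sum_le_sum_abs _ _).trans (Finset.sum_le_sum fun q hq => ?_)
        rw [ee_smul]
        have h1 : |(if 0 ≤ q.2 then (1:ℝ) else -1)| = 1 := by split_ifs <;> norm_num
        have h2 : w * ((if 0 ≤ q.2 then (1:ℝ) else -1) * ee μ L z (fun u =>
            xv L ((q.1, i), cut x q.1 q.2, a) u * H u)) = (if 0 ≤ q.2 then (1:ℝ) else -1) *
            (w * ee μ L z (fun u => xv L ((q.1, i), cut x q.1 q.2, a) u * H u)) := by ring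
        rw [h2, abs_mul, h1, one_mul]
        exact h q hq
    _ = (stp i x).card * K := by rw [Finset.sum_const, nsmul_eq_mul]
    _ ≤ l1 x * K := mul_le_mul_of_nonneg_right (stp_card i x) hK

section fam

variable (hd : 3 ≤ d) (hB : S_B2) (hT : S_TR) (hW : S_W1) (hH : S_HAF) {CT : ℝ} (hTg : Tg L CT)

include hd hB hT hW hH hTg

/-- the vertices with two potentials -/
lemma ver_bd (hT4 : Tg4 L) {D : ι → Lg d n} (hD : ∀ i, 4 ≤ (D i).2.length)
    (s : Finset ι) (ho : Odd s.card) : ∃ C : ℝ, 0 ≤ C ∧ ∀ᶠ z in FB, ∀ r : ℕ, r ≤ 2 * T3 z →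
      (∀ (i i' : Fin d) (x x' : Zp d) (c : Fin n), l1 x ≤ r → l1 x' ≤ r →
        |z.1 ^ (2 * s.card + 6) * ee μ L z (fun u => qd L (pm L i x u) (pm L i' x' u) c *
          pv L s D u)| ≤ C * (r ^ 2 * (1 + 2 * r))) ∧
      (∀ (i k j : Fin d) (x x' : Zp d) (c : Fin n), l1 x ≤ r → l1 x' ≤ r →
        |z.1 ^ (2 * s.card + 6) * ee μ L z (fun u => qd L (pm L i x u) (fF L k j x' u) c *
          pv L s D u)| ≤ C * (r * (1 + 2 * r))) := by
  obtain ⟨C, hC, h⟩ := od_two_bd μ hd hB hT hW hH hTg hT4 hD s ho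
  refine ⟨n ^ 2 * C, by positivity, ?_⟩
  filter_upwards [h] with z h r hr
  have hrR : (r:ℝ) ≤ 2 * T3 z := by exact_mod_cast hr
  have cp := pv_cont (L := L) s D
  have key : ∀ ξ ξ' : Xl d n, l1 ξ.2.1 ≤ r → l1 ξ'.2.1 ≤ r →
      |z.1 ^ (2 * s.card + 6) * ee μ L z (fun u => xv L ξ u * (xv L ξ' u * pv L s D u))| ≤
        C * (1 + 2 * r) := by
    intro ξ ξ' h1 h2
    have h1' : (l1 ξ.2.1 : ℝ) ≤ r := by exact_mod_cast h1
    have h2' : (l1 ξ'.2.1 : ℝ) ≤ r := by exact_mod_cast h2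
    refine (h ξ ξ' (h1'.trans hrR) (h2'.trans hrR)).trans ?_
    exact mul_le_mul_of_nonneg_left (by linarith) hC
  have key2 : ∀ (i : Fin d) (x : Zp d) (a : Fin n) (ξ : Xl d n), l1 x ≤ r → l1 ξ.2.1 ≤ r →
      |z.1 ^ (2 * s.card + 6) * ee μ L z (fun u => pm L i x u a * (xv L ξ u * pv L s D u))| ≤
        r * (C * (1 + 2 * r)) := by
    intro i x a ξ hx hξ
    have h1 := pm_lin μ (L := L) (z := z) (w := z.1 ^ (2 * s.card + 6))
      (H := fun u => xv L ξ u * pv L s D u)
      ((xv_cont ξ).mul cp) (K := C * (1 + 2 * r)) (by positivity) i x a fun q hq => by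
        refine key _ _ ?_ hξ
        exact (stp_l1 hq).2.trans hx
    refine h1.trans (mul_le_mul_of_nonneg_right (by exact_mod_cast hx) (by positivity))
  constructor
  · intro i i' x x' c hx hx'
    have h1 := qd_lin μ (L := L) (z := z) (w := z.1 ^ (2 * s.card + 6))
      (A := fun u => pm L i x u) (B := fun u => pm L i' x' u) (H := pv L s D)
      (K := r * (r * (C * (1 + 2 * r)))) (fun a => pm_cont i x a) (fun a => pm_cont i' x' a) cp
      (fun a b => by
        refine (pm_lin μ (L := L) (z := z) (w := z.1 ^ (2 * s.card + 6))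
          (H := fun u => pm L i' x' u b * pv L s D u) ((pm_cont i' x' b).mul cp)
          (K := r * (C * (1 + 2 * r))) (by positivity) i x a fun q hq => ?_).trans
            (mul_le_mul_of_nonneg_right (by exact_mod_cast hx) (by positivity))
        have h2 := key2 i' x' b ((q.1, i), cut x q.1 q.2, a) hx' ((stp_l1 hq).2.trans hx)
        have e : (fun u => xv L ((q.1, i), cut x q.1 q.2, a) u * (pm L i' x' u b * pv L s D u)) =
            fun u => pm L i' x' u b * (xv L ((q.1, i), cut x q.1 q.2, a) u * pv L s D u) := by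
          funext u; ring
        rw [e]; exact h2) c
    refine h1.trans (le_of_eq ?_)
    ring
  · intro i k j x x' c hx hx'
    have h1 := qd_lin μ (L := L) (z := z) (w := z.1 ^ (2 * s.card + 6))
      (A := fun u => pm L i x u) (B := fun u => fF L k j x' u) (H := pv L s D)
      (K := r * (C * (1 + 2 * r))) (fun a => pm_cont i x a) (fun a => fF_cont k j x' a) cp
      (fun a b => key2 i x a ((k, j), x', b) hx hx') c
    refine h1.trans (le_of_eq ?_)
    ring

lemma Om_bd (hT4 : Tg4 L) {D : ι → Lg d n} (hD : ∀ i, 4 ≤ (D i).2.length)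
    (s : Finset ι) (ho : Odd s.card) : ∃ C : ℝ, 0 ≤ C ∧ ∀ᶠ z in FB,
      ∀ (j k : Fin d) (y : Zp d) (c : Fin n), ll y + 1 ≤ 2 * T3 z →
        |z.1 ^ (2 * s.card + 6) * ee μ L z (fun u => om L j k y u c * pv L s D u)| ≤
          C * (ll y + 1) ^ (2 + 1) := by
  obtain ⟨C1, hC1, h1⟩ := ver_bd μ hd hB hT hW hH hTg hT4 hD s ho
  obtain ⟨C2, hC2, h2⟩ := EB_mul μ hd hB hT hW hH hTg
    (F := fun _ (a : Fin d × Fin d × Zp d × Fin n) u =>
      om L a.1 a.2.1 a.2.2.1 u a.2.2.2 - om2 L a.1 a.2.1 a.2.2.1 u a.2.2.2)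
    (fun a => mul_pos (mul_pos (gl_pos _) (gl_pos _)) (gl_pos _))
    (Gr_om3 μ hd hB hT hW hH hTg) s ∅ D
  refine ⟨18 * C1 + C2, by positivity, ?_⟩
  filter_upwards [h1, h2] with z h1 h2 j k y c hy
  have a2 := h2 (fun i => (D i).1, j, k, y, c) trivial
  simp only [mk_empty] at a2
  rw [ll_l1] at hy ⊢
  obtain ⟨r, hr⟩ : ∃ r, r = l1 y + 1 := ⟨_, rfl⟩
  have hrR : (l1 y : ℝ) + 1 = r := by rw [hr]; push_cast; ring
  have hgl : gl y = r := by unfold gl; rw [← hrR]; ring
  rw [hrR] at hy ⊢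
  rw [hgl] at a2
  have hrT : r ≤ 2 * T3 z := by exact_mod_cast hy
  obtain ⟨k1, -⟩ := h1 r hrT
  have p0 : l1 y ≤ r := by omega
  have p1 : ∀ i, l1 (y + ez i) ≤ r := fun i => by have := l1_succ_le y i; omega
  have m1 := k1 j k y (y + ez j) c p0 (p1 _)
  have m2 := k1 j j y (y + ez k) c p0 (p1 _)
  have m3 := k1 j k y y c p0 p0
  have m4 := k1 k j (y + ez j) (y + ez k) c (p1 _) (p1 _)
  have m5 := k1 k k (y + ez j) y c (p1 _) p0
  have m6 := k1 j k (y + ez k) y c (p1 _) p0
  have cp := pv_cont (L := L) s D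
  have cq : ∀ (i i' : Fin d) (x x' : Zp d), Continuous fun u : Zp d → Fin d → G =>
      qd L (pm L i x u) (pm L i' x' u) c * pv L s D u := fun i i' x x' =>
    (qd_cont (fun a => pm_cont i x a) (fun a => pm_cont i' x' a) c).mul cp
  have c3 : Continuous fun u : Zp d → Fin d → G =>
      (om L j k y u c - om2 L j k y u c) * pv L s D u := by
    have e1 : (fun u : Zp d → Fin d → G => om2 L j k y u c) = fun u =>
      qd L (pm L j y u) (pm L k (y + ez j) u) c -
      qd L (pm L j y u) (pm L j (y + ez k) u) c - qd L (pm L j y u) (pm L k y u) c -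
      qd L (pm L k (y + ez j) u) (pm L j (y + ez k) u) c -
      qd L (pm L k (y + ez j) u) (pm L k y u) c +
        qd L (pm L j (y + ez k) u) (pm L k y u) c := rfl
    have hq : ∀ (i i' : Fin d) (x x' : Zp d), Continuous fun u : Zp d → Fin d → G =>
      qd L (pm L i x u) (pm L i' x' u) c := fun i i' x x' =>
      qd_cont (fun a => pm_cont i x a) (fun a => pm_cont i' x' a) c
    refine ((om_cont j k y c).sub ?_).mul cp
    rw [e1]
    exact (((((hq _ _ _ _).sub (hq _ _ _ _)).sub (hq _ _ _ _)).sub (hq _ _ _ _)).sub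
      (hq _ _ _ _)).add (hq _ _ _ _)
  have e : z.1 ^ (2 * s.card + 6) * ee μ L z (fun u => om L j k y u c * pv L s D u) =
      z.1 ^ (2 * s.card + 6) * ee μ L z (fun u => qd L (pm L j y u) (pm L k (y + ez j) u) c *
        pv L s D u) -
      z.1 ^ (2 * s.card + 6) * ee μ L z (fun u => qd L (pm L j y u) (pm L j (y + ez k) u) c *
        pv L s D u) -
      z.1 ^ (2 * s.card + 6) * ee μ L z (fun u => qd L (pm L j y u) (pm L k y u) c *
        pv L s D u) -
      z.1 ^ (2 * s.card + 6) * ee μ L z (fun u =>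
        qd L (pm L k (y + ez j) u) (pm L j (y + ez k) u) c * pv L s D u) -
      z.1 ^ (2 * s.card + 6) * ee μ L z (fun u => qd L (pm L k (y + ez j) u) (pm L k y u) c *
        pv L s D u) +
      z.1 ^ (2 * s.card + 6) * ee μ L z (fun u => qd L (pm L j (y + ez k) u) (pm L k y u) c *
        pv L s D u) +
      z.1 ^ (2 * s.card + 6) * ee μ L z (fun u => (om L j k y u c - om2 L j k y u c) *
        pv L s D u) := by
    rw [← mul_sub, ← mul_sub, ← mul_sub, ← mul_sub, ← mul_add, ← mul_add]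
    congr 1
    have e2 : (fun u : Zp d → Fin d → G => om L j k y u c * pv L s D u) = fun u =>
        qd L (pm L j y u) (pm L k (y + ez j) u) c * pv L s D u -
        qd L (pm L j y u) (pm L j (y + ez k) u) c * pv L s D u -
        qd L (pm L j y u) (pm L k y u) c * pv L s D u -
        qd L (pm L k (y + ez j) u) (pm L j (y + ez k) u) c * pv L s D u -
        qd L (pm L k (y + ez j) u) (pm L k y u) c * pv L s D u +
        qd L (pm L j (y + ez k) u) (pm L k y u) c * pv L s D u +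
        (om L j k y u c - om2 L j k y u c) * pv L s D u := by
      funext u
      have : om2 L j k y u c = qd L (pm L j y u) (pm L k (y + ez j) u) c -
        qd L (pm L j y u) (pm L j (y + ez k) u) c - qd L (pm L j y u) (pm L k y u) c -
        qd L (pm L k (y + ez j) u) (pm L j (y + ez k) u) c -
        qd L (pm L k (y + ez j) u) (pm L k y u) c +
          qd L (pm L j (y + ez k) u) (pm L k y u) c := rfl
      rw [this]; ring
    rw [e2]
    exact ee7 μ (cq _ _ _ _) (cq _ _ _ _) (cq _ _ _ _) (cq _ _ _ _) (cq _ _ _ _) (cq _ _ _ _) c3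
  rw [e]
  have hr1 : (1:ℝ) ≤ r := by rw [← hrR]; have : (0:ℝ) ≤ l1 y := Nat.cast_nonneg _; linarith
  have hM : C1 * ((r:ℝ) ^ 2 * (1 + 2 * r)) ≤ 3 * C1 * r ^ 3 := by
    have : (r:ℝ) ^ 2 * (1 + 2 * r) ≤ 3 * r ^ 3 := by nlinarith [sq_nonneg (r:ℝ)]
    nlinarith
  have e3 : C2 * ((r:ℝ) * r * r) = C2 * r ^ 3 := by ring
  rw [e3] at a2
  have e4 : (r:ℝ) ^ (2 + 1) = (r:ℝ) ^ 3 := rfl
  rw [e4]
  rw [abs_le] at m1 m2 m3 m4 m5 m6 a2 ⊢
  constructor <;> linarith

lemma Rh_bd (hT4 : Tg4 L) {D : ι → Lg d n} (hD : ∀ i, 4 ≤ (D i).2.length)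
    (s : Finset ι) (ho : Odd s.card) : ∃ C : ℝ, 0 ≤ C ∧ ∀ᶠ z in FB,
      ∀ (k : Fin d) (y : Zp d) (c : Fin n), ll y + 1 ≤ 2 * T3 z →
        |z.1 ^ (2 * s.card + 6) * ee μ L z (fun u => rh L k y u c * pv L s D u)| ≤
          C * (ll y + 1) ^ 2 := by
  obtain ⟨C1, hC1, h1⟩ := ver_bd μ hd hB hT hW hH hTg hT4 hD s ho
  obtain ⟨C2, hC2, h2⟩ := EB_mul μ hd hB hT hW hH hTg
    (F := fun _ (a : Fin d × Zp d × Fin n) u => rh L a.1 a.2.1 u a.2.2 - rh2 L a.1 a.2.1 u a.2.2)
    (fun a => mul_pos (gl_pos _) (gl_pos _))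
    (Gr_rh3 μ hd hB hT hW hH hTg) s ∅ D
  refine ⟨6 * d * C1 + C2, by positivity, ?_⟩
  filter_upwards [h1, h2] with z h1 h2 k y c hy
  have a2 := h2 (fun i => (D i).1, k, y, c) trivial
  simp only [mk_empty] at a2
  rw [ll_l1] at hy ⊢
  obtain ⟨r, hr⟩ : ∃ r, r = l1 y + 1 := ⟨_, rfl⟩
  have hrR : (l1 y : ℝ) + 1 = r := by rw [hr]; push_cast; ring
  have hgl : gl y = r := by unfold gl; rw [← hrR]; ring
  rw [hrR] at hy ⊢
  rw [hgl] at a2
  have hrT : r ≤ 2 * T3 z := by exact_mod_cast hy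
  obtain ⟨-, k1⟩ := h1 r hrT
  have p1 : ∀ i, l1 (y - ez i) ≤ r := fun i => by have := l1_pred_le y i; omega
  have cp := pv_cont (L := L) s D
  have cq : ∀ j : Fin d, Continuous fun u : Zp d → Fin d → G =>
      qd L (pm L j (y - ez j) u) (fF L k j (y - ez j) u) c * pv L s D u := fun j =>
    (qd_cont (fun a => pm_cont _ _ a) (fun a => fF_cont _ _ _ a) c).mul cp
  have cq2 : ∀ j : Fin d, Continuous fun u : Zp d → Fin d → G =>
      2 * (qd L (pm L j (y - ez j) u) (fF L k j (y - ez j) u) c * pv L s D u) := fun j =>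
    continuous_const.mul (cq j)
  have c3 : Continuous fun u : Zp d → Fin d → G =>
      (rh L k y u c - rh2 L k y u c) * pv L s D u := by
    refine ((rh_cont k y c).sub ?_).mul cp
    unfold rh2
    exact continuous_finsetSum _ fun j _ => continuous_const.mul
      (qd_cont (fun a => pm_cont _ _ a) (fun a => fF_cont _ _ _ a) c)
  have cs : Continuous fun u : Zp d → Fin d → G => ∑ j,
      2 * (qd L (pm L j (y - ez j) u) (fF L k j (y - ez j) u) c * pv L s D u) :=
    continuous_finsetSum _ fun j _ => cq2 j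
  have e : z.1 ^ (2 * s.card + 6) * ee μ L z (fun u => rh L k y u c * pv L s D u) =
      (∑ j, 2 * (z.1 ^ (2 * s.card + 6) * ee μ L z (fun u =>
        qd L (pm L j (y - ez j) u) (fF L k j (y - ez j) u) c * pv L s D u))) +
      z.1 ^ (2 * s.card + 6) * ee μ L z (fun u => (rh L k y u c - rh2 L k y u c) *
        pv L s D u) := by
    have e2 : (fun u : Zp d → Fin d → G => rh L k y u c * pv L s D u) = fun u =>
        (∑ j, 2 * (qd L (pm L j (y - ez j) u) (fF L k j (y - ez j) u) c * pv L s D u)) +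
        (rh L k y u c - rh2 L k y u c) * pv L s D u := by
      funext u
      have : ∑ j, 2 * (qd L (pm L j (y - ez j) u) (fF L k j (y - ez j) u) c * pv L s D u) =
          rh2 L k y u c * pv L s D u := by
        unfold rh2
        rw [Finset.sum_mul]
        exact Finset.sum_congr rfl fun j _ => by ring
      rw [this]; ring
    rw [e2, ee_add μ cs c3, mul_add, ee_sum μ _ cq2, Finset.mul_sum]
    congr 1
    refine Finset.sum_congr rfl fun j _ => ?_
    rw [ee_smul]; ring
  rw [e]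
  have hr1 : (1:ℝ) ≤ r := by rw [← hrR]; have : (0:ℝ) ≤ l1 y := Nat.cast_nonneg _; linarith
  have hM : C1 * ((r:ℝ) * (1 + 2 * r)) ≤ 3 * C1 * r ^ 2 := by
    have : (r:ℝ) * (1 + 2 * r) ≤ 3 * r ^ 2 := by nlinarith
    nlinarith
  have hs : |∑ j : Fin d, 2 * (z.1 ^ (2 * s.card + 6) * ee μ L z (fun u =>
        qd L (pm L j (y - ez j) u) (fF L k j (y - ez j) u) c * pv L s D u))| ≤
      d * (6 * C1 * r ^ 2) := by
    calc _ ≤ ∑ _j : Fin d, 6 * C1 * (r:ℝ) ^ 2 := by
          refine (Finset.abs_sum_le_sum_abs _ _).trans (Finset.sum_le_sum fun j _ => ?_)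
          rw [abs_mul, abs_two]
          have := (k1 j k j (y - ez j) (y - ez j) c (p1 _) (p1 _)).trans hM
          linarith
      _ = _ := by rw [Finset.sum_const, Finset.card_univ, Fintype.card_fin, nsmul_eq_mul]
  refine (abs_add_le _ _).trans ((add_le_add hs a2).trans (le_of_eq ?_))
  ring

end fam

end

end Pool.Agent.Y16.YM
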