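import Mathlib
import Pool.Agent.Y16.NL.F2

/-!
# Products of an even number of field strengths: the induction
-/

open MeasureTheory Matrix Filter
open scoped Matrix.Norms.Frobenius Topology
open Pool.Agent.H906R3.YM Pool.Agent.W793.YM Pool.Agent.TH940.YM
open Pool.Agent.W793.SCH (haf Near pk gK DD mx el TK S_B1 S_B2 S_TR S_W1 S_HAF green plaq_moment2)

namespace Pool.Agent.Y16.YM

set_option linter.unusedSectionVars false
set_option linter.unusedVariables false
set_option maxHeartbeats 400000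

noncomputable section

variable {G : Type} [Group G] [TopologicalSpace G] [IsTopologicalGroup G] [CompactSpace G]
  [SecondCountableTopology G] [MeasurableSpace G] [BorelSpace G] (μ : Measure G)
  [IsProbabilityMeasure μ] [μ.IsMulLeftInvariant] [μ.IsMulRightInvariant] [μ.IsInvInvariant]
  {N n : ℕ} {L : LD G N n} {d : ℕ} {ι : Type} [DecidableEq ι]

/-- the scaled expectation of a product of legs -/
def ev (L : LD G N n) (D : ι → Lg d n) (s : Finset ι) (z : ℝ × ℕ) : ℝ :=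
  z.1 ^ (2 * s.card) * ee μ L z (pv L s D)

/-- the expansion to second order -/
def P2 (L : LD G N n) (D : ι → Lg d n) (s : Finset ι) : Prop :=
  ∃ g a : ℝ, Tendsto (ev μ L D s) FB (𝓝 g) ∧
    Tendsto (fun z => z.1 ^ 4 * (ev μ L D s z - g)) FB (𝓝 a)

lemma far_ball {R : ℕ} {y : Zp d} (h : y ∉ Fintype.piFinset fun _ : Fin d => Finset.Icc (-(R:ℤ)) R) :
    R < l1 y := by
  by_contra h1
  refine h (Fintype.mem_piFinset.2 fun i => ?_)
  have h2 := l1_coord y i
  rw [Finset.mem_Icc]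
  rw [abs_le] at h2
  omega

/-- functions which vanish far away and converge pointwise are bounded -/
lemma near_bd {f : ℝ × ℕ → Fin d → Zp d → ℝ} {R : ℕ}
    (h1 : ∀ z k y, R < l1 y → f z k y = 0)
    (h2 : ∀ k y, ∃ g, Tendsto (fun z => f z k y) FB (𝓝 g)) :
    ∃ M : ℝ, 0 ≤ M ∧ ∀ᶠ z in FB, ∀ k y, |f z k y| ≤ M := by
  choose g hg using h2
  obtain ⟨B, hB⟩ : ∃ B : Finset (Fin d × Zp d), B = Finset.univ ×ˢ
    (Fintype.piFinset fun _ : Fin d => Finset.Icc (-(R:ℤ)) R) := ⟨_, rfl⟩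
  refine ⟨∑ q ∈ B, (|g q.1 q.2| + 1), Finset.sum_nonneg fun _ _ => by positivity, ?_⟩
  have h3 : ∀ᶠ z in FB, ∀ q ∈ B, |f z q.1 q.2| ≤ |g q.1 q.2| + 1 := by
    rw [Filter.eventually_all_finset]
    intro q _
    have h4 := ((hg q.1 q.2).abs).eventually (eventually_le_nhds (show |g q.1 q.2| <
      |g q.1 q.2| + 1 by linarith))
    filter_upwards [h4] with z hz using hz
  filter_upwards [h3] with z hz k y
  by_cases hy : (k, y) ∈ B
  · exact (hz _ hy).trans (Finset.single_le_sum (f := fun q : Fin d × Zp d => |g q.1 q.2| + 1)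
      (fun _ _ => by positivity) hy)
  · have h5 : R < l1 y := far_ball fun h => hy (by
      rw [hB]; exact Finset.mem_product.2 ⟨Finset.mem_univ _, h⟩)
    rw [h1 z k y h5, abs_zero]
    exact Finset.sum_nonneg fun _ _ => by positivity

section fam

variable (hd : 3 ≤ d) (hB : S_B2) (hT : S_TR) (hW : S_W1) (hH : S_HAF) {CT : ℝ} (hTg : Tg L CT)

include hd hB hT hW hH hTg

/-- the induction step -/
lemma P2_step (hT4 : Tg4 L) {D : ι → Lg d n} (hD : ∀ i, 4 ≤ (D i).2.length) {s : Finset ι}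
    (he : Even s.card) {i₀ : ι} (hi₀ : i₀ ∈ s)
    (ih : ∀ i ∈ s.erase i₀, P2 μ L D ((s.erase i₀).erase i)) : P2 μ L D s := by
  obtain ⟨s', hs'⟩ : ∃ s', s' = s.erase i₀ := ⟨_, rfl⟩
  have hcard : s'.card + 1 = s.card := by rw [hs']; exact Finset.card_erase_add_one hi₀
  have ho : Odd s'.card := by
    obtain ⟨m, hm⟩ := he
    exact ⟨m - 1, by omega⟩
  have hcard' : ∀ i ∈ s', (s'.erase i).card + 1 = s'.card := fun i hi =>
    Finset.card_erase_add_one hi
  rw [← hs'] at ih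
  obtain ⟨J, hJe⟩ : ∃ J, J = (D i₀).2 := ⟨_, rfl⟩
  obtain ⟨v, hv⟩ : ∃ v, v = (D i₀).1.2.1 := ⟨_, rfl⟩
  obtain ⟨c, hc⟩ : ∃ c, c = (D i₀).1.2.2 := ⟨_, rfl⟩
  obtain ⟨j₀, hj₀⟩ : ∃ j, j = (D i₀).1.1.1 := ⟨_, rfl⟩
  obtain ⟨k₀, hk₀⟩ : ∃ k, k = (D i₀).1.1.2 := ⟨_, rfl⟩
  have hJ : 4 ≤ J.length := by rw [hJe]; exact hD i₀
  -- the limits of the products with two legs less
  have ih' : ∀ i, ∃ g a : ℝ, i ∈ s' → Tendsto (ev μ L D (s'.erase i)) FB (𝓝 g) ∧
      Tendsto (fun z => z.1 ^ 4 * (ev μ L D (s'.erase i) z - g)) FB (𝓝 a) := by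
    intro i
    by_cases hi : i ∈ s'
    · obtain ⟨g, a, h⟩ := ih i hi
      exact ⟨g, a, fun _ => h⟩
    · exact ⟨0, 0, fun h => absurd h hi⟩
  choose gi ai hgi using ih'
  -- the limits of the potentials
  have hpot : ∀ (k : Fin d) (y : Zp d), ∃ g, Tendsto (fun z => z.1 ^ (2 * s'.card + 2) *
      ee μ L z (fun u => am L k y u c * pv L s' D u)) FB (𝓝 g) := by
    intro k y
    obtain ⟨g, hg⟩ := lim_mul μ hd hB hT hW hH hTg (q := 1)
      ((Ex_am hT4 k y c).mono_right (by norm_num : 1 + 1 ≤ 4)) (am_cont _ _ _) s' D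
    have e : 2 * (1 + s'.card) = 2 * s'.card + 2 := by ring
    rw [e] at hg
    exact ⟨g, hg⟩
  choose a' ha' using hpot
  obtain ⟨g', hg'⟩ : ∃ g' : Fin d → Fin d → Fz' d, g' = fun j k y =>
    nb j (a' k) y - nb k (a' j) y := ⟨_, rfl⟩
  -- the first order form
  obtain ⟨τ₀, hτ₀⟩ : ∃ τ : (ℝ × ℕ) → Fin d → Fin d → Fz' d, τ = fun z j k y =>
    z.1 ^ (2 * s'.card + 2) * te μ L z (pv L s' D) c j k y := ⟨_, rfl⟩
  have homE : ∀ (j k : Fin d) (y : Zp d), Tendsto (fun z => z.1 ^ (2 * s'.card + 2) *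
      ee μ L z (fun u => om L j k y u c * pv L s' D u)) FB (𝓝 0) := by
    intro j k y
    have h1 := Ob.lim μ (L := L) hd hB hT hW hH hTg (k := 1 + s'.card) (m := 2 + s'.card)
      (by omega) (((Ex_om hT4 j k y c).ob (by norm_num)).mul (Ob_pl (pv_mem s' D)))
      ((om_cont _ _ _ _).mul (pv_cont _ _))
    have e : 2 * (1 + s'.card) = 2 * s'.card + 2 := by ring
    rw [e] at h1
    exact h1
  have hrhE : ∀ (k : Fin d) (y : Zp d), Tendsto (fun z => z.1 ^ (2 * s'.card + 2) *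
      ee μ L z (fun u => rh L k y u c * pv L s' D u)) FB (𝓝 0) := by
    intro k y
    have h1 := Ob.lim μ (L := L) hd hB hT hW hH hTg (k := 1 + s'.card) (m := 2 + s'.card)
      (by omega) (((Ex_rh hT4 k y c).ob (by norm_num)).mul (Ob_pl (pv_mem s' D)))
      ((rh_cont _ _ _).mul (pv_cont _ _))
    have e : 2 * (1 + s'.card) = 2 * s'.card + 2 := by ring
    rw [e] at h1
    exact h1
  have hex0 : ∀ z j k y, τ₀ z j k y = z.1 ^ (2 * s'.card + 2) *
      ee μ L z (fun u => om L j k y u c * pv L s' D u) +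
      (nb j (fun y => z.1 ^ (2 * s'.card + 2) *
        ee μ L z (fun u => am L k y u c * pv L s' D u)) y -
      nb k (fun y => z.1 ^ (2 * s'.card + 2) *
        ee μ L z (fun u => am L j y u c * pv L s' D u)) y) := by
    intro z j k y
    rw [hτ₀]
    simp only
    rw [te_exact μ (pv_cont s' D)]
    unfold nb
    ring
  have hnbl : ∀ (i k : Fin d) (y : Zp d), Tendsto (fun z => nb i (fun y =>
      z.1 ^ (2 * s'.card + 2) * ee μ L z (fun u => am L k y u c * pv L s' D u)) y) FB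
      (𝓝 (nb i (a' k) y)) := by
    intro i k y
    unfold nb
    exact (ha' k _).sub (ha' k _)
  have hlim0 : ∀ j k y, Tendsto (fun z => τ₀ z j k y) FB (𝓝 (g' j k y)) := by
    intro j k y
    simp only [hex0]
    have h1 := (homE j k y).add ((hnbl j k y).sub (hnbl k j y))
    rw [zero_add] at h1
    rw [hg']
    exact h1
  -- the contact terms
  have hcon : ∀ᶠ z in FB, ∀ (k : Fin d) (y : Zp d), z.1 ^ (2 * s'.card + 6) *
      (ee μ L z (pd L c y k s' D) / z.1 ^ 4) - z.1 ^ 4 * ∑ i ∈ s', lc c y k (D i) * gi i =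
      ∑ i ∈ s', (lc c y k (D i) * (z.1 ^ 4 * (ev μ L D (s'.erase i) z - gi i)) +
        z.1 ^ (2 * (1 + (s'.erase i).card) + 2) *
          ee μ L z (fun u => le' L c y k (D i) u * pv L (s'.erase i) D u)) := by
    filter_upwards [FB_ge 1] with z hz k y
    have h1 := pd_ee μ (L := L) (z := z) (by linarith) c y k s' D
    have h2 : z.1 ^ (2 * s'.card + 6) * (ee μ L z (pd L c y k s' D) / z.1 ^ 4) =
        z.1 ^ 2 * (z.1 ^ (2 * s'.card + 4) * (ee μ L z (pd L c y k s' D) / z.1 ^ 4)) := by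
      rw [← mul_assoc, ← pow_add]
      congr 2
      ring
    rw [h2, h1, Finset.mul_sum, Finset.mul_sum, ← Finset.sum_sub_distrib]
    refine Finset.sum_congr rfl fun i hi => ?_
    unfold ev
    rw [pow_add z.1 (2 * (s'.erase i).card) 2, pow_add z.1 (2 * (1 + (s'.erase i).card)) 2]
    ring
  obtain ⟨R, hR⟩ : ∃ R : ℕ, R = ∑ i ∈ s', (l1 (D i).1.2.1 + (D i).2.length + 1) := ⟨_, rfl⟩
  have hRi : ∀ i ∈ s', l1 (D i).1.2.1 + (D i).2.length + 1 ≤ R := fun i hi => by
    rw [hR]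
    exact Finset.single_le_sum (f := fun i => l1 (D i).1.2.1 + (D i).2.length + 1)
      (fun i _ => Nat.zero_le _) hi
  obtain ⟨f, hf⟩ : ∃ f : (ℝ × ℕ) → Fin d → Zp d → ℝ, f = fun z k y =>
      ∑ i ∈ s', (lc c y k (D i) * (z.1 ^ 4 * (ev μ L D (s'.erase i) z - gi i)) +
        z.1 ^ (2 * (1 + (s'.erase i).card) + 2) *
          ee μ L z (fun u => le' L c y k (D i) u * pv L (s'.erase i) D u)) := ⟨_, rfl⟩
  have hfl : ∀ k y, ∃ g, Tendsto (fun z => f z k y) FB (𝓝 g) := by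
    intro k y
    have h1 : ∀ i, ∃ g, i ∈ s' → Tendsto (fun z => lc c y k (D i) *
        (z.1 ^ 4 * (ev μ L D (s'.erase i) z - gi i)) +
        z.1 ^ (2 * (1 + (s'.erase i).card) + 2) *
          ee μ L z (fun u => le' L c y k (D i) u * pv L (s'.erase i) D u)) FB (𝓝 g) := by
      intro i
      by_cases hi : i ∈ s'
      · obtain ⟨g, hg⟩ := vert μ hd hB hT hW hH hTg hT4 hD (s'.erase i) (q := 1) (by norm_num)
          (by
            have h3 := hcard' i hi
            rw [add_comm, h3]; exact ho)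
          ((le_Ex hT4 c y k (D i)).mono_right (by norm_num : 1 + 2 ≤ 4)) (le_cont _ _ _ _)
        exact ⟨_, fun _ => ((hgi i hi).2.const_mul _).add hg⟩
      · exact ⟨0, fun h => absurd h hi⟩
    choose g hg using h1
    refine ⟨∑ i ∈ s', g i, ?_⟩
    rw [hf]
    exact tendsto_finsetSum s' fun i hi => hg i hi
  have hff : ∀ z k y, R < l1 y → f z k y = 0 := by
    intro z k y hy
    rw [hf]
    refine Finset.sum_eq_zero fun i hi => ?_
    have h1 := hRi i hi
    rw [lc_far (by omega)]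
    have e : (fun u : Zp d → Fin d → G => le' L c y k (D i) u * pv L (s'.erase i) D u) =
        fun _ => 0 := by
      funext u
      rw [le_far (by omega), zero_mul]
    rw [e, ee_const]
    ring
  obtain ⟨M3, hM3, hfb⟩ := near_bd hff hfl
  -- the divergence of the limit
  have hdiv0 : ∀ᶠ z in FB, ∀ (k : Fin d) (y : Zp d), ll y ≤ 2 * T3 z →
      dvg (τ₀ z) k y = z.1 ^ (2 * s'.card + 2) *
        ee μ L z (fun u => rh L k y u c * pv L s' D u) -
        z.1 ^ (2 * s'.card + 2) * (ee μ L z (pd L c y k s' D) / z.1 ^ 4) := by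
    filter_upwards [div_ev μ (L := L) s' ∅ D c (2 * s'.card + 2)] with z hz k y hy
    have h1 := hz (fun i => (D i).1) (fun i hi => by
      rw [Finset.inter_empty] at hi
      exact absurd hi (Finset.notMem_empty i)) k y hy
    rw [mk_empty] at h1
    rw [hτ₀]
    exact h1
  have hdg : ∀ k y, dvg g' k y = -∑ i ∈ s', lc c y k (D i) * gi i := by
    intro k y
    have t1 : Tendsto (fun z => dvg (τ₀ z) k y) FB (𝓝 (dvg g' k y)) := by
      unfold dvg ns
      exact tendsto_finsetSum _ fun i _ => (hlim0 i k y).sub (hlim0 i k _)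
    have t2 : Tendsto (fun z => (f z k y + z.1 ^ 4 * ∑ i ∈ s', lc c y k (D i) * gi i) /
        z.1 ^ 4) FB (𝓝 (∑ i ∈ s', lc c y k (D i) * gi i)) := by
      obtain ⟨g, hg⟩ := hfl k y
      have h1 : Tendsto (fun z : ℝ × ℕ => f z k y / z.1 ^ 4) FB (𝓝 0) :=
        hg.div_atTop ((tendsto_pow_atTop (by norm_num)).comp FB_fst)
      have h2 := h1.add (tendsto_const_nhds (x := ∑ i ∈ s', lc c y k (D i) * gi i))
      rw [zero_add] at h2
      refine h2.congr' ?_
      filter_upwards [FB_ge 1] with z hz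
      have : z.1 ≠ 0 := by linarith
      field_simp
    have t3 : Tendsto (fun z => dvg (τ₀ z) k y) FB (𝓝 (0 - ∑ i ∈ s', lc c y k (D i) * gi i)) := by
      refine ((hrhE k y).sub t2).congr' ?_
      have hreg : ∀ᶠ z in FB, ll y ≤ 2 * T3 z := by
        filter_upwards [T3_tendsto.eventually (eventually_ge_atTop (l1 y))] with z hz
        have h5 : (l1 y : ℝ) ≤ T3 z := by exact_mod_cast hz
        have h6 : (0:ℝ) ≤ T3 z := Nat.cast_nonneg _
        rw [ll_l1]; linarith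
      filter_upwards [hdiv0, hcon, hreg, FB_ge 1] with z h1 h2 h3 h4
      rw [h1 k y h3]
      congr 1
      have h5 := h2 k y
      have h6 : f z k y = z.1 ^ (2 * s'.card + 6) * (ee μ L z (pd L c y k s' D) / z.1 ^ 4) -
        z.1 ^ 4 * ∑ i ∈ s', lc c y k (D i) * gi i := by rw [h5, hf]
      rw [h6, sub_add_cancel]
      have h7 : z.1 ≠ 0 := by linarith
      have h8 : z.1 ^ (2 * s'.card + 6) = z.1 ^ (2 * s'.card + 2) * z.1 ^ 4 := by
        rw [← pow_add]
      rw [h8]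
      field_simp
    rw [zero_sub] at t3
    exact tendsto_nhds_unique t1 t3
  -- the second order form
  obtain ⟨τ, hτ⟩ : ∃ τ : (ℝ × ℕ) → Fin d → Fin d → Fz' d, τ = fun z j k y =>
    z.1 ^ 4 * (τ₀ z j k y - g' j k y) := ⟨_, rfl⟩
  obtain ⟨Ω, hΩ⟩ : ∃ Ω : (ℝ × ℕ) → Fin d → Fin d → Fz' d, Ω = fun z j k y =>
    z.1 ^ (2 * s'.card + 6) * ee μ L z (fun u => om L j k y u c * pv L s' D u) := ⟨_, rfl⟩
  obtain ⟨A, hA⟩ : ∃ A : (ℝ × ℕ) → Fin d → Fz' d, A = fun z k y =>
    z.1 ^ 4 * (z.1 ^ (2 * s'.card + 2) * ee μ L z (fun u => am L k y u c * pv L s' D u) -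
      a' k y) := ⟨_, rfl⟩
  obtain ⟨σ, hσ⟩ : ∃ σ : (ℝ × ℕ) → Fin d → Fz' d, σ = fun z k y =>
    z.1 ^ (2 * s'.card + 6) * ee μ L z (fun u => rh L k y u c * pv L s' D u) - f z k y :=
    ⟨_, rfl⟩
  have h1 : ∀ z j k y, τ z j k y = Ω z j k y + (nb j (A z k) y - nb k (A z j) y) := by
    intro z j k y
    rw [hτ, hΩ, hA, hg']
    simp only
    rw [hex0, pow_add z.1 (2 * s'.card) 6, pow_add z.1 (2 * s'.card) 2]
    unfold nb
    ring
  have h2 : ∀ z j k y, τ z k j y = -τ z j k y := by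
    intro z j k y
    rw [hτ, hg', hτ₀]
    simp only
    rw [te_anti]; ring
  have h3 : ∀ᶠ z in FB, ∀ k y, ll y ≤ 2 * T3 z - 1 → dvg (τ z) k y = σ z k y := by
    filter_upwards [hdiv0, hcon, FB_ge 1] with z h1 h2 h4 k y hy
    have e1 : dvg (τ z) k y = z.1 ^ 4 * (dvg (τ₀ z) k y - dvg g' k y) := by
      rw [hτ]
      unfold dvg ns
      rw [← Finset.sum_sub_distrib, Finset.mul_sum]
      exact Finset.sum_congr rfl fun i _ => by ring
    have h6 : f z k y = z.1 ^ (2 * s'.card + 6) * (ee μ L z (pd L c y k s' D) / z.1 ^ 4) -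
        z.1 ^ 4 * ∑ i ∈ s', lc c y k (D i) * gi i := by rw [h2 k y, hf]
    rw [e1, h1 k y (by linarith), hdg, hσ]
    simp only
    rw [h6, pow_add z.1 (2 * s'.card) 6, pow_add z.1 (2 * s'.card) 2]
    ring
  obtain ⟨C1, hC1, b1⟩ := Om_bd μ hd hB hT hW hH hTg hT4 hD s' ho
  obtain ⟨C2, hC2, b2⟩ := Rh_bd μ hd hB hT hW hH hTg hT4 hD s' ho
  have h4 : ∀ᶠ z in FB, ∀ j k y, ll y ≤ 2 * T3 z - 1 → |Ω z j k y| ≤
      (C1 + C2 + M3) * (ll y + 1) ^ (2 + 1) := by
    filter_upwards [b1] with z hz j k y hy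
    rw [hΩ]
    refine (hz j k y c (by linarith)).trans ?_
    have := ll_nonneg y
    exact mul_le_mul_of_nonneg_right (by linarith) (by positivity)
  have h5 : ∀ᶠ z in FB, ∀ k y, ll y ≤ 2 * T3 z - 1 → |σ z k y| ≤
      (C1 + C2 + M3) * (ll y + 1) ^ 2 := by
    filter_upwards [b2, hfb] with z hz hz3 k y hy
    rw [hσ]
    have h0 := ll_nonneg y
    refine (abs_sub _ _).trans ((add_le_add (hz k y c (by linarith)) (hz3 k y)).trans ?_)
    have h6 : (1:ℝ) ≤ (ll y + 1) ^ 2 := one_le_pow₀ (by linarith)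
    nlinarith
  obtain ⟨C4, hC4, b4⟩ := EB_fF μ hd hB hT hW hH hTg s' ∅ D
  have hb0 : ∀ᶠ z in FB, ∀ j k y, |τ₀ z j k y| ≤ C4 := by
    filter_upwards [b4] with z hz j k y
    have h5 := hz (fun i => (D i).1, ((j, k), y, c)) trivial
    simp only [mul_one, mk_empty] at h5
    rw [hτ₀]
    exact h5
  have hbg : ∀ j k y, |g' j k y| ≤ C4 := fun j k y =>
    le_of_tendsto (hlim0 j k y).abs (by filter_upwards [hb0] with z hz using hz j k y)
  have h6 : ∀ᶠ z in FB, ∀ j k y, |τ z j k y| ≤ 2 * C4 * z.1 ^ 4 := by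
    filter_upwards [hb0, FB_ge 1] with z hz hz1 j k y
    rw [hτ]
    have h7 : 0 ≤ z.1 ^ 4 := by positivity
    simp only
    rw [abs_mul, abs_of_nonneg h7]
    have h8 := (abs_sub (τ₀ z j k y) (g' j k y)).trans (add_le_add (hz j k y) (hbg j k y))
    have h9 := mul_le_mul_of_nonneg_left h8 h7
    linarith
  have hRr : ∀ᶠ z in FB, (T3 z : ℝ) + J.length + 2 + ll v ≤ 2 * T3 z - 1 := by
    filter_upwards [T3_tendsto.eventually (eventually_ge_atTop (J.length + 3 + l1 v))] with z hz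
    have h7 : ((J.length + 3 + l1 v : ℕ) : ℝ) ≤ T3 z := by exact_mod_cast hz
    push_cast at h7
    rw [ll_l1]
    linarith
  have key := ker_lim (F := FB) (by omega : 1 ≤ d) 2 J hJ (by omega) v τ Ω A σ T3
    (fun z => 2 * T3 z - 1) (fun z => 2 * C4 * z.1 ^ 4) (C1 + C2 + M3) (by positivity) hRr
    h1 h2 h3 h4 h5 h6 T3_tendsto (T3_bd (by positivity)) (fun j k y => by
      obtain ⟨g, hg⟩ := vert μ hd hB hT hW hH hTg hT4 hD s' (q := 2) le_rfl
        (by obtain ⟨m, hm⟩ := ho; exact ⟨m + 1, by omega⟩) (Ex_om hT4 j k y c) (om_cont _ _ _ _)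
      have e : 2 * (2 + s'.card) + 2 = 2 * s'.card + 6 := by ring
      rw [e] at hg
      refine ⟨g, ?_⟩
      rw [hΩ]
      exact hg) (fun k y => by
      obtain ⟨g, hg⟩ := vert μ hd hB hT hW hH hTg hT4 hD s' (q := 2) le_rfl
        (by obtain ⟨m, hm⟩ := ho; exact ⟨m + 1, by omega⟩) (Ex_rh hT4 k y c) (rh_cont _ _ _)
      have e : 2 * (2 + s'.card) + 2 = 2 * s'.card + 6 := by ring
      rw [e] at hg
      obtain ⟨g2, hg2⟩ := hfl k y
      refine ⟨g - g2, ?_⟩
      rw [hσ]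
      exact hg.sub hg2) j₀ k₀
  -- the value
  have hval : ∀ z, ev μ L D s z = dF J (τ₀ z j₀ k₀) v := by
    intro z
    unfold ev
    rw [ee_pv μ hi₀, ← hs', ← hJe, ← hv, ← hc, ← hj₀, ← hk₀, hτ₀]
    have e : 2 * s.card = 2 * s'.card + 2 := by omega
    rw [e]
    exact (dF_cm J _ _ v).symm
  have hlimF : ∀ (J : List (Fin d)) (x : Zp d), Tendsto (fun z => dF J (τ₀ z j₀ k₀) x) FB
      (𝓝 (dF J (g' j₀ k₀) x)) := by
    intro J
    induction J with
    | nil => intro x; exact hlim0 j₀ k₀ x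
    | cons i J ihJ => intro x; exact (ihJ _).sub (ihJ _)
  obtain ⟨a, ha⟩ := key
  refine ⟨dF J (g' j₀ k₀) v, a, ?_, ?_⟩
  · refine (hlimF J v).congr fun z => (hval z).symm
  · refine ha.congr fun z => ?_
    rw [hval, hτ]
    simp only
    rw [dF_cm, dF_sub]

/-- **Products of an even number of legs.** -/
theorem P2_all (hT4 : Tg4 L) {D : ι → Lg d n} (hD : ∀ i, 4 ≤ (D i).2.length) (s : Finset ι)
    (he : Even s.card) : P2 μ L D s := by
  induction s using Finset.strongInduction with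
  | H s ih =>
    rcases s.eq_empty_or_nonempty with rfl | ⟨i₀, hi₀⟩
    · have h1 : ∀ z, ev μ L D ∅ z = 1 := by
        intro z
        unfold ev
        have e : (pv L ∅ D : (Zp d → Fin d → G) → ℝ) = fun _ => 1 := by
          funext u; unfold pv; rw [Finset.prod_empty]
        rw [e, ee_const]; simp
      refine ⟨1, 0, ?_, ?_⟩
      · have : ev μ L D ∅ = fun _ => 1 := funext h1
        rw [this]; exact tendsto_const_nhds
      · simp only [h1, sub_self, mul_zero]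
        exact tendsto_const_nhds
    · refine P2_step μ hd hB hT hW hH hTg hT4 hD he hi₀ fun i hi => ?_
      have h1 : (s.erase i₀).erase i ⊂ s :=
        lt_of_le_of_lt (Finset.erase_subset _ _) (Finset.erase_ssubset hi₀)
      have hc1 := Finset.card_erase_add_one hi₀
      have hc2 := Finset.card_erase_add_one hi
      refine ih _ h1 ?_
      obtain ⟨m, hm⟩ := he
      exact ⟨m - 1, by omega⟩

end fam

end

end Pool.Agent.Y16.YM
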