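import Mathlib
import Pool.Agent.Y16.NL.F2b

/-!
# Covariant derivatives in the comb gauge, to second order
-/

open MeasureTheory Matrix Filter
open scoped Matrix.Norms.Frobenius Topology
open Pool.Agent.H906R3.YM Pool.Agent.W793.YM Pool.Agent.TH940.YM
open Pool.Agent.W793.SCH (haf Near pk gK DD mx el TK S_B1 S_B2 S_TR S_W1 S_HAF green plaq_moment2)

namespace Pool.Agent.Y16.YM

set_option linter.unusedSectionVars false
set_option linter.unusedVariables false
set_option maxHeartbeats 400000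

noncomputable section

section cvl

variable {G : Type} [Group G] [TopologicalSpace G] [IsTopologicalGroup G] [CompactSpace G]
  [SecondCountableTopology G] [MeasurableSpace G] [BorelSpace G]
  {N n : ℕ} {L : LD G N n} {d : ℕ}

lemma Ex_congr {k m : ℕ} {F H : (Zp d → Fin d → G) → ℝ} (h : ∀ u, H u = F u)
    (hF : Ex L k m F) : Ex L k m H := by
  rw [show H = F from funext h]; exact hF

lemma adm_eq (g : G) (c a : Fin n) :
    L.adm g c a = ip (L.X c) (L.rho g * L.X a * (L.rho g)ᴴ) := rfl

lemma adm_expand (g : G) (c a : Fin n) : L.adm g c a - (if c = a then 1 else 0) =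
    ip (L.X c) ((L.rho g - 1) * L.X a + L.X a * (L.rho g - 1)ᴴ +
      (L.rho g - 1) * L.X a * (L.rho g - 1)ᴴ) := by
  have h1 : (L.rho g - 1) * L.X a + L.X a * (L.rho g - 1)ᴴ +
      (L.rho g - 1) * L.X a * (L.rho g - 1)ᴴ = L.rho g * L.X a * (L.rho g)ᴴ - L.X a := by
    rw [conjTranspose_sub, conjTranspose_one]
    noncomm_ring
  rw [h1, map_sub, ip_X, adm_eq]

/-- the adjoint action of a group element close to one -/
lemma EW.adm {w : (Zp d → Fin d → G) → G} (h : EW L w) (c a : Fin n) :
    Ex L 1 4 (fun u => L.adm (w u) c a - (if c = a then 1 else 0)) := by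
  have h1 := h.1
  have h2 : EM L 1 4 (fun u => (L.rho (w u) - 1) * L.X a) :=
    (EM.mul (k := 1) (k' := 0) (s := 3) h1 (EM_const (L.X a) 3))
  have h3 : EM L 1 4 (fun u => L.X a * (L.rho (w u) - 1)ᴴ) :=
    (EM.mul (k := 0) (k' := 1) (s := 3) (EM_const (L.X a) 3) h1.ct)
  have h4 : EM L 1 4 (fun u => (L.rho (w u) - 1) * L.X a * (L.rho (w u) - 1)ᴴ) :=
    ((EM.mul (k := 1) (k' := 1) (s := 3) h2 h1.ct).mono_left (by norm_num)).mono_right
      (by norm_num)
  have h5 := ((h2.add h3).add h4) (L.X c)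
  exact Ex_congr (fun u => adm_expand (w u) c a) h5

/-- the components of the covariant derivatives in the comb gauge -/
def cw (L : LD G N n) (ℓ : Lg d n) (u : Zp d → Fin d → G) : ℝ :=
  cv L (Vz u) ℓ.1.1 ℓ.2 ℓ.1.2.1 ℓ.1.2.2

lemma rot_sub_id (g : G) (A : Fin n → ℝ) (c : Fin n) : rot L g A c - A c =
    ∑ a, (L.adm g c a - (if c = a then 1 else 0)) * A a := by
  unfold rot
  simp only [sub_mul, Finset.sum_sub_distrib, ite_mul, one_mul, zero_mul]
  rw [Finset.sum_ite_eq, if_pos (Finset.mem_univ _)]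

lemma lv_Ex (ℓ : Lg d n) {m : ℕ} : Ex L 1 m (lv L ℓ : (Zp d → Fin d → G) → ℝ) :=
  Ex_pl (lv_mem ℓ) le_rfl

theorem cw_sub_lv (hT : Tg4 L) (p : Fin d × Fin d) (J : List (Fin d)) : ∀ (x : Zp d) (a : Fin n),
    Ex L 2 4 (fun u : Zp d → Fin d → G => cw L ((p, x, a), J) u - lv L ((p, x, a), J) u) := by
  induction J with
  | nil =>
    intro x a
    refine Ex_congr (fun u => ?_) (Ex.zero 2 4)
    have h : cw L ((p, x, a), []) u = lv L ((p, x, a), []) u := by
      show cc L a (plz (Vz u) x p.1 p.2) = cc L a (Gz u x p.1 p.2)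
      rw [Gz_eq]; rfl
    rw [h, sub_self]
  | cons i J ih =>
    intro x a
    have h1 : ∀ b, Ex L 1 4 (fun u : Zp d → Fin d → G => cw L ((p, x + ez i, b), J) u) := by
      intro b
      have h2 := ((ih (x + ez i) b).mono_left (by norm_num : 1 ≤ 2)).add
        (lv_Ex (L := L) ((p, x + ez i, b), J) (m := 4))
      exact Ex_congr (fun u => by ring) h2
    have h3 : Ex L 2 4 (fun u : Zp d → Fin d → G => ∑ b,
        (L.adm (Vz u x i) a b - (if a = b then 1 else 0)) * cw L ((p, x + ez i, b), J) u) := by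
      refine Ex.sum _ fun b _ => ?_
      exact Ex.mul (k := 1) (k' := 1) (s := 2) (((EW_Vz hT x i).adm a b).mono_right (by norm_num))
        ((h1 b).mono_right (by norm_num))
    have h4 := (h3.add (ih (x + ez i) a)).sub (ih x a)
    refine Ex_congr (fun u => ?_) h4
    have h5 : cw L ((p, x, a), i :: J) u = rot L (Vz u x i) (cv L (Vz u) p J (x + ez i)) a -
        cv L (Vz u) p J x a := rfl
    have h6 : lv L ((p, x, a), i :: J) u = lv L ((p, x + ez i, a), J) u - lv L ((p, x, a), J) u :=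
      rfl
    have h7 := rot_sub_id (L := L) (Vz u x i) (cv L (Vz u) p J (x + ez i)) a
    have h8 : ∀ b, cv L (Vz u) p J (x + ez i) b = cw L ((p, x + ez i, b), J) u := fun b => rfl
    have h9 : cv L (Vz u) p J x a = cw L ((p, x, a), J) u := rfl
    simp only [h8] at h7
    rw [h5, h6, h9]
    have h10 : rot L (Vz u x i) (cv L (Vz u) p J (x + ez i)) a = cw L ((p, x + ez i, a), J) u +
        ∑ b, (L.adm (Vz u x i) a b - (if a = b then 1 else 0)) * cw L ((p, x + ez i, b), J) u := by
      linarith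
    rw [h10]
    ring

lemma cv_cont' (p : Fin d × Fin d) (J : List (Fin d)) (x : Zp d) (a : Fin n)
    {w : (Zp d → Fin d → G) → Zp d → Fin d → G} (hw : ∀ x i, Continuous fun u => w u x i) :
    Continuous fun u : Zp d → Fin d → G => cv L (w u) p J x a := by
  induction J generalizing x a with
  | nil =>
    exact (cc_cont (L := L) a).comp ((((hw _ _).mul (hw _ _)).mul (hw _ _).inv).mul (hw _ _).inv)
  | cons i J ih =>
    exact (continuous_finsetSum _ fun b _ =>
      ((adm_cont (L := L) b a).comp (hw x i)).mul (ih _ _)).sub (ih _ _)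

end cvl

end

end Pool.Agent.Y16.YM
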