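import Mathlib
import Pool.Agent.Y16.NL.Zk
import Pool.Agent.W270.SCH.W2

/-!
# The leading order of invariant products of derivatives of field strengths
-/

open MeasureTheory Matrix Filter
open scoped Matrix.Norms.Frobenius Topology
open Pool.Agent.H906R3.YM Pool.Agent.W793.YM Pool.Agent.TH940.YM
open Pool.Agent.W793.SCH (haf Near pk gK DD mx el TK S_B1 S_B2 S_TR S_W1 S_HAF green plaq_moment2)
open Pool.Agent.W270.SCH (haf_nil haf_cons haf_congr)

namespace Pool.Agent.Y16.YM

set_option linter.unusedSectionVars false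
set_option linter.unusedVariables false
set_option maxHeartbeats 400000

noncomputable section

/-- the sum over the pairings is linear in the row and the column of an index -/
theorem haf_lin {ι : Type*} [DecidableEq ι] {A A1 A2 : ι → ι → ℝ} {i₀ : ι}
    (hr : ∀ v, v ≠ i₀ → A i₀ v = A1 i₀ v - A2 i₀ v)
    (hc : ∀ v, v ≠ i₀ → A v i₀ = A1 v i₀ - A2 v i₀)
    (h1 : ∀ u v, u ≠ i₀ → v ≠ i₀ → A u v = A1 u v) (h2 : ∀ u v, u ≠ i₀ → v ≠ i₀ → A u v = A2 u v) :
    ∀ (m : ℕ) (l : List ι), l.length = m → l.Nodup → i₀ ∈ l → haf A l = haf A1 l - haf A2 l := by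
  intro m
  induction m using Nat.strong_induction_on with
  | _ m ih =>
    intro l hl hn hi
    cases l with
    | nil => exact absurd hi List.not_mem_nil
    | cons a l =>
      have hn' := List.nodup_cons.1 hn
      rw [haf_cons A a l hn'.2, haf_cons A1 a l hn'.2, haf_cons A2 a l hn'.2,
        ← Finset.sum_sub_distrib]
      refine Finset.sum_congr rfl fun b hb => ?_
      have hb' : b ∈ l := List.mem_toFinset.1 hb
      have hab : a ≠ b := fun h => hn'.1 (h ▸ hb')
      have hlen : (l.erase b).length < m := by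
        rw [List.length_erase_of_mem hb']
        simp only [List.length_cons] at hl
        omega
      have hne : (l.erase b).Nodup := hn'.2.erase b
      have hnb : b ∉ l.erase b := fun h => ((List.Nodup.mem_erase_iff hn'.2).1 h).1 rfl
      by_cases ha : a = i₀
      · subst ha
        have h3 : a ∉ l.erase b := fun h => hn'.1 (List.mem_of_mem_erase h)
        have e1 : haf A (l.erase b) = haf A1 (l.erase b) := haf_congr _ _ _ _ rfl hne
          fun u hu v hv _ => h1 u v (fun h => h3 (h ▸ hu)) fun h => h3 (h ▸ hv)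
        have e2 : haf A (l.erase b) = haf A2 (l.erase b) := haf_congr _ _ _ _ rfl hne
          fun u hu v hv _ => h2 u v (fun h => h3 (h ▸ hu)) fun h => h3 (h ▸ hv)
        rw [hr b hab.symm, ← e1, ← e2]
        ring
      · by_cases hb0 : b = i₀
        · subst hb0
          have e1 : haf A (l.erase b) = haf A1 (l.erase b) := haf_congr _ _ _ _ rfl hne
            fun u hu v hv _ => h1 u v (fun h => hnb (h ▸ hu)) fun h => hnb (h ▸ hv)
          have e2 : haf A (l.erase b) = haf A2 (l.erase b) := haf_congr _ _ _ _ rfl hne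
            fun u hu v hv _ => h2 u v (fun h => hnb (h ▸ hu)) fun h => hnb (h ▸ hv)
          rw [hc a hab, ← e1, ← e2]
          ring
        · have hil : i₀ ∈ l := (List.mem_cons.1 hi).resolve_left fun h => ha h.symm
          have h4 : i₀ ∈ l.erase b := (List.Nodup.mem_erase_iff hn'.2).2 ⟨fun h => hb0 h.symm, hil⟩
          rw [ih _ hlen _ rfl hne h4, ← h1 a b ha hb0, ← h2 a b ha hb0]
          ring

/-- a tensor is linear in every argument -/
lemma tn_lin {k n : ℕ} (T : (Fin k → Fin n) → ℝ) {A A1 A2 : Fin k → Fin n → ℝ} {i₀ : Fin k}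
    (h0 : ∀ a, A i₀ a = A1 i₀ a - A2 i₀ a) (h1 : ∀ i, i ≠ i₀ → A i = A1 i)
    (h2 : ∀ i, i ≠ i₀ → A i = A2 i) : tn T A = tn T A1 - tn T A2 := by
  unfold tn
  rw [← Finset.sum_sub_distrib]
  refine Finset.sum_congr rfl fun c _ => ?_
  rw [← Finset.mul_prod_erase _ _ (Finset.mem_univ i₀), ← Finset.mul_prod_erase _ (fun i => A1 i (c i))
    (Finset.mem_univ i₀), ← Finset.mul_prod_erase _ (fun i => A2 i (c i)) (Finset.mem_univ i₀), h0]
  have e1 : ∏ i ∈ Finset.univ.erase i₀, A1 i (c i) = ∏ i ∈ Finset.univ.erase i₀, A i (c i) :=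
    Finset.prod_congr rfl fun i hi => by rw [h1 i (Finset.ne_of_mem_erase hi)]
  have e2 : ∏ i ∈ Finset.univ.erase i₀, A2 i (c i) = ∏ i ∈ Finset.univ.erase i₀, A i (c i) :=
    Finset.prod_congr rfl fun i hi => by rw [h2 i (Finset.ne_of_mem_erase hi)]
  rw [e1, e2]
  ring

variable {G : Type} [Group G] [TopologicalSpace G] [IsTopologicalGroup G] [CompactSpace G]
  [SecondCountableTopology G] [MeasurableSpace G] [BorelSpace G] (μ : Measure G)
  [IsProbabilityMeasure μ] [μ.IsMulLeftInvariant] [μ.IsMulRightInvariant] [μ.IsInvInvariant]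
  {N n : ℕ} {L : LD G N n} {d : ℕ}

/-- **The leading order of an invariant product of field strengths.** -/
theorem tn_lim (hd : 3 ≤ d) (hB : S_B2) (hT : S_TR) (hW : S_W1) (hH : S_HAF) {k : ℕ}
    (x : Fin k → Zp d) (p : Fin k → Fin d × Fin d) (hp : ∀ u, (p u).1 ≠ (p u).2)
    (T : (Fin k → Fin n) → ℝ)
    (hTi : ∀ (g : G) (A : Fin k → Fin n → ℝ), tn T (fun i => rot L g (A i)) = tn T A) :
    Tendsto (fun z => z.1 ^ (2 * k) *
      ee μ L z (fun u => tn T fun i => fF L (p i).1 (p i).2 (x i) u)) FB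
      (𝓝 (∑ c', T c' * haf (AC (green d) (fun _ => []) p x c') (List.finRange k))) := by
  obtain ⟨κ₀, C, B, hκ, hC, hB0, hk⟩ := kL μ (L := L) hd hB hT hW hH k
  obtain ⟨R, hR⟩ : ∃ R, R = ∑ u, l1 (x u) := ⟨_, rfl⟩
  have hx : ∀ u, l1 (x u) ≤ R := fun u => by
    rw [hR]
    exact Finset.single_le_sum (f := fun u => l1 (x u)) (fun _ _ => Nat.zero_le _)
      (Finset.mem_univ u)
  have he : 1 ≤ ex d κ₀ := by unfold ex; omega
  have hlim : Tendsto (fun z : ℝ × ℕ => C / (aof (ex d κ₀) z.1 : ℝ)) FB (𝓝 0) :=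
    tendsto_const_nhds.div_atTop (tendsto_natCast_atTop_atTop.comp
      ((aof_tendsto he).comp FB_fst))
  have hcor : ∀ c' : Fin k → Fin n, Tendsto (fun z => EX μ L (z.1 ^ 4) (Pk L κ₀ z x p c')) FB
      (𝓝 (haf (AC (green d) (fun _ => []) p x c') (List.finRange k))) := by
    intro c'
    rw [tendsto_iff_norm_sub_tendsto_zero]
    refine squeeze_zero' (Filter.Eventually.of_forall fun z => norm_nonneg _) ?_ hlim
    filter_upwards [hk R] with z hz
    have h1 := (hz x (fun u i => (l1_coord (x u) i).trans (by exact_mod_cast hx u)) p hp c').1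
    rw [Real.norm_eq_abs]
    exact h1
  have hK : Tendsto (fun z : ℝ × ℕ => z.1 ^ (2 * k) * EX μ L (z.1 ^ 4)
      (fun U : Ed d (2 * (z.2 + 1)) → G => tn T fun i => cK L κ₀ z.1 (x i) (p i) U)) FB
      (𝓝 (∑ c', T c' * haf (AC (green d) (fun _ => []) p x c') (List.finRange k))) := by
    have e1 : (fun z : ℝ × ℕ => z.1 ^ (2 * k) * EX μ L (z.1 ^ 4)
        (fun U : Ed d (2 * (z.2 + 1)) → G => tn T fun i => cK L κ₀ z.1 (x i) (p i) U)) =
        fun z => ∑ c', T c' * EX μ L (z.1 ^ 4) (Pk L κ₀ z x p c') := by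
      funext z
      have e2 : (fun U : Ed d (2 * (z.2 + 1)) → G => z.1 ^ (2 * k) *
          tn T fun i => cK L κ₀ z.1 (x i) (p i) U) = fun U => ∑ c', T c' * Pk L κ₀ z x p c' U := by
        funext U
        unfold tn Pk cK
        rw [Finset.mul_sum]
        refine Finset.sum_congr rfl fun c' _ => ?_
        rw [Finset.prod_mul_distrib, Finset.prod_const, Finset.card_univ, Fintype.card_fin,
          ← pow_mul]
        ring
      have cm : ∀ c' : Fin k → Fin n, Continuous fun U : Ed d (2 * (z.2 + 1)) → G =>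
          T c' * Pk L κ₀ z x p c' U := fun c' => continuous_const.mul (Pk_cont _ _ _ _ _)
      rw [← EX_smul, e2, EX_sum μ _ fun c' _ => cm c']
      exact Finset.sum_congr rfl fun c' _ => EX_smul μ _ _
    rw [e1]
    exact tendsto_finsetSum _ fun c' _ => (hcor c').const_mul _
  have hD : Tendsto (fun z : ℝ × ℕ => z.1 ^ (2 * k) * ee μ L z (fun u => tn T fun i => fF L (p i).1 (p i).2 (x i) u) -
      z.1 ^ (2 * k) * EX μ L (z.1 ^ 4)
      (fun U : Ed d (2 * (z.2 + 1)) → G => tn T fun i => cK L κ₀ z.1 (x i) (p i) U)) FB (𝓝 0) := by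
    have hE := (frame_errk μ (L := L) hκ (by omega) x p).const_mul
      ((∑ c, |T c|) * (k * (2 * (R * d))))
    rw [mul_zero] at hE
    refine squeeze_zero_norm' ?_ hE
    filter_upwards [params (d := d) hκ R] with z hz
    obtain ⟨hz1, h12, hRa, hab, hba, hm⟩ := hz
    rw [ee_ub μ (κ₀ := κ₀), ← EX_smul, ← EX_smul]
    have cU : Continuous fun U : Ed d (2 * (z.2 + 1)) → G => ub d κ₀ z.1 U :=
      continuous_pi fun y => (continuous_apply _).comp uz_cont
    have c1 : Continuous fun U : Ed d (2 * (z.2 + 1)) → G => z.1 ^ (2 * k) *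
        tn T fun i => fF L (p i).1 (p i).2 (x i) (ub d κ₀ z.1 U) :=
      continuous_const.mul (tn_cont T fun i c => (fF_cont _ _ _ _).comp cU)
    have c2 : Continuous fun U : Ed d (2 * (z.2 + 1)) → G => z.1 ^ (2 * k) *
        tn T fun i => cK L κ₀ z.1 (x i) (p i) U :=
      continuous_const.mul (tn_cont T fun i c => cK_cont _ _ _ _)
    rw [Real.norm_eq_abs]
    refine (EX_close μ c1 c2).trans ?_
    have c3 : Continuous fun U : Ed d (2 * (z.2 + 1)) → G =>
        ((∑ c, |T c|) * (k * (2 * (R * (d * ((2 * Kb d κ₀ z.1 + 2 : ℕ) : ℝ)))))) *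
        (sB L (2 * Kb d κ₀ z.1 + 2) U * ∏ i, bK L κ₀ z.1 (x i) (p i) U) :=
      continuous_const.mul ((sB_cont _).mul (continuous_finsetProd _ fun i _ => bK_cont _ _ _))
    refine (EX_mono μ (c1.sub c2).abs c3 fun U => ?_).trans (le_of_eq ?_)
    · have h1 := tn_frame (L := L) hκ h12 hRa hm U x p hx T hTi
      show |z.1 ^ (2 * k) * tn T (fun i => fF L (p i).1 (p i).2 (x i) (ub d κ₀ z.1 U)) -
        z.1 ^ (2 * k) * tn T (fun i => cK L κ₀ z.1 (x i) (p i) U)| ≤ _
      rw [← mul_sub, abs_mul, abs_of_nonneg (pow2_nn z.1 k)]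
      exact h1
    · rw [EX_smul]; ring
  have := hK.add hD
  rw [add_zero] at this
  refine this.congr fun z => ?_
  ring


lemma mcD_row (g : (Fin d → ℤ) → ℝ) (j : Fin d) (J : List (Fin d)) (p : Fin d × Fin d)
    (J' : List (Fin d)) (p' : Fin d × Fin d) (z : Zp d) :
    mcD g (j :: J) p J' p' z = mcD g J p J' p' (z + Pi.single j 1) - mcD g J p J' p' z := rfl

lemma mcD_col (g : (Fin d → ℤ) → ℝ) (j : Fin d) (J : List (Fin d)) (p : Fin d × Fin d)
    (J' : List (Fin d)) (p' : Fin d × Fin d) (z : Zp d) :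
    mcD g J p (j :: J') p' z = mcD g J p J' p' (z - Pi.single j 1) - mcD g J p J' p' z := by
  unfold mcD
  generalize (fun z => mx (fun a b => DD a b g z) p.1 p.2 p'.1 p'.2) = h
  show dF J (fun z => dB J' h (z - Pi.single j 1) - dB J' h z) z = _
  have h1 := Pool.Agent.TH940.YM.dF_sub (fun z => dB J' h (z - Pi.single j 1)) (dB J' h) J z
  rw [← h1]
  congr 1
  exact dF_shift J (dB J' h) (Pi.single j 1) z

/-- one differentiated factor -/
lemma AC_lin (g : (Fin d → ℤ) → ℝ) {k : ℕ} (J : Fin k → List (Fin d)) (p : Fin k → Fin d × Fin d)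
    (x : Fin k → Zp d) (c : Fin k → Fin n) {i₀ : Fin k} {j : Fin d} {J' : List (Fin d)}
    (hJ : J i₀ = j :: J') :
    haf (AC g J p x c) (List.finRange k) =
      haf (AC g (Function.update J i₀ J') p (Function.update x i₀ (x i₀ + Pi.single j 1)) c)
        (List.finRange k) - haf (AC g (Function.update J i₀ J') p x c) (List.finRange k) := by
  refine haf_lin (i₀ := i₀) (fun v hv => ?_) (fun v hv => ?_) (fun u v hu hv => ?_)
    (fun u v hu hv => ?_) _ _ rfl (List.nodup_finRange k) (List.mem_finRange i₀)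
  · unfold AC
    by_cases h : c i₀ = c v
    · simp only [if_pos h, Function.update_self, Function.update_of_ne hv]
      rw [hJ, mcD_row, sub_add_eq_add_sub]
    · simp only [if_neg h, sub_self]
  · unfold AC
    by_cases h : c v = c i₀
    · simp only [if_pos h, Function.update_self, Function.update_of_ne hv]
      rw [hJ, mcD_col]
      rw [sub_sub]
    · simp only [if_neg h, sub_self]
  · unfold AC
    simp only [Function.update_of_ne hu, Function.update_of_ne hv]
  · unfold AC
    simp only [Function.update_of_ne hu, Function.update_of_ne hv]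

/-- **The leading order of an invariant product of derivatives of field strengths.** -/
theorem tn_limJ (hd : 3 ≤ d) (hB : S_B2) (hT : S_TR) (hW : S_W1) (hH : S_HAF) {k : ℕ}
    (p : Fin k → Fin d × Fin d) (hp : ∀ u, (p u).1 ≠ (p u).2) (T : (Fin k → Fin n) → ℝ)
    (hTi : ∀ (g : G) (A : Fin k → Fin n → ℝ), tn T (fun i => rot L g (A i)) = tn T A) :
    ∀ (m : ℕ) (J : Fin k → List (Fin d)) (x : Fin k → Zp d), ∑ i, (J i).length = m →
    Tendsto (fun z => z.1 ^ (2 * k) * ee μ L z (fun u => tn T fun i a =>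
      dF (J i) (fun y => fF L (p i).1 (p i).2 y u a) (x i))) FB
      (𝓝 (∑ c', T c' * haf (AC (green d) J p x c') (List.finRange k))) := by
  intro m
  induction m with
  | zero =>
    intro J x hm
    have h1 : J = fun _ => [] := by
      funext i
      have h2 := Finset.sum_eq_zero_iff.1 hm i (Finset.mem_univ i)
      exact List.length_eq_zero_iff.1 h2
    subst h1
    exact tn_lim μ hd hB hT hW hH x p hp T hTi
  | succ m ih =>
    intro J x hm
    obtain ⟨i₀, hi₀⟩ : ∃ i₀, J i₀ ≠ [] := by
      by_contra h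
      push Not at h
      simp only [h, List.length_nil, Finset.sum_const_zero] at hm
      omega
    obtain ⟨j, J', hJ⟩ := List.exists_cons_of_ne_nil hi₀
    have hm' : ∑ i, (Function.update J i₀ J' i).length = m := by
      rw [← Finset.add_sum_erase _ _ (Finset.mem_univ i₀)] at hm ⊢
      have e : ∑ i ∈ Finset.univ.erase i₀, (Function.update J i₀ J' i).length =
          ∑ i ∈ Finset.univ.erase i₀, (J i).length :=
        Finset.sum_congr rfl fun i hi => by rw [Function.update_of_ne (Finset.ne_of_mem_erase hi)]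
      rw [e, Function.update_self]
      rw [hJ, List.length_cons] at hm
      omega
    have h1 := ih (Function.update J i₀ J') (Function.update x i₀ (x i₀ + Pi.single j 1)) hm'
    have h2 := ih (Function.update J i₀ J') x hm'
    have h3 := h1.sub h2
    have e1 : ∑ c', T c' * haf (AC (green d) J p x c') (List.finRange k) =
        ∑ c', T c' * haf (AC (green d) (Function.update J i₀ J') p
          (Function.update x i₀ (x i₀ + Pi.single j 1)) c') (List.finRange k) -
        ∑ c', T c' * haf (AC (green d) (Function.update J i₀ J') p x c') (List.finRange k) := by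
      rw [← Finset.sum_sub_distrib]
      exact Finset.sum_congr rfl fun c' _ => by rw [AC_lin _ _ _ _ _ hJ]; ring
    rw [e1]
    refine h3.congr fun z => ?_
    have c1 : ∀ (J : Fin k → List (Fin d)) (x : Fin k → Zp d), Continuous
        fun u : Zp d → Fin d → G => tn T fun i a =>
          dF (J i) (fun y => fF L (p i).1 (p i).2 y u a) (x i) := fun J x =>
      tn_cont T fun i c => dF_fF_cont (J i) (p i) (x i) c
    rw [← mul_sub, ← ee_sub μ (c1 _ _) (c1 _ _)]
    congr 2
    funext u
    symm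
    refine tn_lin T (i₀ := i₀) (fun a => ?_) (fun i hi => ?_) (fun i hi => ?_)
    · simp only [Function.update_self]
      rw [hJ]
      rfl
    · simp only [Function.update_of_ne hi]
    · simp only [Function.update_of_ne hi]

end

end Pool.Agent.Y16.YM
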