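import Mathlib
import Pool.Agent.Y16.NL.Cv4

/-!
# Products of covariant derivatives of field strengths: the expansion to second order
-/

open MeasureTheory Matrix Filter
open scoped Matrix.Norms.Frobenius Topology
open Pool.Agent.H906R3.YM Pool.Agent.W793.YM Pool.Agent.TH940.YM
open Pool.Agent.W793.SCH (haf Near pk gK DD mx el TK S_B1 S_B2 S_TR S_W1 S_HAF green plaq_moment2)

namespace Pool.Agent.Y16.YM

set_option linter.unusedSectionVars false
set_option linter.unusedVariables false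
set_option maxHeartbeats 400000

noncomputable section

variable {G : Type} [Group G] [TopologicalSpace G] [IsTopologicalGroup G] [CompactSpace G]
  [SecondCountableTopology G] [MeasurableSpace G] [BorelSpace G] (μ : Measure G)
  [IsProbabilityMeasure μ] [μ.IsMulLeftInvariant] [μ.IsMulRightInvariant] [μ.IsInvInvariant]
  {N n : ℕ} {L : LD G N n} {d : ℕ} {ι : Type} [DecidableEq ι]

lemma cw_cont (ℓ : Lg d n) : Continuous (cw L ℓ : (Zp d → Fin d → G) → ℝ) :=
  cv_cont' (L := L) _ _ _ _ (w := fun u => Vz u) fun x i => Vz_cont x i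

/-- legs which agree with the naive derivatives to first order -/
structure Cl (L : LD G N n) (D : ι → Lg d n) (w : ι → (Zp d → Fin d → G) → ℝ) : Prop where
  cont : ∀ i, Continuous (w i)
  ex : ∀ i, Ex L 2 4 (fun u => w i u - lv L (D i) u)

/-- the difference between the legs and the naive derivatives -/
def cd (L : LD G N n) (D : ι → Lg d n) (w : ι → (Zp d → Fin d → G) → ℝ) (i : ι)
    (u : Zp d → Fin d → G) : ℝ := w i u - lv L (D i) u

/-- products of the legs -/
def cp (s : Finset ι) (w : ι → (Zp d → Fin d → G) → ℝ) (u : Zp d → Fin d → G) : ℝ :=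
  ∏ i ∈ s, w i u

/-- one term of the expansion -/
def ct (L : LD G N n) (s t : Finset ι) (D : ι → Lg d n) (w : ι → (Zp d → Fin d → G) → ℝ)
    (u : Zp d → Fin d → G) : ℝ :=
  (∏ i ∈ t, cd L D w i u) * pv L (s \ t) D u

lemma cp_eq (s : Finset ι) (D : ι → Lg d n) (w : ι → (Zp d → Fin d → G) → ℝ)
    (u : Zp d → Fin d → G) : cp s w u = ∑ t ∈ s.powerset, ct L s t D w u := by
  unfold cp ct pv
  rw [← Finset.prod_add]
  exact Finset.prod_congr rfl fun i _ => by unfold cd; ring

variable {D : ι → Lg d n} {w : ι → (Zp d → Fin d → G) → ℝ}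

lemma Cl.cdc (h : Cl L D w) (i : ι) : Continuous (cd L D w i) := (h.cont i).sub (lv_cont _)

lemma ct_cont (h : Cl L D w) (s t : Finset ι) : Continuous (ct L s t D w) :=
  (continuous_finsetProd _ fun i _ => h.cdc i).mul (pv_cont _ _)

lemma prod_cd_Ex (h : Cl L D w) (t : Finset ι) :
    Ex L (2 * t.card) (2 * t.card + 2) (fun u : Zp d → Fin d → G => ∏ i ∈ t, cd L D w i u) := by
  induction t using Finset.induction_on with
  | empty =>
    refine Ex_congr (fun u => ?_) (Ex_const (L := L) (d := d) 1 _)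
    rw [Finset.prod_empty]
  | insert i t hi ih =>
    have h1 := Ex.mul (k := 2) (k' := 2 * t.card) (s := 2) (h.ex i) ih
    rw [Finset.card_insert_of_notMem hi]
    have e : 2 * (t.card + 1) = 2 + 2 * t.card := by ring
    rw [e]
    exact Ex_congr (fun u => Finset.prod_insert hi) h1

lemma ee_sum' {κ : Type*} [DecidableEq κ] (z : ℝ × ℕ) (s : Finset κ)
    {f : κ → (Zp d → Fin d → G) → ℝ} (hf : ∀ i ∈ s, Continuous (f i)) :
    ee μ L z (fun u => ∑ i ∈ s, f i u) = ∑ i ∈ s, ee μ L z (f i) := by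
  induction s using Finset.induction_on with
  | empty =>
    simp only [Finset.sum_empty]
    exact ee_const μ 0
  | insert i s hi ih =>
    have h1 : ∀ i ∈ s, Continuous (f i) := fun j hj => hf j (Finset.mem_insert_of_mem hj)
    rw [Finset.sum_insert hi, ← ih h1, ← ee_add μ (hf i (Finset.mem_insert_self _ _))
      (continuous_finsetSum _ h1)]
    congr 1
    funext u
    exact Finset.sum_insert hi

lemma ee_cp (h : Cl L D w) (z : ℝ × ℕ) (s : Finset ι) : ee μ L z (cp s w) =
    ee μ L z (pv L s D) + ∑ t ∈ s.powerset.erase ∅, ee μ L z (ct L s t D w) := by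
  have h1 : (cp s w : (Zp d → Fin d → G) → ℝ) = fun u => ∑ t ∈ s.powerset, ct L s t D w u :=
    funext fun u => cp_eq s D w u
  rw [h1, ee_sum' μ z _ fun t _ => ct_cont h s t,
    ← Finset.add_sum_erase _ _ (Finset.empty_mem_powerset s)]
  congr 2
  funext u
  unfold ct
  rw [Finset.prod_empty, one_mul, Finset.sdiff_empty]

section fam

variable (hd : 3 ≤ d) (hB : S_B2) (hT : S_TR) (hW : S_W1) (hH : S_HAF) {CT : ℝ} (hTg : Tg L CT)

include hd hB hT hW hH hTg

/-- the terms with at least `k` corrections -/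
lemma ct_lim (h : Cl L D w) {s t : Finset ι} (hts : t ⊆ s) {k : ℕ} (hk : k ≤ t.card) :
    ∃ g, Tendsto (fun z => z.1 ^ (2 * (s.card + k)) * ee μ L z (ct L s t D w)) FB (𝓝 g) := by
  have h1 := prod_cd_Ex h t
  have h2 : Ex L (s \ t).card ((s \ t).card + 2) (pv L (s \ t) D : (Zp d → Fin d → G) → ℝ) :=
    Ex_pl (pv_mem _ _) le_rfl
  have h3 := Ex.mul (k := 2 * t.card) (k' := (s \ t).card) (s := 2) h1 h2
  have hc := Finset.card_sdiff_add_card_eq_card hts
  have h4 : Ex L (s.card + k) (s.card + k + 1) (ct L s t D w) :=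
    (Ex.mono_left h3 (by omega)).mono_right (by omega)
  exact Ex.lim μ hd hB hT hW hH hTg (by omega) h4 (ct_cont h s t)

/-- the terms with corrections, for even products -/
lemma ct_lim2 (hT4 : Tg4 L) (h : Cl L D w) (hD : ∀ i, 4 ≤ (D i).2.length) {s t : Finset ι}
    (hts : t ⊆ s) (he : Even s.card) (ht : t ≠ ∅) :
    ∃ g, Tendsto (fun z => z.1 ^ (2 * (s.card + 2)) * ee μ L z (ct L s t D w)) FB (𝓝 g) := by
  have h0 : 1 ≤ t.card := Finset.card_pos.2 (Finset.nonempty_iff_ne_empty.2 ht)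
  rcases Nat.lt_or_ge 1 t.card with h1 | h1
  · exact ct_lim μ hd hB hT hW hH hTg h hts h1
  · obtain ⟨i, rfl⟩ := Finset.card_eq_one.1 (le_antisymm h1 h0)
    have hc := Finset.card_sdiff_add_card_eq_card hts
    rw [Finset.card_singleton] at hc
    have ho : Odd (2 + (s \ {i}).card) := by
      obtain ⟨m, hm⟩ := he
      exact ⟨m, by omega⟩
    obtain ⟨g, hg⟩ := vert μ hd hB hT hW hH hTg hT4 hD (s \ {i}) le_rfl ho (h.ex i) (h.cdc i)
    refine ⟨g, ?_⟩
    have e1 : 2 * (2 + (s \ {i}).card) + 2 = 2 * (s.card + 2) := by omega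
    rw [e1] at hg
    refine hg.congr fun z => ?_
    congr 2
    funext u
    unfold ct
    rw [Finset.prod_singleton]
    rfl

/-- **Even products of legs.** -/
theorem cp_even (hT4 : Tg4 L) (h : Cl L D w) (hD : ∀ i, 4 ≤ (D i).2.length) (s : Finset ι)
    (he : Even s.card) : ∃ g a : ℝ,
      Tendsto (fun z => z.1 ^ (2 * s.card) * ee μ L z (pv L s D)) FB (𝓝 g) ∧
      Tendsto (fun z => z.1 ^ 4 * (z.1 ^ (2 * s.card) * ee μ L z (cp s w) - g)) FB (𝓝 a) := by
  obtain ⟨g, a, h1, h2⟩ := P2_all μ hd hB hT hW hH hTg hT4 hD s he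
  have h3 : ∀ t ∈ s.powerset.erase ∅, ∃ c, Tendsto (fun z =>
      z.1 ^ (2 * (s.card + 2)) * ee μ L z (ct L s t D w)) FB (𝓝 c) := by
    intro t ht
    rw [Finset.mem_erase, Finset.mem_powerset] at ht
    exact ct_lim2 μ hd hB hT hW hH hTg hT4 h hD ht.2 he ht.1
  choose! c hc using h3
  refine ⟨g, a + ∑ t ∈ s.powerset.erase ∅, c t, h1, ?_⟩
  refine (h2.add (tendsto_finsetSum _ hc)).congr fun z => ?_
  rw [ee_cp μ h, ← Finset.mul_sum]
  unfold ev
  have e : z.1 ^ (2 * (s.card + 2)) = z.1 ^ 4 * z.1 ^ (2 * s.card) := by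
    rw [← pow_add]; congr 1; ring
  rw [e]
  ring

/-- **Odd products of legs, at most two of which are not differentiated four times.** -/
theorem cp_odd (hT4 : Tg4 L) (h : Cl L D w) {b : Finset ι}
    (hD : ∀ i, i ∉ b → 4 ≤ (D i).2.length) (s : Finset ι) (hs : (s ∩ b).card ≤ 2)
    (hn : Nonempty (Fin d × Fin n)) (ho : Odd s.card) : ∃ a : ℝ,
      Tendsto (fun z => z.1 ^ (2 * s.card + 2) * ee μ L z (cp s w)) FB (𝓝 a) := by
  obtain ⟨⟨i₀, a₀⟩⟩ := hn
  obtain ⟨D', hD'⟩ : ∃ D' : ι → Lg d n, D' = fun i => if i ∈ b then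
    (((i₀, i₀), 0, a₀), [i₀, i₀, i₀, i₀]) else D i := ⟨_, rfl⟩
  have hD4 : ∀ i, 4 ≤ (D' i).2.length := by
    intro i
    rw [hD']
    by_cases hi : i ∈ b
    · simp only [if_pos hi]; simp
    · simp only [if_neg hi]; exact hD i hi
  have hc := Finset.card_sdiff_add_card_inter s b
  obtain ⟨g, h1⟩ := od_pl μ hd hB hT hW hH hTg hT4 hD4 (s \ b) (q := (s ∩ b).card) hs
    (by rw [add_comm, hc]; exact ho) (pv_mem (L := L) (s ∩ b) D)
  rw [add_comm (s ∩ b).card, hc] at h1
  have h2 : ∀ u : Zp d → Fin d → G, pv L (s ∩ b) D u * pv L (s \ b) D' u = pv L s D u := by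
    intro u
    unfold pv
    have e1 : ∏ i ∈ s \ b, lv L (D' i) u = ∏ i ∈ s \ b, lv L (D i) u :=
      Finset.prod_congr rfl fun i hi => by
        rw [hD']
        simp only [if_neg (Finset.mem_sdiff.1 hi).2]
    rw [e1, Finset.prod_inter_mul_prod_sdiff]
  simp only [h2] at h1
  have h3 : ∀ t ∈ s.powerset.erase ∅, ∃ c, Tendsto (fun z =>
      z.1 ^ (2 * (s.card + 1)) * ee μ L z (ct L s t D w)) FB (𝓝 c) := by
    intro t ht
    rw [Finset.mem_erase, Finset.mem_powerset] at ht
    exact ct_lim μ hd hB hT hW hH hTg h ht.2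
      (Finset.card_pos.2 (Finset.nonempty_iff_ne_empty.2 ht.1))
  choose! c hc using h3
  refine ⟨g + ∑ t ∈ s.powerset.erase ∅, c t, ?_⟩
  refine (h1.add (tendsto_finsetSum _ hc)).congr fun z => ?_
  rw [ee_cp μ h, ← Finset.mul_sum]
  simp only [mul_add, mul_one]

end fam

end

end Pool.Agent.Y16.YM
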