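import Mathlib
import Pool.Agent.Y16.NL.Pr4
import Pool.Agent.Y16.NL.Ga

/-!
# Gauge invariant products of parallel transported covariant derivatives of field strengths
-/

open MeasureTheory Matrix Filter
open scoped Matrix.Norms.Frobenius Topology
open Pool.Agent.H906R3.YM Pool.Agent.W793.YM Pool.Agent.TH940.YM
open Pool.Agent.W793.SCH (haf Near pk gK DD mx el TK S_B1 S_B2 S_TR S_W1 S_HAF green plaq_moment2)

namespace Pool.Agent.Y16.YM

set_option linter.unusedSectionVars false
set_option linter.unusedVariables false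
set_option maxHeartbeats 400000

noncomputable section

section paths

variable {G : Type} [Group G] {d : ℕ}

/-- the product of the link variables along a path -/
def pth (u : Zp d → Fin d → G) : List (Fin d × Bool) → Zp d → G
  | [], _ => 1
  | (i, true) :: Γ, y => u y i * pth u Γ (y + ez i)
  | (i, false) :: Γ, y => (u (y - ez i) i)⁻¹ * pth u Γ (y - ez i)

/-- the end point of a path -/
def pend : List (Fin d × Bool) → Zp d → Zp d
  | [], y => y
  | (i, true) :: Γ, y => pend Γ (y + ez i)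
  | (i, false) :: Γ, y => pend Γ (y - ez i)

lemma pth_gauge (γ : Zp d → G) (u : Zp d → Fin d → G) (Γ : List (Fin d × Bool)) : ∀ y,
    pth (fun x i => γ x * u x i * (γ (x + ez i))⁻¹) Γ y =
      γ y * pth u Γ y * (γ (pend Γ y))⁻¹ := by
  induction Γ with
  | nil => intro y; simp [pth, pend]
  | cons s Γ ih =>
    intro y
    rcases s with ⟨i, _ | _⟩
    · show (γ (y - ez i) * u (y - ez i) i * (γ (y - ez i + ez i))⁻¹)⁻¹ *
        pth (fun x i => γ x * u x i * (γ (x + ez i))⁻¹) Γ (y - ez i) =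
        γ y * ((u (y - ez i) i)⁻¹ * pth u Γ (y - ez i)) * (γ (pend Γ (y - ez i)))⁻¹
      rw [ih, sub_add_cancel]
      group
    · show γ y * u y i * (γ (y + ez i))⁻¹ *
        pth (fun x i => γ x * u x i * (γ (x + ez i))⁻¹) Γ (y + ez i) =
        γ y * (u y i * pth u Γ (y + ez i)) * (γ (pend Γ (y + ez i)))⁻¹
      rw [ih]
      group

end paths

variable {G : Type} [Group G] [TopologicalSpace G] [IsTopologicalGroup G] [CompactSpace G]
  [SecondCountableTopology G] [MeasurableSpace G] [BorelSpace G] (μ : Measure G)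
  [IsProbabilityMeasure μ] [μ.IsMulLeftInvariant] [μ.IsMulRightInvariant] [μ.IsInvInvariant]
  {N n : ℕ} {L : LD G N n} {d : ℕ}

lemma pth_cont {X : Type*} [TopologicalSpace X] {w : X → Zp d → Fin d → G}
    (hw : ∀ x i, Continuous fun u => w u x i) (Γ : List (Fin d × Bool)) : ∀ y,
    Continuous fun u => pth (w u) Γ y := by
  induction Γ with
  | nil => intro y; exact continuous_const
  | cons s Γ ih =>
    intro y
    rcases s with ⟨i, _ | _⟩
    · exact (hw _ _).inv.mul (ih _)
    · exact (hw _ _).mul (ih _)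

lemma EW_pth (hT : Tg4 L) (Γ : List (Fin d × Bool)) : ∀ y : Zp d,
    EW L (fun u => pth (Vz u) Γ y) := by
  induction Γ with
  | nil => intro y; exact EW_one
  | cons s Γ ih =>
    intro y
    rcases s with ⟨i, _ | _⟩
    · exact (EW_Vz hT (y - ez i) i).inv.mul (ih (y - ez i))
    · exact (EW_Vz hT y i).mul (ih (y + ez i))

/-- a parallel transported covariant derivative of the field strength -/
def cx (L : LD G N n) (u : Zp d → Fin d → G) (p : Fin d × Fin d) (J : List (Fin d))
    (Γ : List (Fin d × Bool)) (y : Zp d) : Fin n → ℝ :=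
  rot L (pth u Γ y) (cv L u p J (pend Γ y))

lemma cx_gauge (γ : Zp d → G) (u : Zp d → Fin d → G) (p : Fin d × Fin d) (J : List (Fin d))
    (Γ : List (Fin d × Bool)) (y : Zp d) :
    cx L (fun x i => γ x * u x i * (γ (x + ez i))⁻¹) p J Γ y =
      rot L (γ y) (cx L u p J Γ y) := by
  unfold cx
  rw [cv_gauge, pth_gauge, ← rot_mul, ← rot_mul, inv_mul_cancel_right]

lemma cx_cont {w : (Zp d → Fin d → G) → Zp d → Fin d → G}
    (hw : ∀ x i, Continuous fun u => w u x i) (p : Fin d × Fin d) (J : List (Fin d))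
    (Γ : List (Fin d × Bool)) (y : Zp d) (a : Fin n) :
    Continuous fun u : Zp d → Fin d → G => cx L (w u) p J Γ y a := by
  have h : Continuous fun u : Zp d → Fin d → G => ∑ b, L.adm (pth (w u) Γ y) a b *
      cv L (w u) p J (pend Γ y) b :=
    continuous_finsetSum _ fun b _ => ((adm_cont (L := L) b a).comp (pth_cont hw Γ y)).mul
      (cv_cont' p J (pend Γ y) b hw)
  exact h

lemma cx_Ex (hT : Tg4 L) (p : Fin d × Fin d) (J : List (Fin d)) (Γ : List (Fin d × Bool))
    (y : Zp d) (a : Fin n) : Ex L 2 4 (fun u : Zp d → Fin d → G =>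
      cx L (Vz u) p J Γ y a - lv L ((p, pend Γ y, a), J) u) := by
  have h1 : ∀ b, Ex L 1 4 (fun u : Zp d → Fin d → G => cw L ((p, pend Γ y, b), J) u) := by
    intro b
    have h2 := ((cw_sub_lv hT p J (pend Γ y) b).mono_left (by norm_num : 1 ≤ 2)).add
      (lv_Ex (L := L) ((p, pend Γ y, b), J) (m := 4))
    exact Ex_congr (fun u => by ring) h2
  have h3 : Ex L 2 4 (fun u : Zp d → Fin d → G => ∑ b,
      (L.adm (pth (Vz u) Γ y) a b - (if a = b then 1 else 0)) * cw L ((p, pend Γ y, b), J) u) := by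
    refine Ex.sum _ fun b _ => ?_
    exact Ex.mul (k := 1) (k' := 1) (s := 2) (((EW_pth hT Γ y).adm a b).mono_right (by norm_num))
      ((h1 b).mono_right (by norm_num))
  refine Ex_congr (fun u => ?_) (h3.add (cw_sub_lv hT p J (pend Γ y) a))
  have h7 := rot_sub_id (L := L) (pth (Vz u) Γ y) (cv L (Vz u) p J (pend Γ y)) a
  have h8 : ∀ b, cv L (Vz u) p J (pend Γ y) b = cw L ((p, pend Γ y, b), J) u := fun b => rfl
  simp only [h8] at h7
  rw [← h7]
  unfold cx
  ring

/-- the data of a gauge invariant product -/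
structure Pd (d k : ℕ) where
  y : Fin k → Zp d
  Γ : Fin k → List (Fin d × Bool)
  J : Fin k → List (Fin d)
  p : Fin k → Fin d × Fin d

variable {k : ℕ}

/-- the observable -/
def go (L : LD G N n) (P : Pd d k) (T : (Fin k → Fin n) → ℝ) (u : Zp d → Fin d → G) : ℝ :=
  tn T fun i => cx L u (P.p i) (P.J i) (P.Γ i) (P.y i)

/-- gauge invariant tensors -/
def GI (L : LD G N n) (P : Pd d k) (T : (Fin k → Fin n) → ℝ) : Prop :=
  ∀ (γ : Zp d → G) (A : Fin k → Fin n → ℝ), tn T (fun i => rot L (γ (P.y i)) (A i)) = tn T A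

lemma go_gauge {P : Pd d k} {T : (Fin k → Fin n) → ℝ} (hT : GI L P T) (γ : Zp d → G)
    (u : Zp d → Fin d → G) :
    go L P T (fun x i => γ x * u x i * (γ (x + ez i))⁻¹) = go L P T u := by
  unfold go
  simp only [cx_gauge]
  exact hT γ _

/-- the legs -/
def lgs (P : Pd d k) (c : Fin k → Fin n) (i : Fin k) : Lg d n :=
  ((P.p i, pend (P.Γ i) (P.y i), c i), P.J i)

/-- the transported legs -/
def wg (L : LD G N n) (P : Pd d k) (c : Fin k → Fin n) (i : Fin k) (u : Zp d → Fin d → G) : ℝ :=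
  cx L (Vz u) (P.p i) (P.J i) (P.Γ i) (P.y i) (c i)

lemma wg_Cl (hT4 : Tg4 L) (P : Pd d k) (c : Fin k → Fin n) : Cl L (lgs P c) (wg L P c) where
  cont i := cx_cont (w := fun u => Vz u) (fun x i => Vz_cont x i) _ _ _ _ _
  ex i := cx_Ex hT4 _ _ _ _ _

lemma go_eq {P : Pd d k} {T : (Fin k → Fin n) → ℝ} (hT : GI L P T) (u : Zp d → Fin d → G) :
    go L P T u = ∑ c, T c * cp Finset.univ (wg L P c) u := by
  rw [← go_gauge hT (Pz u) u]
  rfl

lemma ee_go {P : Pd d k} {T : (Fin k → Fin n) → ℝ} (hT : GI L P T) (hT4 : Tg4 L) (z : ℝ × ℕ) :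
    ee μ L z (go L P T) = ∑ c, T c * ee μ L z (cp Finset.univ (wg L P c)) := by
  have h1 : (go L P T : (Zp d → Fin d → G) → ℝ) = fun u =>
      ∑ c, T c * cp Finset.univ (wg L P c) u := funext fun u => go_eq hT u
  have hc : ∀ c, Continuous (cp Finset.univ (wg L P c)) := fun c =>
    continuous_finsetProd _ fun i _ => (wg_Cl hT4 P c).cont i
  have hc' : ∀ c, Continuous fun u => T c * cp Finset.univ (wg L P c) u := fun c =>
    continuous_const.mul (hc c)
  rw [h1, ee_sum' μ z _ fun c _ => hc' c]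
  exact Finset.sum_congr rfl fun c _ => ee_smul μ _ _

section fam

variable (hd : 3 ≤ d) (hB : S_B2) (hT : S_TR) (hW : S_W1) (hH : S_HAF) {CT : ℝ} (hTg : Tg L CT)

include hd hB hT hW hH hTg

/-- **The expansion of even gauge invariant products.** -/
theorem go_even (hT4 : Tg4 L) {P : Pd d k} {T : (Fin k → Fin n) → ℝ} (hG : GI L P T)
    (hp : ∀ i, (P.p i).1 ≠ (P.p i).2) (hJ : ∀ i, 4 ≤ (P.J i).length) (he : Even k) :
    ∃ a : ℝ, Tendsto (fun z => z.1 ^ 4 * (z.1 ^ (2 * k) * ee μ L z (go L P T) -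
      ∑ c, T c * haf (AC (green d) P.J P.p (fun i => pend (P.Γ i) (P.y i)) c)
        (List.finRange k))) FB (𝓝 a) := by
  have h1 := fun c : Fin k → Fin n => cp_even μ hd hB hT hW hH hTg hT4 (wg_Cl hT4 P c)
    (fun i => hJ i) Finset.univ (by rw [Finset.card_univ, Fintype.card_fin]; exact he)
  simp only [Finset.card_univ, Fintype.card_fin] at h1
  choose g a h1 h2 using h1
  have hGc : ∀ (h : G) (A : Fin k → Fin n → ℝ), tn T (fun i => rot L h (A i)) = tn T A :=
    fun h A => hG (fun _ => h) A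
  have h3 := tn_limJ μ hd hB hT hW hH P.p hp T hGc _ P.J (fun i => pend (P.Γ i) (P.y i)) rfl
  have h4 : Tendsto (fun z => z.1 ^ (2 * k) * ee μ L z (fun u => tn T fun i a =>
      dF (P.J i) (fun y => fF L (P.p i).1 (P.p i).2 y u a) (pend (P.Γ i) (P.y i)))) FB
      (𝓝 (∑ c, T c * g c)) := by
    refine (tendsto_finsetSum Finset.univ fun c _ => (h1 c).const_mul (T c)).congr fun z => ?_
    have e : (fun u : Zp d → Fin d → G => tn T fun i a =>
        dF (P.J i) (fun y => fF L (P.p i).1 (P.p i).2 y u a) (pend (P.Γ i) (P.y i))) =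
        fun u => ∑ c, T c * pv L Finset.univ (lgs P c) u := rfl
    have hc' : ∀ c, Continuous fun u : Zp d → Fin d → G =>
        T c * pv L Finset.univ (lgs P c) u := fun c => continuous_const.mul (pv_cont _ _)
    rw [e, ee_sum' μ z _ fun c _ => hc' c, Finset.mul_sum]
    refine Finset.sum_congr rfl fun c _ => ?_
    rw [ee_smul]
    ring
  have h5 := tendsto_nhds_unique h3 h4
  refine ⟨∑ c, T c * a c, ?_⟩
  rw [h5]
  refine (tendsto_finsetSum Finset.univ fun c _ => (h2 c).const_mul (T c)).congr fun z => ?_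
  rw [ee_go μ hG hT4, Finset.mul_sum, ← Finset.sum_sub_distrib, Finset.mul_sum]
  exact Finset.sum_congr rfl fun c _ => by ring

/-- **The expansion of odd gauge invariant products.** -/
theorem go_odd (hT4 : Tg4 L) {P : Pd d k} {T : (Fin k → Fin n) → ℝ} (hG : GI L P T)
    (hJ : (Finset.univ.filter fun i => (P.J i).length < 4).card ≤ 2) (ho : Odd k) :
    ∃ a : ℝ, Tendsto (fun z => z.1 ^ (2 * k + 2) * ee μ L z (go L P T)) FB (𝓝 a) := by
  by_cases hn : Nonempty (Fin d × Fin n)
  · have h1 := fun c : Fin k → Fin n => cp_odd μ hd hB hT hW hH hTg hT4 (wg_Cl hT4 P c)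
      (b := Finset.univ.filter fun i => (P.J i).length < 4)
      (fun i hi => by
        rw [Finset.mem_filter, not_and] at hi
        exact not_lt.1 (hi (Finset.mem_univ i))) Finset.univ
      (by rw [Finset.univ_inter]; exact hJ) hn
      (by rw [Finset.card_univ, Fintype.card_fin]; exact ho)
    simp only [Finset.card_univ, Fintype.card_fin] at h1
    choose a h1 using h1
    refine ⟨∑ c, T c * a c, ?_⟩
    refine (tendsto_finsetSum Finset.univ fun c _ => (h1 c).const_mul (T c)).congr fun z => ?_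
    rw [ee_go μ hG hT4, Finset.mul_sum]
    exact Finset.sum_congr rfl fun c _ => by ring
  · have hk : 0 < k := ho.pos
    have hc : IsEmpty (Fin k → Fin n) := by
      refine ⟨fun c => hn ⟨(⟨0, by omega⟩, c ⟨0, hk⟩)⟩⟩
    refine ⟨0, ?_⟩
    have e : ∀ z : ℝ × ℕ, z.1 ^ (2 * k + 2) * ee μ L z (go L P T) = 0 := by
      intro z
      rw [ee_go μ hG hT4, Finset.univ_eq_empty, Finset.sum_empty, mul_zero]
    simp only [e]
    exact tendsto_const_nhds

end fam

end

end Pool.Agent.Y16.YM
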