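import Mathlib
import Pool.Agent.Y274.YMTan

set_option autoImplicit false

/-! Closed subgroups of `U(N)`: the group is the graph of a smooth function over its Lie algebra,
expanded up to the third order. -/

open Matrix Filter Topology
open scoped Matrix.Norms.Frobenius

namespace Pool.Agent.Y16.NL

open Pool.Agent.Y274.YMTan

variable {N n : ℕ}

section Banach

variable {A : Type*} [NormedRing A] [NormedAlgebra ℝ A] [CompleteSpace A]

theorem exp_four :
    (fun x : A => NormedSpace.exp x - (1 + x + (1 / 2 : ℝ) • (x * x) +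
      (1 / 6 : ℝ) • (x * (x * x)))) =O[𝓝 0] fun x => ‖x‖ ^ 4 := by
  have h := (NormedSpace.exp_hasFPowerSeriesAt_zero (𝕂 := ℝ) (𝔸 := A)).isBigO_sub_partialSum_pow 4
  refine h.congr_left fun x => ?_
  simp only [zero_add, FormalMultilinearSeries.partialSum, Finset.sum_range_succ,
    Finset.sum_range_zero, NormedSpace.expSeries_apply_eq, Nat.factorial]
  congr 1
  simp only [pow_zero, pow_succ, Nat.cast_one, inv_one, one_smul, one_mul]
  norm_num
  rw [mul_assoc]

end Banach

variable {G : Subgroup (Matrix.unitaryGroup (Fin N) ℂ)}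

theorem P_sq (X : Fin n → Mt N) (hX : ∀ a, (X a)ᴴ = -X a) {Y : Mt N} (hY : Yᴴ = -Y) :
    P X (Y * Y) = 0 := by
  rw [P_apply]
  refine Finset.sum_eq_zero fun a _ => ?_
  have h1 : trace ((X a)ᴴ * (Y * Y)) = -star (trace ((X a)ᴴ * (Y * Y))) := by
    rw [← trace_conjTranspose, conjTranspose_mul, conjTranspose_mul, conjTranspose_conjTranspose,
      hY, hX, neg_mul_neg, neg_mul, trace_neg, trace_mul_comm (Y * Y)]
  have h2 : (trace ((X a)ᴴ * (Y * Y))).re = 0 := by
    have := congrArg Complex.re h1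
    rw [Complex.neg_re] at this
    have h3 : (star (trace ((X a)ᴴ * (Y * Y)))).re = (trace ((X a)ᴴ * (Y * Y))).re :=
      Complex.conj_re _
    rw [h3] at this
    linarith
  rw [h2, zero_smul]

theorem span_skew (X : Fin n → Mt N) (hX : ∀ a, (X a)ᴴ = -X a) (M : Mt N) :
    (P X M)ᴴ = -P X M := by
  rw [P_apply, conjTranspose_sum, ← Finset.sum_neg_distrib]
  refine Finset.sum_congr rfl fun a _ => ?_
  rw [conjTranspose_smul, hX, smul_neg]
  simp

theorem tangent4 (G : Subgroup (Matrix.unitaryGroup (Fin N) ℂ))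
    (hG : IsClosed (G : Set (Matrix.unitaryGroup (Fin N) ℂ)))
    (X : Fin n → Mt N)
    (orth : ∀ a b, (trace ((X a)ᴴ * X b)).re = if a = b then 1 else 0)
    (ex : ∀ (a : Fin n) (t : ℝ), ∃ g : G,
      ((g : unitaryGroup (Fin N) ℂ) : Matrix (Fin N) (Fin N) ℂ) = NormedSpace.exp (t • X a))
    (full : ∀ Y : Matrix (Fin N) (Fin N) ℂ, (∀ t : ℝ, ∃ g : G,
      ((g : unitaryGroup (Fin N) ℂ) : Matrix (Fin N) (Fin N) ℂ) = NormedSpace.exp (t • Y)) →
      Y ∈ Submodule.span ℝ (Set.range X)) :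
    ∃ C : ℝ, 0 < C ∧ ∀ g : G, ∀ W Y : Mt N,
      W = ((g : unitaryGroup (Fin N) ℂ) : Matrix (Fin N) (Fin N) ℂ) - 1 → Y = P X W →
      ‖W - Y - (1 / 2 : ℝ) • (Y * Y) - (1 / 6 : ℝ) • (Y * (Y * Y) - P X (Y * (Y * Y)))‖ ≤
        C * ‖W‖ ^ 4 := by
  have hexS : ∀ a (t : ℝ), NormedSpace.exp (t • X a) ∈ S G := ex
  have hsk : ∀ a, (X a)ᴴ = -X a := fun a => skew (X a) (hexS a)
  have hPone : P X 1 = 0 := by
    rw [P_apply]
    refine Finset.sum_eq_zero fun a _ => ?_
    have h1 := hsk a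
    have h2 : (trace ((X a)ᴴ * 1)).re = 0 := by
      rw [mul_one]
      have h3 : (trace (X a)ᴴ).re = (trace (X a)).re := by
        rw [trace_conjTranspose]; simp
      have h4 : (trace (X a)ᴴ).re = -(trace (X a)).re := by
        rw [h1, trace_neg, Complex.neg_re]
      linarith
    rw [h2, zero_smul]
  have hPc : Continuous (P X) := LinearMap.continuous_of_finiteDimensional _
  obtain ⟨CP, hCP0, hCP⟩ : ∃ C : ℝ, 0 < C ∧ ∀ M : Mt N, ‖P X M‖ ≤ C * ‖M‖ :=
    SemilinearMapClass.bound_of_continuous (P X) hPc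
  have hPP : ∀ M, P X (P X M) = P X M := fun M => P_span X orth _ (P_mem X M)
  obtain ⟨C0, hC0, htan⟩ := tangent G hG X orth ex full
  have htan' : ∀ W : Mt N, 1 + W ∈ S G → ‖W - P X W‖ ≤ C0 * ‖W‖ ^ 2 := by
    rintro W ⟨g, hg⟩
    have h1 := htan g
    rw [hg, ← P_apply, map_add, hPone, zero_add, add_sub_cancel_left] at h1
    exact h1
  -- the filter
  obtain ⟨l, hl⟩ : ∃ l, l = 𝓝 (0 : Mt N) ⊓ 𝓟 {W | 1 + W ∈ S G} := ⟨_, rfl⟩
  have hl0 : Tendsto (fun W : Mt N => W) l (𝓝 0) := by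
    rw [hl]; exact inf_le_left
  have hlS : ∀ᶠ W in l, 1 + W ∈ S G := by
    rw [hl]; exact eventually_inf_principal.2 (Eventually.of_forall fun W h => h)
  have oP : ∀ {F : Mt N → Mt N} {k : ℕ}, F =O[l] (fun W => ‖W‖ ^ k) →
      (fun W => P X (F W)) =O[l] fun W => ‖W‖ ^ k := by
    intro F k hF
    have h1 : (fun W => P X (F W)) =O[l] F :=
      Asymptotics.IsBigO.of_bound CP (Eventually.of_forall fun W => hCP _)
    exact h1.trans hF
  have oM : ∀ {F H : Mt N → Mt N} {k m : ℕ}, F =O[l] (fun W => ‖W‖ ^ k) →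
      H =O[l] (fun W => ‖W‖ ^ m) → (fun W => F W * H W) =O[l] fun W => ‖W‖ ^ (k + m) := by
    intro F H k m hF hH
    have := hF.mul hH
    simpa only [← pow_add] using this
  have oS : ∀ {F : Mt N → Mt N} {k : ℕ} (c : ℝ), F =O[l] (fun W => ‖W‖ ^ k) →
      (fun W => c • F W) =O[l] fun W => ‖W‖ ^ k := by
    intro F k c hF
    have h1 : (fun W => c • F W) =O[l] F :=
      Asymptotics.IsBigO.of_bound ‖c‖ (Eventually.of_forall fun W => by rw [norm_smul])
    exact h1.trans hF
  have nW0 : Tendsto (fun W : Mt N => ‖W‖) l (𝓝 0) := by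
    have := hl0.norm
    rwa [norm_zero] at this
  have omono : ∀ {F : Mt N → Mt N} {k m : ℕ}, k ≤ m → F =O[l] (fun W => ‖W‖ ^ m) →
      F =O[l] (fun W => ‖W‖ ^ k) := by
    intro F k m hkm hF
    refine hF.trans ?_
    refine Asymptotics.IsBigO.of_bound 1 ?_
    have h1 : ∀ᶠ W in l, ‖W‖ ≤ 1 := nW0.eventually (eventually_le_nhds one_pos)
    filter_upwards [h1] with W hW
    rw [one_mul, norm_pow, norm_pow, norm_norm]
    exact pow_le_pow_of_le_one (norm_nonneg _) hW hkm
  have oW : (fun W : Mt N => W) =O[l] fun W => ‖W‖ ^ 1 := by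
    simp only [pow_one]
    exact (Asymptotics.isBigO_refl _ _).norm_right
  have oY : (fun W : Mt N => P X W) =O[l] fun W => ‖W‖ ^ 1 := oP oW
  have oV : (fun W : Mt N => W - P X W) =O[l] fun W => ‖W‖ ^ 2 := by
    refine Asymptotics.IsBigO.of_bound C0 ?_
    filter_upwards [hlS] with W hW
    rw [norm_pow, norm_norm]
    exact htan' W hW
  obtain ⟨E, hE⟩ : ∃ E : Mt N → Mt N, E = fun W => NormedSpace.exp (-(P X W)) -
      (1 + -(P X W) + (1 / 2 : ℝ) • (-(P X W) * -(P X W)) +
      (1 / 6 : ℝ) • (-(P X W) * (-(P X W) * -(P X W)))) := ⟨_, rfl⟩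
  have oE : E =O[l] fun W => ‖W‖ ^ 4 := by
    have hY0 : Tendsto (fun W : Mt N => -(P X W)) l (𝓝 0) := by
      have h1 : Tendsto (fun W : Mt N => P X W) l (𝓝 0) := by
        have := (hPc.tendsto 0).comp hl0
        rwa [map_zero] at this
      have := h1.neg
      rwa [neg_zero] at this
    have h2 := (exp_four (A := Mt N)).comp_tendsto hY0
    rw [hE]
    refine h2.trans ?_
    have h3 : (fun W : Mt N => -(P X W)) =O[l] fun W => ‖W‖ ^ 1 := oY.neg_left
    have h4 := (h3.norm_left).pow 4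
    refine h4.congr_right fun W => ?_
    rw [pow_one]
  -- the corrected elements
  obtain ⟨R, hR⟩ : ∃ R : Mt N → Mt N, R = fun W => (1 / 2 : ℝ) • (P X W * (P X W * (W - P X W))) -
      (1 / 6 : ℝ) • (P X W * (P X W * (P X W * W))) + (E W + E W * W) := ⟨_, rfl⟩
  have oR : R =O[l] fun W => ‖W‖ ^ 4 := by
    rw [hR]
    refine Asymptotics.IsBigO.add (Asymptotics.IsBigO.sub ?_ ?_) (oE.add ?_)
    · exact oS _ (oM oY (oM oY oV))
    · exact oS _ (oM oY (oM oY (oM oY oW)))
    · exact omono (by norm_num) (oM oE oW)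
  obtain ⟨H, hH⟩ : ∃ H : Mt N → Mt N, H = fun W => NormedSpace.exp (-(P X W)) * (1 + W) - 1 :=
    ⟨_, rfl⟩
  have hHe : ∀ W, H W = (W - P X W) - (1 / 2 : ℝ) • (P X W * P X W) - P X W * (W - P X W) +
      (1 / 3 : ℝ) • (P X W * (P X W * P X W)) + R W := by
    intro W
    have e1 : NormedSpace.exp (-(P X W)) = E W + (1 + -(P X W) + (1 / 2 : ℝ) •
        (-(P X W) * -(P X W)) + (1 / 6 : ℝ) • (-(P X W) * (-(P X W) * -(P X W)))) := by
      rw [hE]; simp
    rw [hH, hR]
    beta_reduce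
    rw [e1]
    generalize P X W = Y
    generalize E W = e
    simp only [mul_add, add_mul, sub_mul, mul_sub, smul_mul_assoc, mul_smul_comm, one_mul, mul_one,
      mul_assoc, neg_mul, mul_neg, neg_neg, smul_add, smul_sub, smul_neg]
    module
  have oH : H =O[l] fun W => ‖W‖ ^ 2 := by
    have : H = fun W => (W - P X W) - (1 / 2 : ℝ) • (P X W * P X W) - P X W * (W - P X W) +
      (1 / 3 : ℝ) • (P X W * (P X W * P X W)) + R W := funext hHe
    rw [this]
    refine Asymptotics.IsBigO.add (Asymptotics.IsBigO.add (Asymptotics.IsBigO.sub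
      (Asymptotics.IsBigO.sub oV ?_) ?_) ?_) (omono (k := 2) (m := 4) (by norm_num) oR)
    · exact oS _ (oM oY oY)
    · exact omono (by norm_num) (oM oY oV)
    · exact omono (k := 2) (by norm_num) (oS _ (oM oY (oM oY oY)))
  have hHS : ∀ᶠ W in l, 1 + H W ∈ S G := by
    filter_upwards [hlS] with W hW
    rw [hH]
    beta_reduce
    rw [add_sub_cancel]
    refine S_mul ?_ hW
    have := lie_span hG X hexS _ (P_mem X W) (-1)
    rwa [neg_smul, one_smul] at this
  have oQH : (fun W => H W - P X (H W)) =O[l] fun W => ‖W‖ ^ 4 := by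
    have h1 : (fun W => H W - P X (H W)) =O[l] fun W => ‖H W‖ ^ 2 := by
      refine Asymptotics.IsBigO.of_bound C0 ?_
      filter_upwards [hHS] with W hW
      rw [norm_pow, norm_norm]
      exact htan' _ hW
    have h2 := oH.norm_left.pow 2
    refine h1.trans (h2.congr_right fun W => ?_)
    rw [← pow_mul]
  have hPYY : ∀ W, P X (P X W * P X W) = 0 := fun W => P_sq X hsk (span_skew X hsk W)
  have hPV : ∀ W, P X (W - P X W) = 0 := fun W => by rw [map_sub, hPP, sub_self]
  -- the second order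
  have hQ : ∀ W, H W - P X (H W) = (W - P X W) - (1 / 2 : ℝ) • (P X W * P X W) -
      (P X W * (W - P X W) - P X (P X W * (W - P X W))) +
      (1 / 3 : ℝ) • (P X W * (P X W * P X W) - P X (P X W * (P X W * P X W))) +
      (R W - P X (R W)) := by
    intro W
    have h1 : P X (H W) = -P X (P X W * (W - P X W)) +
        (1 / 3 : ℝ) • P X (P X W * (P X W * P X W)) + P X (R W) := by
      rw [hHe W, map_add, map_add, map_sub, map_sub, map_smul, map_smul, hPYY, hPV]
      simp
    rw [h1, hHe W, smul_sub]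
    abel
  have oQ : ∀ {F : Mt N → Mt N} {k : ℕ}, F =O[l] (fun W => ‖W‖ ^ k) →
      (fun W => F W - P X (F W)) =O[l] fun W => ‖W‖ ^ k := fun hF => hF.sub (oP hF)
  have oV3 : (fun W => (W - P X W) - (1 / 2 : ℝ) • (P X W * P X W)) =O[l] fun W => ‖W‖ ^ 3 := by
    have h1 : (fun W => (W - P X W) - (1 / 2 : ℝ) • (P X W * P X W)) = fun W =>
        (H W - P X (H W)) + (P X W * (W - P X W) - P X (P X W * (W - P X W))) -
        (1 / 3 : ℝ) • (P X W * (P X W * P X W) - P X (P X W * (P X W * P X W))) -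
        (R W - P X (R W)) := by
      funext W
      rw [hQ W]
      abel
    rw [h1]
    refine Asymptotics.IsBigO.sub (Asymptotics.IsBigO.sub (Asymptotics.IsBigO.add
      (omono (k := 3) (m := 4) (by norm_num) oQH) ?_) ?_)
      (omono (k := 3) (m := 4) (by norm_num) (oQ oR))
    · exact oQ (oM oY oV)
    · exact oS _ (oQ (oM oY (oM oY oY)))
  have oF : (fun W => W - P X W - (1 / 2 : ℝ) • (P X W * P X W) -
      (1 / 6 : ℝ) • (P X W * (P X W * P X W) - P X (P X W * (P X W * P X W)))) =O[l]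
      fun W => ‖W‖ ^ 4 := by
    have h1 : (fun W => W - P X W - (1 / 2 : ℝ) • (P X W * P X W) -
      (1 / 6 : ℝ) • (P X W * (P X W * P X W) - P X (P X W * (P X W * P X W)))) = fun W =>
        (H W - P X (H W)) +
        (P X W * ((W - P X W) - (1 / 2 : ℝ) • (P X W * P X W)) -
          P X (P X W * ((W - P X W) - (1 / 2 : ℝ) • (P X W * P X W)))) -
        (R W - P X (R W)) := by
      funext W
      rw [hQ W]
      have e1 : P X W * ((W - P X W) - (1 / 2 : ℝ) • (P X W * P X W)) =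
          P X W * (W - P X W) - (1 / 2 : ℝ) • (P X W * (P X W * P X W)) := by
        rw [mul_sub (P X W) (W - P X W), mul_smul_comm]
      rw [e1, map_sub, map_smul]
      module
    rw [h1]
    exact (oQH.add (oQ (oM oY oV3))).sub (oQ oR)
  obtain ⟨D, hD⟩ := oF.bound
  rw [hl, eventually_inf_principal] at hD
  obtain ⟨δ, hδ, hD⟩ := Metric.eventually_nhds_iff.1 hD
  -- large elements
  obtain ⟨Cb, hCb⟩ : ∃ Cb : ℝ, Cb = (Real.sqrt N + Real.sqrt N) := ⟨_, rfl⟩
  have hnorm : ∀ g : G, ‖((g : unitaryGroup (Fin N) ℂ) : Mt N) - 1‖ ≤ Cb := by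
    intro g
    have h1 : ∀ g : unitaryGroup (Fin N) ℂ, ‖(g : Mt N)‖ = Real.sqrt N := by
      intro g
      have h2 : ‖(g : Mt N)‖ ^ 2 = N := by
        rw [Matrix.frobenius_norm_def]
        have h3 : (∑ i, ∑ j, ‖(g : Mt N) i j‖ ^ (2:ℝ)) = N := by
          have h4 : (g : Mt N) * (g : Mt N)ᴴ = 1 := mem_unitaryGroup_iff.1 g.2
          have h5 : ∀ i, ∑ j, ‖(g : Mt N) i j‖ ^ (2:ℝ) = 1 := by
            intro i
            have h6 := congrFun (congrFun h4 i) i
            rw [Matrix.mul_apply, Matrix.one_apply_eq] at h6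
            have h7 := congrArg Complex.re h6
            rw [Complex.re_sum, Complex.one_re] at h7
            rw [← h7]
            refine Finset.sum_congr rfl fun j _ => ?_
            rw [conjTranspose_apply, Real.rpow_two, Complex.sq_norm, Complex.normSq_apply]
            simp [Complex.mul_re]
          rw [Finset.sum_congr rfl fun i _ => h5 i]
          simp
        rw [h3, ← Real.sqrt_eq_rpow, Real.sq_sqrt (Nat.cast_nonneg _)]
      rw [← h2, Real.sqrt_sq (norm_nonneg _)]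
    refine (norm_sub_le _ _).trans ?_
    have h3 := h1 1
    have h4 : ((1 : unitaryGroup (Fin N) ℂ) : Mt N) = 1 := rfl
    rw [h4] at h3
    rw [h1, h3, hCb]
  have hCb0 : 0 ≤ Cb := by rw [hCb]; positivity
  have hc1 : Continuous fun W : Mt N => W - P X W - (1 / 2 : ℝ) • (P X W * P X W) -
      (1 / 6 : ℝ) • (P X W * (P X W * P X W) - P X (P X W * (P X W * P X W))) := by
    fun_prop
  have : ProperSpace (Mt N) := FiniteDimensional.proper ℝ _
  obtain ⟨K, hK⟩ := (isCompact_closedBall (0 : Mt N) Cb).exists_bound_of_continuousOn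
    hc1.continuousOn
  refine ⟨|D| + |K| / δ ^ 4 + 1, by positivity, fun g W Y hW hY => ?_⟩
  subst hY
  have hgW : 1 + W ∈ S G := ⟨g, by rw [hW]; simp⟩
  rcases lt_or_ge ‖W‖ δ with h | h
  · have h1 := hD (y := W) (by rw [dist_zero_right]; exact h) hgW
    rw [norm_pow, norm_norm] at h1
    refine h1.trans (mul_le_mul_of_nonneg_right ?_ (by positivity))
    have : 0 ≤ |K| / δ ^ 4 := by positivity
    linarith [le_abs_self D]
  · have h1 := hK W (by
      rw [mem_closedBall_zero_iff, hW]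
      exact hnorm g)
    refine h1.trans ((le_abs_self K).trans ?_)
    have h2 : |K| ≤ |K| / δ ^ 4 * ‖W‖ ^ 4 := by
      rw [div_mul_eq_mul_div, le_div_iff₀ (by positivity)]
      exact mul_le_mul_of_nonneg_left (pow_le_pow_left₀ hδ.le h 4) (abs_nonneg _)
    refine h2.trans (mul_le_mul_of_nonneg_right ?_ (by positivity))
    have : 0 ≤ |D| := abs_nonneg _
    linarith

end Pool.Agent.Y16.NL
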